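import Pool.Agent.W2helper64.BQ.Fin

set_option autoImplicit false
set_option linter.unusedSectionVars false

/-!
The asymptotic formula with a power saving, almost surely: the final form.
-/

namespace Pool.Agent.W2helper64.BQ

open Finset Filter Topology Polynomial MeasureTheory Pool.Agent.W2helper64.RS Pool.Agent.W2helper64.RK
open Pool.Agent.W2helper64.BH
open Pool.Agent.H373R2.T7 (pz nuB PerB sys_count nuB_le mem_pz)

theorem ae_exps {g : ℕ} (f : Fin g → ℤ[X]) (hd : ∀ i, 0 < (f i).natDegree)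
    (hl : ∀ i, 0 < (f i).leadingCoeff) (hinj : Function.Injective f)
    {θ : ℝ} (hθ0 : 0 < θ) (hθ1 : θ ≤ 1) (hθ : ∀ i, 2 * θ ≤ (f i).natDegree) :
    ∀ᵐ a ∂law, ∀ S : ℝ, Tendsto (fun z : ℕ => PP f a z / V z ^ g) atTop (𝓝 S) → ∀ ε : ℝ, 0 < ε →
      (fun x : ℕ => (BH.cnt f a x : ℝ) - S * HH f x) =O[atTop] fun x : ℕ => (x : ℝ) ^ (1 - θ / 2 + ε) := by
  have hm8 : ∀ m : ℕ, (0 : ℝ) < 1 / ((m : ℝ) + 8) ∧ 1 / ((m : ℝ) + 8) ≤ 1 / 8 := by
    intro m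
    have hm : (0 : ℝ) ≤ m := Nat.cast_nonneg m
    constructor
    · positivity
    · exact one_div_le_one_div_of_le (by norm_num) (by linarith)
  have h1 : ∀ᵐ a ∂law, ∀ m : ℕ, ∀ S C : ℝ, 0 ≤ C → 0 ≤ S →
      (∀ᶠ z : ℕ in atTop, |PP f a z / V z ^ g - S| ≤ C * (z : ℝ) ^ (-(1 / 2 - 1 / ((m : ℝ) + 8)))) →
      (fun x : ℕ => (BH.cnt f a x : ℝ) - S * HH f x) =O[atTop]
        fun x : ℕ => (x : ℝ) ^ (1 - θ / 2 + 2 * (1 / ((m : ℝ) + 8))) := by
    rw [ae_all_iff]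
    intro m
    obtain ⟨m1, m2⟩ := hm8 m
    exact ae_power f hd hl hinj hθ0 hθ1 hθ m1 (by linarith) (by linarith) (by linarith)
  have h2 : ∀ᵐ a ∂law, ∀ m : ℕ, ∃ S : ℝ, 0 ≤ S ∧ Tendsto (fun z : ℕ => PP f a z / V z ^ g) atTop (𝓝 S) ∧
      (0 < S ↔ ∀ p : Nat.Primes, nuB (Hit f a) (p : ℕ) < (p : ℕ)) ∧
      ∃ C : ℝ, 0 ≤ C ∧ ∀ᶠ z : ℕ in atTop, |PP f a z / V z ^ g - S| ≤ C * (z : ℝ) ^ (-(1 / 2 - 1 / ((m : ℝ) + 8))) := by
    rw [ae_all_iff]
    intro m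
    obtain ⟨m1, m2⟩ := hm8 m
    exact ae_SSE (by linarith) (by linarith) f (∑ i, (f i).natDegree + 1) (by omega) hd hl (by omega) hinj
  filter_upwards [h1, h2] with a h1 h2 S hS ε hε
  obtain ⟨m, hm⟩ := exists_nat_gt (2 / ε)
  obtain ⟨S', hS'0, hS', -, C, hC, hrate⟩ := h2 m
  have hSS : S' = S := tendsto_nhds_unique hS' hS
  subst hSS
  refine (h1 m S' C hC hS'0 hrate).trans ?_
  apply Asymptotics.IsBigO.of_bound 1
  filter_upwards [eventually_ge_atTop 1] with x hx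
  have hx1 : (1 : ℝ) ≤ x := by exact_mod_cast hx
  have hx0 : (0 : ℝ) < x := by linarith
  rw [Real.norm_eq_abs, Real.norm_eq_abs, one_mul, abs_of_pos (by positivity), abs_of_pos (by positivity)]
  apply Real.rpow_le_rpow_of_exponent_le hx1
  have : 2 * (1 / ((m : ℝ) + 8)) ≤ ε := by
    rw [mul_one_div, div_le_iff₀ (by positivity)]
    rw [div_lt_iff₀ hε] at hm
    nlinarith
  linarith

/-- the final form -/
theorem ae_final2 : ∀ᵐ a ∂law, ∀ (g : ℕ) (f : Fin g → ℤ[X]), Function.Injective f →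
    (∀ i, 0 < (f i).natDegree) → (∀ i, 0 < (f i).leadingCoeff) →
      ∃ S : ℝ, 0 ≤ S ∧ Tendsto (fun z : ℕ => PP f a z / V z ^ g) atTop (𝓝 S) ∧
        (0 < S ↔ ∀ p : Nat.Primes, nuB (Hit f a) (p : ℕ) < (p : ℕ)) ∧
        (∀ ε : ℝ, 0 < ε →
          (fun x : ℕ => (BH.cnt f a x : ℝ) - S * HH f x) =O[atTop] fun x : ℕ => (x : ℝ) ^ (3 / 4 + ε)) ∧
        ((∀ i, 2 ≤ (f i).natDegree) → ∀ ε : ℝ, 0 < ε →
          (fun x : ℕ => (BH.cnt f a x : ℝ) - S * HH f x) =O[atTop] fun x : ℕ => (x : ℝ) ^ (1 / 2 + ε)) := by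
  rw [ae_all_iff]
  intro g
  rw [ae_all_iff]
  intro f
  by_cases hf : Function.Injective f ∧ (∀ i, 0 < (f i).natDegree) ∧ (∀ i, 0 < (f i).leadingCoeff)
  swap
  · refine Eventually.of_forall fun a h1 h2 h3 => ?_
    exact absurd ⟨h1, h2, h3⟩ hf
  obtain ⟨hinj, hd, hl⟩ := hf
  have h1 := ae_exps f hd hl hinj (θ := 1 / 2) (by norm_num) (by norm_num) (fun i => by
    have : (1 : ℝ) ≤ (f i).natDegree := by exact_mod_cast hd i
    linarith)
  have h2 : ∀ᵐ a ∂law, (∀ i, 2 ≤ (f i).natDegree) →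
      ∀ S : ℝ, Tendsto (fun z : ℕ => PP f a z / V z ^ g) atTop (𝓝 S) → ∀ ε : ℝ, 0 < ε →
        (fun x : ℕ => (BH.cnt f a x : ℝ) - S * HH f x) =O[atTop] fun x : ℕ => (x : ℝ) ^ (1 - 1 / 2 + ε) := by
    by_cases h : ∀ i, 2 ≤ (f i).natDegree
    · have h3 := ae_exps f hd hl hinj (θ := 1) (by norm_num) (by norm_num) (fun i => by
        have : (2 : ℝ) ≤ (f i).natDegree := by exact_mod_cast h i
        linarith)
      filter_upwards [h3] with a h4 _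
      exact h4
    · exact Eventually.of_forall fun a h' => absurd h' h
  filter_upwards [h1, h2, ae_SS f (∑ i, (f i).natDegree + 1) (by omega) hd hl (by omega) hinj] with a h3 h4 h5 _ _ _
  obtain ⟨S, hS0, hS1, hS2, -⟩ := h5
  refine ⟨S, hS0, hS1, hS2, fun ε hε => ?_, fun hdeg ε hε => ?_⟩
  · have := h3 S hS1 ε hε
    norm_num at this
    exact this
  · have := h4 hdeg S hS1 ε hε
    norm_num at this
    exact this

end Pool.Agent.W2helper64.BQ
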