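import Pool.Agent.W2helper64.BQ.Th4
import Pool.Agent.W2helper64.BQ.Fin2

set_option autoImplicit false
set_option linter.unusedSectionVars false

/-!
The asymptotic formula with a square root error for all systems, almost surely.
-/

namespace Pool.Agent.W2helper64.BQ

open Finset Filter Topology Polynomial MeasureTheory Pool.Agent.W2helper64.RS Pool.Agent.W2helper64.RK
open Pool.Agent.W2helper64.BH
open Pool.Agent.H373R2.T7 (pz nuB PerB sys_count nuB_le mem_pz)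

/-- summation over the dyadic blocks -/
theorem dyadic_sum (G : ℕ → ℝ) {K e : ℝ} (hK0 : 0 ≤ K) (he2 : 1 / 2 ≤ e)
    (hK : ∀ᶠ j : ℕ in atTop, ∀ y : ℕ, 2 ^ j ≤ y → y ≤ 2 ^ (j + 1) →
      |G y - G (2 ^ j)| ≤ K * ((2 : ℝ) ^ j) ^ e) :
    G =O[atTop] fun x : ℕ => (x : ℝ) ^ e := by
  obtain ⟨J0, hJ0⟩ := eventually_atTop.mp hK
  set r : ℝ := (2 : ℝ) ^ e with hr
  have hr43 : 4 / 3 ≤ r := by
    have e1 : (2 : ℝ) ^ (1 / 2 : ℝ) ≤ r := Real.rpow_le_rpow_of_exponent_le (by norm_num) he2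
    have e2 : (4 / 3 : ℝ) ≤ (2 : ℝ) ^ (1 / 2 : ℝ) := by
      rw [← Real.sqrt_eq_rpow]
      apply Real.le_sqrt_of_sq_le
      norm_num
    linarith
  have hrj : ∀ j : ℕ, ((2 : ℝ) ^ j) ^ e = r ^ j := by
    intro j
    rw [hr, ← Real.rpow_natCast, ← Real.rpow_natCast, ← Real.rpow_mul (by norm_num), ← Real.rpow_mul (by norm_num)]
    congr 1; ring
  set B0 : ℝ := |G (2 ^ J0)| with hB0
  have hB00 : 0 ≤ B0 := abs_nonneg _
  have hind : ∀ J, J0 ≤ J → |G (2 ^ J)| ≤ B0 + 3 * K * r ^ J := by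
    intro J hJ
    induction J, hJ using Nat.le_induction with
    | base =>
      have : 0 ≤ 3 * K * r ^ J0 := by positivity
      linarith
    | succ J hJ ih =>
      have h1 := hJ0 J hJ (2 ^ (J + 1)) (Nat.pow_le_pow_right (by norm_num) (by omega)) le_rfl
      rw [hrj] at h1
      have h2 := abs_add_le (G (2 ^ (J + 1)) - G (2 ^ J)) (G (2 ^ J))
      rw [sub_add_cancel] at h2
      have h3 : 4 * K * r ^ J ≤ 3 * K * r ^ (J + 1) := by
        rw [pow_succ]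
        have : 0 ≤ K * r ^ J := by positivity
        nlinarith
      linarith
  apply Asymptotics.IsBigO.of_bound (B0 + 4 * K)
  filter_upwards [eventually_ge_atTop (2 ^ J0)] with x hx
  have hx1 : 1 ≤ x := Nat.one_le_two_pow.trans hx
  set J := Nat.log 2 x with hJ
  have hJ1 : 2 ^ J ≤ x := Nat.pow_log_le_self 2 (by omega)
  have hJ2 : x < 2 ^ (J + 1) := Nat.lt_pow_succ_log_self (by norm_num) x
  have hJJ : J0 ≤ J := by
    rw [hJ]
    exact Nat.le_log_of_pow_le (by norm_num) hx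
  have h1 := hJ0 J hJJ x hJ1 hJ2.le
  have h2 := hind J hJJ
  rw [hrj] at h1
  have h3 : r ^ J ≤ (x : ℝ) ^ e := by
    rw [← hrj]
    apply Real.rpow_le_rpow (by positivity) _ (by linarith)
    exact_mod_cast hJ1
  have hxe : 1 ≤ (x : ℝ) ^ e := Real.one_le_rpow (by exact_mod_cast hx1) (by linarith)
  rw [Real.norm_eq_abs, Real.norm_eq_abs, abs_of_nonneg (by linarith : 0 ≤ (x : ℝ) ^ e)]
  have h4 := abs_add_le (G x - G (2 ^ J)) (G (2 ^ J))
  rw [sub_add_cancel] at h4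
  have h5 : K * r ^ J ≤ K * (x : ℝ) ^ e := mul_le_mul_of_nonneg_left h3 hK0
  have h6 : B0 ≤ B0 * (x : ℝ) ^ e := le_mul_of_one_le_right hB00 hxe
  nlinarith

/-- the weights of one block -/
theorem ae_weights {g : ℕ} (f : Fin g → ℤ[X]) (k : ℕ) (hd : ∀ i, 0 < (f i).natDegree)
    (hl : ∀ i, 0 < (f i).leadingCoeff) (hk : ∑ i, (f i).natDegree + 2 ≤ k) (hinj : Function.Injective f)
    {ε : ℝ} (hε : 0 < ε) (hε1 : ε ≤ 1 / 4) :
    ∀ᵐ a ∂law, ∀ S C : ℝ, 0 ≤ C → 0 ≤ S → Tendsto (fun z : ℕ => PP f a z / V z ^ g) atTop (𝓝 S) →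
      (∀ᶠ z : ℕ in atTop, |PP f a z / V z ^ g - S| ≤ C * (z : ℝ) ^ (-(1 / 4) : ℝ)) →
      ∃ K : ℝ, 0 ≤ K ∧ ∀ᶠ j : ℕ in atTop, ∀ n : ℕ, 2 ^ j ≤ n → n ≤ 2 ^ (j + 1) →
        |wT f (TJ k j) (2 ^ j) a n - S * hh f n| ≤ K * ((2 : ℝ) ^ j) ^ (-(1 / 2) + ε) := by
  classical
  have hk2 : ∑ i, (f i).natDegree ≤ k := by omega
  have hki : ∀ i, (f i).natDegree ≤ k := fun i =>
    (single_le_sum (f := fun i => (f i).natDegree) (fun _ _ => Nat.zero_le _) (Finset.mem_univ i)).trans hk2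
  have hk2r : (2 : ℝ) ≤ k := by exact_mod_cast (by omega : 2 ≤ k)
  have hblk := ev_blk f k hd hl hk2 hinj (θ := 1 / 2) (by norm_num) (fun i => by
    have : (1 : ℝ) ≤ (f i).natDegree := by exact_mod_cast hd i
    linarith) (by linarith)
  -- the large thresholds
  have hbig : ∀ i, 2 ≤ (f i).natDegree → ∀ᶠ j : ℕ in atTop, ∀ n : ℕ, 2 ^ j ≤ n → n ≤ 2 ^ (j + 1) →
      1 ≤ V (zJ 1 j) * lam f i n := by
    intro i hi
    have h1 := ev_blk (fun _ : Fin 1 => f i) k (fun _ => hd i) (fun _ => hl i) (by simpa using hki i)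
      (fun x y _ => Subsingleton.elim x y) (θ := 1) (by norm_num) (fun _ => by
        have : (2 : ℝ) ≤ (f i).natDegree := by exact_mod_cast hi
        linarith) (by linarith)
    filter_upwards [h1] with j hj n hn1 hn2
    obtain ⟨-, s2, -, -⟩ := hj.1.sys n hn1 hn2
    exact (s2 0).2.2
  have hbig' : ∀ᶠ j : ℕ in atTop, ∀ i, 2 ≤ (f i).natDegree → ∀ n : ℕ, 2 ^ j ≤ n → n ≤ 2 ^ (j + 1) →
      1 ≤ V (zJ 1 j) * lam f i n := by
    rw [eventually_all]
    intro i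
    by_cases hi : 2 ≤ (f i).natDegree
    · filter_upwards [hbig i hi] with j hj _
      exact hj
    · exact Eventually.of_forall fun j h => absurd h hi
  set Z : ℕ → ℕ := fun j => 2 ^ (4 * j) + ∑ p ∈ PX (TJ k j), (p : ℕ) with hZ
  have htail : ∀ᵐ a ∂law, ∀ i, ∃ y1 : ℕ, ∀ y, y1 ≤ y → ∀ z, y ≤ z →
      |∑ p ∈ Pr y z, (nuS f {i} p (a p) - 1) / (p : ℕ)| ≤ 2 * (y : ℝ) ^ (-(1 / 2 - ε)) := by
    rw [ae_all_iff]
    exact fun i => ae_tail f hd hl i (by linarith) (by linarith)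
  have hl2 : 0 < Real.log 2 := Real.log_pos (by norm_num)
  filter_upwards [ae_coll f k hk2 hinj Z hε, htail] with a hcoll htl S C hC0 hS0 hS hrate
  obtain ⟨z0, hz0⟩ := eventually_atTop.mp hrate
  choose y1 hy1 using htl
  set Y : ℕ := ∑ i, y1 i with hY
  have hYi : ∀ i, y1 i ≤ Y := fun i => single_le_sum (f := y1) (fun _ _ => Nat.zero_le _) (Finset.mem_univ i)
  have hg0 : (0 : ℝ) ≤ g := Nat.cast_nonneg _
  set C' : ℝ := 4 * (k : ℝ) ^ 2 + 2 * g with hC'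
  have hC'0 : 0 ≤ C' := by positivity
  set K1 : ℝ := 4 * g + 1 + 4 * C' with hK1
  have hK10 : 0 < K1 := by positivity
  refine ⟨2 * K1 + C + S * (4 * g), by positivity, ?_⟩
  by_cases hpos : ∀ p : Nat.Primes, nuB (Hit f a) (p : ℕ) < (p : ℕ)
  swap
  · -- a local obstruction
    push Not at hpos
    obtain ⟨p0, hp0⟩ := hpos
    have hp0' : nuB (Hit f a) (p0 : ℕ) = (p0 : ℕ) := le_antisymm (nuB_le _ _) hp0
    have hPP : ∀ z : ℕ, (p0 : ℕ) ≤ z → PP f a z = 0 := by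
      intro z hz
      unfold PP
      apply prod_eq_zero (i := (p0 : ℕ)) (by rw [mem_pz]; exact ⟨hz, p0.2⟩)
      rw [hp0', div_self (by exact_mod_cast p0.2.ne_zero), sub_self]
    have hS' : S = 0 := by
      have h1 : Tendsto (fun z : ℕ => PP f a z / V z ^ g) atTop (𝓝 0) := by
        refine tendsto_const_nhds.congr' ?_
        filter_upwards [eventually_ge_atTop (p0 : ℕ)] with z hz
        rw [hPP z hz, zero_div]
      exact tendsto_nhds_unique hS h1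
    filter_upwards [hblk, ev_const_lin ((p0 : ℕ) + 1) (show 0 < (1 / 2 : ℝ) * Real.log 2 / 2 by positivity)]
      with j hG hj n hn1 hn2
    obtain ⟨G, -⟩ := hG
    have hN : (p0 : ℕ) ≤ zJ (1 / 2) j := by
      have e1 : ((p0 : ℕ) : ℝ) + 1 ≤ ((2 : ℝ) ^ j) ^ (1 / 2 : ℝ) / 2 := by
        rw [pow_rpow_exp]
        have e1 := Real.add_one_le_exp ((1 / 2 : ℝ) * (j * Real.log 2))
        linarith
      have e2 : 1 ≤ ((2 : ℝ) ^ j) ^ (1 / 2 : ℝ) := by
        have : (0 : ℝ) ≤ ((p0 : ℕ) : ℝ) := Nat.cast_nonneg _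
        linarith
      have e3 := (zJ_facts (by norm_num : (0 : ℝ) < 1 / 2) j e2).2.1
      have : ((p0 : ℕ) : ℝ) ≤ zJ (1 / 2) j := by linarith
      exact_mod_cast this
    have hw : wT f (TJ k j) (2 ^ j) a n = 0 := by
      rw [wT_prod G a hn1 hn2 (∑ p ∈ PX (TJ k j), (p : ℕ) + p0) (fun p hp => by
        have := single_le_sum (f := fun p : Nat.Primes => (p : ℕ)) (fun _ _ => Nat.zero_le _) hp
        have : (p : ℕ) ≤ ∑ p ∈ PX (TJ k j), (p : ℕ) := this
        omega)]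
      apply prod_eq_zero (i := p0)
      · rw [mem_Pr]
        exact ⟨p0.2.pos, by omega⟩
      · have hru : rel f (p0 : ℕ) n = univ := by
          apply eq_univ_of_forall
          intro i
          unfold rel
          rw [Finset.mem_filter]
          obtain ⟨-, s2, -, -⟩ := G.sys n hn1 hn2
          exact ⟨Finset.mem_univ _, (s2 i).2.2.trans (mul_le_mul_of_nonneg_right (V_anti hN) (by linarith [(s2 i).1]))⟩
        rw [hru, nuS_univ, ← nuB_eq, hp0', div_self (by exact_mod_cast p0.2.ne_zero), sub_self]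
    rw [hw, hS', zero_mul, sub_zero, abs_zero]
    positivity
  · -- no local obstruction
    filter_upwards [hblk, hcoll, hbig', ev_const_lin (Real.log K1) (show 0 < (1 / 4 : ℝ) * Real.log 2 by positivity),
      ev_const_lin ((z0 : ℝ) + Y + (lcs f + 2 * k + 2) + 1) (show 0 < (1 / 2 : ℝ) * Real.log 2 / 2 by positivity)]
      with j hG hcj hbj hKj hj n hn1 hn2
    obtain ⟨G, -⟩ := hG
    set N : ℝ := (2 : ℝ) ^ j with hN
    have hN0 : 0 < N := by positivity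
    have hN1 : 1 ≤ N := one_le_pow₀ (by norm_num)
    set T := TJ k j with hT
    set z := zJ (1 / 2) j with hz
    have hz00 : (0 : ℝ) ≤ z0 := Nat.cast_nonneg _
    have hY0 : (0 : ℝ) ≤ Y := Nat.cast_nonneg _
    have hl0 : (0 : ℝ) ≤ lcs f := Nat.cast_nonneg _
    have hk0 : (0 : ℝ) ≤ k := Nat.cast_nonneg _
    have hNh : (z0 : ℝ) + Y + (lcs f + 2 * k + 2) + 1 ≤ N ^ (1 / 2 : ℝ) / 2 := by
      rw [hN, pow_rpow_exp]
      have e1 := Real.add_one_le_exp ((1 / 2 : ℝ) * (j * Real.log 2))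
      linarith
    obtain ⟨hz1, hz2, hz3⟩ := zJ_facts (by norm_num : (0 : ℝ) < 1 / 2) j (by rw [← hN]; linarith)
    rw [← hN, ← hz] at hz2 hz3
    rw [← hz] at hz1
    have hzr0 : (0 : ℝ) < z := by exact_mod_cast hz1
    have hzB : lcs f + 2 * k + 2 ≤ z := by
      have : ((lcs f + 2 * k + 2 : ℕ) : ℝ) ≤ z := by push_cast; linarith
      exact_mod_cast this
    have hzY : Y ≤ z := by
      have : (Y : ℝ) ≤ z := by linarith
      exact_mod_cast this
    have hzz0 : z0 ≤ z := by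
      have : (z0 : ℝ) ≤ z := by linarith
      exact_mod_cast this
    -- the powers of N
    set u : ℝ := N ^ (-(1 / 2) + ε) with hu
    have hu0 : 0 < u := by positivity
    have hNhu : (N ^ (1 / 2 : ℝ))⁻¹ ≤ u := by
      rw [← Real.rpow_neg hN0.le]
      exact Real.rpow_le_rpow_of_exponent_le hN1 (by linarith)
    have h2z : 2 / (z : ℝ) ≤ 4 * u := by
      have e1 : 2 / (z : ℝ) ≤ 4 * (N ^ (1 / 2 : ℝ))⁻¹ := by
        rw [div_le_iff₀ hzr0]
        have e2 : 0 < N ^ (1 / 2 : ℝ) := by positivity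
        have e3 : 4 * (N ^ (1 / 2 : ℝ))⁻¹ * (N ^ (1 / 2 : ℝ) / 2) = 2 := by
          field_simp; norm_num
        calc (2 : ℝ) = 4 * (N ^ (1 / 2 : ℝ))⁻¹ * (N ^ (1 / 2 : ℝ) / 2) := e3.symm
          _ ≤ 4 * (N ^ (1 / 2 : ℝ))⁻¹ * z := mul_le_mul_of_nonneg_left hz2 (by positivity)
      refine e1.trans ?_
      exact mul_le_mul_of_nonneg_left hNhu (by norm_num)
    -- the tails
    have t1 : ∀ i y, (∀ z' : ℕ, 1 ≤ V z' * lam f i n → z' ≤ y) →
        |∑ p ∈ Pr y (Z j), (nuS f {i} p (a p) - 1) / (p : ℕ)| ≤ 4 * u := by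
      intro i y hy
      obtain ⟨-, s2, -, -⟩ := G.sys n hn1 hn2
      have hzy : z ≤ y := hy z (s2 i).2.2
      rcases le_or_gt y (Z j) with hyZ | hyZ
      swap
      · have : Pr y (Z j) = ∅ := by
          apply eq_empty_of_forall_notMem
          intro p hp
          rw [mem_Pr] at hp
          omega
        rw [this, sum_empty, abs_zero]
        positivity
      by_cases hi : 2 ≤ (f i).natDegree
      · have h3 : zJ 1 j ≤ y := hy _ (hbj i hi n hn1 hn2)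
        have h4 := hy1 i y (by have := hYi i; omega) (Z j) hyZ
        refine h4.trans ?_
        obtain ⟨-, w2, -⟩ := zJ_facts (by norm_num : (0 : ℝ) < 1) j (by rw [Real.rpow_one, ← hN]; exact hN1)
        rw [Real.rpow_one, ← hN] at w2
        have h5 : N / 2 ≤ y := w2.trans (by exact_mod_cast h3)
        have h6 : (y : ℝ) ^ (-(1 / 2 - ε)) ≤ (N / 2) ^ (-(1 / 2 - ε)) :=
          Real.rpow_le_rpow_of_nonpos (by positivity) h5 (by linarith)
        have h7 : (N / 2) ^ (-(1 / 2 - ε)) ≤ 2 * u := by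
          rw [Real.div_rpow hN0.le (by norm_num)]
          have e4 : (1 / 2 : ℝ) ≤ (2 : ℝ) ^ (-(1 / 2 - ε)) := by
            calc (1 / 2 : ℝ) = 2 ^ (-1 : ℝ) := by rw [Real.rpow_neg_one]; norm_num
              _ ≤ _ := Real.rpow_le_rpow_of_exponent_le (by norm_num) (by linarith)
          rw [div_le_iff₀ (by positivity)]
          have e5 : -(1 / 2 - ε) = -(1 / 2) + ε := by ring
          rw [e5] at e4 ⊢
          rw [← hu]
          nlinarith
        linarith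
      · have hi1 : (f i).natDegree = 1 := by have := hd i; omega
        have h3 : ∑ p ∈ Pr y (Z j), (nuS f {i} p (a p) - 1) / (p : ℕ) = 0 := by
          apply sum_eq_zero
          intro p hp
          have hpy := (mem_Pr.mp hp).1
          rw [nuS_linear f hl i hi1 p (by omega) (a p), sub_self, zero_div]
        rw [h3, abs_zero]
        positivity
    have hΔ : g * (4 * u) + u + C' * (2 / z) ≤ K1 * u := by
      have := mul_le_mul_of_nonneg_left h2z hC'0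
      rw [hK1]
      nlinarith
    have hKu : K1 * u ≤ 1 := by
      have e1 : u ≤ Real.exp (-((1 / 4 : ℝ) * (j * Real.log 2))) := by
        rw [hu, hN, pow_rpow_exp]
        apply Real.exp_le_exp.mpr
        have : 0 ≤ (j : ℝ) * Real.log 2 := by positivity
        nlinarith
      have e2 : K1 ≤ Real.exp ((1 / 4 : ℝ) * (j * Real.log 2)) := by
        rw [← Real.exp_log hK10]
        apply Real.exp_le_exp.mpr
        linarith
      calc K1 * u ≤ Real.exp ((1 / 4 : ℝ) * (j * Real.log 2)) * Real.exp (-((1 / 4 : ℝ) * (j * Real.log 2))) :=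
            mul_le_mul e2 e1 hu0.le (Real.exp_pos _).le
        _ = 1 := by rw [← Real.exp_add]; simp
    have hZp : ∀ p : Nat.Primes, p ∈ PX T → (p : ℕ) ≤ Z j := by
      intro p hp
      have := single_le_sum (f := fun p : Nat.Primes => (p : ℕ)) (fun _ _ => Nat.zero_le _) hp
      have h3 : (p : ℕ) ≤ ∑ p ∈ PX T, (p : ℕ) := this
      exact h3.trans (Nat.le_add_left _ _)
    have hclose := wT_close f k hd hl hk2 G a hn1 hn2 (Z j) hZp hzB hpos (δ1 := 4 * u) (δ2 := u) t1 hcj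
      (hΔ.trans hKu)
    -- the limit
    have hZbig : N ^ 4 ≤ (Z j : ℝ) := by
      have e1 : ((2 ^ (4 * j) : ℕ) : ℝ) ≤ (Z j : ℝ) := by
        exact_mod_cast (Nat.le_add_right _ _ : 2 ^ (4 * j) ≤ 2 ^ (4 * j) + ∑ p ∈ PX (TJ k j), (p : ℕ))
      refine le_trans (le_of_eq ?_) e1
      rw [hN]
      push_cast
      rw [← pow_mul, mul_comm]
    have hZz0 : z0 ≤ Z j := by
      have e1 : (z0 : ℝ) ≤ N := by
        have e2 : N ^ (1 / 2 : ℝ) ≤ N ^ (1 : ℝ) := Real.rpow_le_rpow_of_exponent_le hN1 (by norm_num)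
        rw [Real.rpow_one] at e2
        have : 0 ≤ N ^ (1 / 2 : ℝ) := by positivity
        linarith
      have e2 : N ≤ N ^ 4 := le_self_pow₀ hN1 (by norm_num)
      exact_mod_cast (e1.trans (e2.trans hZbig))
    have hlim := hz0 (Z j) hZz0
    have hlim2 : C * ((Z j : ℕ) : ℝ) ^ (-(1 / 4) : ℝ) ≤ C * u := by
      apply mul_le_mul_of_nonneg_left _ hC0
      have e1 : ((Z j : ℕ) : ℝ) ^ (-(1 / 4) : ℝ) ≤ (N ^ 4) ^ (-(1 / 4) : ℝ) :=
        Real.rpow_le_rpow_of_nonpos (by positivity) hZbig (by norm_num)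
      refine e1.trans ?_
      have e2 : (N ^ 4 : ℝ) = N ^ (4 : ℝ) := by
        rw [← Real.rpow_natCast]; norm_num
      rw [e2, ← Real.rpow_mul hN0.le]
      exact Real.rpow_le_rpow_of_exponent_le hN1 (by linarith)
    obtain ⟨-, s2, -, -⟩ := G.sys n hn1 hn2
    have hVV : |∏ i, VV (lam f i n) - hh f n| ≤ 4 * g * u := by
      unfold hh
      have h3 := abs_prod_sub (univ : Finset (Fin g)) (fun i => VV (lam f i n)) (fun i => 1 / lam f i n)
        (fun i _ => ⟨VV_nonneg _, VV_le_one _⟩) (fun i _ => by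
          have := (s2 i).1
          constructor
          · positivity
          · rw [div_le_one (by linarith)]; linarith)
      refine h3.trans ?_
      have h4 : ∀ i ∈ (univ : Finset (Fin g)), |VV (lam f i n) - 1 / lam f i n| ≤ 4 * u := by
        intro i _
        exact (VV_close (by linarith [(s2 i).1]) hz1 (s2 i).2.2).trans h2z
      refine (sum_le_sum h4).trans (le_of_eq ?_)
      rw [sum_const, card_univ, Fintype.card_fin, nsmul_eq_mul]
      ring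
    have hVV01 : 0 ≤ ∏ i, VV (lam f i n) ∧ ∏ i, VV (lam f i n) ≤ 1 :=
      ⟨prod_nonneg fun i _ => VV_nonneg _, prod_le_one (fun i _ => VV_nonneg _) fun i _ => VV_le_one _⟩
    set W := ∏ i, VV (lam f i n)
    set q := PP f a (Z j) / V (Z j) ^ g
    have e1 : wT f T (2 ^ j) a n - S * hh f n = (wT f T (2 ^ j) a n - q * W) + (q - S) * W + S * (W - hh f n) := by ring
    rw [e1]
    have a1 := abs_add_le ((wT f T (2 ^ j) a n - q * W) + (q - S) * W) (S * (W - hh f n))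
    have a2 := abs_add_le (wT f T (2 ^ j) a n - q * W) ((q - S) * W)
    have a3 : |(q - S) * W| ≤ C * u := by
      rw [abs_mul, abs_of_nonneg hVV01.1]
      calc |q - S| * W ≤ (C * u) * 1 := mul_le_mul (hlim.trans hlim2) hVV01.2 hVV01.1 (by positivity)
        _ = C * u := mul_one _
    have a4 : |S * (W - hh f n)| ≤ S * (4 * g * u) := by
      rw [abs_mul, abs_of_nonneg hS0]
      exact mul_le_mul_of_nonneg_left hVV hS0
    have a5 : 2 * (g * (4 * u) + u + C' * (2 / z)) ≤ 2 * (K1 * u) := by linarith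
    have e2 : (2 * K1 + C + S * (4 * g)) * u = 2 * (K1 * u) + C * u + S * (4 * g * u) := by ring
    rw [e2]
    linarith

/-- one dyadic block -/
theorem ae_block3 {g : ℕ} (f : Fin g → ℤ[X]) (hd : ∀ i, 0 < (f i).natDegree)
    (hl : ∀ i, 0 < (f i).leadingCoeff) (hinj : Function.Injective f) {ε : ℝ} (hε : 0 < ε) (hε1 : ε ≤ 1 / 4) :
    ∀ᵐ a ∂law, ∀ S C : ℝ, 0 ≤ C → 0 ≤ S → Tendsto (fun z : ℕ => PP f a z / V z ^ g) atTop (𝓝 S) →
      (∀ᶠ z : ℕ in atTop, |PP f a z / V z ^ g - S| ≤ C * (z : ℝ) ^ (-(1 / 4) : ℝ)) →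
      ∃ K : ℝ, 0 ≤ K ∧ ∀ᶠ j : ℕ in atTop, ∀ y : ℕ, 2 ^ j ≤ y → y ≤ 2 ^ (j + 1) →
        |GG f a S y - GG f a S (2 ^ j)| ≤ K * ((2 : ℝ) ^ j) ^ (1 / 2 + ε) := by
  classical
  set k : ℕ := ∑ i, (f i).natDegree + 2 with hk
  have hk2 : ∑ i, (f i).natDegree ≤ k := by omega
  have hk2r : (2 : ℝ) ≤ k := by exact_mod_cast (by omega : 2 ≤ k)
  have hblk := ev_blk f k hd hl hk2 hinj (θ := 1 / 2) (by norm_num) (fun i => by
    have : (1 : ℝ) ≤ (f i).natDegree := by exact_mod_cast hd i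
    linarith) (by linarith)
  have hz : ∀ᶠ j : ℕ in atTop, 1 ≤ TJ k j ∧ ∀ n, 2 ^ j ≤ n → ∀ i, lam f i n ≤ lam f i (n + 1) := by
    filter_upwards [hblk] with j hj
    exact ⟨hj.1.T1, fun n hn i => (hj.1.mono n hn i).2⟩
  filter_upwards [ae_ph3 f k hd hl hk2 hinj hz hε, ae_weights f k hd hl (by omega) hinj hε hε1] with a h1 h2 S C hC0 hS0 hS hrate
  obtain ⟨K, hK0, hK⟩ := h2 S C hC0 hS0 hS hrate
  refine ⟨1 + K, by positivity, ?_⟩
  filter_upwards [h1, hK, hblk] with j p1 p2 hG y hy1 hy2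
  obtain ⟨G, -⟩ := hG
  set N : ℝ := (2 : ℝ) ^ j with hN
  have hN0 : 0 < N := by positivity
  rw [GG_block G Nat.one_le_two_pow hy1 hy2 a S, ← NT_eq G hy2 a, ← SS_yT G a hy2 hy1]
  have hyj : y - 2 ^ j ≤ 2 ^ j := by rw [pow_succ] at hy2; omega
  have q1 := p1 (y - 2 ^ j) hyj
  unfold eT at q1
  have hSw : SS (wT f (TJ k j) (2 ^ j) a) (y - 2 ^ j) (2 ^ j + 1) 1 = ∑ n ∈ Ioc (2 ^ j) y, wT f (TJ k j) (2 ^ j) a n := by
    unfold SS
    refine sum_bij' (fun t _ => 2 ^ j + 1 + 1 * t) (fun n _ => n - (2 ^ j + 1)) ?_ ?_ ?_ ?_ ?_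
    · intro t ht
      rw [mem_range] at ht
      rw [mem_Ioc]
      omega
    · intro n hn
      rw [mem_Ioc] at hn
      rw [mem_range]
      omega
    · intro t ht
      show 2 ^ j + 1 + 1 * t - (2 ^ j + 1) = t
      omega
    · intro n hn
      rw [mem_Ioc] at hn
      show 2 ^ j + 1 + 1 * (n - (2 ^ j + 1)) = n
      omega
    · intro t _
      rfl
  rw [hSw] at q1
  have q2 : |∑ n ∈ Ioc (2 ^ j) y, wT f (TJ k j) (2 ^ j) a n - S * ∑ n ∈ Ioc (2 ^ j) y, hh f n| ≤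
      K * N ^ (1 / 2 + ε) := by
    rw [mul_sum, ← sum_sub_distrib]
    have h3 : ∀ n ∈ Ioc (2 ^ j) y, |wT f (TJ k j) (2 ^ j) a n - S * hh f n| ≤ K * N ^ (-(1 / 2) + ε) := by
      intro n hn
      rw [mem_Ioc] at hn
      exact p2 n hn.1.le (hn.2.trans hy2)
    refine (abs_sum_le_sum_abs _ _).trans ((sum_le_sum h3).trans ?_)
    rw [sum_const, Nat.card_Ioc, nsmul_eq_mul]
    have h4 : ((y - 2 ^ j : ℕ) : ℝ) ≤ N := by
      have : ((y - 2 ^ j : ℕ) : ℝ) ≤ ((2 ^ j : ℕ) : ℝ) := by exact_mod_cast hyj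
      rw [hN]
      push_cast at this
      exact this
    have h5 : N * N ^ (-(1 / 2) + ε) = N ^ (1 / 2 + ε) := by
      nth_rewrite 1 [← Real.rpow_one N]
      rw [← Real.rpow_add hN0]
      congr 1
      ring
    calc ((y - 2 ^ j : ℕ) : ℝ) * (K * N ^ (-(1 / 2) + ε)) ≤ N * (K * N ^ (-(1 / 2) + ε)) :=
          mul_le_mul_of_nonneg_right h4 (by positivity)
      _ = K * (N * N ^ (-(1 / 2) + ε)) := by ring
      _ = K * N ^ (1 / 2 + ε) := by rw [h5]
  set X1 := SS (yT f (TJ k j) (2 ^ j) a) (y - 2 ^ j) (2 ^ j + 1) 1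
  set X2 := ∑ n ∈ Ioc (2 ^ j) y, wT f (TJ k j) (2 ^ j) a n
  set X3 := S * ∑ n ∈ Ioc (2 ^ j) y, hh f n
  have e1 : X1 - X3 = (X1 - X2) + (X2 - X3) := by ring
  rw [e1]
  have a1 := abs_add_le (X1 - X2) (X2 - X3)
  have e2 : (1 + K) * N ^ (1 / 2 + ε) = N ^ (1 / 2 + ε) + K * N ^ (1 / 2 + ε) := by ring
  rw [e2]
  linarith

/-- the final form: a square root error for all systems -/
theorem ae_final3 : ∀ᵐ a ∂law, ∀ (g : ℕ) (f : Fin g → ℤ[X]), Function.Injective f →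
    (∀ i, 0 < (f i).natDegree) → (∀ i, 0 < (f i).leadingCoeff) →
      ∃ S : ℝ, 0 ≤ S ∧ Tendsto (fun z : ℕ => PP f a z / V z ^ g) atTop (𝓝 S) ∧
        (0 < S ↔ ∀ p : Nat.Primes, nuB (Hit f a) (p : ℕ) < (p : ℕ)) ∧
        ∀ ε : ℝ, 0 < ε →
          (fun x : ℕ => (BH.cnt f a x : ℝ) - S * HH f x) =O[atTop] fun x : ℕ => (x : ℝ) ^ (1 / 2 + ε) := by
  rw [ae_all_iff]
  intro g
  rw [ae_all_iff]
  intro f
  by_cases hf : Function.Injective f ∧ (∀ i, 0 < (f i).natDegree) ∧ (∀ i, 0 < (f i).leadingCoeff)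
  swap
  · refine Eventually.of_forall fun a h1 h2 h3 => ?_
    exact absurd ⟨h1, h2, h3⟩ hf
  obtain ⟨hinj, hd, hl⟩ := hf
  have hm4 : ∀ m : ℕ, (0 : ℝ) < 1 / ((m : ℝ) + 4) ∧ 1 / ((m : ℝ) + 4) ≤ 1 / 4 := by
    intro m
    have hm : (0 : ℝ) ≤ m := Nat.cast_nonneg m
    constructor
    · positivity
    · exact one_div_le_one_div_of_le (by norm_num) (by linarith)
  have h1 : ∀ᵐ a ∂law, ∀ m : ℕ, ∀ S C : ℝ, 0 ≤ C → 0 ≤ S → Tendsto (fun z : ℕ => PP f a z / V z ^ g) atTop (𝓝 S) →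
      (∀ᶠ z : ℕ in atTop, |PP f a z / V z ^ g - S| ≤ C * (z : ℝ) ^ (-(1 / 4) : ℝ)) →
      ∃ K : ℝ, 0 ≤ K ∧ ∀ᶠ j : ℕ in atTop, ∀ y : ℕ, 2 ^ j ≤ y → y ≤ 2 ^ (j + 1) →
        |GG f a S y - GG f a S (2 ^ j)| ≤ K * ((2 : ℝ) ^ j) ^ (1 / 2 + 1 / ((m : ℝ) + 4)) := by
    rw [ae_all_iff]
    exact fun m => ae_block3 f hd hl hinj (hm4 m).1 (hm4 m).2
  filter_upwards [h1, ae_SS f (∑ i, (f i).natDegree + 1) (by omega) hd hl (by omega) hinj] with a h2 h3 _ _ _
  obtain ⟨S, hS0, hS1, hS2, C, hC, hrate⟩ := h3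
  refine ⟨S, hS0, hS1, hS2, fun ε hε => ?_⟩
  obtain ⟨m, hm⟩ := exists_nat_gt (1 / ε)
  obtain ⟨K, hK0, hK⟩ := h2 m S C hC hS0 hS1 hrate
  have hm0 : (0 : ℝ) ≤ m := Nat.cast_nonneg m
  have h5 := dyadic_sum (GG f a S) hK0 (e := 1 / 2 + 1 / ((m : ℝ) + 4)) (by linarith [(hm4 m).1]) hK
  refine h5.trans ?_
  apply Asymptotics.IsBigO.of_bound 1
  filter_upwards [eventually_ge_atTop 1] with x hx
  have hx1 : (1 : ℝ) ≤ x := by exact_mod_cast hx
  have hx0 : (0 : ℝ) < x := by linarith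
  rw [Real.norm_eq_abs, Real.norm_eq_abs, one_mul, abs_of_pos (by positivity), abs_of_pos (by positivity)]
  apply Real.rpow_le_rpow_of_exponent_le hx1
  have : 1 / ((m : ℝ) + 4) ≤ ε := by
    rw [div_le_iff₀ (by positivity)]
    rw [div_lt_iff₀ hε] at hm
    nlinarith
  linarith

end Pool.Agent.W2helper64.BQ
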