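import Pool.Agent.W2helper64.BH.Final

set_option autoImplicit false
set_option linter.unusedSectionVars false

/-!
Convergence of the singular series with the rate `z ^ (-η)`, `η < 1 / 2`.
-/

namespace Pool.Agent.W2helper64.BQ

open Finset Filter Topology Polynomial MeasureTheory Pool.Agent.W2helper64.RS Pool.Agent.W2helper64.RK
open Pool.Agent.W2helper64.BH
open Pool.Agent.H373R2.T7 (pz nuB PerB sys_count nuB_le mem_pz)

theorem law_seriesE (Y : (p : Nat.Primes) → ZMod (p : ℕ) → ℝ) {k : ℝ} (hk : 1 ≤ k) (H0 : ∀ p, ∑ r, Y p r = 0)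
    (H1 : ∀ p r, |Y p r| ≤ k / (p : ℕ)) {σ : ℝ} (hσ : σ = 1 ∨ σ = -1) (η : ℝ) (y z : ℕ) (hy : k ^ 2 ≤ y) :
    law {a | (y : ℝ) ^ (-η) ≤ σ * ∑ p ∈ Pr y z, Y p (a p)} ≤
      ENNReal.ofReal (Real.exp (2 * k ^ 2 - (y : ℝ) ^ (1 / 2 - η))) := by
  classical
  have hy0 : (0 : ℝ) < y := by nlinarith
  have hy1 : 1 ≤ y := by
    have : (0 : ℝ) < y := hy0
    exact_mod_cast this
  have hsq : √(y : ℝ) * √(y : ℝ) = y := Real.mul_self_sqrt hy0.le
  have hs0 : 0 < √(y : ℝ) := Real.sqrt_pos.mpr hy0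
  have hks : k ≤ √(y : ℝ) := Real.le_sqrt_of_sq_le hy
  have hσ1 : |σ| = 1 := by rcases hσ with rfl | rfl <;> norm_num
  have hσ2 : σ ^ 2 = 1 := by rcases hσ with rfl | rfl <;> norm_num
  set F := Pr y z with hF
  set P : ((p : {x // x ∈ F}) → ZMod ((p : Nat.Primes) : ℕ)) → Prop := fun b =>
    (y : ℝ) ^ (-η) ≤ σ * ∑ p : {x // x ∈ F}, Y (p : Nat.Primes) (b p) with hP
  have h1 : {a : (p : Nat.Primes) → ZMod (p : ℕ) | (y : ℝ) ^ (-η) ≤ σ * ∑ p ∈ F, Y p (a p)} =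
      {a : (p : Nat.Primes) → ZMod (p : ℕ) | P (F.restrict a)} := by
    ext a
    have h2 : ∑ p : {x // x ∈ F}, Y (p : Nat.Primes) ((F.restrict a) p) = ∑ p ∈ F, Y p (a p) :=
      Finset.sum_coe_sort F (fun p => Y p (a p))
    show (y : ℝ) ^ (-η) ≤ σ * ∑ p ∈ F, Y p (a p) ↔
      (y : ℝ) ^ (-η) ≤ σ * ∑ p : {x // x ∈ F}, Y (p : Nat.Primes) ((F.restrict a) p)
    rw [h2]
  have h2 := law_cyl F P (inst := Classical.decPred _)
  rw [h1, h2]
  apply ENNReal.ofReal_le_ofReal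
  -- Markov
  set t : ℝ := σ * √(y : ℝ) with ht
  have h3 := exp_mean (ι := {x // x ∈ F}) (α := fun p => ZMod ((p : Nat.Primes) : ℕ))
    (fun p r => Y (p : Nat.Primes) r) (fun p => k / (((p : Nat.Primes) : ℕ) : ℝ)) t
    (fun p => H0 (p : Nat.Primes)) (fun p r => H1 (p : Nat.Primes) r) (fun p => by
      have h4 := (mem_Pr.mp p.2).1
      have h5 : (y : ℝ) < (((p : Nat.Primes) : ℕ) : ℝ) := by exact_mod_cast h4
      rw [ht, abs_mul, hσ1, one_mul, abs_of_pos hs0, ← mul_div_assoc, div_le_one (by linarith)]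
      nlinarith) univ
  have h4 : t ^ 2 * ∑ p : {x // x ∈ F}, (k / (((p : Nat.Primes) : ℕ) : ℝ)) ^ 2 ≤ 2 * k ^ 2 := by
    have h5 := sq_sum_le (F := F) hy1 univ (fun p _ => (mem_Pr.mp p.2).1)
    have h6 : ∑ p : {x // x ∈ F}, (k / (((p : Nat.Primes) : ℕ) : ℝ)) ^ 2 =
        k ^ 2 * ∑ p : {x // x ∈ F}, (1 : ℝ) / (((p : Nat.Primes) : ℕ) : ℝ) ^ 2 := by
      rw [mul_sum]
      refine sum_congr rfl fun p _ => ?_
      rw [div_pow]; ring
    have h7 : t ^ 2 = y := by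
      rw [ht, mul_pow, hσ2, one_mul, pow_two, hsq]
    rw [h6, h7]
    calc (y : ℝ) * (k ^ 2 * ∑ p : {x // x ∈ F}, (1 : ℝ) / (((p : Nat.Primes) : ℕ) : ℝ) ^ 2) ≤
          y * (k ^ 2 * (2 / y)) := by
          apply mul_le_mul_of_nonneg_left _ hy0.le
          exact mul_le_mul_of_nonneg_left h5 (by positivity)
      _ = 2 * k ^ 2 := by field_simp
  have h5 := avg_ind_le (P := P) (c := Real.exp ((y : ℝ) ^ (1 / 2 - η)))
    (G := fun a => Real.exp (t * ∑ p : {x // x ∈ F}, Y (p : Nat.Primes) (a p)))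
    (fun a => (Real.exp_pos _).le) (Real.exp_pos _) (fun a ha => by
      apply Real.exp_le_exp.mpr
      have h6 : t * ∑ p : {x // x ∈ F}, Y (p : Nat.Primes) (a p) =
        √(y : ℝ) * (σ * ∑ p : {x // x ∈ F}, Y (p : Nat.Primes) (a p)) := by rw [ht]; ring
      rw [h6]
      have h7 : (y : ℝ) ^ (1 / 2 - η) = √(y : ℝ) * (y : ℝ) ^ (-η) := by
        rw [Real.sqrt_eq_rpow, ← Real.rpow_add hy0]
        congr 1
      rw [h7]
      exact mul_le_mul_of_nonneg_left ha hs0.le)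
  refine le_trans (le_of_eq ?_) (h5.trans ?_)
  · congr 1
  · rw [div_le_iff₀ (Real.exp_pos _), ← Real.exp_add]
    refine h3.trans (Real.exp_le_exp.mpr ?_)
    linarith

theorem ev_kappa (c : ℝ) {κ : ℝ} (hκ : 0 < κ) : ∀ᶠ y : ℕ in atTop,
    ((y : ℝ) ^ 2 + 1) * Real.exp (c - (y : ℝ) ^ κ) ≤ 1 * (1 / (y : ℝ) ^ 2) := by
  set m : ℕ := ⌈4 / κ⌉₊ with hm
  have hmκ : 4 ≤ κ * m := by
    have := Nat.le_ceil (4 / κ)
    rw [← hm, div_le_iff₀ hκ] at this
    linarith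
  have h1 : Tendsto (fun w : ℝ => w ^ m * Real.exp (-w)) atTop (𝓝 0) :=
    Real.tendsto_pow_mul_exp_neg_atTop_nhds_zero m
  have h2 := h1.const_mul (2 * Real.exp c)
  rw [mul_zero] at h2
  have h3 : Tendsto (fun y : ℕ => (y : ℝ) ^ κ) atTop atTop :=
    (tendsto_rpow_atTop hκ).comp tendsto_natCast_atTop_atTop
  filter_upwards [h3.eventually (h2.eventually (gt_mem_nhds (show (0 : ℝ) < 1 by norm_num))), eventually_ge_atTop 1]
    with y hy hy1
  have hy0 : (1 : ℝ) ≤ y := by exact_mod_cast hy1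
  have h4 : (y : ℝ) ^ 4 ≤ ((y : ℝ) ^ κ) ^ m := by
    rw [← Real.rpow_natCast ((y : ℝ) ^ κ) m, ← Real.rpow_mul (by linarith), ← Real.rpow_natCast (y : ℝ) 4]
    apply Real.rpow_le_rpow_of_exponent_le hy0
    push_cast
    exact hmκ
  rw [one_mul, le_div_iff₀ (by positivity), sub_eq_add_neg, Real.exp_add]
  have h5 : 0 < Real.exp c * Real.exp (-(y : ℝ) ^ κ) := by positivity
  have h6 : ((y : ℝ) ^ 2 + 1) * y ^ 2 ≤ 2 * y ^ 4 := by
    have : 1 ≤ (y : ℝ) ^ 2 := one_le_pow₀ hy0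
    nlinarith
  calc ((y : ℝ) ^ 2 + 1) * (Real.exp c * Real.exp (-(y : ℝ) ^ κ)) * y ^ 2 =
        ((y : ℝ) ^ 2 + 1) * y ^ 2 * (Real.exp c * Real.exp (-(y : ℝ) ^ κ)) := by ring
    _ ≤ 2 * y ^ 4 * (Real.exp c * Real.exp (-(y : ℝ) ^ κ)) := mul_le_mul_of_nonneg_right h6 h5.le
    _ = 2 * Real.exp c * ((y : ℝ) ^ 4 * Real.exp (-(y : ℝ) ^ κ)) := by ring
    _ ≤ 2 * Real.exp c * (((y : ℝ) ^ κ) ^ m * Real.exp (-(y : ℝ) ^ κ)) :=
        mul_le_mul_of_nonneg_left (mul_le_mul_of_nonneg_right h4 (Real.exp_pos _).le) (by positivity)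
    _ ≤ 1 := hy.le

theorem ae_seriesE (Y : (p : Nat.Primes) → ZMod (p : ℕ) → ℝ) {k : ℝ} (hk : 1 ≤ k) (H0 : ∀ p, ∑ r, Y p r = 0)
    (H1 : ∀ p r, |Y p r| ≤ k / (p : ℕ)) {η : ℝ} (hη : η < 1 / 2) : ∀ᵐ a ∂law, ∀ᶠ y : ℕ in atTop, ∀ z, y ≤ z → z ≤ y ^ 2 →
      |∑ p ∈ Pr y z, Y p (a p)| ≤ (y : ℝ) ^ (-η) := by
  have key : ∀ σ : ℝ, (σ = 1 ∨ σ = -1) → ∀ᵐ a ∂law, ∀ᶠ y : ℕ in atTop,
      a ∉ (⋃ z ∈ Icc y (y ^ 2), {a | (y : ℝ) ^ (-η) ≤ σ * ∑ p ∈ Pr y z, Y p (a p)}) := by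
    intro σ hσ
    apply bc _ 1 (by norm_num)
    have hy2 := (tendsto_natCast_atTop_atTop (R := ℝ)).eventually_ge_atTop (k ^ 2)
    filter_upwards [ev_kappa (2 * k ^ 2) (sub_pos.mpr hη), hy2] with y hy1 hy2
    calc law (⋃ z ∈ Icc y (y ^ 2), {a | (y : ℝ) ^ (-η) ≤ σ * ∑ p ∈ Pr y z, Y p (a p)})
        ≤ ∑ z ∈ Icc y (y ^ 2), law {a | (y : ℝ) ^ (-η) ≤ σ * ∑ p ∈ Pr y z, Y p (a p)} :=
          measure_biUnion_finset_le _ _
      _ ≤ ∑ z ∈ Icc y (y ^ 2), ENNReal.ofReal (Real.exp (2 * k ^ 2 - (y : ℝ) ^ (1 / 2 - η))) :=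
          Finset.sum_le_sum fun z _ => law_seriesE Y hk H0 H1 hσ η y z hy2
      _ = ENNReal.ofReal ((y ^ 2 + 1 - y : ℕ) * Real.exp (2 * k ^ 2 - (y : ℝ) ^ (1 / 2 - η))) := by
          rw [sum_const, nsmul_eq_mul, Nat.card_Icc, ENNReal.ofReal_mul (by positivity), ENNReal.ofReal_natCast]
      _ ≤ _ := by
          apply ENNReal.ofReal_le_ofReal
          refine le_trans (mul_le_mul_of_nonneg_right ?_ (Real.exp_pos _).le) hy1
          have : y ^ 2 + 1 - y ≤ y ^ 2 + 1 := Nat.sub_le _ _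
          exact_mod_cast this
  filter_upwards [key 1 (Or.inl rfl), key (-1) (Or.inr rfl)] with a h1 h2
  filter_upwards [h1, h2] with y h3 h4 z hz1 hz2
  simp only [Set.mem_iUnion, exists_prop, not_exists, not_and] at h3 h4
  have h5 := h3 z (mem_Icc.mpr ⟨hz1, hz2⟩)
  have h6 := h4 z (mem_Icc.mpr ⟨hz1, hz2⟩)
  have h5' : ¬ ((y : ℝ) ^ (-η) ≤ 1 * ∑ p ∈ Pr y z, Y p (a p)) := h5
  have h6' : ¬ ((y : ℝ) ^ (-η) ≤ -1 * ∑ p ∈ Pr y z, Y p (a p)) := h6
  rw [abs_le]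
  constructor <;> linarith

theorem chain4E {η : ℝ} (hη : 1 / 4 ≤ η) (s : ℕ → ℝ) (y0 : ℕ) (h : ∀ y, y0 ≤ y → ∀ z, y ≤ z → z ≤ y ^ 2 →
    |s z - s y| ≤ (y : ℝ) ^ (-η)) (y : ℕ) (hy0 : y0 ≤ y) (hy : 16 ≤ y) (z : ℕ) (hz : y ≤ z) :
    |s z - s y| ≤ 2 * (y : ℝ) ^ (-η) := by
  have key : ∀ n : ℕ, ∀ y z : ℕ, y0 ≤ y → 16 ≤ y → y ≤ z → z ≤ y ^ 2 ^ n →
      |s z - s y| ≤ 2 * (y : ℝ) ^ (-η) := by
    intro n
    induction n with
    | zero =>
      intro y z _ hy hz hz2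
      have : z = y := by simp at hz2; omega
      rw [this, sub_self, abs_zero]
      positivity
    | succ n ih =>
      intro y z h1 hy hz hz2
      have hyr : (16 : ℝ) ≤ y := by exact_mod_cast hy
      have hp0 : 0 < (y : ℝ) ^ (-η) := by positivity
      rcases le_or_gt z (y ^ 2) with h2 | h2
      · have := h y h1 z hz h2
        linarith
      · have e1 : y ≤ y ^ 2 := Nat.le_self_pow (by norm_num) y
        have h3 := ih (y ^ 2) z (h1.trans e1) (hy.trans e1) h2.le (by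
          rw [← pow_mul]
          refine hz2.trans (le_of_eq ?_)
          congr 1
          rw [pow_succ]; ring)
        have h4 := h y h1 (y ^ 2) e1 le_rfl
        have h5 : ((y ^ 2 : ℕ) : ℝ) ^ (-η) = (y : ℝ) ^ (-η) * (y : ℝ) ^ (-η) := by
          push_cast
          rw [pow_two, Real.mul_rpow (by positivity) (by positivity)]
        have h6 : (y : ℝ) ^ (-η) ≤ 1 / 2 := by
          have h7 : (2 : ℝ) ≤ (y : ℝ) ^ η := by
            have e2 : (2 : ℝ) = (16 : ℝ) ^ (1 / 4 : ℝ) := by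
              rw [show (16 : ℝ) = (2 : ℝ) ^ (4 : ℝ) by norm_num, ← Real.rpow_mul (by norm_num)]
              norm_num
            rw [e2]
            exact (Real.rpow_le_rpow (by norm_num) hyr (by norm_num)).trans
              (Real.rpow_le_rpow_of_exponent_le (by linarith) hη)
          rw [Real.rpow_neg (by positivity), ← one_div]
          exact one_div_le_one_div_of_le (by norm_num) h7
        rw [h5] at h3
        have h8 := abs_sub_le (s z) (s (y ^ 2)) (s y)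
        nlinarith
  refine key z y z hy0 hy hz ?_
  have h1 : z < 2 ^ z := Nat.lt_two_pow_self
  have h2 : 2 ^ z ≤ y ^ 2 ^ z := by
    calc 2 ^ z ≤ y ^ z := Nat.pow_le_pow_left (by omega) z
      _ ≤ y ^ 2 ^ z := Nat.pow_le_pow_right (by omega) h1.le
  omega

theorem cauchy_rateE {η : ℝ} (hη : 0 < η) (E : ℕ → ℝ) {c : ℝ} (y1 : ℕ)
    (h : ∀ y, y1 ≤ y → ∀ z, y ≤ z → |E z - E y| ≤ c * (y : ℝ) ^ (-η)) :
    ∃ e : ℝ, Tendsto E atTop (𝓝 e) ∧ ∀ y, y1 ≤ y → |E y - e| ≤ c * (y : ℝ) ^ (-η) := by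
  have ht : Tendsto (fun y : ℕ => c * (y : ℝ) ^ (-η)) atTop (𝓝 0) := by
    have := ((tendsto_rpow_neg_atTop hη).comp
      tendsto_natCast_atTop_atTop).const_mul c
    rw [mul_zero] at this
    exact this
  have hcs : CauchySeq E := by
    rw [Metric.cauchySeq_iff']
    intro ε hε
    obtain ⟨N, hN⟩ := eventually_atTop.mp ((ht.eventually (gt_mem_nhds hε)).and (eventually_ge_atTop y1))
    refine ⟨N, fun n hn => ?_⟩
    rw [Real.dist_eq]
    exact (h N (hN N le_rfl).2 n hn).trans_lt (hN N le_rfl).1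
  obtain ⟨e, he⟩ := cauchySeq_tendsto_of_complete hcs
  refine ⟨e, he, fun y hy => ?_⟩
  have h1 : Tendsto (fun z => |E z - E y|) atTop (𝓝 |e - E y|) := (he.sub_const _).abs
  rw [abs_sub_comm]
  exact le_of_tendsto h1 (by
    filter_upwards [eventually_ge_atTop y] with z hz
    exact h y hy z hz)

theorem ae_SSE {η : ℝ} (hη1 : 1 / 4 ≤ η) (hη2 : η < 1 / 2) {g : ℕ} (f : Fin g → ℤ[X]) (k : ℕ) (hk1 : 1 ≤ k) (hd : ∀ i, 0 < (f i).natDegree)
    (hl : ∀ i, 0 < (f i).leadingCoeff) (hk : ∑ i, (f i).natDegree ≤ k) (hinj : Function.Injective f) :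
    ∀ᵐ a ∂law, ∃ S : ℝ, 0 ≤ S ∧ Tendsto (fun z : ℕ => PP f a z / V z ^ g) atTop (𝓝 S) ∧
      (0 < S ↔ ∀ p : Nat.Primes, nuB (Hit f a) (p : ℕ) < (p : ℕ)) ∧
      ∃ C : ℝ, 0 ≤ C ∧ ∀ᶠ z : ℕ in atTop, |PP f a z / V z ^ g - S| ≤ C * (z : ℝ) ^ (-η) := by
  classical
  have hk1' : (1 : ℝ) ≤ k := by exact_mod_cast hk1
  filter_upwards [ae_seriesE (Yf f k) hk1' (Yf_sum f k) (Yf_bound f k hd hl hk) hη2] with a ha
  obtain ⟨y0, hy0⟩ := eventually_atTop.mp ha
  set s : ℕ → ℝ := fun z => ∑ p ∈ Pr 0 z, Yf f k p (a p) with hs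
  have hs_sub : ∀ y z, y ≤ z → s z - s y = ∑ p ∈ Pr y z, Yf f k p (a p) := by
    intro y z hyz
    simp only [hs]
    rw [Pr_union (Nat.zero_le y) hyz, sum_union Pr_disj]
    ring
  set y1 : ℕ := max (max y0 16) (BB f k) with hy1
  have hy1a : y0 ≤ y1 := (le_max_left _ _).trans (le_max_left _ _)
  have hy1b : 16 ≤ y1 := (le_max_right _ _).trans (le_max_left _ _)
  have hy1c : BB f k ≤ y1 := le_max_right _ _
  have hchain : ∀ y, y1 ≤ y → ∀ z, y ≤ z → |s z - s y| ≤ 2 * (y : ℝ) ^ (-η) := by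
    intro y hy z hz
    refine chain4E hη1 s y0 (fun y hy z hz hz2 => ?_) y (by omega) (by omega) z hz
    rw [hs_sub y z hz]
    exact hy0 y hy z hz hz2
  -- the factors beyond the threshold
  have hbig : ∀ p : Nat.Primes, BB f k < (p : ℕ) → (nuB (Hit f a) (p : ℕ) : ℝ) ≤ k := by
    intro p hp
    rw [nuB_eq]
    have : lcs f < (p : ℕ) := by unfold BB at hp; omega
    exact_mod_cast nuR_le f k hd hl hk p this (a p)
  set C2 : ℝ := 2 * (k : ℝ) ^ 2 + 2 * g + g * (g ^ 2 * k) with hC2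
  have hC20 : 0 ≤ C2 := by positivity
  have hfac : ∀ p : Nat.Primes, BB f k < (p : ℕ) → 0 < FF f a (p : ℕ) ∧
      |Real.log (FF f a (p : ℕ)) + Yf f k p (a p)| ≤ C2 * (1 / ((p : ℕ) : ℝ) ^ 2) := by
    intro p hp
    have hpk : 2 * (k : ℝ) + 2 ≤ ((p : ℕ) : ℝ) := by
      unfold BB at hp
      exact_mod_cast (by omega : 2 * k + 2 ≤ (p : ℕ))
    have hp0 : (0 : ℝ) < ((p : ℕ) : ℝ) := by linarith
    have hν := hbig p hp
    constructor
    · unfold FF
      apply div_pos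
      · rw [sub_pos, div_lt_one hp0]; linarith
      · apply pow_pos
        rw [sub_pos, div_lt_one hp0]; linarith
    · have hm := mean_bounds f k hk hinj p (by unfold BB at hp; omega)
      have h1 := log_expand (g := g) (k := k) hpk (Nat.cast_nonneg _) hν hm
      unfold FF Yf
      rw [if_pos hp, ← nuB_eq]
      refine h1.trans (le_of_eq ?_)
      rw [hC2]; ring
  set E : ℕ → ℝ := fun z => ∑ p ∈ Pr y1 z, Real.log (FF f a (p : ℕ)) with hE
  have hE_sub : ∀ y z, y1 ≤ y → y ≤ z → E z - E y = ∑ p ∈ Pr y z, Real.log (FF f a (p : ℕ)) := by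
    intro y z hy hyz
    simp only [hE]
    rw [Pr_union hy hyz, sum_union Pr_disj]
    ring
  have hErate : ∀ y, y1 ≤ y → ∀ z, y ≤ z → |E z - E y| ≤ (2 + 2 * C2) * (y : ℝ) ^ (-η) := by
    intro y hy z hz
    have hyr : (1 : ℝ) ≤ y := by exact_mod_cast (by omega : 1 ≤ y)
    have h1 := hchain y hy z hz
    have h2 : |(E z - E y) + (s z - s y)| ≤ C2 * (2 / y) := by
      rw [hE_sub y z hy hz, hs_sub y z hz, ← sum_add_distrib]
      refine (abs_sum_le_sum_abs _ _).trans ?_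
      have h3 : ∀ p ∈ Pr y z, |Real.log (FF f a (p : ℕ)) + Yf f k p (a p)| ≤ C2 * (1 / ((p : ℕ) : ℝ) ^ 2) := by
        intro p hp
        exact (hfac p (by have := (mem_Pr.mp hp).1; omega)).2
      refine (sum_le_sum h3).trans ?_
      rw [← mul_sum]
      exact mul_le_mul_of_nonneg_left (sq_Pr (by omega)) hC20
    have h4 : 1 / (y : ℝ) ≤ (y : ℝ) ^ (-η) := by
      have : 1 / (y : ℝ) = (y : ℝ) ^ (-1 : ℝ) := by
        rw [Real.rpow_neg_one, one_div]
      rw [this]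
      exact Real.rpow_le_rpow_of_exponent_le hyr (by linarith)
    have h5 : C2 * (2 / y) ≤ 2 * C2 * (y : ℝ) ^ (-η) := by
      have : C2 * (2 / y) = 2 * C2 * (1 / (y : ℝ)) := by ring
      rw [this]
      exact mul_le_mul_of_nonneg_left h4 (by positivity)
    have h6 := abs_sub ((E z - E y) + (s z - s y)) (s z - s y)
    rw [add_sub_cancel_right] at h6
    linarith
  obtain ⟨e, he1, he2⟩ := cauchy_rateE (by linarith : (0 : ℝ) < η) E y1 hErate
  -- the partial products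
  have hSS : ∀ z, y1 ≤ z → PP f a z / V z ^ g = PP f a y1 / V y1 ^ g * Real.exp (E z) := by
    intro z hz
    rw [PP_div, PP_div, Pr_union (Nat.zero_le y1) hz, prod_union Pr_disj]
    congr 1
    simp only [hE]
    rw [Real.exp_sum]
    refine prod_congr rfl fun p hp => ?_
    rw [Real.exp_log (hfac p (by have := (mem_Pr.mp hp).1; omega)).1]
  set S1 : ℝ := PP f a y1 / V y1 ^ g with hS1
  have hPP0 : ∀ z, 0 ≤ PP f a z := fun z => prod_nonneg fun p _ => one_sub_nonneg f a p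
  have hS10 : 0 ≤ S1 := div_nonneg (hPP0 y1) (pow_nonneg (V_nonneg _) _)
  refine ⟨S1 * Real.exp e, by positivity, ?_, ?_, ?_⟩
  · have h1 : Tendsto (fun z => S1 * Real.exp (E z)) atTop (𝓝 (S1 * Real.exp e)) :=
      ((Real.continuous_exp.tendsto e).comp he1).const_mul S1
    refine h1.congr' ?_
    filter_upwards [eventually_ge_atTop y1] with z hz
    exact (hSS z hz).symm
  · constructor
    · intro hpos p
      by_contra hcon
      have heq : nuB (Hit f a) (p : ℕ) = (p : ℕ) := le_antisymm (nuB_le _ _) (not_lt.mp hcon)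
      have hpy : (p : ℕ) ≤ y1 := by
        by_contra h2
        have h3 := hbig p (by omega)
        rw [heq] at h3
        have h4 : (p : ℕ) ≤ k := by exact_mod_cast h3
        unfold BB at hy1c
        omega
      have h5 : PP f a y1 = 0 := by
        unfold PP
        apply prod_eq_zero (i := (p : ℕ)) (mem_pz.2 ⟨hpy, p.2⟩)
        rw [heq]
        have hp0 : (0 : ℝ) < ((p : ℕ) : ℝ) := by exact_mod_cast p.2.pos
        rw [div_self hp0.ne', sub_self]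
      rw [hS1, h5, zero_div, zero_mul] at hpos
      exact lt_irrefl _ hpos
    · intro hall
      apply mul_pos _ (Real.exp_pos _)
      apply div_pos _ (pow_pos (V_pos _) _)
      unfold PP
      refine prod_pos fun p hp => ?_
      obtain ⟨-, hpp⟩ := mem_pz.1 hp
      have h1 := hall ⟨p, hpp⟩
      have h2 : nuB (Hit f a) p < p := h1
      have hp0 : (0 : ℝ) < (p : ℝ) := by exact_mod_cast hpp.pos
      rw [sub_pos, div_lt_one hp0]
      exact_mod_cast h2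
  · refine ⟨S1 * Real.exp e * (2 * (2 + 2 * C2)), by positivity, ?_⟩
    have ht : Tendsto (fun y : ℕ => (2 + 2 * C2) * (y : ℝ) ^ (-η)) atTop (𝓝 0) := by
      have := ((tendsto_rpow_neg_atTop (by linarith : (0 : ℝ) < η)).comp
        tendsto_natCast_atTop_atTop).const_mul (2 + 2 * C2)
      rw [mul_zero] at this
      exact this
    filter_upwards [ht.eventually (gt_mem_nhds (show (0 : ℝ) < 1 by norm_num)), eventually_ge_atTop y1] with z hz1 hz2
    have h1 := he2 z hz2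
    have h2 : |E z - e| ≤ 1 := by linarith
    have h3 := Real.abs_exp_sub_one_le h2
    have h4 : PP f a z / V z ^ g - S1 * Real.exp e = S1 * Real.exp e * (Real.exp (E z - e) - 1) := by
      rw [hSS z hz2, Real.exp_sub]
      have := (Real.exp_pos e).ne'
      field_simp
    rw [h4, abs_mul, abs_of_nonneg (by positivity : 0 ≤ S1 * Real.exp e), mul_assoc (S1 * Real.exp e)]
    apply mul_le_mul_of_nonneg_left _ (by positivity)
    linarith

end Pool.Agent.W2helper64.BQ
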