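import Pool.Agent.W2helper64.BQ.Ph1
import Pool.Agent.W2helper64.BQ.Ser

set_option autoImplicit false
set_option linter.unusedSectionVars false

/-!
The two phases, almost surely, for all dyadic scales.
-/

namespace Pool.Agent.W2helper64.BQ

open Finset Filter Topology Polynomial MeasureTheory Pool.Agent.W2helper64.RS Pool.Agent.W2helper64.RK
open Pool.Agent.W2helper64.BH
open Pool.Agent.H373R2.T7 (pz nuB PerB sys_count nuB_le mem_pz)

theorem ev_log_lin (A : ℝ) {b : ℝ} (hb : 0 < b) : ∀ᶠ j : ℕ in atTop, A * Real.log ((j : ℝ) + 1) ≤ b * j := by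
  have h1 : Tendsto (fun x : ℝ => Real.log x / x) atTop (𝓝 0) := by
    have := Real.isLittleO_log_id_atTop.tendsto_div_nhds_zero
    exact this
  have h2 : Tendsto (fun j : ℕ => ((j : ℝ) + 1)) atTop atTop :=
    tendsto_atTop_add_const_right _ _ tendsto_natCast_atTop_atTop
  have h3 := (h1.comp h2).const_mul A
  rw [mul_zero] at h3
  filter_upwards [h3.eventually (gt_mem_nhds (show 0 < b / 2 by positivity)), eventually_ge_atTop 1] with j hj hj1
  have hj0 : (0 : ℝ) < (j : ℝ) + 1 := by positivity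
  simp only [Function.comp_apply] at hj
  rw [← mul_div_assoc, div_lt_iff₀ hj0] at hj
  have : (1 : ℝ) ≤ j := by exact_mod_cast hj1
  nlinarith

theorem ev_const_lin (A : ℝ) {b : ℝ} (hb : 0 < b) : ∀ᶠ j : ℕ in atTop, A ≤ b * j :=
  ((tendsto_natCast_atTop_atTop (R := ℝ)).const_mul_atTop hb).eventually_ge_atTop A

/-- the height of scale `j` -/
noncomputable def TJ (k j : ℕ) : ℝ := (k + 1) * (((j : ℝ) + 1) * Real.log 2)

/-- the sieving limit of scale `j` -/
noncomputable def zJ (θ : ℝ) (j : ℕ) : ℕ := ⌊((2 : ℝ) ^ j) ^ θ⌋₊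

theorem two_pow_exp (j : ℕ) : (2 : ℝ) ^ j = Real.exp (j * Real.log 2) := by
  rw [← Real.exp_log (by norm_num : (0 : ℝ) < 2), Real.log_exp, ← Real.exp_nat_mul]

theorem pow_rpow_exp (j : ℕ) (s : ℝ) : ((2 : ℝ) ^ j) ^ s = Real.exp (s * (j * Real.log 2)) := by
  rw [two_pow_exp, ← Real.exp_mul]
  congr 1
  ring

theorem log_TJ (k j : ℕ) (hT : 1 ≤ TJ k j) : Real.log (TJ k j) ≤ Real.log (k + 1) + Real.log (j + 1) := by
  have hk : (0 : ℝ) < (k : ℝ) + 1 := by positivity
  have hj : (0 : ℝ) < (j : ℝ) + 1 := by positivity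
  rw [← Real.log_mul hk.ne' hj.ne']
  apply Real.log_le_log (by linarith)
  unfold TJ
  apply mul_le_mul_of_nonneg_left _ hk.le
  have h1 : Real.log 2 ≤ 1 := by have := Real.log_two_lt_d9; linarith
  nlinarith

/-- the first phase, almost surely -/
theorem ae_ph1 {g : ℕ} (f : Fin g → ℤ[X]) (k : ℕ) (hd : ∀ i, 0 < (f i).natDegree)
    (hl : ∀ i, 0 < (f i).leadingCoeff) (hk : ∑ i, (f i).natDegree ≤ k) (hinj : Function.Injective f)
    (z : ℕ → ℕ) (hz : ∀ᶠ j : ℕ in atTop, 1 ≤ TJ k j ∧ 1 ≤ V (z j) * TJ k j) {ε : ℝ} (hε : 0 < ε) :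
    ∀ᵐ a ∂law, ∀ᶠ j : ℕ in atTop, ∀ y : ℕ, y ≤ 2 ^ j →
      |cntS f a (z j) (2 ^ j) y - y * PP f a (z j)| ≤ ((2 : ℝ) ^ j) ^ (1 / 2 + ε) := by
  set C : ℝ := CC g (k + lcs f) (g * (g ^ 2 * k) + g * dlc f) with hC
  have hC0 : 0 ≤ C := by rw [hC]; unfold CC; positivity
  have hl2 : 0 < Real.log 2 := Real.log_pos (by norm_num)
  set τ : ℕ → ℝ := fun j => ((2 : ℝ) ^ j) ^ (1 / 2 + ε) / (j + 1) with hτ
  have hτ0 : ∀ j, 0 < τ j := fun j => by simp only [hτ]; positivity
  have hb := bc (fun j : ℕ => ⋃ l ∈ range (j + 1), ⋃ t ∈ range (2 ^ (j - l)),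
    {a | τ j ≤ |cntS f a (z j) (2 ^ j + t * 2 ^ l) (2 ^ l) - ((2 ^ l : ℕ) : ℝ) * PP f a (z j)|}) 1 (by norm_num) (by
      set b : ℝ := 2 * ε * Real.log 2 with hb
      have hb0 : 0 < b := by positivity
      filter_upwards [hz, ev_log_lin C (show 0 < b / 4 by positivity), ev_const_lin (C * Real.log (k + 1))
        (show 0 < b / 4 by positivity), ev_log_lin 5 (show 0 < b / 2 by positivity), eventually_ge_atTop 1]
        with j hj h1 h2 h3 hj1
      have hj0 : (1 : ℝ) ≤ j := by exact_mod_cast hj1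
      set W : ℝ := Real.exp (C * Real.log (TJ k j)) with hW
      have hW0 : 0 < W := Real.exp_pos _
      calc law (⋃ l ∈ range (j + 1), ⋃ t ∈ range (2 ^ (j - l)),
            {a | τ j ≤ |cntS f a (z j) (2 ^ j + t * 2 ^ l) (2 ^ l) - ((2 ^ l : ℕ) : ℝ) * PP f a (z j)|})
          ≤ ∑ l ∈ range (j + 1), ∑ t ∈ range (2 ^ (j - l)), law {a | τ j ≤
            |cntS f a (z j) (2 ^ j + t * 2 ^ l) (2 ^ l) - ((2 ^ l : ℕ) : ℝ) * PP f a (z j)|} :=
            (measure_biUnion_finset_le _ _).trans (Finset.sum_le_sum fun l _ => measure_biUnion_finset_le _ _)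
        _ ≤ ∑ l ∈ range (j + 1), ∑ _t ∈ range (2 ^ (j - l)), ENNReal.ofReal (W * ((2 ^ l : ℕ) : ℝ) / τ j ^ 2) :=
            Finset.sum_le_sum fun l _ => Finset.sum_le_sum fun t _ =>
              law_cheb f k hd hl hk hinj hj.1 hj.2 _ _ (hτ0 j)
        _ = ∑ l ∈ range (j + 1), ENNReal.ofReal (W * 2 ^ j / τ j ^ 2) := by
            refine Finset.sum_congr rfl fun l hl => ?_
            rw [Finset.mem_range] at hl
            rw [sum_const, card_range, nsmul_eq_mul, ← ENNReal.ofReal_natCast, ← ENNReal.ofReal_mul (by positivity)]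
            congr 1
            have e1 : (2 : ℝ) ^ j = 2 ^ (j - l) * 2 ^ l := by rw [← pow_add, Nat.sub_add_cancel (by omega)]
            push_cast
            rw [e1]
            ring
        _ = ENNReal.ofReal ((j + 1 : ℕ) * (W * 2 ^ j / τ j ^ 2)) := by
            rw [sum_const, card_range, nsmul_eq_mul, ENNReal.ofReal_mul (by positivity), ENNReal.ofReal_natCast]
        _ ≤ _ := by
            apply ENNReal.ofReal_le_ofReal
            have e2 : τ j ^ 2 = ((2 : ℝ) ^ j) * Real.exp (b * j) / (j + 1) ^ 2 := by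
              simp only [hτ]
              rw [div_pow]
              congr 1
              rw [pow_rpow_exp, two_pow_exp, ← Real.exp_nat_mul, ← Real.exp_add]
              congr 1
              rw [hb]
              push_cast
              ring
            have e3 : ((j + 1 : ℕ) : ℝ) * (W * 2 ^ j / τ j ^ 2) = ((j : ℝ) + 1) ^ 3 * W / Real.exp (b * j) := by
              rw [e2]
              push_cast
              field_simp
            rw [e3, one_mul, div_le_div_iff₀ (Real.exp_pos _) (by positivity), one_mul]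
            have e4 : W ≤ Real.exp (b / 2 * j) := by
              rw [hW]
              apply Real.exp_le_exp.mpr
              have := mul_le_mul_of_nonneg_left (log_TJ k j hj.1) hC0
              rw [mul_add] at this
              linarith
            have e5 : ((j : ℝ) + 1) ^ 5 ≤ Real.exp (b / 2 * j) := by
              calc ((j : ℝ) + 1) ^ 5 = Real.exp (5 * Real.log ((j : ℝ) + 1)) := by
                    rw [← Real.exp_log (by positivity : (0 : ℝ) < (j : ℝ) + 1), Real.log_exp, ← Real.exp_nat_mul]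
                    norm_num
                _ ≤ Real.exp (b / 2 * j) := Real.exp_le_exp.mpr h3
            calc ((j : ℝ) + 1) ^ 3 * W * j ^ 2 ≤ ((j : ℝ) + 1) ^ 3 * W * (j + 1) ^ 2 := by
                  apply mul_le_mul_of_nonneg_left _ (by positivity)
                  exact pow_le_pow_left₀ (by linarith) (by linarith) 2
              _ = ((j : ℝ) + 1) ^ 5 * W := by ring
              _ ≤ Real.exp (b / 2 * j) * Real.exp (b / 2 * j) := mul_le_mul e5 e4 hW0.le (Real.exp_pos _).le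
              _ = Real.exp (b * j) := by rw [← Real.exp_add]; congr 1; ring)
  filter_upwards [hb] with a ha
  filter_upwards [ha] with j hj y hy
  simp only [Set.mem_iUnion, exists_prop, not_exists, not_and, Finset.mem_range] at hj
  set G : ℕ → ℝ := fun y => cntS f a (z j) (2 ^ j) y - y * PP f a (z j) with hG
  have h := chaining G j (hτ0 j).le (fun l hl t ht => by
    have h1 := hj l (by omega) t ht
    have h2 : ¬ (τ j ≤ |cntS f a (z j) (2 ^ j + t * 2 ^ l) (2 ^ l) - ((2 ^ l : ℕ) : ℝ) * PP f a (z j)|) := h1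
    have h3 : G ((t + 1) * 2 ^ l) - G (t * 2 ^ l) = cntS f a (z j) (2 ^ j + t * 2 ^ l) (2 ^ l) -
        ((2 ^ l : ℕ) : ℝ) * PP f a (z j) := by
      simp only [hG]
      have e1 : (t + 1) * 2 ^ l = t * 2 ^ l + 2 ^ l := by ring
      rw [e1, cntS_add]
      push_cast
      ring
    rw [h3]
    exact (not_le.mp h2).le) y hy
  have hG0 : G 0 = 0 := by
    simp only [hG]
    unfold cntS
    simp
  rw [hG0, sub_zero] at h
  refine h.trans (le_of_eq ?_)
  simp only [hτ]
  have : ((j : ℝ) + 1) ≠ 0 := by positivity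
  field_simp

theorem zJ_facts {θ : ℝ} (hθ : 0 < θ) (j : ℕ) (hj : 1 ≤ ((2 : ℝ) ^ j) ^ θ) :
    1 ≤ zJ θ j ∧ ((2 : ℝ) ^ j) ^ θ / 2 ≤ zJ θ j ∧ (zJ θ j : ℝ) ≤ ((2 : ℝ) ^ j) ^ θ := by
  have h1 : 1 ≤ zJ θ j := by
    unfold zJ
    apply Nat.le_floor
    push_cast
    exact hj
  refine ⟨h1, ?_, Nat.floor_le (by positivity)⟩
  have h2 : ((2 : ℝ) ^ j) ^ θ < (⌊((2 : ℝ) ^ j) ^ θ⌋₊ : ℝ) + 1 := Nat.lt_floor_add_one _
  have h3 : (zJ θ j : ℝ) = (⌊((2 : ℝ) ^ j) ^ θ⌋₊ : ℝ) := rfl
  have h4 : (1 : ℝ) ≤ zJ θ j := by exact_mod_cast h1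
  rw [h3] at h4 ⊢
  linarith

/-- the second phase, almost surely -/
theorem ae_ph2 {g : ℕ} (f : Fin g → ℤ[X]) (k : ℕ) (hk1 : 1 ≤ k) (hd : ∀ i, 0 < (f i).natDegree)
    (hl : ∀ i, 0 < (f i).leadingCoeff) (hk : ∑ i, (f i).natDegree ≤ k)
    {θ : ℝ} (hθ0 : 0 < θ) (hθ1 : θ ≤ 1) {ε : ℝ} (hε : 0 < ε) :
    ∀ᵐ a ∂law, ∀ᶠ j : ℕ in atTop, ∀ y : ℕ, 2 ^ j ≤ y → y ≤ 2 ^ (j + 1) →
      NT f (TJ k j) (2 ^ j) y ((PX (TJ k j)).restrict a) ≤
        WT f (TJ k j) (zJ θ j) (2 ^ j) y (((2 : ℝ) ^ j) ^ (-(θ / 2))) ((PX (TJ k j)).restrict a) +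
          ((2 : ℝ) ^ j) ^ (1 - θ / 2 + ε) ∧
      WT f (TJ k j) (zJ θ j) (2 ^ j) y (-((2 : ℝ) ^ j) ^ (-(θ / 2))) ((PX (TJ k j)).restrict a) -
          ((2 : ℝ) ^ j) ^ (1 - θ / 2 + ε) ≤ NT f (TJ k j) (2 ^ j) y ((PX (TJ k j)).restrict a) := by
  have hl2 : 0 < Real.log 2 := Real.log_pos (by norm_num)
  have hk0 : (1 : ℝ) ≤ k := by exact_mod_cast hk1
  have key : ∀ σ : ℝ, (σ = 1 ∨ σ = -1) → ∀ᵐ a ∂law, ∀ᶠ j : ℕ in atTop,
      a ∉ (⋃ y ∈ Icc (2 ^ j) (2 ^ (j + 1)), {a | ((2 : ℝ) ^ j) ^ (1 - θ / 2 + ε) ≤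
        σ * (NT f (TJ k j) (2 ^ j) y ((PX (TJ k j)).restrict a) -
          WT f (TJ k j) (zJ θ j) (2 ^ j) y (σ * ((2 : ℝ) ^ j) ^ (-(θ / 2))) ((PX (TJ k j)).restrict a))}) := by
    intro σ hσ
    apply bc _ 1 (by norm_num)
    filter_upwards [ev_const_lin ((lcs f : ℝ) + 2 * g + 2) (show 0 < θ * Real.log 2 / 2 by positivity),
      ev_log_lin 2 (show (0 : ℝ) < 1 by norm_num),
      ev_log_lin 2 (show 0 < ε * Real.log 2 / 2 by positivity),
      ev_const_lin (Real.log (15 * k)) (show 0 < ε * Real.log 2 / 2 by positivity), eventually_ge_atTop 2]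
      with j h1 h2 h3 h4 hj2
    have hj0 : (2 : ℝ) ≤ j := by exact_mod_cast hj2
    set N : ℝ := (2 : ℝ) ^ j with hN
    have hN0 : 0 < N := by positivity
    have hN1 : 1 ≤ N := one_le_pow₀ (by norm_num)
    have hNθ : (lcs f : ℝ) + 2 * g + 2 ≤ N ^ θ / 2 := by
      rw [hN, pow_rpow_exp]
      have e1 := Real.add_one_le_exp (θ * (j * Real.log 2))
      have : θ * Real.log 2 / 2 * j = θ * (j * Real.log 2) / 2 := by ring
      linarith
    have hz := zJ_facts hθ0 j (by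
      rw [← hN]
      have : (0 : ℝ) ≤ lcs f := Nat.cast_nonneg _
      have : (0 : ℝ) ≤ g := Nat.cast_nonneg _
      linarith)
    rw [← hN] at hz
    obtain ⟨hz1, hz2, hz3⟩ := hz
    have hzbig : lcs f + 2 * g ≤ zJ θ j := by
      have : ((lcs f + 2 * g : ℕ) : ℝ) ≤ zJ θ j := by push_cast; linarith
      exact_mod_cast this
    set d : ℝ := 5 * k * N ^ (1 - θ) with hd'
    set v : ℝ := N ^ (-(θ / 2)) / d with hv
    have hd0 : 0 < d := by positivity
    have hv0 : 0 ≤ v := by positivity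
    have hvd : v * d = N ^ (-(θ / 2)) := by rw [hv]; field_simp
    have hvd1 : v * d ≤ 1 := by
      rw [hvd]
      exact Real.rpow_le_one_of_one_le_of_nonpos hN1 (by linarith)
    have hd1 : ∀ y : ℕ, y ≤ 2 ^ (j + 1) → ((y : ℝ) / zJ θ j + 1) * k ≤ d := by
      intro y hy
      have hy' : (y : ℝ) ≤ 2 * N := by
        have : (y : ℝ) ≤ ((2 ^ (j + 1) : ℕ) : ℝ) := by exact_mod_cast hy
        push_cast at this
        rw [pow_succ] at this
        rw [hN]; linarith
      have hz0 : (0 : ℝ) < zJ θ j := by exact_mod_cast hz1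
      have e1 : (y : ℝ) / zJ θ j ≤ 4 * N ^ (1 - θ) := by
        rw [div_le_iff₀ hz0]
        have e2 : N ^ (1 - θ) * N ^ θ = N := by
          rw [← Real.rpow_add hN0]
          norm_num
        have e3 : N ^ (1 - θ) * (N ^ θ / 2) ≤ N ^ (1 - θ) * zJ θ j :=
          mul_le_mul_of_nonneg_left hz2 (by positivity)
        have e4 : N ^ (1 - θ) * (N ^ θ / 2) = N / 2 := by rw [← mul_div_assoc, e2]
        nlinarith
      have e5 : 1 ≤ N ^ (1 - θ) := Real.one_le_rpow hN1 (by linarith)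
      calc ((y : ℝ) / zJ θ j + 1) * k ≤ (4 * N ^ (1 - θ) + N ^ (1 - θ)) * k :=
            mul_le_mul_of_nonneg_right (by linarith) (by linarith)
        _ = d := by rw [hd']; ring
    have hvdev : v * N ^ (1 - θ / 2 + ε) = N ^ ε / (5 * k) := by
      rw [hv, hd']
      have e1 : N ^ (1 - θ / 2 + ε) = N ^ (1 - θ) * N ^ (θ / 2) * N ^ ε := by
        rw [← Real.rpow_add hN0, ← Real.rpow_add hN0]
        congr 1; ring
      have e2 : N ^ (-(θ / 2)) * N ^ (θ / 2) = 1 := by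
        rw [← Real.rpow_add hN0]
        norm_num
      rw [e1]
      have e3 : N ^ (-(θ / 2)) / (5 * k * N ^ (1 - θ)) * (N ^ (1 - θ) * N ^ (θ / 2) * N ^ ε) =
          (N ^ (-(θ / 2)) * N ^ (θ / 2)) * N ^ ε / (5 * k) := by
        have : N ^ (1 - θ) ≠ 0 := by positivity
        field_simp
      rw [e3, e2, one_mul]
    have hlarge : 3 * (j : ℝ) ≤ v * N ^ (1 - θ / 2 + ε) := by
      rw [hvdev, le_div_iff₀ (by positivity)]
      have e1 : (15 * k : ℝ) * (j : ℝ) ≤ N ^ ε := by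
        rw [hN, pow_rpow_exp]
        have e2 : ε * (j * Real.log 2) = ε * Real.log 2 / 2 * j + ε * Real.log 2 / 2 * j := by ring
        rw [e2, Real.exp_add]
        have e3 : (15 * k : ℝ) ≤ Real.exp (ε * Real.log 2 / 2 * j) := by
          rw [← Real.log_le_iff_le_exp (by positivity)]
          exact h4
        have e4 : (j : ℝ) ≤ Real.exp (ε * Real.log 2 / 2 * j) := by
          calc (j : ℝ) ≤ (j : ℝ) + 1 := by linarith
            _ = Real.exp (Real.log ((j : ℝ) + 1)) := (Real.exp_log (by positivity)).symm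
            _ ≤ _ := Real.exp_le_exp.mpr (by
              have : 0 ≤ Real.log ((j : ℝ) + 1) := Real.log_nonneg (by linarith)
              linarith)
        exact mul_le_mul e3 e4 (by linarith) (Real.exp_pos _).le
      nlinarith
    calc law (⋃ y ∈ Icc (2 ^ j) (2 ^ (j + 1)), {a | N ^ (1 - θ / 2 + ε) ≤
        σ * (NT f (TJ k j) (2 ^ j) y ((PX (TJ k j)).restrict a) -
          WT f (TJ k j) (zJ θ j) (2 ^ j) y (σ * N ^ (-(θ / 2))) ((PX (TJ k j)).restrict a))})
        ≤ ∑ y ∈ Icc (2 ^ j) (2 ^ (j + 1)), law {a | N ^ (1 - θ / 2 + ε) ≤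
        σ * (NT f (TJ k j) (2 ^ j) y ((PX (TJ k j)).restrict a) -
          WT f (TJ k j) (zJ θ j) (2 ^ j) y (σ * N ^ (-(θ / 2))) ((PX (TJ k j)).restrict a))} :=
          measure_biUnion_finset_le _ _
      _ ≤ ∑ _y ∈ Icc (2 ^ j) (2 ^ (j + 1)), ENNReal.ofReal (Real.exp (-(3 * (j : ℝ)))) := by
          refine Finset.sum_le_sum fun y hy => ?_
          rw [mem_Icc] at hy
          have h5 := law_ph2 f k hd hl hk (T := TJ k j) (z := zJ θ j) (m := 2 ^ j) (y := y) (v := v) (d := d)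
            (dev := N ^ (1 - θ / 2 + ε)) hz1 hzbig hv0 hvd1 (hd1 y hy.2) hσ
          rw [hvd] at h5
          refine h5.trans (ENNReal.ofReal_le_ofReal (Real.exp_le_exp.mpr ?_))
          linarith
      _ = ENNReal.ofReal ((2 ^ (j + 1) + 1 - 2 ^ j : ℕ) * Real.exp (-(3 * (j : ℝ)))) := by
          rw [sum_const, nsmul_eq_mul, Nat.card_Icc, ENNReal.ofReal_mul (by positivity), ENNReal.ofReal_natCast]
      _ ≤ _ := by
          apply ENNReal.ofReal_le_ofReal
          have e1 : ((2 ^ (j + 1) + 1 - 2 ^ j : ℕ) : ℝ) ≤ 2 * N := by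
            have e2 : 2 ^ (j + 1) + 1 - 2 ^ j ≤ 2 * 2 ^ j := by
              have := Nat.one_le_two_pow (n := j)
              rw [pow_succ]
              omega
            have : ((2 ^ (j + 1) + 1 - 2 ^ j : ℕ) : ℝ) ≤ ((2 * 2 ^ j : ℕ) : ℝ) := by exact_mod_cast e2
            push_cast at this ⊢
            exact this
          have e3 : N ≤ Real.exp j := by
            rw [hN, two_pow_exp]
            apply Real.exp_le_exp.mpr
            have : Real.log 2 ≤ 1 := by have := Real.log_two_lt_d9; linarith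
            nlinarith
          have e4 : ((2 ^ (j + 1) + 1 - 2 ^ j : ℕ) : ℝ) * Real.exp (-(3 * (j : ℝ))) ≤ 2 * Real.exp (-(2 * (j : ℝ))) := by
            calc ((2 ^ (j + 1) + 1 - 2 ^ j : ℕ) : ℝ) * Real.exp (-(3 * (j : ℝ))) ≤
                  (2 * Real.exp j) * Real.exp (-(3 * (j : ℝ))) :=
                  mul_le_mul_of_nonneg_right (by linarith) (Real.exp_pos _).le
              _ = 2 * Real.exp (-(2 * (j : ℝ))) := by
                  rw [mul_assoc, ← Real.exp_add]; congr 2; ring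
          refine e4.trans ?_
          rw [Real.exp_neg, one_mul, ← div_eq_mul_inv, div_le_div_iff₀ (Real.exp_pos _) (by positivity), one_mul]
          have e5 : ((j : ℝ) + 1) ^ 2 ≤ Real.exp (2 * j) := by
            have e6 := Real.add_one_le_exp (j : ℝ)
            calc ((j : ℝ) + 1) ^ 2 ≤ Real.exp j ^ 2 := pow_le_pow_left₀ (by positivity) e6 2
              _ = Real.exp (2 * j) := by rw [← Real.exp_nat_mul]; norm_num
          have e7 : 2 * (j : ℝ) ^ 2 ≤ Real.exp (2 * j) := by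
            have e8 : Real.exp (2 * (j : ℝ)) = Real.exp j * Real.exp j := by rw [← Real.exp_add]; congr 1; ring
            have e9 : 1 + j + (j : ℝ) ^ 2 / 2 ≤ Real.exp j := by
              have := Real.quadratic_le_exp_of_nonneg (by linarith : (0 : ℝ) ≤ j)
              linarith
            rw [e8]
            nlinarith
          exact e7
  filter_upwards [key 1 (Or.inl rfl), key (-1) (Or.inr rfl)] with a h1 h2
  filter_upwards [h1, h2] with j h3 h4 y hy1 hy2
  simp only [Set.mem_iUnion, exists_prop, not_exists, not_and] at h3 h4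
  have h5 := h3 y (mem_Icc.mpr ⟨hy1, hy2⟩)
  have h6 := h4 y (mem_Icc.mpr ⟨hy1, hy2⟩)
  have h5' : ¬ (((2 : ℝ) ^ j) ^ (1 - θ / 2 + ε) ≤ 1 * (NT f (TJ k j) (2 ^ j) y ((PX (TJ k j)).restrict a) -
          WT f (TJ k j) (zJ θ j) (2 ^ j) y (1 * ((2 : ℝ) ^ j) ^ (-(θ / 2))) ((PX (TJ k j)).restrict a))) := h5
  have h6' : ¬ (((2 : ℝ) ^ j) ^ (1 - θ / 2 + ε) ≤ -1 * (NT f (TJ k j) (2 ^ j) y ((PX (TJ k j)).restrict a) -
          WT f (TJ k j) (zJ θ j) (2 ^ j) y (-1 * ((2 : ℝ) ^ j) ^ (-(θ / 2))) ((PX (TJ k j)).restrict a))) := h6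
  rw [one_mul, one_mul, not_le] at h5'
  rw [neg_one_mul (((2 : ℝ) ^ j) ^ (-(θ / 2))), not_le] at h6'
  constructor <;> linarith

end Pool.Agent.W2helper64.BQ
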