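import Pool.Agent.W2helper64.BQ.Var

set_option autoImplicit false
set_option linter.unusedSectionVars false

/-!
One block `(m, y]` with general parameters.
-/

namespace Pool.Agent.W2helper64.BQ

open Finset Filter Topology Polynomial MeasureTheory Pool.Agent.W2helper64.RS Pool.Agent.W2helper64.RK
open Pool.Agent.W2helper64.BH
open Pool.Agent.H373R2.T7 (pz nuB PerB sys_count nuB_le mem_pz)

/-- the large primes -/
noncomputable def KT (T : ℝ) (z : ℕ) : Finset {p // p ∈ PX T} :=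
  (univ : Finset {p // p ∈ PX T}).filter (fun p : {p // p ∈ PX T} => z < ((p : Nat.Primes) : ℕ))

/-- the small primes -/
noncomputable def K0T (T : ℝ) (z : ℕ) : Finset {p // p ∈ PX T} :=
  (univ : Finset {p // p ∈ PX T}).filter (fun p : {p // p ∈ PX T} => ¬ z < ((p : Nat.Primes) : ℕ))

/-- the predicted number of survivors -/
noncomputable def WT {g : ℕ} (f : Fin g → ℤ[X]) (T : ℝ) (z m x : ℕ) (u : ℝ)
    (a : (p : {p // p ∈ PX T}) → ZMod ((p : Nat.Primes) : ℕ)) : ℝ :=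
  ∑ n ∈ survW (Ioc m x) (fun (p : {p // p ∈ PX T}) n => Ph f (p : Nat.Primes) n) (K0T T z) a,
    ∏ p ∈ KT T z, (1 - (1 - u) * ((Ph f (p : Nat.Primes) n).card : ℝ) / (((p : Nat.Primes) : ℕ) : ℝ))

/-- the number of survivors -/
noncomputable def NT {g : ℕ} (f : Fin g → ℤ[X]) (T : ℝ) (m x : ℕ)
    (a : (p : {p // p ∈ PX T}) → ZMod ((p : Nat.Primes) : ℕ)) : ℝ :=
  ((survW (Ioc m x) (fun (p : {p // p ∈ PX T}) n => Ph f (p : Nat.Primes) n) univ a).card : ℝ)

/-- the properties of a block -/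
structure Blk {g : ℕ} (f : Fin g → ℤ[X]) (T : ℝ) (z m M : ℕ) : Prop where
  z1 : 1 ≤ z
  zg : 2 * g ≤ z
  T1 : 1 ≤ T
  sys : ∀ n : ℕ, m ≤ n → n ≤ M → (∀ i, 8 ≤ (f i).eval (n : ℤ)) ∧
    (∀ i, 2 ≤ lam f i n ∧ lam f i n ≤ T ∧ 1 ≤ V z * lam f i n) ∧
    (∀ i j, i ≠ j → (f i).eval (n : ℤ) - (f j).eval (n : ℤ) ≠ 0) ∧
    (∀ i j, i ≠ j → Real.log |(((f i).eval (n : ℤ) - (f j).eval (n : ℤ) : ℤ) : ℝ)| ≤ T)
  mono : ∀ n : ℕ, m ≤ n → ∀ i, 2 ≤ lam f i n ∧ lam f i n ≤ lam f i (n + 1)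

/-- all primes `≤ z` are relevant, if the block is not empty -/
theorem mem_PX_of_le {T : ℝ} {z : ℕ} (hVT : 1 ≤ V z * T) (hT : 0 ≤ T) (p : Nat.Primes) (hp : (p : ℕ) ≤ z) :
    p ∈ PX T := mem_PX.mpr (hVT.trans (mul_le_mul_of_nonneg_right (V_anti hp) hT))

theorem surv_K0T {g : ℕ} {f : Fin g → ℤ[X]} {T : ℝ} {z m M : ℕ} (G : Blk f T z m M) {y : ℕ} (hy : y ≤ M)
    (a : (p : Nat.Primes) → ZMod (p : ℕ)) :
    survW (Ioc m y) (fun (p : {p // p ∈ PX T}) n => Ph f (p : Nat.Primes) n) (K0T T z)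
      ((PX T).restrict a) =
    @Finset.filter ℕ (fun n => ∀ p ∈ pz z, ¬ Hit f a p n) (Classical.decPred _) (Ioc m y) := by
  classical
  ext n
  rw [mf']
  unfold survW
  rw [Finset.mem_filter]
  refine and_congr_right fun hn => ?_
  rw [mem_Ioc] at hn
  obtain ⟨-, h2, -, -⟩ := G.sys n hn.1.le (hn.2.trans hy)
  constructor
  · rintro h p hp ⟨hpp, i, hi⟩
    obtain ⟨hpz, -⟩ := mem_pz.1 hp
    have hVp : V z ≤ V p := V_anti hpz
    obtain ⟨l1, l2, l3⟩ := h2 i
    have hlam : 1 ≤ V p * lam f i n := l3.trans (mul_le_mul_of_nonneg_right hVp (by linarith))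
    have hPX : (⟨p, hpp⟩ : Nat.Primes) ∈ PX T :=
      mem_PX.mpr (hlam.trans (mul_le_mul_of_nonneg_left l2 (V_nonneg _)))
    refine h ⟨⟨p, hpp⟩, hPX⟩ ?_ ?_
    · unfold K0T
      rw [Finset.mem_filter]
      exact ⟨Finset.mem_univ _, not_lt.mpr hpz⟩
    · unfold Ph
      rw [Finset.mem_image]
      refine ⟨i, ?_, hi⟩
      unfold rel
      rw [Finset.mem_filter]
      exact ⟨Finset.mem_univ _, hlam⟩
  · intro h p hp hmem
    unfold K0T at hp
    rw [Finset.mem_filter] at hp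
    unfold Ph at hmem
    rw [Finset.mem_image] at hmem
    obtain ⟨i, -, hi⟩ := hmem
    refine h ((p : Nat.Primes) : ℕ) ?_ ⟨(p : Nat.Primes).2, i, hi⟩
    rw [mem_pz]
    exact ⟨not_lt.mp hp.2, (p : Nat.Primes).2⟩

theorem WT_close {g : ℕ} {f : Fin g → ℤ[X]} {T : ℝ} {z m M : ℕ} (G : Blk f T z m M) {y : ℕ} (hy : y ≤ M)
    {u : ℝ} (hu : |u| ≤ 1) (a : (p : Nat.Primes) → ZMod (p : ℕ)) :
    |WT f T z m y u ((PX T).restrict a) - (1 / V z) ^ g *
      ∑ n ∈ @Finset.filter ℕ (fun n => ∀ p ∈ pz z, ¬ Hit f a p n) (Classical.decPred _) (Ioc m y),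
        hh f n| ≤ y * (|u| * g * T + g * g ^ 2 * (2 * T) / z + g ^ 2 * (2 / z) +
          (1 / V z) ^ g * (g * (2 / z))) := by
  classical
  unfold WT
  rw [surv_K0T G hy a, mul_sum, ← sum_sub_distrib]
  set S := @Finset.filter ℕ (fun n => ∀ p ∈ pz z, ¬ Hit f a p n) (Classical.decPred _) (Ioc m y)
  have hT0 : 0 < T := by linarith [G.T1]
  have hz0 : (0 : ℝ) < z := by exact_mod_cast G.z1
  have hVz := V_pos z
  set δ : ℝ := |u| * g * T + g * g ^ 2 * (2 * T) / z + g ^ 2 * (2 / z) +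
          (1 / V z) ^ g * (g * (2 / z)) with hδ
  have hδ0 : 0 ≤ δ := by positivity
  have h1 : ∀ n ∈ S, |∏ p ∈ KT T z, (1 - (1 - u) * ((Ph f (p : Nat.Primes) n).card : ℝ) /
      (((p : Nat.Primes) : ℕ) : ℝ)) - (1 / V z) ^ g * hh f n| ≤ δ := by
    intro n hn
    have hn' := (mf'.mp hn).1
    rw [mem_Ioc] at hn'
    obtain ⟨-, h2, h3, h4⟩ := G.sys n hn'.1.le (hn'.2.trans hy)
    have h5 := pointwise f (u := u) G.T1 G.z1 G.zg hT0.le (fun i => by linarith [(h2 i).1]) (fun i => (h2 i).2.1)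
      (fun i => (h2 i).2.2) h3 h4 hu
    refine h5.trans ?_
    rw [hδ]
    refine add_le_add (add_le_add_left (add_le_add_left ?_ _) _) le_rfl
    apply mul_le_mul_of_nonneg_left _ (by positivity)
    have := Real.log_le_sub_one_of_pos hT0
    linarith
  refine (abs_sum_le_sum_abs _ _).trans ((sum_le_sum h1).trans ?_)
  rw [sum_const, nsmul_eq_mul]
  apply mul_le_mul_of_nonneg_right _ hδ0
  have h2 : S.card ≤ y := by
    have h3 : S.card ≤ (Ioc m y).card := card_le_card fun n hn => (mf'.mp hn).1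
    rw [Nat.card_Ioc] at h3
    omega
  exact_mod_cast h2

theorem hh_blk {g : ℕ} {f : Fin g → ℤ[X]} {T : ℝ} {z m M : ℕ} (G : Blk f T z m M) (n : ℕ) (hn : m ≤ n) :
    0 ≤ hh f n ∧ hh f n ≤ 1 ∧ hh f (n + 1) ≤ hh f n := by
  unfold hh
  have h := G.mono n hn
  have h' := G.mono (n + 1) (by omega)
  refine ⟨prod_nonneg fun i _ => ?_, prod_le_one (fun i _ => ?_) (fun i _ => ?_), prod_le_prod (fun i _ => ?_) fun i _ => ?_⟩
  · have := (h i).1; positivity
  · have := (h i).1; positivity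
  · have := (h i).1
    rw [div_le_one (by linarith)]; linarith
  · have := (h' i).1; positivity
  · exact one_div_le_one_div_of_le (by linarith [(h i).1]) (h i).2

/-- the deterministic estimate for one block -/
theorem NT_close {g : ℕ} {f : Fin g → ℤ[X]} {T : ℝ} {z m M : ℕ} (G : Blk f T z m M) {y : ℕ} (hmy : m ≤ y)
    (hy : y ≤ M) {u dev err : ℝ} (hu0 : 0 ≤ u) (hu : u ≤ 1) (a : (p : Nat.Primes) → ZMod (p : ℕ))
    (hc1 : NT f T m y ((PX T).restrict a) ≤ WT f T z m y u ((PX T).restrict a) + dev)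
    (hc2 : WT f T z m y (-u) ((PX T).restrict a) - dev ≤ NT f T m y ((PX T).restrict a))
    (hcount : ∀ y', m ≤ y' → y' ≤ y →
      |(((@Finset.filter ℕ (fun n => ∀ p ∈ pz z, ¬ Hit f a p n) (Classical.decPred _) (Ioc m y')).card : ℕ) : ℝ) -
        ((y' : ℝ) - m) * PP f a z| ≤ err) :
    |NT f T m y ((PX T).restrict a) - PP f a z / V z ^ g * ∑ n ∈ Ioc m y, hh f n| ≤
      dev + y * (u * g * T + g * g ^ 2 * (2 * T) / z + g ^ 2 * (2 / z) + (1 / V z) ^ g * (g * (2 / z))) +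
        (1 / V z) ^ g * err := by
  have hVz := V_pos z
  set I : ℝ := (1 / V z) ^ g with hI
  have hI0 : 0 ≤ I := by positivity
  set M' : ℝ := ∑ n ∈ @Finset.filter ℕ (fun n => ∀ p ∈ pz z, ¬ Hit f a p n) (Classical.decPred _) (Ioc m y),
        hh f n with hM
  set H : ℝ := ∑ n ∈ Ioc m y, hh f n with hH
  have hup : |u| = u := abs_of_nonneg hu0
  have hun : |-u| = u := by rw [abs_neg, hup]
  have w1 := WT_close G hy (u := u) (by rw [hup]; exact hu) a
  have w2 := WT_close G hy (u := -u) (by rw [hun]; exact hu) a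
  rw [hup] at w1
  rw [hun] at w2
  set D : ℝ := y * (u * g * T + g * g ^ 2 * (2 * T) / z + g ^ 2 * (2 / z) + I * (g * (2 / z)))
  have hab : |M' - PP f a z * H| ≤ err := by
    have herr0 : 0 ≤ err := (abs_nonneg _).trans (hcount m le_rfl hmy)
    have h1 := abel (hh f) m (fun n hn => (hh_blk G n hn).1) (fun n hn => (hh_blk G n hn).2.2)
      (fun n => ∀ p ∈ pz z, ¬ Hit f a p n) (PP f a z) err y hmy
      (fun y' h1 h2 => hcount y' h1 h2)
    refine h1.trans ?_
    exact mul_le_of_le_one_right herr0 (hh_blk G m le_rfl).2.1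
  have hab2 : |I * M' - I * (PP f a z * H)| ≤ I * err := by
    rw [← mul_sub, abs_mul, abs_of_nonneg hI0]
    exact mul_le_mul_of_nonneg_left hab hI0
  have hSS : PP f a z / V z ^ g * H = I * (PP f a z * H) := by
    rw [hI, one_div, inv_pow]; ring
  rw [hSS]
  rw [abs_le] at w1 w2 hab2 ⊢
  constructor <;> linarith

theorem R_iffT {g : ℕ} {f : Fin g → ℤ[X]} {T : ℝ} {z m M : ℕ} (G : Blk f T z m M)
    (a : (p : Nat.Primes) → ZMod (p : ℕ))
    {n : ℕ} (hn1 : m ≤ n) (hn2 : n ≤ M) : AllR f a n ↔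
      ∀ p : {p // p ∈ PX T}, ((PX T).restrict a) p ∉ Ph f (p : Nat.Primes) n := by
  obtain ⟨h8, h2, -, -⟩ := G.sys n hn1 hn2
  constructor
  · intro h p hmem
    unfold Ph at hmem
    rw [Finset.mem_image] at hmem
    obtain ⟨i, hi, hia⟩ := hmem
    unfold rel at hi
    have hi2 := (Finset.mem_filter.mp hi).2
    obtain ⟨r, hr, hreq⟩ := h i
    obtain ⟨-, hr2⟩ := hr
    have hlam : lam f i n = Real.log r := by
      unfold lam
      rw [← hreq, Int.cast_natCast]
    rw [hlam] at hi2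
    apply hr2 (p : Nat.Primes) hi2
    rw [← hreq, Int.cast_natCast] at hia
    exact hia
  · intro h i
    have h8i := h8 i
    have hto : (((f i).eval (n : ℤ)).toNat : ℤ) = (f i).eval (n : ℤ) := Int.toNat_of_nonneg (by linarith)
    refine ⟨((f i).eval (n : ℤ)).toNat, ⟨?_, ?_⟩, hto⟩
    · have e1 : Real.exp 2 ≤ 8 := by
        have : Real.exp 2 = Real.exp 1 * Real.exp 1 := by rw [← Real.exp_add]; norm_num
        rw [this]
        have := Real.exp_one_lt_d9
        have := Real.exp_pos 1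
        nlinarith
      refine e1.trans ?_
      have : 8 ≤ ((f i).eval (n : ℤ)).toNat := by omega
      exact_mod_cast this
    · intro p hp heq
      have hlam : lam f i n = Real.log (((f i).eval (n : ℤ)).toNat : ℕ) := by
        unfold lam
        rw [← Int.cast_natCast (R := ℝ), hto]
      rw [← hlam] at hp
      have hmem : p ∈ PX T := by
        rw [mem_PX]
        exact hp.trans (mul_le_mul_of_nonneg_left (h2 i).2.1 (V_nonneg _))
      refine h ⟨p, hmem⟩ ?_
      unfold Ph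
      rw [Finset.mem_image]
      refine ⟨i, ?_, ?_⟩
      · unfold rel
        rw [Finset.mem_filter]
        exact ⟨Finset.mem_univ _, hp⟩
      · rw [← hto, Int.cast_natCast]
        exact heq

/-- the count in the block is the number of survivors -/
theorem NT_eq {g : ℕ} {f : Fin g → ℤ[X]} {T : ℝ} {z m M : ℕ} (G : Blk f T z m M) {y : ℕ}
    (hy : y ≤ M) (a : (p : Nat.Primes) → ZMod (p : ℕ)) :
    ((@Finset.filter ℕ (AllR f a) (Classical.decPred _) (Ioc m y)).card : ℝ) = NT f T m y ((PX T).restrict a) := by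
  classical
  unfold NT
  congr 2
  ext n
  unfold survW
  rw [mf', Finset.mem_filter]
  refine and_congr_right fun hn => ?_
  rw [mem_Ioc] at hn
  rw [R_iffT G a hn.1.le (hn.2.trans hy)]
  simp

/-- the second phase -/
theorem law_ph2 {g : ℕ} (f : Fin g → ℤ[X]) (k : ℕ) (hd : ∀ i, 0 < (f i).natDegree)
    (hl : ∀ i, 0 < (f i).leadingCoeff) (hk : ∑ i, (f i).natDegree ≤ k) {T : ℝ} {z m y : ℕ} {v d dev : ℝ}
    (hz1 : 1 ≤ z) (hz : lcs f + 2 * g ≤ z) (hv0 : 0 ≤ v) (hvd1 : v * d ≤ 1)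
    (hd1 : ((y : ℝ) / z + 1) * k ≤ d)
    {σ : ℝ} (hσ : σ = 1 ∨ σ = -1) :
    law {a | dev ≤ σ * (NT f T m y ((PX T).restrict a) - WT f T z m y (σ * (v * d)) ((PX T).restrict a))} ≤
        ENNReal.ofReal (Real.exp (-(v * dev))) := by
  classical
  have hd0 : 0 ≤ d := le_trans (by positivity) hd1
  have h := tailW (Ioc m y) (fun (p : {p // p ∈ PX T}) n => Ph f (p : Nat.Primes) n) (K0T T z)
    (KT T z) (disjoint_filter_filter_not _ _ _) hσ hv0 hd0 hvd1 (fun p hp r => by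
      have hpz : z < ((p : Nat.Primes) : ℕ) := (Finset.mem_filter.mp hp).2
      have hlc := lcs_ndvd f hl (p := ((p : Nat.Primes) : ℕ)) (by omega)
      have h1 := fiber_Ph f k hd hk (p : Nat.Primes) hlc y r (Ioc m y) (by
        intro n hn
        rw [mem_Ioc] at hn
        rw [mem_Icc]
        omega)
      have h2 : (((Ioc m y).filter (fun n => r ∈ Ph f (p : Nat.Primes) n)).card : ℝ) ≤
          ((y / ((p : Nat.Primes) : ℕ) + 1) * k : ℕ) := by exact_mod_cast h1
      refine h2.trans (le_trans ?_ hd1)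
      push_cast
      have h3 : ((y / ((p : Nat.Primes) : ℕ) : ℕ) : ℝ) ≤ y / (((p : Nat.Primes) : ℕ) : ℝ) := Nat.cast_div_le
      have h4 : y / (((p : Nat.Primes) : ℕ) : ℝ) ≤ (y : ℝ) / z := by
        apply div_le_div_of_nonneg_left (Nat.cast_nonneg _) (by exact_mod_cast hz1)
        exact_mod_cast hpz.le
      apply mul_le_mul_of_nonneg_right _ (Nat.cast_nonneg _)
      linarith)
    (fun p hp n => by
      rw [ZMod.card]
      have hpz : z < ((p : Nat.Primes) : ℕ) := (Finset.mem_filter.mp hp).2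
      have h1 : (Ph f (p : Nat.Primes) n).card ≤ g := (Ph_card_le f (p : Nat.Primes) n).trans (rel_card_le f _ n)
      have h2 : 2 * (Ph f (p : Nat.Primes) n).card ≤ ((p : Nat.Primes) : ℕ) := by omega
      exact_mod_cast h2)
    (fun a => dev ≤ σ * (NT f T m y a - WT f T z m y (σ * (v * d)) a))
    (fun a ha => by
      refine ha.trans (le_of_eq ?_)
      unfold NT WT
      have hun : KT T z ∪ K0T T z = univ := filter_union_filter_not_eq _ _
      rw [hun]
      simp only [ZMod.card])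
    (y := dev)
  have h2 : {a | dev ≤ σ * (NT f T m y ((PX T).restrict a) - WT f T z m y (σ * (v * d)) ((PX T).restrict a))} =
      {a : (p : Nat.Primes) → ZMod (p : ℕ) | (fun a => dev ≤ σ * (NT f T m y a -
        WT f T z m y (σ * (v * d)) a)) ((PX T).restrict a)} := rfl
  have h2' := law_cyl (PX T) (fun a => dev ≤ σ * (NT f T m y a -
        WT f T z m y (σ * (v * d)) a)) (inst := Classical.decPred _)
  rw [h2, h2']
  apply ENNReal.ofReal_le_ofReal
  refine le_trans (le_of_eq ?_) h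
  congr 1

end Pool.Agent.W2helper64.BQ
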