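import Pool.Agent.W2helper64.BQ.Ae
import Pool.Agent.H305R2.MertensE

set_option autoImplicit false
set_option linter.unusedSectionVars false

/-!
The dyadic blocks have the required properties, with the sieving limit `N ^ θ`, `θ ≤ deg / 2`.
-/

namespace Pool.Agent.W2helper64.BQ

open Finset Filter Topology Polynomial MeasureTheory Pool.Agent.W2helper64.RS Pool.Agent.W2helper64.RK
open Pool.Agent.W2helper64.BH
open Pool.Agent.H373R2.T7 (pz nuB PerB sys_count nuB_le mem_pz)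

theorem exp_gamma : 20 / 39 < Real.exp (-Real.eulerMascheroniConstant) := by
  have h1 := Real.eulerMascheroniConstant_lt_two_thirds
  have h2 : Real.exp (-(2 / 3)) < Real.exp (-Real.eulerMascheroniConstant) :=
    Real.exp_lt_exp.mpr (by linarith)
  refine lt_trans ?_ h2
  rw [Real.exp_neg, lt_inv_comm₀ (by norm_num) (Real.exp_pos _)]
  have h3 : Real.exp (2 / 3) ^ 3 = Real.exp 1 ^ 2 := by
    rw [← Real.exp_nat_mul, ← Real.exp_nat_mul]
    norm_num
  have h4 := Real.exp_one_lt_d9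
  have h5 : Real.exp 1 ^ 2 < 2.7182818286 ^ 2 := by
    apply pow_lt_pow_left₀ h4 (Real.exp_pos _).le (by norm_num)
  by_contra hcon
  push Not at hcon
  have h6 : (20 / 39 : ℝ)⁻¹ ^ 3 ≤ Real.exp (2 / 3) ^ 3 := pow_le_pow_left₀ (by norm_num) hcon 3
  rw [h3] at h6
  norm_num at h6 h5
  linarith

/-- Mertens: `V z ≥ (20 / 39) / log z` for large `z` -/
theorem ev_V : ∀ᶠ z : ℕ in atTop, 20 / 39 ≤ V z * Real.log z := by
  have h := Pool.Agent.H305R2.mertens_three
  have h1 : Tendsto (fun N : ℕ => V N * Real.log N) atTop (𝓝 (Real.exp (-Real.eulerMascheroniConstant))) := by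
    have h2 := h.inv₀ (Real.exp_pos _).ne'
    rw [← Real.exp_neg] at h2
    refine h2.congr fun N => ?_
    unfold V
    rw [inv_div, prod_inv_distrib, div_inv_eq_mul, mul_comm]
    congr 1
    refine prod_congr rfl fun p _ => ?_
    rw [one_div]
  filter_upwards [h1.eventually (lt_mem_nhds exp_gamma)] with z hz
  exact hz.le

theorem ev_low (f : ℤ[X]) (hl : 0 < f.leadingCoeff) :
    ∀ᶠ n : ℕ in atTop, (f.natDegree : ℝ) * Real.log n - 1 ≤ Real.log (((f.eval (n : ℤ) : ℤ)) : ℝ) := by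
  obtain ⟨h1, h2, h3⟩ := real_facts f
  set P : ℝ[X] := f.map (Int.castRingHom ℝ) with hP
  obtain ⟨φ, hφ, heq⟩ := (P.isEquivalent_atTop_lead).exists_eq_mul
  have h4 : ∀ᶠ x : ℝ in atTop, x ^ f.natDegree / 2 ≤ P.eval x := by
    filter_upwards [heq, hφ.eventually (lt_mem_nhds (show (1 : ℝ) / 2 < 1 by norm_num)), eventually_ge_atTop 0]
      with x h5 h6 h7
    rw [h5]
    simp only [Pi.mul_apply]
    rw [h2, h3]
    have h8 : (1 : ℝ) ≤ f.leadingCoeff := by exact_mod_cast hl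
    have h9 : 0 ≤ x ^ f.natDegree := by positivity
    have h10 : x ^ f.natDegree ≤ (f.leadingCoeff : ℝ) * x ^ f.natDegree := le_mul_of_one_le_left h9 h8
    have h11 : 1 / 2 * ((f.leadingCoeff : ℝ) * x ^ f.natDegree) ≤ φ x * ((f.leadingCoeff : ℝ) * x ^ f.natDegree) :=
      mul_le_mul_of_nonneg_right h6.le (by linarith)
    linarith
  filter_upwards [(tendsto_natCast_atTop_atTop (R := ℝ)).eventually h4, eventually_ge_atTop 1] with n hn hn1
  rw [h1 n] at hn
  have hn0 : (0 : ℝ) < n := by exact_mod_cast hn1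
  have h5 : Real.log ((n : ℝ) ^ f.natDegree / 2) ≤ Real.log (((f.eval (n : ℤ) : ℤ)) : ℝ) :=
    Real.log_le_log (by positivity) hn
  rw [Real.log_div (by positivity) (by norm_num), Real.log_pow] at h5
  have := Real.log_two_lt_d9
  linarith

theorem ev_blk {g : ℕ} (f : Fin g → ℤ[X]) (k : ℕ) (hd : ∀ i, 0 < (f i).natDegree)
    (hl : ∀ i, 0 < (f i).leadingCoeff) (hk : ∑ i, (f i).natDegree ≤ k) (hinj : Function.Injective f)
    {θ : ℝ} (hθ0 : 0 < θ) (hθ : ∀ i, 2 * θ ≤ (f i).natDegree) (hθk : 2 * θ ≤ k) :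
    ∀ᶠ j : ℕ in atTop, Blk f (TJ k j) (zJ θ j) (2 ^ j) (2 ^ (j + 1)) ∧ 1 ≤ V (zJ θ j) * TJ k j := by
  have hki : ∀ i, (f i).natDegree ≤ k := fun i =>
    (single_le_sum (f := fun i => (f i).natDegree) (fun _ _ => Nat.zero_le _) (Finset.mem_univ i)).trans hk
  obtain ⟨n0, hn0⟩ := ev_sys f k hd hl hki hinj
  have hlow : ∀ᶠ n : ℕ in atTop, ∀ i, ((f i).natDegree : ℝ) * Real.log n - 1 ≤ lam f i n := by
    rw [eventually_all]
    exact fun i => ev_low (f i) (hl i)
  obtain ⟨n1, hn1⟩ := eventually_atTop.mp hlow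
  obtain ⟨z0, hz0⟩ := eventually_atTop.mp ev_V
  have hl2 : 0 < Real.log 2 := Real.log_pos (by norm_num)
  have hpow : Tendsto (fun j : ℕ => 2 ^ j) atTop atTop := tendsto_pow_atTop_atTop_of_one_lt (by norm_num : 1 < 2)
  filter_upwards [hpow.eventually_ge_atTop (max n0 n1), ev_const_lin ((z0 : ℝ) + 2 * g + 4) (show 0 < θ * Real.log 2 / 2 by positivity),
    ev_const_lin 41 (show 0 < θ * Real.log 2 by positivity), ev_const_lin 1 hl2, eventually_ge_atTop 1] with j h1 h2 h3 h4 hj1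
  set N : ℝ := (2 : ℝ) ^ j with hN
  have hNn : ((2 ^ j : ℕ) : ℝ) = N := by push_cast; rfl
  have hN0 : 0 < N := by positivity
  have hg0 : (0 : ℝ) ≤ g := Nat.cast_nonneg _
  have hz00 : (0 : ℝ) ≤ z0 := Nat.cast_nonneg _
  have hk0 : (0 : ℝ) ≤ k := Nat.cast_nonneg _
  have hlogN : Real.log N = j * Real.log 2 := by rw [hN, Real.log_pow]
  have hj0 : (1 : ℝ) ≤ j := by exact_mod_cast hj1
  have hNθ : (z0 : ℝ) + 2 * g + 4 ≤ N ^ θ / 2 := by
    rw [hN, pow_rpow_exp]
    have e1 := Real.add_one_le_exp (θ * (j * Real.log 2))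
    have : θ * Real.log 2 / 2 * j = θ * (j * Real.log 2) / 2 := by ring
    linarith
  have hz := zJ_facts hθ0 j (by rw [← hN]; linarith)
  rw [← hN] at hz
  obtain ⟨hz1, hz2, hz3⟩ := hz
  set z := zJ θ j with hzd
  have hzz0 : z0 ≤ z := by
    have : (z0 : ℝ) ≤ z := by linarith
    exact_mod_cast this
  have hz2g : 2 * g ≤ z := by
    have : ((2 * g : ℕ) : ℝ) ≤ z := by push_cast; linarith
    exact_mod_cast this
  have hzge2 : (2 : ℝ) ≤ z := by linarith
  have hlogz : Real.log z ≤ θ * (j * Real.log 2) := by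
    rw [← hlogN, ← Real.log_rpow hN0]
    exact Real.log_le_log (by linarith) hz3
  have hlogz0 : 0 < Real.log z := Real.log_pos (by linarith)
  have hVz := hz0 z hzz0
  -- the main inequality
  have hmain : ∀ t : ℝ, 2 * (θ * (j * Real.log 2)) - 1 ≤ t → 1 ≤ V z * t := by
    intro t ht
    have hVpos := V_pos z
    have e1 : θ * (j * Real.log 2) = θ * Real.log 2 * j := by ring
    have e2 : V z * Real.log z ≤ V z * (θ * (j * Real.log 2)) := mul_le_mul_of_nonneg_left hlogz hVpos.le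
    set Λ := θ * (j * Real.log 2)
    have h41 : 41 ≤ Λ := by rw [e1]; exact h3
    have e3 : 20 / 39 ≤ V z * Λ := by linarith
    have e4 : 79 / 40 * Λ ≤ t := by linarith
    calc (1 : ℝ) ≤ 79 / 40 * (20 / 39) := by norm_num
      _ ≤ 79 / 40 * (V z * Λ) := mul_le_mul_of_nonneg_left e3 (by norm_num)
      _ = V z * (79 / 40 * Λ) := by ring
      _ ≤ V z * t := mul_le_mul_of_nonneg_left e4 hVpos.le
  have hTJ : TJ k j = (k + 1) * (((j : ℝ) + 1) * Real.log 2) := rfl
  have hT1 : 1 ≤ TJ k j := by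
    rw [hTJ]
    have : 1 ≤ ((j : ℝ) + 1) * Real.log 2 := by nlinarith
    nlinarith
  refine ⟨⟨hz1, hz2g, hT1, fun n hn1' hn2' => ?_, fun n hn i => ?_⟩, ?_⟩
  · obtain ⟨s1, s2, s3, s4⟩ := hn0 n (by omega)
    have hnpos : (0 : ℝ) < n := by
      have : 0 < 2 ^ j := by positivity
      exact_mod_cast lt_of_lt_of_le this hn1'
    have hln2 : Real.log n ≤ ((j : ℝ) + 1) * Real.log 2 := by
      have e1 : Real.log ((2 : ℝ) ^ (j + 1)) = ((j : ℝ) + 1) * Real.log 2 := by
        rw [Real.log_pow]; push_cast; ring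
      rw [← e1]
      apply Real.log_le_log hnpos
      exact_mod_cast hn2'
    have hle : ((k : ℝ) + 1) * Real.log n ≤ TJ k j := by
      rw [hTJ]
      exact mul_le_mul_of_nonneg_left hln2 (by linarith)
    have hln1 : j * Real.log 2 ≤ Real.log n := by
      rw [← hlogN]
      apply Real.log_le_log hN0
      rw [← hNn]
      exact_mod_cast hn1'
    refine ⟨fun i => (s1 i).1, fun i => ⟨(s2 i).1, (s2 i).2.2.1.trans hle, hmain _ ?_⟩, s3,
      fun i j' hij => (s4 i j' hij).trans hle⟩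
    have h5 := hn1 n (by omega) i
    have h6 : 2 * θ * Real.log n ≤ (f i).natDegree * Real.log n :=
      mul_le_mul_of_nonneg_right (hθ i) (by
        have : 0 ≤ (j : ℝ) * Real.log 2 := by positivity
        linarith)
    have h7 : 2 * θ * (j * Real.log 2) ≤ 2 * θ * Real.log n := mul_le_mul_of_nonneg_left hln1 (by positivity)
    linarith
  · obtain ⟨-, s2, -, -⟩ := hn0 n (by omega)
    exact ⟨(s2 i).1, (s2 i).2.2.2⟩
  · apply hmain
    rw [hTJ]
    have h5 : 0 ≤ (j : ℝ) * Real.log 2 := by positivity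
    have h6 : 2 * θ * (j * Real.log 2) ≤ k * (j * Real.log 2) := mul_le_mul_of_nonneg_right hθk h5
    nlinarith

end Pool.Agent.W2helper64.BQ
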