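import Pool.Agent.W2helper64.BQ.EvBlk

set_option autoImplicit false
set_option linter.unusedSectionVars false

/-!
The asymptotic formula with a power saving, almost surely.
-/

namespace Pool.Agent.W2helper64.BQ

open Finset Filter Topology Polynomial MeasureTheory Pool.Agent.W2helper64.RS Pool.Agent.W2helper64.RK
open Pool.Agent.W2helper64.BH
open Pool.Agent.H373R2.T7 (pz nuB PerB sys_count nuB_le mem_pz)

theorem ev_T (k : ℕ) {b : ℝ} (hb : 0 < b) : ∀ᶠ j : ℕ in atTop, TJ k j ≤ ((2 : ℝ) ^ j) ^ b := by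
  have hl2 : 0 < Real.log 2 := Real.log_pos (by norm_num)
  filter_upwards [ev_log_lin 1 (show 0 < b * Real.log 2 / 2 by positivity),
    ev_const_lin (Real.log ((k : ℝ) + 1)) (show 0 < b * Real.log 2 / 2 by positivity)] with j h1 h2
  rw [pow_rpow_exp]
  have hk : (0 : ℝ) < (k : ℝ) + 1 := by positivity
  have hj : (0 : ℝ) < (j : ℝ) + 1 := by positivity
  have h3 : TJ k j ≤ (k + 1) * (j + 1) := by
    unfold TJ
    apply mul_le_mul_of_nonneg_left _ hk.le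
    have : Real.log 2 ≤ 1 := by have := Real.log_two_lt_d9; linarith
    nlinarith
  refine h3.trans ?_
  rw [← Real.exp_log hk, ← Real.exp_log hj, ← Real.exp_add]
  apply Real.exp_le_exp.mpr
  rw [one_mul] at h1
  linarith

theorem ev_Pi (g : ℕ) {θ : ℝ} (hθ0 : 0 < θ) (hθ1 : θ ≤ 1) {b : ℝ} (hb : 0 < b) :
    ∀ᶠ j : ℕ in atTop, (1 / V (zJ θ j)) ^ g ≤ ((2 : ℝ) ^ j) ^ b := by
  obtain ⟨c, hc, hV⟩ := V_ge
  have hl2 : 0 < Real.log 2 := Real.log_pos (by norm_num)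
  set A : ℝ := max 1 (1 / c) with hA
  have hA1 : 1 ≤ A := le_max_left _ _
  have hAc : 1 / c ≤ A := le_max_right _ _
  filter_upwards [ev_log_lin g (show 0 < b * Real.log 2 / 2 by positivity),
    ev_const_lin (g * Real.log A) (show 0 < b * Real.log 2 / 2 by positivity),
    ev_const_lin 4 (show 0 < θ * Real.log 2 / 2 by positivity)] with j h1 h2 h3
  set N : ℝ := (2 : ℝ) ^ j with hN
  have hN0 : 0 < N := by positivity
  have hlogN : Real.log N = j * Real.log 2 := by rw [hN, Real.log_pow]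
  have hNθ : 4 ≤ N ^ θ / 2 := by
    rw [hN, pow_rpow_exp]
    have e1 := Real.add_one_le_exp (θ * (j * Real.log 2))
    have : θ * Real.log 2 / 2 * j = θ * (j * Real.log 2) / 2 := by ring
    linarith
  have hz := zJ_facts hθ0 j (by rw [← hN]; linarith)
  rw [← hN] at hz
  obtain ⟨hz1, hz2, hz3⟩ := hz
  set z := zJ θ j with hzd
  have hz4 : (2 : ℝ) ≤ z := by linarith
  have hz2' : 2 ≤ z := by exact_mod_cast hz4
  have hj0 : (0 : ℝ) ≤ j := Nat.cast_nonneg _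
  have hlogz : Real.log z ≤ (j : ℝ) + 1 := by
    have e1 : Real.log z ≤ θ * (j * Real.log 2) := by
      rw [← hlogN, ← Real.log_rpow hN0]
      exact Real.log_le_log (by linarith) hz3
    have : Real.log 2 ≤ 1 := by have := Real.log_two_lt_d9; linarith
    have e2 : (j : ℝ) * Real.log 2 ≤ j := mul_le_of_le_one_right hj0 this
    have e3 : θ * (j * Real.log 2) ≤ j * Real.log 2 := mul_le_of_le_one_left (by positivity) hθ1
    linarith
  have hlz : 0 < Real.log z := Real.log_pos (by linarith)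
  have h4 := hV z hz2'
  have h5 : 1 / V z ≤ A * ((j : ℝ) + 1) := by
    have e1 : 1 / V z ≤ Real.log z / c := by
      rw [div_le_div_iff₀ (V_pos _) hc, one_mul]
      rw [div_le_iff₀ hlz] at h4
      linarith
    refine e1.trans ?_
    calc Real.log z / c = 1 / c * Real.log z := by ring
      _ ≤ A * ((j : ℝ) + 1) := mul_le_mul hAc hlogz hlz.le (by linarith)
  have h6 : 0 ≤ 1 / V z := by
    have := V_pos z
    positivity
  calc (1 / V z) ^ g ≤ (A * ((j : ℝ) + 1)) ^ g := pow_le_pow_left₀ h6 h5 g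
    _ = Real.exp (g * Real.log A + g * Real.log ((j : ℝ) + 1)) := by
        rw [← mul_add, ← Real.log_mul (by linarith) (by positivity), Real.exp_nat_mul, Real.exp_log (by positivity)]
    _ ≤ N ^ b := by
        rw [hN, pow_rpow_exp]
        apply Real.exp_le_exp.mpr
        linarith

/-- the difference -/
noncomputable def GG {g : ℕ} (f : Fin g → ℤ[X]) (a : (p : Nat.Primes) → ZMod (p : ℕ)) (S : ℝ) (x : ℕ) : ℝ :=
  (BH.cnt f a x : ℝ) - S * HH f x

theorem GG_block {g : ℕ} {f : Fin g → ℤ[X]} {T : ℝ} {z m M : ℕ} (G : Blk f T z m M) (hm : 1 ≤ m) {y : ℕ}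
    (hmy : m ≤ y) (hy : y ≤ M) (a : (p : Nat.Primes) → ZMod (p : ℕ)) (S : ℝ) :
    GG f a S y - GG f a S m = NT f T m y ((PX T).restrict a) - S * ∑ n ∈ Ioc m y, hh f n := by
  classical
  have h1 : (BH.cnt f a y : ℝ) = cnt f a m + NT f T m y ((PX T).restrict a) := by
    rw [← NT_eq G hy a]
    unfold BH.cnt
    exact card_split _ m y hmy
  have h2 : HH f y = HH f m + ∑ n ∈ Ioc m y, hh f n := by
    have hsplit : @Finset.filter ℕ (fun n => ∀ i, 8 ≤ (f i).eval (n : ℤ)) (Classical.decPred _) (Icc 1 y) =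
        @Finset.filter ℕ (fun n => ∀ i, 8 ≤ (f i).eval (n : ℤ)) (Classical.decPred _) (Icc 1 m) ∪
          Ioc m y := by
      ext n
      simp only [Finset.mem_union, mf', mem_Icc, mem_Ioc]
      constructor
      · rintro ⟨h7, h8⟩
        rcases le_or_gt n m with h9 | h9
        · exact Or.inl ⟨⟨h7.1, h9⟩, h8⟩
        · exact Or.inr ⟨h9, h7.2⟩
      · rintro (⟨h7, h8⟩ | h7)
        · exact ⟨⟨h7.1, by omega⟩, h8⟩
        · exact ⟨⟨by omega, h7.2⟩, (G.sys n h7.1.le (h7.2.trans hy)).1⟩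
    unfold HH
    rw [hsplit, sum_union]
    · rfl
    · rw [Finset.disjoint_left]
      intro n h7 h8
      rw [mf', mem_Icc] at h7
      rw [mem_Ioc] at h8
      omega
  unfold GG
  rw [h1, h2]
  ring

/-- one dyadic block -/
theorem ae_block {g : ℕ} (f : Fin g → ℤ[X]) (hd : ∀ i, 0 < (f i).natDegree)
    (hl : ∀ i, 0 < (f i).leadingCoeff) (hinj : Function.Injective f)
    {θ : ℝ} (hθ0 : 0 < θ) (hθ1 : θ ≤ 1) (hθ : ∀ i, 2 * θ ≤ (f i).natDegree) {ε η : ℝ} (hε : 0 < ε)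
    (hη0 : 0 < η) (hη1 : η ≤ 1) (hη : 1 / 2 - ε ≤ η) :
    ∀ᵐ a ∂law, ∀ S C : ℝ, 0 ≤ C → 0 ≤ S →
      (∀ᶠ z : ℕ in atTop, |PP f a z / V z ^ g - S| ≤ C * (z : ℝ) ^ (-η)) →
      ∃ K : ℝ, 0 ≤ K ∧ ∀ᶠ j : ℕ in atTop, ∀ y : ℕ, 2 ^ j ≤ y → y ≤ 2 ^ (j + 1) →
        |GG f a S y - GG f a S (2 ^ j)| ≤ K * ((2 : ℝ) ^ j) ^ (1 - θ / 2 + 2 * ε) := by
  set k : ℕ := ∑ i, (f i).natDegree + 2 with hk
  have hk1 : 1 ≤ k := by omega
  have hk2 : ∑ i, (f i).natDegree ≤ k := by omega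
  have hθk : 2 * θ ≤ k := by
    have : (2 : ℝ) ≤ k := by exact_mod_cast (by omega : 2 ≤ k)
    linarith
  have hblk := ev_blk f k hd hl hk2 hinj hθ0 hθ hθk
  have hz : ∀ᶠ j : ℕ in atTop, 1 ≤ TJ k j ∧ 1 ≤ V (zJ θ j) * TJ k j := by
    filter_upwards [hblk] with j hj
    exact ⟨hj.1.T1, hj.2⟩
  have hl2 : 0 < Real.log 2 := Real.log_pos (by norm_num)
  filter_upwards [ae_ph1 f k hd hl hk2 hinj (zJ θ) hz hε, ae_ph2 f k hk1 hd hl hk2 hθ0 hθ1 hε] with a h1 h2 S C hC0 hS0 hrate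
  obtain ⟨Z0, hZ0⟩ := eventually_atTop.mp hrate
  have hg0 : (0 : ℝ) ≤ g := Nat.cast_nonneg _
  refine ⟨1 + 2 * (g + 4 * (g * g ^ 2) + 4 * g ^ 2 + 4 * g) + 1 + 4 * C, by positivity, ?_⟩
  filter_upwards [h1, h2, hblk, ev_T k hε, ev_Pi g hθ0 hθ1 hε,
    ev_const_lin ((Z0 : ℝ) + 4) (show 0 < θ * Real.log 2 / 2 by positivity)] with j p1 p2 hG hT hPi hbig y hy1 hy2
  obtain ⟨G, -⟩ := hG
  set N : ℝ := (2 : ℝ) ^ j with hN
  have hN0 : 0 < N := by positivity
  have hN1 : 1 ≤ N := one_le_pow₀ (by norm_num)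
  have hNn : ((2 ^ j : ℕ) : ℝ) = N := by push_cast; rfl
  have hNθ : (Z0 : ℝ) + 4 ≤ N ^ θ / 2 := by
    rw [hN, pow_rpow_exp]
    have e1 := Real.add_one_le_exp (θ * (j * Real.log 2))
    have : θ * Real.log 2 / 2 * j = θ * (j * Real.log 2) / 2 := by ring
    linarith
  have hZ00 : (0 : ℝ) ≤ Z0 := Nat.cast_nonneg _
  have hzf := zJ_facts hθ0 j (by rw [← hN]; linarith)
  rw [← hN] at hzf
  obtain ⟨hz1, hz2, hz3⟩ := hzf
  set z := zJ θ j with hzd
  have hz0 : (0 : ℝ) < z := by exact_mod_cast hz1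
  have hzZ : Z0 ≤ z := by
    have : (Z0 : ℝ) ≤ z := by linarith
    exact_mod_cast this
  have hyN : (y : ℝ) ≤ 2 * N := by
    have : (y : ℝ) ≤ ((2 ^ (j + 1) : ℕ) : ℝ) := by exact_mod_cast hy2
    push_cast at this
    rw [pow_succ] at this
    rw [hN]; linarith
  have hy0 : (0 : ℝ) ≤ y := Nat.cast_nonneg _
  set T := TJ k j with hTd
  set u : ℝ := N ^ (-(θ / 2)) with hu
  have hu0 : 0 < u := by positivity
  have hu1 : u ≤ 1 := Real.rpow_le_one_of_one_le_of_nonpos hN1 (by linarith)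
  set Pi0 : ℝ := (1 / V z) ^ g with hPid
  have hVz := V_pos z
  have hPi0 : 0 ≤ Pi0 := by positivity
  set Q : ℝ := N ^ (1 - θ / 2 + 2 * ε) with hQ
  have hQ0 : 0 < Q := by positivity
  obtain ⟨q1, q2⟩ := p2 y hy1 hy2
  -- the deterministic estimate
  have hdet := NT_close G hy1 hy2 hu0.le hu1 a q1 q2 (err := N ^ (1 / 2 + ε)) (fun y' hy1' hy2' => by
    have h3 := p1 (y' - 2 ^ j) (by rw [pow_succ] at hy2; omega)
    unfold cntS at h3
    have e1 : 2 ^ j + (y' - 2 ^ j) = y' := by omega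
    have e2 : ((y' - 2 ^ j : ℕ) : ℝ) = (y' : ℝ) - ((2 ^ j : ℕ) : ℝ) := by rw [Nat.cast_sub hy1']
    rw [e1, e2] at h3
    exact h3)
  rw [← hPid] at hdet
  -- the single errors
  have r0 : N ^ (1 - θ / 2 + ε) ≤ Q := Real.rpow_le_rpow_of_exponent_le hN1 (by linarith)
  have hzinv : 2 / (z : ℝ) ≤ 4 * u := by
    have e1 : u * u = N ^ (-θ) := by
      rw [hu, ← Real.rpow_add hN0]
      congr 1; ring
    have e2 : N ^ (-θ) * N ^ θ = 1 := by
      rw [← Real.rpow_add hN0]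
      norm_num
    have e3 : u * u * z ≥ 1 / 2 := by
      rw [e1]
      have := mul_le_mul_of_nonneg_left hz2 (by positivity : 0 ≤ N ^ (-θ))
      rw [← mul_div_assoc, e2] at this
      linarith
    rw [div_le_iff₀ hz0]
    have e4 : u * u * z ≤ u * z := by
      apply mul_le_mul_of_nonneg_right _ hz0.le
      nlinarith
    nlinarith
  have hNuε : N * u * N ^ ε = N ^ (1 - θ / 2 + ε) := by
    rw [hu]
    nth_rewrite 1 [← Real.rpow_one N]
    rw [← Real.rpow_add hN0, ← Real.rpow_add hN0]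
    congr 1
  have hNε1 : 1 ≤ N ^ ε := Real.one_le_rpow hN1 hε.le
  have r1 : y * (u * g * T + g * g ^ 2 * (2 * T) / z + g ^ 2 * (2 / z) + Pi0 * (g * (2 / z))) ≤
      2 * (g + 4 * (g * g ^ 2) + 4 * g ^ 2 + 4 * g) * Q := by
    have t1 : u * g * T ≤ g * (u * N ^ ε) := by
      calc u * g * T = g * (u * T) := by ring
        _ ≤ g * (u * N ^ ε) := mul_le_mul_of_nonneg_left (mul_le_mul_of_nonneg_left hT hu0.le) hg0
    have t2 : g * g ^ 2 * (2 * T) / (z : ℝ) ≤ 4 * (g * g ^ 2) * (u * N ^ ε) := by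
      calc g * g ^ 2 * (2 * T) / (z : ℝ) = g * g ^ 2 * (T * (2 / z)) := by ring
        _ ≤ g * g ^ 2 * (N ^ ε * (4 * u)) := by
            apply mul_le_mul_of_nonneg_left _ (by positivity)
            exact mul_le_mul hT hzinv (by positivity) (by positivity)
        _ = 4 * (g * g ^ 2) * (u * N ^ ε) := by ring
    have t3 : (g : ℝ) ^ 2 * (2 / z) ≤ 4 * g ^ 2 * (u * N ^ ε) := by
      calc (g : ℝ) ^ 2 * (2 / z) ≤ g ^ 2 * (4 * u) := mul_le_mul_of_nonneg_left hzinv (by positivity)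
        _ = 4 * g ^ 2 * (u * 1) := by ring
        _ ≤ 4 * g ^ 2 * (u * N ^ ε) := by
            apply mul_le_mul_of_nonneg_left _ (by positivity)
            exact mul_le_mul_of_nonneg_left hNε1 hu0.le
    have t4 : Pi0 * (g * (2 / z)) ≤ 4 * g * (u * N ^ ε) := by
      calc Pi0 * (g * (2 / z)) ≤ N ^ ε * (g * (4 * u)) := by
            apply mul_le_mul hPi _ (by positivity) (by positivity)
            exact mul_le_mul_of_nonneg_left hzinv hg0
        _ = 4 * g * (u * N ^ ε) := by ring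
    calc y * (u * g * T + g * g ^ 2 * (2 * T) / z + g ^ 2 * (2 / z) + Pi0 * (g * (2 / z)))
        ≤ (2 * N) * ((g + 4 * (g * g ^ 2) + 4 * g ^ 2 + 4 * g) * (u * N ^ ε)) := by
          have hT0 : 0 ≤ T := by linarith [G.T1]
          apply mul_le_mul hyN _ (by positivity) (by positivity)
          linarith
      _ = 2 * (g + 4 * (g * g ^ 2) + 4 * g ^ 2 + 4 * g) * (N * u * N ^ ε) := by ring
      _ ≤ 2 * (g + 4 * (g * g ^ 2) + 4 * g ^ 2 + 4 * g) * Q := by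
          rw [hNuε]
          exact mul_le_mul_of_nonneg_left r0 (by positivity)
  have r2 : Pi0 * N ^ (1 / 2 + ε) ≤ Q := by
    calc Pi0 * N ^ (1 / 2 + ε) ≤ N ^ ε * N ^ (1 / 2 + ε) := mul_le_mul_of_nonneg_right hPi (by positivity)
      _ = N ^ (1 / 2 + 2 * ε) := by rw [← Real.rpow_add hN0]; congr 1; ring
      _ ≤ Q := Real.rpow_le_rpow_of_exponent_le hN1 (by linarith)
  -- the singular series
  have hHy : 0 ≤ ∑ n ∈ Ioc (2 ^ j) y, hh f n ∧ ∑ n ∈ Ioc (2 ^ j) y, hh f n ≤ 2 * N := by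
    constructor
    · refine sum_nonneg fun n hn => ?_
      rw [mem_Ioc] at hn
      exact (hh_blk G n hn.1.le).1
    · have e1 : ∑ n ∈ Ioc (2 ^ j) y, hh f n ≤ ∑ _n ∈ Ioc (2 ^ j) y, (1 : ℝ) := sum_le_sum fun n hn => by
        rw [mem_Ioc] at hn
        exact (hh_blk G n hn.1.le).2.1
      rw [sum_const, nsmul_eq_mul, mul_one, Nat.card_Ioc] at e1
      refine e1.trans (le_trans ?_ hyN)
      exact_mod_cast Nat.sub_le _ _
  set H : ℝ := ∑ n ∈ Ioc (2 ^ j) y, hh f n with hH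
  have r3 : |PP f a z / V z ^ g * H - S * H| ≤ 4 * C * Q := by
    rw [← sub_mul, abs_mul, abs_of_nonneg hHy.1]
    have e1 := hZ0 z hzZ
    have e2 : (z : ℝ) ^ (-η) ≤ 2 * N ^ (-(θ * η)) := by
      have e3 : (z : ℝ) ^ (-η) ≤ (N ^ θ / 2) ^ (-η) :=
        Real.rpow_le_rpow_of_nonpos (by positivity) hz2 (by linarith)
      refine e3.trans ?_
      rw [Real.div_rpow (by positivity) (by norm_num), ← Real.rpow_mul hN0.le]
      have e4 : (2 : ℝ) ^ (-η) ≥ 1 / 2 := by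
        have : (1 / 2 : ℝ) = 2 ^ (-1 : ℝ) := by rw [Real.rpow_neg_one]; norm_num
        rw [this]
        exact Real.rpow_le_rpow_of_exponent_le (by norm_num) (by linarith)
      rw [div_le_iff₀ (by positivity)]
      have e5 : θ * -η = -(θ * η) := by ring
      rw [e5]
      have e6 : 0 < N ^ (-(θ * η)) := by positivity
      nlinarith
    have e3 : N * N ^ (-(θ * η)) ≤ Q := by
      nth_rewrite 1 [← Real.rpow_one N]
      rw [← Real.rpow_add hN0]
      apply Real.rpow_le_rpow_of_exponent_le hN1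
      have : θ * (1 / 2 - η) ≤ ε := by
        rcases le_or_gt (1 / 2 - η) 0 with h | h
        · have : θ * (1 / 2 - η) ≤ 0 := mul_nonpos_of_nonneg_of_nonpos hθ0.le h
          linarith
        · have : θ * (1 / 2 - η) ≤ 1 * (1 / 2 - η) := mul_le_mul_of_nonneg_right hθ1 h.le
          linarith
      nlinarith
    calc |PP f a z / V z ^ g - S| * H ≤ (C * (2 * N ^ (-(θ * η)))) * (2 * N) :=
          mul_le_mul (e1.trans (mul_le_mul_of_nonneg_left e2 hC0)) hHy.2 hHy.1 (by positivity)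
      _ = 4 * C * (N * N ^ (-(θ * η))) := by ring
      _ ≤ 4 * C * Q := mul_le_mul_of_nonneg_left e3 (by positivity)
  rw [GG_block G Nat.one_le_two_pow hy1 hy2 a S]
  set X1 := NT f T (2 ^ j) y ((PX T).restrict a)
  have e : X1 - S * H = (X1 - PP f a z / V z ^ g * H) + (PP f a z / V z ^ g * H - S * H) := by ring
  rw [e]
  refine (abs_add_le _ _).trans ?_
  have hfin : (1 + 2 * (g + 4 * (g * g ^ 2) + 4 * g ^ 2 + 4 * g) + 1 + 4 * C) * Q =
      Q + 2 * (g + 4 * (g * g ^ 2) + 4 * g ^ 2 + 4 * g) * Q + Q + 4 * C * Q := by ring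
  rw [hfin]
  linarith

theorem ae_power {g : ℕ} (f : Fin g → ℤ[X]) (hd : ∀ i, 0 < (f i).natDegree)
    (hl : ∀ i, 0 < (f i).leadingCoeff) (hinj : Function.Injective f)
    {θ : ℝ} (hθ0 : 0 < θ) (hθ1 : θ ≤ 1) (hθ : ∀ i, 2 * θ ≤ (f i).natDegree) {ε η : ℝ} (hε : 0 < ε)
    (hη0 : 0 < η) (hη1 : η ≤ 1) (hη : 1 / 2 - ε ≤ η) :
    ∀ᵐ a ∂law, ∀ S C : ℝ, 0 ≤ C → 0 ≤ S →
      (∀ᶠ z : ℕ in atTop, |PP f a z / V z ^ g - S| ≤ C * (z : ℝ) ^ (-η)) →
      (fun x : ℕ => (BH.cnt f a x : ℝ) - S * HH f x) =O[atTop] fun x : ℕ => (x : ℝ) ^ (1 - θ / 2 + 2 * ε) := by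
  filter_upwards [ae_block f hd hl hinj hθ0 hθ1 hθ hε hη0 hη1 hη] with a ha S C hC0 hS0 hrate
  obtain ⟨K, hK0, hK⟩ := ha S C hC0 hS0 hrate
  obtain ⟨J0, hJ0⟩ := eventually_atTop.mp hK
  set e : ℝ := 1 - θ / 2 + 2 * ε with he
  have he2 : 1 / 2 ≤ e := by rw [he]; linarith
  set r : ℝ := (2 : ℝ) ^ e with hr
  have hr43 : 4 / 3 ≤ r := by
    have e1 : (2 : ℝ) ^ (1 / 2 : ℝ) ≤ r := Real.rpow_le_rpow_of_exponent_le (by norm_num) he2
    have e2 : (4 / 3 : ℝ) ≤ (2 : ℝ) ^ (1 / 2 : ℝ) := by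
      rw [← Real.sqrt_eq_rpow]
      apply Real.le_sqrt_of_sq_le
      norm_num
    linarith
  have hrj : ∀ j : ℕ, ((2 : ℝ) ^ j) ^ e = r ^ j := by
    intro j
    rw [hr, ← Real.rpow_natCast, ← Real.rpow_natCast, ← Real.rpow_mul (by norm_num), ← Real.rpow_mul (by norm_num)]
    congr 1; ring
  set B0 : ℝ := |GG f a S (2 ^ J0)| with hB0
  have hB00 : 0 ≤ B0 := abs_nonneg _
  have hind : ∀ J, J0 ≤ J → |GG f a S (2 ^ J)| ≤ B0 + 3 * K * r ^ J := by
    intro J hJ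
    induction J, hJ using Nat.le_induction with
    | base =>
      have : 0 ≤ 3 * K * r ^ J0 := by positivity
      linarith
    | succ J hJ ih =>
      have h1 := hJ0 J hJ (2 ^ (J + 1)) (Nat.pow_le_pow_right (by norm_num) (by omega)) le_rfl
      rw [hrj] at h1
      have h2 := abs_add_le (GG f a S (2 ^ (J + 1)) - GG f a S (2 ^ J)) (GG f a S (2 ^ J))
      rw [sub_add_cancel] at h2
      have h3 : 4 * K * r ^ J ≤ 3 * K * r ^ (J + 1) := by
        rw [pow_succ]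
        have : 0 ≤ K * r ^ J := by positivity
        nlinarith
      linarith
  apply Asymptotics.IsBigO.of_bound (B0 + 4 * K)
  filter_upwards [eventually_ge_atTop (2 ^ J0)] with x hx
  have hx1 : 1 ≤ x := Nat.one_le_two_pow.trans hx
  set J := Nat.log 2 x with hJ
  have hJ1 : 2 ^ J ≤ x := Nat.pow_log_le_self 2 (by omega)
  have hJ2 : x < 2 ^ (J + 1) := Nat.lt_pow_succ_log_self (by norm_num) x
  have hJJ : J0 ≤ J := by
    rw [hJ]
    exact Nat.le_log_of_pow_le (by norm_num) hx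
  have h1 := hJ0 J hJJ x hJ1 hJ2.le
  have h2 := hind J hJJ
  rw [hrj] at h1
  have h3 : r ^ J ≤ (x : ℝ) ^ e := by
    rw [← hrj]
    apply Real.rpow_le_rpow (by positivity) _ (by linarith)
    exact_mod_cast hJ1
  have hxe : 1 ≤ (x : ℝ) ^ e := Real.one_le_rpow (by exact_mod_cast hx1) (by linarith)
  rw [Real.norm_eq_abs, Real.norm_eq_abs, abs_of_nonneg (by linarith : 0 ≤ (x : ℝ) ^ e)]
  have h4 := abs_add_le (GG f a S x - GG f a S (2 ^ J)) (GG f a S (2 ^ J))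
  rw [sub_add_cancel] at h4
  show |GG f a S x| ≤ _
  have h5 : K * r ^ J ≤ K * (x : ℝ) ^ e := mul_le_mul_of_nonneg_left h3 hK0
  have h6 : B0 ≤ B0 * (x : ℝ) ^ e := le_mul_of_one_le_right hB00 hxe
  nlinarith

end Pool.Agent.W2helper64.BQ
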