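import Pool.Agent.W2helper64.BQ.Th5

set_option autoImplicit false
set_option linter.unusedSectionVars false

/-!
Arithmetic progressions with a small modulus.
-/

namespace Pool.Agent.W2helper64.BQ

open Finset Filter Topology Polynomial MeasureTheory Pool.Agent.W2helper64.RS Pool.Agent.W2helper64.RK
open Pool.Agent.W2helper64.BH
open Pool.Agent.H373R2.T7 (pz nuB PerB sys_count nuB_le mem_pz)

/-- the primes not dividing `q` -/
noncomputable def Kq (T : ℝ) (q : ℕ) : Finset {p // p ∈ PX T} :=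
  (univ : Finset {p // p ∈ PX T}).filter (fun p : {p // p ∈ PX T} => ¬ ((p : Nat.Primes) : ℕ) ∣ q)

/-- the number of survivors -/
noncomputable def yTq {g : ℕ} (f : Fin g → ℤ[X]) (T : ℝ) (m q : ℕ) (a : (p : Nat.Primes) → ZMod (p : ℕ)) : ℕ → ℝ :=
  yy (F := PX T) (fun p n => kap f m ((p : Nat.Primes) : ℕ) n)
    (fun p A x => PhA f ((p : Nat.Primes) : ℕ) A x) (Kq T q) ((PX T).restrict a)

/-- the weight -/
noncomputable def wTq {g : ℕ} (f : Fin g → ℤ[X]) (T : ℝ) (m q : ℕ) (a : (p : Nat.Primes) → ZMod (p : ℕ)) : ℕ → ℝ :=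
  ww (F := PX T) (fun p n => kap f m ((p : Nat.Primes) : ℕ) n)
    (fun p A x => PhA f ((p : Nat.Primes) : ℕ) A x) (Kq T q) ((PX T).restrict a)

/-- the error -/
noncomputable def eTq {g : ℕ} (f : Fin g → ℤ[X]) (T : ℝ) (m q s M : ℕ) (a : (p : Nat.Primes) → ZMod (p : ℕ)) : ℝ :=
  SS (yTq f T m q a) M s q - SS (wTq f T m q a) M s q

theorem SS_addq (v : ℕ → ℝ) (u w s Q : ℕ) : SS v (u + w) s Q = SS v u s Q + SS v w (s + Q * u) Q := by
  unfold SS
  rw [sum_range_add]
  congr 1
  refine sum_congr rfl fun t _ => ?_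
  congr 1
  ring

theorem eTq_add {g : ℕ} (f : Fin g → ℤ[X]) (T : ℝ) (m q s u v : ℕ) (a : (p : Nat.Primes) → ZMod (p : ℕ)) :
    eTq f T m q s (u + v) a = eTq f T m q s u a + eTq f T m q (s + q * u) v a := by
  unfold eTq
  rw [SS_addq, SS_addq]
  ring

theorem law_cheb4 {g : ℕ} (f : Fin g → ℤ[X]) (k : ℕ) (hd : ∀ i, 0 < (f i).natDegree)
    (hl : ∀ i, 0 < (f i).leadingCoeff) (hk : ∑ i, (f i).natDegree ≤ k) (hinj : Function.Injective f)
    {T : ℝ} {m : ℕ} (hT : 1 ≤ T) (hm : ∀ n, m ≤ n → ∀ i, lam f i n ≤ lam f i (n + 1)) (q s M : ℕ)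
    {τ : ℝ} (hτ : 0 < τ) :
    law {a | τ ≤ |eTq f T m q s M a|} ≤ ENNReal.ofReal (Real.exp (CTh f k * Real.log T) * M / τ ^ 2) := by
  classical
  set C := CTh f k with hC
  have hC0 : 0 ≤ C := by rw [hC]; unfold CTh A0; positivity
  set κ : {p // p ∈ PX T} → ℕ → Finset (Fin g) := fun p n => kap f m ((p : Nat.Primes) : ℕ) n with hκ
  set Φ : (p : {p // p ∈ PX T}) → Finset (Fin g) → ZMod ((p : Nat.Primes) : ℕ) → Finset (ZMod ((p : Nat.Primes) : ℕ)) :=
    fun p A x => PhA f ((p : Nat.Primes) : ℕ) A x with hΦ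
  set P : ((p : {p // p ∈ PX T}) → ZMod ((p : Nat.Primes) : ℕ)) → Prop := fun b =>
    τ ≤ |SS (yy κ Φ (Kq T q) b) M s q - SS (ww κ Φ (Kq T q) b) M s q| with hP
  have h1 : {a : (p : Nat.Primes) → ZMod (p : ℕ) | τ ≤ |eTq f T m q s M a|} =
      {a : (p : Nat.Primes) → ZMod (p : ℕ) | P ((PX T).restrict a)} := rfl
  have h2 := law_cyl (PX T) P (inst := Classical.decPred _)
  rw [h1, h2]
  apply ENNReal.ofReal_le_ofReal
  have hnn : ∀ p A r, nn Φ p A r = nuS f A (p : Nat.Primes) r := fun p A r => rfl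
  have hmonoκ : ∀ p n n', n ≤ n' → κ p n ⊆ κ p n' := fun p n n' h => kap_mono f hm _ h
  have h3 := var_rec2 κ Φ (g := g) (c := k + lcs f) (C2 := g * (g ^ 2 * k) + g * dlc f)
    (fun A => (A.card : ℝ)) (by positivity) (by positivity) (by positivity)
    (fun A => by
      have := card_le_univ A
      rw [Fintype.card_fin] at this
      exact_mod_cast this)
    (Kq T q) (fun p _ A x => by exact_mod_cast PhA_card f _ A x)
    (fun p _ A r => by
      rw [hnn]
      refine (nuS_mono f (subset_univ A) _ r).trans ?_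
      rw [nuS_univ]
      exact_mod_cast nuR_all f k hd hl hk (p : Nat.Primes) r)
    (fun p _ A => (sum_le_sum fun x _ => PhA_defect f _ A x).trans (Psi_sum f k hk hinj (p : Nat.Primes)))
    (fun p _ n1 n2 n3 h12 h23 h => by
      apply Finset.Subset.antisymm
      · have := hmonoκ p n2 n3 h23
        rw [← h] at this
        exact this
      · exact hmonoκ p n1 n2 h12)
    (fun p _ r n n' h => by
      rw [hnn, hnn]
      exact nuS_mono f (hmonoκ p n n' h) _ r)
    M s q (fun p hp => by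
      unfold Kq at hp
      exact (Finset.mem_filter.mp hp).2)
  have h4 : ∏ p ∈ Kq T q, (1 + C / (((p : Nat.Primes) : ℕ) : ℝ)) ≤
      Real.exp (C * Real.log T) := by
    calc ∏ p ∈ Kq T q, (1 + C / (((p : Nat.Primes) : ℕ) : ℝ)) ≤
          ∏ p ∈ Kq T q, Real.exp (C * (1 / (((p : Nat.Primes) : ℕ) : ℝ))) := by
          refine prod_le_prod (fun p _ => by positivity) fun p _ => ?_
          have := Real.add_one_le_exp (C * (1 / (((p : Nat.Primes) : ℕ) : ℝ)))
          rw [mul_one_div] at this ⊢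
          linarith
      _ = Real.exp (C * ∑ p ∈ Kq T q, 1 / (((p : Nat.Primes) : ℕ) : ℝ)) := by
          rw [← Real.exp_sum, mul_sum]
      _ ≤ Real.exp (C * Real.log T) := Real.exp_le_exp.mpr (mul_le_mul_of_nonneg_left (inv_sum_le hT _) hC0)
  have h5 := avg_ind_le (P := P) (c := τ ^ 2)
    (G := fun b => (SS (yy κ Φ (Kq T q) b) M s q - SS (ww κ Φ (Kq T q) b) M s q) ^ 2)
    (fun b => sq_nonneg _) (by positivity) (fun b hb => by
      have hb' : τ ≤ |SS (yy κ Φ (Kq T q) b) M s q - SS (ww κ Φ (Kq T q) b) M s q| := hb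
      rw [← sq_abs (SS (yy κ Φ (Kq T q) b) M s q - SS (ww κ Φ (Kq T q) b) M s q)]
      exact pow_le_pow_left₀ hτ.le hb' 2)
  refine le_trans (le_of_eq ?_) (h5.trans ?_)
  · congr 1
  · apply div_le_div_of_nonneg_right _ (by positivity)
    exact h3.trans (mul_le_mul_of_nonneg_right h4 (Nat.cast_nonneg _))

/-- all blocks and all small moduli, almost surely -/
theorem ae_ph4 {g : ℕ} (f : Fin g → ℤ[X]) (k : ℕ) (hd : ∀ i, 0 < (f i).natDegree)
    (hl : ∀ i, 0 < (f i).leadingCoeff) (hk : ∑ i, (f i).natDegree ≤ k) (hinj : Function.Injective f)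
    (hz : ∀ᶠ j : ℕ in atTop, 1 ≤ TJ k j ∧ ∀ n, 2 ^ j ≤ n → ∀ i, lam f i n ≤ lam f i (n + 1)) {ε : ℝ} (hε : 0 < ε) :
    ∀ᵐ a ∂law, ∀ᶠ j : ℕ in atTop, ∀ q : ℕ, 1 ≤ q → q ≤ zJ (ε / 2) j → ∀ r, r < q → ∀ y : ℕ, y ≤ 2 ^ j →
      |eTq f (TJ k j) (2 ^ j) q (2 ^ j + 1 + r) y a| ≤ ((2 : ℝ) ^ j) ^ (1 / 2 + ε) := by
  set C : ℝ := CTh f k with hC
  have hC0 : 0 ≤ C := by rw [hC]; unfold CTh A0; positivity
  have hl2 : 0 < Real.log 2 := Real.log_pos (by norm_num)
  set τ : ℕ → ℝ := fun j => ((2 : ℝ) ^ j) ^ (1 / 2 + ε) / (j + 1) with hτ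
  have hτ0 : ∀ j, 0 < τ j := fun j => by simp only [hτ]; positivity
  have hb := bc (fun j : ℕ => ⋃ q ∈ Icc 1 (zJ (ε / 2) j), ⋃ r ∈ range q, ⋃ l ∈ range (j + 1), ⋃ t ∈ range (2 ^ (j - l)),
    {a | τ j ≤ |eTq f (TJ k j) (2 ^ j) q (2 ^ j + 1 + r + q * (t * 2 ^ l)) (2 ^ l) a|}) 1 (by norm_num) (by
      set b : ℝ := 2 * ε * Real.log 2 with hb
      have hb0 : 0 < b := by positivity
      filter_upwards [hz, ev_log_lin C (show 0 < b / 8 by positivity), ev_const_lin (C * Real.log (k + 1))
        (show 0 < b / 8 by positivity), ev_log_lin 5 (show 0 < b / 4 by positivity), eventually_ge_atTop 1]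
        with j hj h1 h2 h3 hj1
      have hj0 : (1 : ℝ) ≤ j := by exact_mod_cast hj1
      set W : ℝ := Real.exp (C * Real.log (TJ k j)) with hW
      have hW0 : 0 < W := Real.exp_pos _
      have hone : ∀ q r : ℕ, law (⋃ l ∈ range (j + 1), ⋃ t ∈ range (2 ^ (j - l)),
            {a | τ j ≤ |eTq f (TJ k j) (2 ^ j) q (2 ^ j + 1 + r + q * (t * 2 ^ l)) (2 ^ l) a|}) ≤
          ENNReal.ofReal ((j + 1 : ℕ) * (W * 2 ^ j / τ j ^ 2)) := by
        intro q r
        calc law (⋃ l ∈ range (j + 1), ⋃ t ∈ range (2 ^ (j - l)),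
              {a | τ j ≤ |eTq f (TJ k j) (2 ^ j) q (2 ^ j + 1 + r + q * (t * 2 ^ l)) (2 ^ l) a|})
            ≤ ∑ l ∈ range (j + 1), ∑ t ∈ range (2 ^ (j - l)), law {a | τ j ≤
              |eTq f (TJ k j) (2 ^ j) q (2 ^ j + 1 + r + q * (t * 2 ^ l)) (2 ^ l) a|} :=
              (measure_biUnion_finset_le _ _).trans (Finset.sum_le_sum fun l _ => measure_biUnion_finset_le _ _)
          _ ≤ ∑ l ∈ range (j + 1), ∑ _t ∈ range (2 ^ (j - l)), ENNReal.ofReal (W * ((2 ^ l : ℕ) : ℝ) / τ j ^ 2) :=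
              Finset.sum_le_sum fun l _ => Finset.sum_le_sum fun t _ =>
                law_cheb4 f k hd hl hk hinj hj.1 hj.2 _ _ _ (hτ0 j)
          _ = ∑ l ∈ range (j + 1), ENNReal.ofReal (W * 2 ^ j / τ j ^ 2) := by
              refine Finset.sum_congr rfl fun l hl => ?_
              rw [Finset.mem_range] at hl
              rw [sum_const, card_range, nsmul_eq_mul, ← ENNReal.ofReal_natCast, ← ENNReal.ofReal_mul (by positivity)]
              congr 1
              have e1 : (2 : ℝ) ^ j = 2 ^ (j - l) * 2 ^ l := by rw [← pow_add, Nat.sub_add_cancel (by omega)]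
              push_cast
              rw [e1]
              ring
          _ = ENNReal.ofReal ((j + 1 : ℕ) * (W * 2 ^ j / τ j ^ 2)) := by
              rw [sum_const, card_range, nsmul_eq_mul, ENNReal.ofReal_mul (by positivity), ENNReal.ofReal_natCast]
      set X : ℝ := (j + 1 : ℕ) * (W * 2 ^ j / τ j ^ 2) with hX
      have hX0 : 0 ≤ X := by positivity
      clear_value X
      set Z : ℕ := zJ (ε / 2) j with hZ
      calc law (⋃ q ∈ Icc 1 Z, ⋃ r ∈ range q, ⋃ l ∈ range (j + 1), ⋃ t ∈ range (2 ^ (j - l)),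
            {a | τ j ≤ |eTq f (TJ k j) (2 ^ j) q (2 ^ j + 1 + r + q * (t * 2 ^ l)) (2 ^ l) a|})
          ≤ ∑ q ∈ Icc 1 Z, ∑ r ∈ range q, law (⋃ l ∈ range (j + 1), ⋃ t ∈ range (2 ^ (j - l)),
            {a | τ j ≤ |eTq f (TJ k j) (2 ^ j) q (2 ^ j + 1 + r + q * (t * 2 ^ l)) (2 ^ l) a|}) :=
            (measure_biUnion_finset_le _ _).trans (Finset.sum_le_sum fun q _ => measure_biUnion_finset_le _ _)
        _ ≤ ∑ _q ∈ Icc 1 Z, ∑ _r ∈ range Z, ENNReal.ofReal X := by
            refine Finset.sum_le_sum fun q hq => ?_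
            rw [Finset.mem_Icc] at hq
            refine (Finset.sum_le_sum fun r _ => hone q r).trans ?_
            rw [sum_const, sum_const, card_range, card_range]
            exact nsmul_le_nsmul_left zero_le hq.2
        _ = ENNReal.ofReal ((Z : ℝ) * (Z * X)) := by
            rw [sum_const, sum_const, Nat.card_Icc, card_range, nsmul_eq_mul, nsmul_eq_mul, Nat.add_sub_cancel,
              ENNReal.ofReal_mul (by positivity), ENNReal.ofReal_mul (by positivity), ENNReal.ofReal_natCast]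
        _ ≤ _ := by
            apply ENNReal.ofReal_le_ofReal
            have e2 : τ j ^ 2 = ((2 : ℝ) ^ j) * Real.exp (b * j) / (j + 1) ^ 2 := by
              simp only [hτ]
              rw [div_pow]
              congr 1
              rw [pow_rpow_exp, two_pow_exp, ← Real.exp_nat_mul, ← Real.exp_add]
              congr 1
              rw [hb]
              push_cast
              ring
            have hZle : (Z : ℝ) ≤ Real.exp (b / 4 * j) := by
              have h4 : (Z : ℝ) ≤ ((2 : ℝ) ^ j) ^ (ε / 2) := Nat.floor_le (by positivity)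
              refine h4.trans (le_of_eq ?_)
              rw [pow_rpow_exp]
              congr 1
              rw [hb]
              ring
            have e3 : X = ((j : ℝ) + 1) ^ 3 * W / Real.exp (b * j) := by
              rw [hX, e2]
              push_cast
              field_simp
            have e4 : W ≤ Real.exp (b / 4 * j) := by
              rw [hW]
              apply Real.exp_le_exp.mpr
              have := mul_le_mul_of_nonneg_left (log_TJ k j hj.1) hC0
              rw [mul_add] at this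
              linarith
            have e5 : ((j : ℝ) + 1) ^ 5 ≤ Real.exp (b / 4 * j) := by
              calc ((j : ℝ) + 1) ^ 5 = Real.exp (5 * Real.log ((j : ℝ) + 1)) := by
                    rw [← Real.exp_log (by positivity : (0 : ℝ) < (j : ℝ) + 1), Real.log_exp, ← Real.exp_nat_mul]
                    norm_num
                _ ≤ Real.exp (b / 4 * j) := Real.exp_le_exp.mpr h3
            have hE : Real.exp (b / 4 * j) * (Real.exp (b / 4 * j) * (Real.exp (b / 4 * j) * Real.exp (b / 4 * j))) =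
                Real.exp (b * j) := by
              rw [← Real.exp_add, ← Real.exp_add, ← Real.exp_add]
              congr 1
              ring
            set E := Real.exp (b / 4 * j) with hEd
            have hE0 : 0 < E := Real.exp_pos _
            rw [e3, ← hE, one_mul]
            have hZ0 : (0 : ℝ) ≤ Z := Nat.cast_nonneg _
            calc (Z : ℝ) * (Z * (((j : ℝ) + 1) ^ 3 * W / (E * (E * (E * E))))) ≤
                  E * (E * (((j : ℝ) + 1) ^ 3 * E / (E * (E * (E * E))))) := by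
                  apply mul_le_mul hZle _ (by positivity) hE0.le
                  apply mul_le_mul hZle _ (by positivity) hE0.le
                  apply div_le_div_of_nonneg_right _ (by positivity)
                  exact mul_le_mul_of_nonneg_left e4 (by positivity)
              _ = ((j : ℝ) + 1) ^ 3 / E := by field_simp
              _ ≤ 1 / (j : ℝ) ^ 2 := by
                  rw [div_le_div_iff₀ hE0 (by positivity), one_mul]
                  refine le_trans ?_ e5
                  calc ((j : ℝ) + 1) ^ 3 * (j : ℝ) ^ 2 ≤ ((j : ℝ) + 1) ^ 3 * ((j : ℝ) + 1) ^ 2 := by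
                        apply mul_le_mul_of_nonneg_left _ (by positivity)
                        exact pow_le_pow_left₀ (by linarith) (by linarith) 2
                    _ = ((j : ℝ) + 1) ^ 5 := by ring)
  filter_upwards [hb] with a ha
  filter_upwards [ha] with j hj q hq1 hq2 r hr y hy
  simp only [Set.mem_iUnion, exists_prop, not_exists, not_and, Finset.mem_range, Finset.mem_Icc] at hj
  set G : ℕ → ℝ := fun y => eTq f (TJ k j) (2 ^ j) q (2 ^ j + 1 + r) y a with hG
  have h := chaining G j (hτ0 j).le (fun l hl t ht => by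
    have h1 := hj q ⟨hq1, hq2⟩ r hr l (by omega) t ht
    have h2 : ¬ (τ j ≤ |eTq f (TJ k j) (2 ^ j) q (2 ^ j + 1 + r + q * (t * 2 ^ l)) (2 ^ l) a|) := h1
    have h3 : G ((t + 1) * 2 ^ l) - G (t * 2 ^ l) =
        eTq f (TJ k j) (2 ^ j) q (2 ^ j + 1 + r + q * (t * 2 ^ l)) (2 ^ l) a := by
      simp only [hG]
      have e1 : (t + 1) * 2 ^ l = t * 2 ^ l + 2 ^ l := by ring
      rw [e1, eTq_add]
      ring
    rw [h3]
    exact (not_le.mp h2).le) y hy
  have hG0 : G 0 = 0 := by
    simp only [hG]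
    unfold eTq SS
    simp
  rw [hG0, sub_zero] at h
  refine h.trans (le_of_eq ?_)
  simp only [hτ]
  have : ((j : ℝ) + 1) ≠ 0 := by positivity
  field_simp

end Pool.Agent.W2helper64.BQ
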