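import Pool.Agent.W2helper64.BQ.Md0

set_option autoImplicit false
set_option linter.unusedSectionVars false

/-!
The asymptotic formula in arithmetic progressions, uniformly in the modulus, almost surely.
-/

namespace Pool.Agent.W2helper64.BQ

open Finset Filter Topology Polynomial MeasureTheory Pool.Agent.W2helper64.RS Pool.Agent.W2helper64.RK
open Pool.Agent.W2helper64.BH
open Pool.Agent.H373R2.T7 (pz nuB PerB sys_count nuB_le mem_pz)

/-- the number of `n ≤ x` in the class `b` modulo `q` all of whose values lie in the random set -/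
noncomputable def cntq {g : ℕ} (f : Fin g → ℤ[X]) (a : (p : Nat.Primes) → ZMod (p : ℕ)) (q b x : ℕ) : ℕ :=
  (@Finset.filter ℕ (fun n => n % q = b % q ∧ AllR f a n) (Classical.decPred _) (Icc 1 x)).card

/-- the number of the allowed classes modulo `q` -/
noncomputable def phq {g : ℕ} (f : Fin g → ℤ[X]) (a : (p : Nat.Primes) → ZMod (p : ℕ)) (q : ℕ) : ℝ :=
  q * ∏ p ∈ q.primeFactors, (1 - (nuB (Hit f a) p : ℝ) / p)

/-- the density of the allowed classes -/
noncomputable def Piq {g : ℕ} (f : Fin g → ℤ[X]) (a : (p : Nat.Primes) → ZMod (p : ℕ)) (q : ℕ) : ℝ :=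
  ∏ p ∈ q.primeFactors, (1 - (nuB (Hit f a) p : ℝ) / p)

theorem nuB_lt {g : ℕ} (f : Fin g → ℤ[X]) (a : (p : Nat.Primes) → ZMod (p : ℕ)) {p b : ℕ} (hp : p.Prime)
    (hb : ¬ Hit f a p b) : nuB (Hit f a) p < p := by
  classical
  rcases (nuB_le (Hit f a) p).lt_or_eq with h | h
  · exact h
  · exfalso
    unfold nuB at h
    have h1 : ((range p).filter fun m => Hit f a p m) = range p := by
      apply eq_of_subset_of_card_le (filter_subset _ _)
      rw [card_range]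
      refine le_trans (le_of_eq h.symm) (le_of_eq ?_)
      congr
    have h2 : b % p ∈ (range p).filter fun m => Hit f a p m := by
      rw [h1, mem_range]
      exact Nat.mod_lt _ hp.pos
    rw [Finset.mem_filter] at h2
    exact hb ((hit_per f a p b).mpr h2.2)

theorem Piq_bounds {g : ℕ} (f : Fin g → ℤ[X]) (a : (p : Nat.Primes) → ZMod (p : ℕ)) {q b : ℕ} (hq : 1 ≤ q)
    (hb : ∀ p ∈ q.primeFactors, ¬ Hit f a p b) : 1 / (q : ℝ) ≤ Piq f a q ∧ Piq f a q ≤ 1 := by
  have hq0 : (0 : ℝ) < q := by exact_mod_cast hq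
  have hfac : ∀ p ∈ q.primeFactors, 1 / (p : ℝ) ≤ 1 - (nuB (Hit f a) p : ℝ) / p ∧
      1 - (nuB (Hit f a) p : ℝ) / p ≤ 1 := by
    intro p hp
    have hpp := Nat.prime_of_mem_primeFactors hp
    have hp0 : (0 : ℝ) < p := by exact_mod_cast hpp.pos
    have h1 : ((nuB (Hit f a) p : ℕ) : ℝ) + 1 ≤ p := by exact_mod_cast nuB_lt f a hpp (hb p hp)
    constructor
    · rw [le_sub_iff_add_le, ← add_div, div_le_one hp0]
      linarith
    · have : (0 : ℝ) ≤ (nuB (Hit f a) p : ℝ) / p := by positivity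
      linarith
  constructor
  · have h1 : ∏ p ∈ q.primeFactors, (1 / (p : ℝ)) ≤ Piq f a q :=
      prod_le_prod (fun p _ => by positivity) fun p hp => (hfac p hp).1
    refine le_trans ?_ h1
    rw [prod_div_distrib, prod_const_one]
    have h2 : ∏ p ∈ q.primeFactors, p ≤ q := Nat.le_of_dvd hq (Nat.prod_primeFactors_dvd q)
    have h3 : ((∏ p ∈ q.primeFactors, p : ℕ) : ℝ) ≤ q := by exact_mod_cast h2
    push_cast at h3
    apply one_div_le_one_div_of_le _ h3
    exact prod_pos fun p hp => by exact_mod_cast (Nat.prime_of_mem_primeFactors hp).pos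
  · unfold Piq
    refine prod_le_one (fun p hp => ?_) fun p hp => (hfac p hp).2
    have := (hfac p hp).1
    have hp0 : (0 : ℝ) ≤ 1 / (p : ℝ) := by positivity
    linarith

theorem yTq_eq {g : ℕ} {f : Fin g → ℤ[X]} {T : ℝ} {z m M : ℕ} (G : Blk f T z m M)
    (a : (p : Nat.Primes) → ZMod (p : ℕ)) {q b : ℕ} (hq : 1 ≤ q) (hb : ∀ p ∈ q.primeFactors, ¬ Hit f a p b)
    {n : ℕ} (hn1 : m < n) (hn2 : n ≤ M) (hnb : n % q = b % q) [Decidable (AllR f a n)] :
    yTq f T m q a n = if AllR f a n then 1 else 0 := by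
  have h3 := R_iffT G a hn1.le hn2
  have h4 : ∀ p : {p // p ∈ PX T}, PhA f ((p : Nat.Primes) : ℕ) (kap f m ((p : Nat.Primes) : ℕ) n)
      ((n : ℕ) : ZMod ((p : Nat.Primes) : ℕ)) = Ph f (p : Nat.Primes) n := by
    intro p
    unfold kap
    rw [max_eq_left hn1.le]
    exact PhA_rel f (p : Nat.Primes) n
  have h5 : ∀ p : {p // p ∈ PX T}, ((p : Nat.Primes) : ℕ) ∣ q → ((PX T).restrict a) p ∉ Ph f (p : Nat.Primes) n := by
    intro p hpq hmem
    have hpf : ((p : Nat.Primes) : ℕ) ∈ q.primeFactors :=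
      Nat.mem_primeFactors.mpr ⟨(p : Nat.Primes).2, hpq, by omega⟩
    apply hb _ hpf
    have hmod : n % ((p : Nat.Primes) : ℕ) = b % ((p : Nat.Primes) : ℕ) := Nat.ModEq.of_dvd hpq hnb
    rw [hit_per, ← hmod, ← hit_per]
    unfold Ph at hmem
    rw [mem_image] at hmem
    obtain ⟨i, -, hi⟩ := hmem
    exact ⟨(p : Nat.Primes).2, i, hi⟩
  unfold yTq yy
  by_cases h : AllR f a n
  · rw [if_pos h, if_pos]
    intro p _
    have h6 := (h3.mp h) p
    rw [← h4 p] at h6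
    exact h6
  · rw [if_neg h, if_neg]
    intro hcon
    apply h
    apply h3.mpr
    intro p
    by_cases hpq : ((p : Nat.Primes) : ℕ) ∣ q
    · exact h5 p hpq
    · rw [← h4 p]
      exact hcon p (by unfold Kq; rw [Finset.mem_filter]; exact ⟨Finset.mem_univ _, hpq⟩)

theorem wTq_eq {g : ℕ} {f : Fin g → ℤ[X]} {T : ℝ} {z m M : ℕ} (G : Blk f T z m M) (hVT : 1 ≤ V z * T)
    (a : (p : Nat.Primes) → ZMod (p : ℕ)) {q : ℕ} (hq : 1 ≤ q) (hqz : q ≤ z)
    {n : ℕ} (hn1 : m ≤ n) (hn2 : n ≤ M) :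
    wT f T m a n = wTq f T m q a n * Piq f a q := by
  classical
  have hT0 : 0 ≤ T := by linarith [G.T1]
  obtain ⟨-, s2, -, -⟩ := G.sys n hn1 hn2
  have hcongr : ∀ p : {p // p ∈ PX T}, ((p : Nat.Primes) : ℕ) ∣ q →
      nn (F := PX T) (fun p A x => PhA f ((p : Nat.Primes) : ℕ) A x) p (kap f m ((p : Nat.Primes) : ℕ) n)
        (((PX T).restrict a) p) = nuB (Hit f a) ((p : Nat.Primes) : ℕ) := by
    intro p hpq
    have hpz : ((p : Nat.Primes) : ℕ) ≤ z := (Nat.le_of_dvd hq hpq).trans hqz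
    have hrel : kap f m ((p : Nat.Primes) : ℕ) n = univ := by
      unfold kap
      rw [max_eq_left hn1]
      apply eq_univ_of_forall
      intro i
      unfold rel
      rw [Finset.mem_filter]
      exact ⟨Finset.mem_univ _, (s2 i).2.2.trans (mul_le_mul_of_nonneg_right (V_anti hpz) (by linarith [(s2 i).1]))⟩
    rw [hrel]
    show nuS f univ (p : Nat.Primes) (a (p : Nat.Primes)) = _
    rw [nuS_univ, nuB_eq]
  unfold wT wTq ww Piq Kq
  rw [← prod_filter_mul_prod_filter_not (univ : Finset {p // p ∈ PX T})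
    (fun p : {p // p ∈ PX T} => ((p : Nat.Primes) : ℕ) ∣ q), mul_comm]
  congr 1
  refine prod_bij (fun p _ => ((p : Nat.Primes) : ℕ)) ?_ ?_ ?_ ?_
  · intro p hp
    rw [Finset.mem_filter] at hp
    exact Nat.mem_primeFactors.mpr ⟨(p : Nat.Primes).2, hp.2, by omega⟩
  · intro p _ r _ h
    exact Subtype.ext (Subtype.ext h)
  · intro p hp
    have hpp := Nat.prime_of_mem_primeFactors hp
    have hpq := Nat.dvd_of_mem_primeFactors hp
    have hpz : p ≤ z := (Nat.le_of_dvd hq hpq).trans hqz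
    refine ⟨⟨⟨p, hpp⟩, mem_PX_of_le hVT hT0 ⟨p, hpp⟩ hpz⟩, ?_, rfl⟩
    rw [Finset.mem_filter]
    exact ⟨Finset.mem_univ _, hpq⟩
  · intro p hp
    rw [Finset.mem_filter] at hp
    have h1 := hcongr p hp.2
    simp only at h1 ⊢
    rw [h1]

theorem class_enum {q : ℕ} [NeZero q] (F : ℕ → ℝ) (m y b : ℕ) :
    ∑ n ∈ (Ioc m y).filter (fun n => n % q = b % q), F n =
      SS F (mcl q (y - m) ((b : ZMod q) - ((m + 1 : ℕ) : ZMod q)))
        (m + 1 + ((b : ZMod q) - ((m + 1 : ℕ) : ZMod q)).val) q := by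
  set x : ZMod q := (b : ZMod q) - ((m + 1 : ℕ) : ZMod q) with hx
  have h1 := class_sum (p := q) (y - m) x (fun t => F (m + 1 + t))
  have h2 : SS F (mcl q (y - m) x) (m + 1 + x.val) q = ∑ t ∈ range (mcl q (y - m) x), F (m + 1 + (x.val + q * t)) := by
    unfold SS
    refine sum_congr rfl fun t _ => ?_
    congr 1
    ring
  rw [h2, ← h1]
  have hiff : ∀ n : ℕ, m < n → (n % q = b % q ↔ ((n - (m + 1) : ℕ) : ZMod q) = x) := by
    intro n hn
    have e1 : (n % q = b % q) ↔ ((n : ℕ) : ZMod q) = ((b : ℕ) : ZMod q) := by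
      rw [ZMod.natCast_eq_natCast_iff]
      exact Iff.rfl
    rw [e1, hx]
    have e2 : ((n : ℕ) : ZMod q) = ((n - (m + 1) : ℕ) : ZMod q) + ((m + 1 : ℕ) : ZMod q) := by
      rw [← Nat.cast_add, Nat.sub_add_cancel (by omega)]
    rw [e2]
    constructor
    · intro h; rw [← h]; ring
    · intro h; rw [h]; ring
  refine sum_bij' (fun n _ => n - (m + 1)) (fun t _ => m + 1 + t) ?_ ?_ ?_ ?_ ?_
  · intro n hn
    rw [Finset.mem_filter, mem_Ioc] at hn
    rw [Finset.mem_filter, mem_range]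
    exact ⟨by omega, (hiff n hn.1.1).mp hn.2⟩
  · intro t ht
    rw [Finset.mem_filter, mem_range] at ht
    rw [Finset.mem_filter, mem_Ioc]
    refine ⟨by omega, (hiff (m + 1 + t) (by omega)).mpr ?_⟩
    rw [Nat.add_sub_cancel_left]
    exact ht.2
  · intro n hn
    rw [Finset.mem_filter, mem_Ioc] at hn
    show m + 1 + (n - (m + 1)) = n
    omega
  · intro t ht
    show m + 1 + t - (m + 1) = t
    omega
  · intro n hn
    rw [Finset.mem_filter, mem_Ioc] at hn
    have : m + 1 + (n - (m + 1)) = n := by omega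
    simp only [this]

/-- the difference -/
noncomputable def Gq {g : ℕ} (f : Fin g → ℤ[X]) (a : (p : Nat.Primes) → ZMod (p : ℕ)) (S : ℝ) (q b x : ℕ) : ℝ :=
  (cntq f a q b x : ℝ) - S / phq f a q * HH f x

theorem HH_block {g : ℕ} {f : Fin g → ℤ[X]} {T : ℝ} {z m M : ℕ} (G : Blk f T z m M) (hm : 1 ≤ m) {y : ℕ}
    (hmy : m ≤ y) (hy : y ≤ M) (a : (p : Nat.Primes) → ZMod (p : ℕ)) :
    HH f y - HH f m = ∑ n ∈ Ioc m y, hh f n := by
  have h0 := GG_block G hm hmy hy a 0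
  have h1 := GG_block G hm hmy hy a 1
  unfold GG at h0 h1
  linarith

theorem cntq_block {g : ℕ} (f : Fin g → ℤ[X]) (a : (p : Nat.Primes) → ZMod (p : ℕ)) (q b m y : ℕ) (hmy : m ≤ y) :
    (cntq f a q b y : ℝ) - cntq f a q b m =
      ∑ n ∈ (Ioc m y).filter (fun n => n % q = b % q), @ite ℝ (AllR f a n) (Classical.dec _) 1 0 := by
  classical
  unfold cntq
  have h1 := card_split (fun n => n % q = b % q ∧ AllR f a n) m y hmy
  rw [h1, add_sub_cancel_left]
  have h2 : (@Finset.filter ℕ (fun n => n % q = b % q ∧ AllR f a n) (Classical.decPred _) (Ioc m y)) =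
      ((Ioc m y).filter (fun n => n % q = b % q)).filter (fun n => AllR f a n) := by
    ext n
    rw [mf', Finset.mem_filter, Finset.mem_filter]
    tauto
  rw [h2, ← sum_boole]

theorem ae_blockq {g : ℕ} (f : Fin g → ℤ[X]) (hd : ∀ i, 0 < (f i).natDegree)
    (hl : ∀ i, 0 < (f i).leadingCoeff) (hinj : Function.Injective f) {ε : ℝ} (hε : 0 < ε) (hε1 : ε ≤ 1 / 4) :
    ∀ᵐ a ∂law, ∀ S C : ℝ, 0 ≤ C → 0 ≤ S → Tendsto (fun z : ℕ => PP f a z / V z ^ g) atTop (𝓝 S) →
      (∀ᶠ z : ℕ in atTop, |PP f a z / V z ^ g - S| ≤ C * (z : ℝ) ^ (-(1 / 4) : ℝ)) →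
      ∃ K : ℝ, 0 ≤ K ∧ ∀ᶠ j : ℕ in atTop, ∀ q : ℕ, 1 ≤ q → q ≤ zJ (ε / 2) j → ∀ b : ℕ,
        (∀ p ∈ q.primeFactors, ¬ Hit f a p b) → ∀ y : ℕ, 2 ^ j ≤ y → y ≤ 2 ^ (j + 1) →
        |Gq f a S q b y - Gq f a S q b (2 ^ j)| ≤ K * ((2 : ℝ) ^ j) ^ (1 / 2 + ε) := by
  classical
  set k : ℕ := ∑ i, (f i).natDegree + 2 with hk
  have hk2 : ∑ i, (f i).natDegree ≤ k := by omega
  have hk2r : (2 : ℝ) ≤ k := by exact_mod_cast (by omega : 2 ≤ k)
  have hblk := ev_blk f k hd hl hk2 hinj (θ := 1 / 2) (by norm_num) (fun i => by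
    have : (1 : ℝ) ≤ (f i).natDegree := by exact_mod_cast hd i
    linarith) (by linarith)
  have hz : ∀ᶠ j : ℕ in atTop, 1 ≤ TJ k j ∧ ∀ n, 2 ^ j ≤ n → ∀ i, lam f i n ≤ lam f i (n + 1) := by
    filter_upwards [hblk] with j hj
    exact ⟨hj.1.T1, fun n hn i => (hj.1.mono n hn i).2⟩
  filter_upwards [ae_ph4 f k hd hl hk2 hinj hz hε, ae_weights f k hd hl (by omega) hinj hε hε1] with a h1 h2 S C hC0 hS0 hS hrate
  obtain ⟨K, hK0, hK⟩ := h2 S C hC0 hS0 hS hrate
  refine ⟨1 + 2 * K + S, by positivity, ?_⟩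
  filter_upwards [h1, hK, hblk] with j p1 p2 hG q hq1 hq2 b hb y hy1 hy2
  obtain ⟨G, hVT⟩ := hG
  have : NeZero q := ⟨by omega⟩
  set N : ℝ := (2 : ℝ) ^ j with hN
  have hN0 : 0 < N := by positivity
  have hN1 : 1 ≤ N := one_le_pow₀ (by norm_num)
  set m : ℕ := 2 ^ j with hm
  have hmr : ((m : ℕ) : ℝ) = N := by rw [hm, hN]; push_cast; rfl
  have hm1 : 1 ≤ m := Nat.one_le_two_pow
  set T := TJ k j with hT
  set z := zJ (1 / 2) j with hzd
  have hq0 : (0 : ℝ) < q := by exact_mod_cast hq1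
  have hqN : (q : ℝ) ≤ N ^ (ε / 2) := by
    have e1 : ((zJ (ε / 2) j : ℕ) : ℝ) ≤ N ^ (ε / 2) := Nat.floor_le (by positivity)
    have e2 : (q : ℝ) ≤ zJ (ε / 2) j := by exact_mod_cast hq2
    linarith
  have hqN1 : (q : ℝ) ≤ N := by
    refine hqN.trans ?_
    calc N ^ (ε / 2) ≤ N ^ (1 : ℝ) := Real.rpow_le_rpow_of_exponent_le hN1 (by linarith)
      _ = N := Real.rpow_one N
  have hqz : q ≤ z := by
    refine hq2.trans ?_
    rw [hzd]
    unfold zJ
    apply Nat.floor_le_floor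
    exact Real.rpow_le_rpow_of_exponent_le hN1 (by linarith)
  obtain ⟨hP1, hP2⟩ := Piq_bounds f a hq1 hb
  set Pi0 := Piq f a q with hPi
  have hPpos : 0 < Pi0 := lt_of_lt_of_le (by positivity) hP1
  have hPinv : 1 / Pi0 ≤ q := by
    rw [div_le_iff₀ hPpos]
    rw [div_le_iff₀ hq0] at hP1
    linarith
  have hph : phq f a q = q * Pi0 := rfl
  -- the class
  set x : ZMod q := (b : ZMod q) - ((m + 1 : ℕ) : ZMod q) with hx
  set L := mcl q (y - m) x with hL
  set F := (Ioc m y).filter (fun n => n % q = b % q) with hF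
  have hyj : y - m ≤ m := by rw [hm]; rw [pow_succ] at hy2; omega
  have hyjr : ((y - m : ℕ) : ℝ) ≤ N := by
    rw [← hmr]
    exact_mod_cast hyj
  have hFL : (F.card : ℝ) = L := by
    have h3 := class_enum (q := q) (fun _ => (1 : ℝ)) m y b
    unfold SS at h3
    simp only [sum_const, card_range, nsmul_eq_mul, mul_one] at h3
    exact h3
  have hLle : (L : ℝ) ≤ N / q + 1 := by
    have h3 : (L : ℝ) ≤ ((y - m) / q : ℕ) + 1 := by
      rw [hL]
      unfold mcl
      split_ifs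
      · push_cast; exact le_rfl
      · push_cast; linarith
    have h4 : (((y - m) / q : ℕ) : ℝ) ≤ ((y - m : ℕ) : ℝ) / q := Nat.cast_div_le
    have h5 : ((y - m : ℕ) : ℝ) / q ≤ N / q := div_le_div_of_nonneg_right hyjr hq0.le
    linarith
  have hLj : L ≤ 2 ^ j := by
    have h3 : F.card ≤ (Ioc m y).card := card_filter_le _ _
    rw [Nat.card_Ioc] at h3
    have h4 : F.card = L := by exact_mod_cast hFL
    omega
  -- the first error
  have q1 := p1 q hq1 hq2 x.val (ZMod.val_lt x) L hLj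
  unfold eTq at q1
  have e1 : (cntq f a q b y : ℝ) - cntq f a q b m = SS (yTq f T m q a) L (m + 1 + x.val) q := by
    rw [cntq_block f a q b m y hy1, ← class_enum]
    refine sum_congr rfl fun n hn => ?_
    rw [Finset.mem_filter, mem_Ioc] at hn
    rw [yTq_eq G a hq1 hb hn.1.1 (hn.1.2.trans hy2) hn.2]
  have e2 : SS (wTq f T m q a) L (m + 1 + x.val) q = 1 / Pi0 * ∑ n ∈ F, wT f T m a n := by
    rw [← class_enum, mul_sum]
    refine sum_congr rfl fun n hn => ?_
    rw [Finset.mem_filter, mem_Ioc] at hn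
    rw [wTq_eq G hVT a hq1 hqz hn.1.1.le (hn.1.2.trans hy2), ← hPi]
    field_simp
  rw [← e1, e2] at q1
  -- the weights
  set u : ℝ := N ^ (-(1 / 2) + ε) with hu
  have hu0 : 0 < u := by positivity
  have q2 : |1 / Pi0 * ∑ n ∈ F, wT f T m a n - S * (1 / Pi0) * ∑ n ∈ F, hh f n| ≤ 2 * K * N ^ (1 / 2 + ε) := by
    have e3 : 1 / Pi0 * ∑ n ∈ F, wT f T m a n - S * (1 / Pi0) * ∑ n ∈ F, hh f n =
        1 / Pi0 * ∑ n ∈ F, (wT f T m a n - S * hh f n) := by
      rw [sum_sub_distrib, ← mul_sum]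
      ring
    have h3 : |∑ n ∈ F, (wT f T m a n - S * hh f n)| ≤ L * (K * u) := by
      refine (abs_sum_le_sum_abs _ _).trans ?_
      have h4 : ∀ n ∈ F, |wT f T m a n - S * hh f n| ≤ K * u := by
        intro n hn
        rw [Finset.mem_filter, mem_Ioc] at hn
        exact p2 n hn.1.1.le (hn.1.2.trans hy2)
      refine (sum_le_sum h4).trans (le_of_eq ?_)
      rw [sum_const, nsmul_eq_mul, hFL]
    rw [e3, abs_mul, abs_of_pos (by positivity : 0 < 1 / Pi0)]
    have h5 : N * u = N ^ (1 / 2 + ε) := by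
      rw [hu]
      nth_rewrite 1 [← Real.rpow_one N]
      rw [← Real.rpow_add hN0]
      congr 1
      ring
    have hL0 : (0 : ℝ) ≤ L := Nat.cast_nonneg _
    calc 1 / Pi0 * |∑ n ∈ F, (wT f T m a n - S * hh f n)| ≤ q * ((N / q + 1) * (K * u)) := by
          apply mul_le_mul hPinv _ (abs_nonneg _) hq0.le
          exact h3.trans (mul_le_mul_of_nonneg_right hLle (by positivity))
      _ = (N + q) * (K * u) := by field_simp
      _ ≤ (N + N) * (K * u) := mul_le_mul_of_nonneg_right (by linarith) (by positivity)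
      _ = 2 * K * (N * u) := by ring
      _ = 2 * K * N ^ (1 / 2 + ε) := by rw [h5]
  -- the classes of the smooth main term
  have q3 : |∑ n ∈ F, hh f n - (∑ n ∈ Ioc m y, hh f n) / q| ≤ N ^ (1 / 2 : ℝ) := by
    have h3 := mono_class (p := q) (y - m) (fun t => hh f (m + 1 + t)) (fun t => (hh_blk G (m + 1 + t) (by omega)).1)
      (fun t => (hh_blk G (m + 1 + t) (by omega)).2.1) (fun t => (hh_blk G (m + 1 + t) (by omega)).2.2)
    have h4 := single_le_sum (f := fun x : ZMod q => (∑ t ∈ (range (y - m)).filter (fun t : ℕ => ((t : ℕ) : ZMod q) = x),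
      hh f (m + 1 + t) - (∑ t ∈ range (y - m), hh f (m + 1 + t)) / q) ^ 2) (fun _ _ => sq_nonneg _) (Finset.mem_univ x)
    have h5 := h4.trans h3
    have e3 : ∑ t ∈ (range (y - m)).filter (fun t : ℕ => ((t : ℕ) : ZMod q) = x), hh f (m + 1 + t) = ∑ n ∈ F, hh f n := by
      rw [class_sum (p := q) (y - m) x (fun t => hh f (m + 1 + t)), class_enum]
      unfold SS
      refine sum_congr rfl fun t _ => ?_
      congr 1
      ring
    have e4 : ∑ t ∈ range (y - m), hh f (m + 1 + t) = ∑ n ∈ Ioc m y, hh f n := by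
      refine sum_bij' (fun t _ => m + 1 + t) (fun n _ => n - (m + 1)) ?_ ?_ ?_ ?_ ?_
      · intro t ht
        rw [mem_range] at ht
        rw [mem_Ioc]
        omega
      · intro n hn
        rw [mem_Ioc] at hn
        rw [mem_range]
        omega
      · intro t ht
        show m + 1 + t - (m + 1) = t
        omega
      · intro n hn
        rw [mem_Ioc] at hn
        show m + 1 + (n - (m + 1)) = n
        omega
      · intro t _
        rfl
    rw [e3, e4] at h5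
    rw [← Real.sqrt_eq_rpow, ← Real.sqrt_sq_eq_abs]
    exact Real.sqrt_le_sqrt (h5.trans hyjr)
  have q4 : |S * (1 / Pi0) * ∑ n ∈ F, hh f n - S / phq f a q * ∑ n ∈ Ioc m y, hh f n| ≤ S * N ^ (1 / 2 + ε) := by
    have e3 : S * (1 / Pi0) * ∑ n ∈ F, hh f n - S / phq f a q * ∑ n ∈ Ioc m y, hh f n =
        S * (1 / Pi0) * (∑ n ∈ F, hh f n - (∑ n ∈ Ioc m y, hh f n) / q) := by
      rw [hph]
      field_simp
    rw [e3, abs_mul, abs_of_nonneg (by positivity : 0 ≤ S * (1 / Pi0)), mul_assoc]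
    apply mul_le_mul_of_nonneg_left _ hS0
    calc 1 / Pi0 * |∑ n ∈ F, hh f n - (∑ n ∈ Ioc m y, hh f n) / q| ≤ N ^ (ε / 2) * N ^ (1 / 2 : ℝ) :=
          mul_le_mul (hPinv.trans hqN) q3 (abs_nonneg _) (by positivity)
      _ = N ^ (ε / 2 + 1 / 2) := by rw [← Real.rpow_add hN0]
      _ ≤ N ^ (1 / 2 + ε) := Real.rpow_le_rpow_of_exponent_le hN1 (by linarith)
  have hHH := HH_block G hm1 hy1 hy2 a
  have e3 : Gq f a S q b y - Gq f a S q b m = ((cntq f a q b y : ℝ) - cntq f a q b m) -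
      S / phq f a q * ∑ n ∈ Ioc m y, hh f n := by
    unfold Gq
    rw [← hHH]
    ring
  rw [e3]
  set A1 := (cntq f a q b y : ℝ) - cntq f a q b m
  set A2 := 1 / Pi0 * ∑ n ∈ F, wT f T m a n
  set A3 := S * (1 / Pi0) * ∑ n ∈ F, hh f n
  set A4 := S / phq f a q * ∑ n ∈ Ioc m y, hh f n
  have e4 : A1 - A4 = (A1 - A2) + (A2 - A3) + (A3 - A4) := by ring
  rw [e4]
  have a1 := abs_add_le ((A1 - A2) + (A2 - A3)) (A3 - A4)
  have a2 := abs_add_le (A1 - A2) (A2 - A3)
  have e5 : (1 + 2 * K + S) * N ^ (1 / 2 + ε) = N ^ (1 / 2 + ε) + 2 * K * N ^ (1 / 2 + ε) + S * N ^ (1 / 2 + ε) := by ring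
  rw [e5]
  linarith

end Pool.Agent.W2helper64.BQ
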