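import Pool.Agent.W2helper64.BQ.Md1

set_option autoImplicit false
set_option linter.unusedSectionVars false

/-!
The asymptotic formula in arithmetic progressions: the final form.
-/

namespace Pool.Agent.W2helper64.BQ

open Finset Filter Topology Polynomial MeasureTheory Pool.Agent.W2helper64.RS Pool.Agent.W2helper64.RK
open Pool.Agent.W2helper64.BH
open Pool.Agent.H373R2.T7 (pz nuB PerB sys_count nuB_le mem_pz)

theorem dyadic_fin (G : ℕ → ℝ) {K e : ℝ} (hK0 : 0 ≤ K) (he2 : 1 / 2 ≤ e) (J1 x : ℕ) (hx : 2 ^ J1 ≤ x)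
    (hK : ∀ j, J1 ≤ j → ∀ y : ℕ, 2 ^ j ≤ y → y ≤ 2 ^ (j + 1) → |G y - G (2 ^ j)| ≤ K * ((2 : ℝ) ^ j) ^ e) :
    |G x - G (2 ^ J1)| ≤ 4 * K * (x : ℝ) ^ e := by
  set r : ℝ := (2 : ℝ) ^ e with hr
  have hr43 : 4 / 3 ≤ r := by
    have e1 : (2 : ℝ) ^ (1 / 2 : ℝ) ≤ r := Real.rpow_le_rpow_of_exponent_le (by norm_num) he2
    have e2 : (4 / 3 : ℝ) ≤ (2 : ℝ) ^ (1 / 2 : ℝ) := by
      rw [← Real.sqrt_eq_rpow]
      apply Real.le_sqrt_of_sq_le
      norm_num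
    linarith
  have hrj : ∀ j : ℕ, ((2 : ℝ) ^ j) ^ e = r ^ j := by
    intro j
    rw [hr, ← Real.rpow_natCast, ← Real.rpow_natCast, ← Real.rpow_mul (by norm_num), ← Real.rpow_mul (by norm_num)]
    congr 1; ring
  have hind : ∀ J, J1 ≤ J → |G (2 ^ J) - G (2 ^ J1)| ≤ 3 * K * r ^ J := by
    intro J hJ
    induction J, hJ using Nat.le_induction with
    | base =>
      rw [sub_self, abs_zero]
      positivity
    | succ J hJ ih =>
      have h1 := hK J hJ (2 ^ (J + 1)) (Nat.pow_le_pow_right (by norm_num) (by omega)) le_rfl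
      rw [hrj] at h1
      have h2 := abs_sub_le (G (2 ^ (J + 1))) (G (2 ^ J)) (G (2 ^ J1))
      have h3 : 4 * K * r ^ J ≤ 3 * K * r ^ (J + 1) := by
        rw [pow_succ]
        have : 0 ≤ K * r ^ J := by positivity
        nlinarith
      linarith
  have hx1 : 1 ≤ x := Nat.one_le_two_pow.trans hx
  set J := Nat.log 2 x with hJ
  have hJ1 : 2 ^ J ≤ x := Nat.pow_log_le_self 2 (by omega)
  have hJ2 : x < 2 ^ (J + 1) := Nat.lt_pow_succ_log_self (by norm_num) x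
  have hJJ : J1 ≤ J := by
    rw [hJ]
    exact Nat.le_log_of_pow_le (by norm_num) hx
  have h1 := hK J hJJ x hJ1 hJ2.le
  have h2 := hind J hJJ
  rw [hrj] at h1
  have h3 : r ^ J ≤ (x : ℝ) ^ e := by
    rw [← hrj]
    apply Real.rpow_le_rpow (by positivity) _ (by linarith)
    exact_mod_cast hJ1
  have h4 := abs_sub_le (G x) (G (2 ^ J)) (G (2 ^ J1))
  have h5 : K * r ^ J ≤ K * (x : ℝ) ^ e := mul_le_mul_of_nonneg_left h3 hK0
  linarith

theorem HH_le {g : ℕ} (f : Fin g → ℤ[X]) (x : ℕ) : 0 ≤ HH f x ∧ HH f x ≤ x := by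
  have h2 : ∀ n ∈ @Finset.filter ℕ (fun n => ∀ i, 8 ≤ (f i).eval (n : ℤ)) (Classical.decPred _) (Icc 1 x),
      0 ≤ ∏ i, (1 / Real.log (((f i).eval (n : ℤ) : ℤ) : ℝ)) ∧
      ∏ i, (1 / Real.log (((f i).eval (n : ℤ) : ℤ) : ℝ)) ≤ 1 := by
    intro n hn
    have h3 := (mf'.mp hn).2
    have h4 : ∀ i, 2 ≤ Real.log (((f i).eval (n : ℤ) : ℤ) : ℝ) := by
      intro i
      refine log8.trans (Real.log_le_log (by norm_num) ?_)
      exact_mod_cast h3 i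
    refine ⟨prod_nonneg fun i _ => ?_, prod_le_one (fun i _ => ?_) fun i _ => ?_⟩
    · have := h4 i; positivity
    · have := h4 i; positivity
    · have := h4 i
      rw [div_le_one (by linarith)]; linarith
  unfold HH
  refine ⟨sum_nonneg fun n hn => (h2 n hn).1, (sum_le_sum fun n hn => (h2 n hn).2).trans ?_⟩
  rw [sum_const, nsmul_eq_mul, mul_one]
  have h5 : (@Finset.filter ℕ (fun n => ∀ i, 8 ≤ (f i).eval (n : ℤ)) (Classical.decPred _) (Icc 1 x)).card ≤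
      (Icc 1 x).card := card_le_card fun n hn => (mf'.mp hn).1
  rw [Nat.card_Icc, Nat.add_sub_cancel] at h5
  exact_mod_cast h5

/-- the trivial bound -/
theorem Gq_trivial {g : ℕ} (f : Fin g → ℤ[X]) (a : (p : Nat.Primes) → ZMod (p : ℕ)) {S : ℝ} (hS0 : 0 ≤ S)
    {q b : ℕ} (hq : 1 ≤ q) (hb : ∀ p ∈ q.primeFactors, ¬ Hit f a p b) (x : ℕ) :
    |Gq f a S q b x| ≤ (1 + S) * x := by
  have hq0 : (0 : ℝ) < q := by exact_mod_cast hq
  obtain ⟨hP1, -⟩ := Piq_bounds f a hq hb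
  have hph : 1 ≤ phq f a q := by
    have e1 : phq f a q = q * Piq f a q := rfl
    rw [e1]
    rw [div_le_iff₀ hq0] at hP1
    linarith
  obtain ⟨h1, h2⟩ := HH_le f x
  have h3 : (cntq f a q b x : ℝ) ≤ x := by
    have h5 : cntq f a q b x ≤ (Icc 1 x).card := card_le_card fun n hn => (mf'.mp hn).1
    rw [Nat.card_Icc, Nat.add_sub_cancel] at h5
    exact_mod_cast h5
  have h4 : (0 : ℝ) ≤ cntq f a q b x := Nat.cast_nonneg _
  have h5 : S / phq f a q * HH f x ≤ S * x := by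
    apply mul_le_mul _ h2 h1 hS0
    exact div_le_self hS0 hph
  have h6 : 0 ≤ S / phq f a q * HH f x := by positivity
  have hx0 : (0 : ℝ) ≤ x := Nat.cast_nonneg _
  unfold Gq
  rw [abs_le]
  constructor <;> nlinarith

theorem ev_modulus (B : ℕ) {ε : ℝ} (hε : 0 < ε) : ∀ᶠ j : ℕ in atTop, (2 * (j : ℝ) + 2) ^ B ≤ zJ ε j := by
  have hl2 : 0 < Real.log 2 := Real.log_pos (by norm_num)
  filter_upwards [ev_log_lin B (show 0 < ε * Real.log 2 / 2 by positivity),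
    ev_const_lin (B * Real.log 2 + Real.log 2) (show 0 < ε * Real.log 2 / 2 by positivity)] with j h1 h2
  have e1 : (2 * (j : ℝ) + 2) ^ B * 2 ≤ ((2 : ℝ) ^ j) ^ ε := by
    rw [pow_rpow_exp]
    have e2 : (2 * (j : ℝ) + 2) ^ B * 2 = Real.exp (B * Real.log ((j : ℝ) + 1) + (B * Real.log 2 + Real.log 2)) := by
      have e3 : 2 * (j : ℝ) + 2 = ((j : ℝ) + 1) * 2 := by ring
      rw [e3, mul_pow, Real.exp_add, Real.exp_add, Real.exp_nat_mul, Real.exp_nat_mul, Real.exp_log (by positivity),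
        Real.exp_log (by norm_num)]
      ring
    rw [e2]
    apply Real.exp_le_exp.mpr
    linarith
  have hone : 1 ≤ ((2 : ℝ) ^ j) ^ ε := Real.one_le_rpow (one_le_pow₀ (by norm_num)) hε.le
  have h3 := (zJ_facts hε j hone).2.1
  linarith

theorem zJ_mono {ε : ℝ} (hε : 0 < ε) {i j : ℕ} (h : i ≤ j) : zJ ε i ≤ zJ ε j := by
  unfold zJ
  apply Nat.floor_le_floor
  exact Real.rpow_le_rpow (by positivity) (pow_le_pow_right₀ (by norm_num) h) hε.le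

/-- the asymptotic formula in arithmetic progressions, uniformly for `q ≤ (log x) ^ B`, with a square root
error -/
theorem ae_mod : ∀ᵐ a ∂law, ∀ (g : ℕ) (f : Fin g → ℤ[X]), Function.Injective f →
    (∀ i, 0 < (f i).natDegree) → (∀ i, 0 < (f i).leadingCoeff) →
      ∃ S : ℝ, 0 ≤ S ∧ Tendsto (fun z : ℕ => PP f a z / V z ^ g) atTop (𝓝 S) ∧
        (0 < S ↔ ∀ p : Nat.Primes, nuB (Hit f a) (p : ℕ) < (p : ℕ)) ∧
        ∀ (B : ℕ) (ε : ℝ), 0 < ε → ∃ K : ℝ, ∀ x : ℕ, 1 ≤ x → ∀ q : ℕ, 1 ≤ q → (q : ℝ) ≤ Real.log x ^ B →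
          ∀ b : ℕ, (∀ p ∈ q.primeFactors, ¬ Hit f a p b) →
            |(cntq f a q b x : ℝ) - S / phq f a q * HH f x| ≤ K * (x : ℝ) ^ (1 / 2 + ε) := by
  rw [ae_all_iff]
  intro g
  rw [ae_all_iff]
  intro f
  by_cases hf : Function.Injective f ∧ (∀ i, 0 < (f i).natDegree) ∧ (∀ i, 0 < (f i).leadingCoeff)
  swap
  · refine Eventually.of_forall fun a h1 h2 h3 => ?_
    exact absurd ⟨h1, h2, h3⟩ hf
  obtain ⟨hinj, hd, hl⟩ := hf
  have hm4 : ∀ m : ℕ, (0 : ℝ) < 1 / ((m : ℝ) + 4) ∧ 1 / ((m : ℝ) + 4) ≤ 1 / 4 := by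
    intro m
    have hm : (0 : ℝ) ≤ m := Nat.cast_nonneg m
    constructor
    · positivity
    · exact one_div_le_one_div_of_le (by norm_num) (by linarith)
  have h1 : ∀ᵐ a ∂law, ∀ m : ℕ, ∀ S C : ℝ, 0 ≤ C → 0 ≤ S → Tendsto (fun z : ℕ => PP f a z / V z ^ g) atTop (𝓝 S) →
      (∀ᶠ z : ℕ in atTop, |PP f a z / V z ^ g - S| ≤ C * (z : ℝ) ^ (-(1 / 4) : ℝ)) →
      ∃ K : ℝ, 0 ≤ K ∧ ∀ᶠ j : ℕ in atTop, ∀ q : ℕ, 1 ≤ q → q ≤ zJ (1 / ((m : ℝ) + 4) / 2) j → ∀ b : ℕ,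
        (∀ p ∈ q.primeFactors, ¬ Hit f a p b) → ∀ y : ℕ, 2 ^ j ≤ y → y ≤ 2 ^ (j + 1) →
        |Gq f a S q b y - Gq f a S q b (2 ^ j)| ≤ K * ((2 : ℝ) ^ j) ^ (1 / 2 + 1 / ((m : ℝ) + 4)) := by
    rw [ae_all_iff]
    exact fun m => ae_blockq f hd hl hinj (hm4 m).1 (hm4 m).2
  filter_upwards [h1, ae_SS f (∑ i, (f i).natDegree + 1) (by omega) hd hl (by omega) hinj] with a h2 h3 _ _ _
  obtain ⟨S, hS0, hS1, hS2, C, hC, hrate⟩ := h3
  refine ⟨S, hS0, hS1, hS2, fun B ε hε => ?_⟩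
  obtain ⟨m, hm⟩ := exists_nat_gt (1 / ε)
  have hm0 : (0 : ℝ) ≤ m := Nat.cast_nonneg m
  have hme : 1 / ((m : ℝ) + 4) ≤ ε := by
    rw [div_le_iff₀ (by positivity)]
    rw [div_lt_iff₀ hε] at hm
    nlinarith
  set η : ℝ := 1 / ((m : ℝ) + 4) with hη
  have hη0 : 0 < η := (hm4 m).1
  obtain ⟨K, hK0, hK⟩ := h2 m S C hC hS0 hS1 hrate
  obtain ⟨J0, hJ0⟩ := eventually_atTop.mp (hK.and (ev_modulus B (show 0 < η / 2 by positivity)))
  set x0 : ℕ := 2 ^ (2 * J0 + 2) with hx0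
  refine ⟨(1 + S) * x0 + 4 * K + (1 + S), fun x hx1 q hq1 hq2 b hb => ?_⟩
  have hxr : (1 : ℝ) ≤ x := by exact_mod_cast hx1
  have hxe : 1 ≤ (x : ℝ) ^ (1 / 2 + ε) := Real.one_le_rpow hxr (by linarith)
  show |Gq f a S q b x| ≤ _
  rcases lt_or_ge x x0 with hxx | hxx
  · have h4 := Gq_trivial f a hS0 hq1 hb x
    have h5 : (x : ℝ) ≤ x0 := by exact_mod_cast hxx.le
    have h6 : (1 + S) * (x : ℝ) ≤ (1 + S) * x0 := mul_le_mul_of_nonneg_left h5 (by linarith)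
    have h7 : (1 + S) * (x0 : ℝ) ≤ (1 + S) * x0 * (x : ℝ) ^ (1 / 2 + ε) :=
      le_mul_of_one_le_right (by positivity) hxe
    have h8 : 0 ≤ (4 * K + (1 + S)) * (x : ℝ) ^ (1 / 2 + ε) := by positivity
    nlinarith
  · set J := Nat.log 2 x with hJ
    have hJl : 2 ^ J ≤ x := Nat.pow_log_le_self 2 (by omega)
    have hJu : x < 2 ^ (J + 1) := Nat.lt_pow_succ_log_self (by norm_num) x
    have hJge : 2 * J0 + 2 ≤ J := by
      rw [hJ]
      exact Nat.le_log_of_pow_le (by norm_num) hxx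
    set J1 := J / 2 with hJ1
    have hJ10 : J0 ≤ J1 := by omega
    have hJ12 : J ≤ 2 * J1 + 1 := by omega
    have hJ1J : 2 * J1 ≤ J := by omega
    have hsq : ((2 : ℝ) ^ J1) ≤ (x : ℝ) ^ (1 / 2 : ℝ) := by
      rw [← Real.sqrt_eq_rpow]
      apply Real.le_sqrt_of_sq_le
      rw [← pow_mul, mul_comm]
      have e1 : (2 : ℕ) ^ (2 * J1) ≤ x := (Nat.pow_le_pow_right (by norm_num) hJ1J).trans hJl
      exact_mod_cast e1
    have hlog : Real.log x ≤ 2 * (J1 : ℝ) + 2 := by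
      have e1 : Real.log x ≤ Real.log ((2 : ℝ) ^ (J + 1)) := by
        apply Real.log_le_log (by linarith)
        exact_mod_cast hJu.le
      rw [Real.log_pow] at e1
      have e2 : Real.log 2 ≤ 1 := by have := Real.log_two_lt_d9; linarith
      have e3 : ((J + 1 : ℕ) : ℝ) ≤ 2 * (J1 : ℝ) + 2 := by exact_mod_cast (by omega : J + 1 ≤ 2 * J1 + 2)
      have e4 : ((J + 1 : ℕ) : ℝ) * Real.log 2 ≤ ((J + 1 : ℕ) : ℝ) := mul_le_of_le_one_right (Nat.cast_nonneg _) e2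
      linarith
    have hqJ : ∀ j, J1 ≤ j → q ≤ zJ (η / 2) j := by
      intro j hj
      refine le_trans ?_ (zJ_mono (by positivity) hj)
      have e1 : (q : ℝ) ≤ (2 * (J1 : ℝ) + 2) ^ B :=
        hq2.trans (pow_le_pow_left₀ (Real.log_nonneg hxr) hlog B)
      have e2 := (hJ0 J1 hJ10).2
      exact_mod_cast e1.trans e2
    have hsmall : 2 ^ J1 ≤ x := (Nat.pow_le_pow_right (by norm_num) (by omega : J1 ≤ J)).trans hJl
    have h4 := dyadic_fin (Gq f a S q b) hK0 (e := 1 / 2 + η) (by linarith) J1 x hsmall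
      (fun j hj y hy1 hy2 => (hJ0 j (hJ10.trans hj)).1 q hq1 (hqJ j hj) b hb y hy1 hy2)
    have h5 := Gq_trivial f a hS0 hq1 hb (2 ^ J1)
    have h6 : (1 + S) * ((2 ^ J1 : ℕ) : ℝ) ≤ (1 + S) * (x : ℝ) ^ (1 / 2 + ε) := by
      apply mul_le_mul_of_nonneg_left _ (by linarith)
      push_cast
      exact hsq.trans (Real.rpow_le_rpow_of_exponent_le hxr (by linarith))
    have h7 : (x : ℝ) ^ (1 / 2 + η) ≤ (x : ℝ) ^ (1 / 2 + ε) := Real.rpow_le_rpow_of_exponent_le hxr (by linarith)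
    have h8 : 4 * K * (x : ℝ) ^ (1 / 2 + η) ≤ 4 * K * (x : ℝ) ^ (1 / 2 + ε) :=
      mul_le_mul_of_nonneg_left h7 (by positivity)
    have h9 := abs_add_le (Gq f a S q b x - Gq f a S q b (2 ^ J1)) (Gq f a S q b (2 ^ J1))
    rw [sub_add_cancel] at h9
    have h10 : 0 ≤ (1 + S) * x0 * (x : ℝ) ^ (1 / 2 + ε) := by positivity
    have e1 : ((1 + S) * x0 + 4 * K + (1 + S)) * (x : ℝ) ^ (1 / 2 + ε) = (1 + S) * x0 * (x : ℝ) ^ (1 / 2 + ε) +
      4 * K * (x : ℝ) ^ (1 / 2 + ε) + (1 + S) * (x : ℝ) ^ (1 / 2 + ε) := by ring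
    rw [e1]
    linarith

end Pool.Agent.W2helper64.BQ
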