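import Pool.Agent.W2helper64.BQ.Blk

set_option autoImplicit false
set_option linter.unusedSectionVars false

/-!
The first phase: square root cancellation in the count of the survivors of the small primes.
-/

namespace Pool.Agent.W2helper64.BQ

open Finset Filter Topology Polynomial MeasureTheory Pool.Agent.W2helper64.RS Pool.Agent.W2helper64.RK
open Pool.Agent.W2helper64.BH
open Pool.Agent.H373R2.T7 (pz nuB PerB sys_count nuB_le mem_pz)

/-- the values at a class -/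
noncomputable def Psi {g : ℕ} (f : Fin g → ℤ[X]) (p : ℕ) (x : ZMod p) : Finset (ZMod p) :=
  univ.image fun i => val f p i x

theorem Psi_nat {g : ℕ} (f : Fin g → ℤ[X]) (p m : ℕ) : Psi f p ((m : ℕ) : ZMod p) = Im f p m := by
  unfold Psi Im
  congr 1
  funext i
  exact val_nat f p i m

theorem Psi_card {g : ℕ} (f : Fin g → ℤ[X]) (p : ℕ) (x : ZMod p) : (Psi f p x).card ≤ g := by
  unfold Psi
  refine card_image_le.trans ?_
  rw [card_univ, Fintype.card_fin]

theorem Psi_nu {g : ℕ} (f : Fin g → ℤ[X]) (p : ℕ) [NeZero p] (r : ZMod p) :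
    ((univ : Finset (ZMod p)).filter fun x => r ∈ Psi f p x).card = nuR f p r := by
  classical
  unfold nuR
  symm
  refine card_bij (fun m _ => ((m : ℕ) : ZMod p)) ?_ ?_ ?_
  · intro m hm
    rw [mf'] at hm
    rw [Finset.mem_filter, Psi_nat]
    exact ⟨Finset.mem_univ _, hm.2⟩
  · intro m hm l hl h
    rw [mf', mem_range] at hm hl
    have h' : ((m : ℕ) : ZMod p) = ((l : ℕ) : ZMod p) := h
    rw [ZMod.natCast_eq_natCast_iff] at h'
    have h3 : m % p = l % p := h'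
    rwa [Nat.mod_eq_of_lt hm.1, Nat.mod_eq_of_lt hl.1] at h3
  · intro x hx
    rw [Finset.mem_filter] at hx
    have e : ((x.val : ℕ) : ZMod p) = x := by rw [ZMod.natCast_val, ZMod.cast_id', id]
    refine ⟨x.val, ?_, e⟩
    rw [mf', mem_range, ← Psi_nat, e]
    exact ⟨ZMod.val_lt x, hx.2⟩

theorem nuR_all {g : ℕ} (f : Fin g → ℤ[X]) (k : ℕ) (hd : ∀ i, 0 < (f i).natDegree)
    (hl : ∀ i, 0 < (f i).leadingCoeff) (hk : ∑ i, (f i).natDegree ≤ k) (p : Nat.Primes)
    (r : ZMod (p : ℕ)) : nuR f (p : ℕ) r ≤ k + lcs f := by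
  by_cases h : lcs f < (p : ℕ)
  · have := nuR_le f k hd hl hk p h r
    omega
  · have h1 : nuR f (p : ℕ) r ≤ (p : ℕ) := by
      unfold nuR
      refine (card_le_card fun m hm => (mf'.mp hm).1).trans ?_
      rw [card_range]
    omega

theorem Psi_sum {g : ℕ} (f : Fin g → ℤ[X]) (k : ℕ)
    (hk : ∑ i, (f i).natDegree ≤ k) (hinj : Function.Injective f) (p : Nat.Primes) :
    ∑ x : ZMod (p : ℕ), ((g : ℝ) - (Psi f (p : ℕ) x).card) ≤ g * (g ^ 2 * k) + g * dlc f := by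
  have h1 : ∑ x : ZMod (p : ℕ), ((g : ℝ) - (Psi f (p : ℕ) x).card) =
      g * (p : ℕ) - ∑ m ∈ range (p : ℕ), ((Im f (p : ℕ) m).card : ℝ) := by
    have h2 : ∀ x : ZMod (p : ℕ), ((g : ℝ) - (Psi f (p : ℕ) x).card) =
        (fun m : ℕ => (g : ℝ) - (Im f (p : ℕ) m).card) x.val := by
      intro x
      show (g : ℝ) - (Psi f (p : ℕ) x).card = (g : ℝ) - (Im f (p : ℕ) x.val).card
      rw [← Psi_nat, ZMod.natCast_val, ZMod.cast_id', id]
    have h3 := sum_val (p := (p : ℕ)) (fun m : ℕ => (g : ℝ) - (Im f (p : ℕ) m).card)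
    rw [sum_congr rfl fun x _ => h2 x, h3, sum_sub_distrib, sum_const, card_range, nsmul_eq_mul, mul_comm]
  rw [h1]
  have hg0 : (0 : ℝ) ≤ g := Nat.cast_nonneg _
  have hk0 : (0 : ℝ) ≤ k := Nat.cast_nonneg _
  have hd0 : (0 : ℝ) ≤ dlc f := Nat.cast_nonneg _
  by_cases h : dlc f < (p : ℕ)
  · have h4 := mean_bounds f k hk hinj p h
    rw [sum_nuR] at h4
    have := (abs_le.mp h4).1
    have : 0 ≤ (g : ℝ) * dlc f := by positivity
    linarith
  · have h5 : 0 ≤ ∑ m ∈ range (p : ℕ), ((Im f (p : ℕ) m).card : ℝ) := sum_nonneg fun _ _ => Nat.cast_nonneg _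
    have h6 : ((p : ℕ) : ℝ) ≤ dlc f := by exact_mod_cast not_lt.mp h
    have h7 : (g : ℝ) * (p : ℕ) ≤ g * dlc f := mul_le_mul_of_nonneg_left h6 hg0
    have : 0 ≤ (g : ℝ) * (g ^ 2 * k) := by positivity
    linarith

/-- the number of survivors of the primes `≤ z` in a block -/
noncomputable def cntS {g : ℕ} (f : Fin g → ℤ[X]) (a : (p : Nat.Primes) → ZMod (p : ℕ)) (z s M : ℕ) : ℝ :=
  ((@Finset.filter ℕ (fun n => ∀ p ∈ pz z, ¬ Hit f a p n) (Classical.decPred _) (Ioc s (s + M))).card : ℝ)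

theorem cntS_add {g : ℕ} (f : Fin g → ℤ[X]) (a : (p : Nat.Primes) → ZMod (p : ℕ)) (z s u v : ℕ) :
    cntS f a z s (u + v) = cntS f a z s u + cntS f a z (s + u) v := by
  classical
  unfold cntS
  rw [← Nat.cast_add, ← card_union_of_disjoint]
  · congr 2
    ext n
    simp only [Finset.mem_union, mf', mem_Ioc]
    constructor
    · rintro ⟨h7, h8⟩
      rcases le_or_gt n (s + u) with h9 | h9
      · exact Or.inl ⟨⟨h7.1, h9⟩, h8⟩
      · exact Or.inr ⟨⟨h9, by omega⟩, h8⟩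
    · rintro (⟨h7, h8⟩ | ⟨h7, h8⟩)
      · exact ⟨⟨h7.1, by omega⟩, h8⟩
      · exact ⟨⟨by omega, by omega⟩, h8⟩
  · rw [Finset.disjoint_left]
    intro n h7 h8
    rw [mf', mem_Ioc] at h7 h8
    omega

/-- the comparison with the counts of the recursion -/
theorem XX_eq {g : ℕ} (f : Fin g → ℤ[X]) (a : (p : Nat.Primes) → ZMod (p : ℕ)) {T : ℝ} {z : ℕ}
    (hT : 0 ≤ T) (hVT : 1 ≤ V z * T) (s M : ℕ) :
    XX (F := PX T) (fun p x => Psi f ((p : Nat.Primes) : ℕ) x) (K0T T z) M (s + 1) 1 ((PX T).restrict a) =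
      cntS f a z s M ∧
    mK (F := PX T) (fun p x => Psi f ((p : Nat.Primes) : ℕ) x) (K0T T z) ((PX T).restrict a) = PP f a z := by
  classical
  constructor
  · unfold XX cntS
    congr 1
    refine card_bij (fun t _ => s + 1 + t) ?_ ?_ ?_
    · intro t ht
      rw [Finset.mem_filter, mem_range] at ht
      rw [mf', mem_Ioc]
      refine ⟨⟨by omega, by omega⟩, fun p hp hit => ?_⟩
      obtain ⟨hpz, -⟩ := mem_pz.1 hp
      obtain ⟨hpp, i, hi⟩ := hit
      have hPX : (⟨p, hpp⟩ : Nat.Primes) ∈ PX T := mem_PX_of_le hVT hT ⟨p, hpp⟩ hpz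
      refine ht.2 ⟨⟨p, hpp⟩, hPX⟩ ?_ ?_
      · unfold K0T
        rw [Finset.mem_filter]
        exact ⟨Finset.mem_univ _, not_lt.mpr hpz⟩
      · show a ⟨p, hpp⟩ ∈ Psi f p ((s + 1 + 1 * t : ℕ) : ZMod p)
        rw [one_mul, Psi_nat, mem_Im]
        exact ⟨i, hi⟩
    · intro t _ u _ h
      have h' : s + 1 + t = s + 1 + u := h
      omega
    · intro n hn
      rw [mf', mem_Ioc] at hn
      refine ⟨n - (s + 1), ?_, by omega⟩
      rw [Finset.mem_filter, mem_range]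
      refine ⟨by omega, fun p hp hmem => ?_⟩
      unfold K0T at hp
      rw [Finset.mem_filter] at hp
      have hmem' : a (p : Nat.Primes) ∈ Psi f ((p : Nat.Primes) : ℕ)
        ((s + 1 + 1 * (n - (s + 1)) : ℕ) : ZMod ((p : Nat.Primes) : ℕ)) := hmem
      rw [one_mul, Psi_nat, mem_Im] at hmem'
      obtain ⟨i, hi⟩ := hmem'
      have e : s + 1 + (n - (s + 1)) = n := by omega
      rw [e] at hi
      refine hn.2 ((p : Nat.Primes) : ℕ) ?_ ⟨(p : Nat.Primes).2, i, hi⟩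
      rw [mem_pz]
      exact ⟨not_lt.mp hp.2, (p : Nat.Primes).2⟩
  · unfold mK PP
    refine prod_bij (fun p _ => ((p : Nat.Primes) : ℕ)) ?_ ?_ ?_ ?_
    · intro p hp
      unfold K0T at hp
      rw [Finset.mem_filter] at hp
      rw [mem_pz]
      exact ⟨not_lt.mp hp.2, (p : Nat.Primes).2⟩
    · intro p _ q _ h
      exact Subtype.ext (Subtype.ext h)
    · intro p hp
      obtain ⟨hpz, hpp⟩ := mem_pz.1 hp
      refine ⟨⟨⟨p, hpp⟩, mem_PX_of_le hVT hT ⟨p, hpp⟩ hpz⟩, ?_, rfl⟩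
      unfold K0T
      rw [Finset.mem_filter]
      exact ⟨Finset.mem_univ _, not_lt.mpr hpz⟩
    · intro p _
      have h1 := Psi_nu f ((p : Nat.Primes) : ℕ) (a (p : Nat.Primes))
      have h2 := nuB_eq f a (p : Nat.Primes)
      have h3 : ((univ : Finset (ZMod ((p : Nat.Primes) : ℕ))).filter fun x =>
        ((PX T).restrict a) p ∈ Psi f ((p : Nat.Primes) : ℕ) x).card = nuB (Hit f a) ((p : Nat.Primes) : ℕ) := by
        rw [h2]
        exact h1
      rw [h3]

/-- Chebyshev -/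
theorem law_cheb {g : ℕ} (f : Fin g → ℤ[X]) (k : ℕ) (hd : ∀ i, 0 < (f i).natDegree)
    (hl : ∀ i, 0 < (f i).leadingCoeff) (hk : ∑ i, (f i).natDegree ≤ k) (hinj : Function.Injective f)
    {T : ℝ} {z : ℕ} (hT : 1 ≤ T) (hVT : 1 ≤ V z * T) (s M : ℕ) {τ : ℝ} (hτ : 0 < τ) :
    law {a | τ ≤ |cntS f a z s M - M * PP f a z|} ≤
      ENNReal.ofReal (Real.exp (CC g (k + lcs f) (g * (g ^ 2 * k) + g * dlc f) * Real.log T) * M / τ ^ 2) := by
  classical
  set C := CC g (k + lcs f) (g * (g ^ 2 * k) + g * dlc f) with hC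
  have hC0 : 0 ≤ C := by rw [hC]; unfold CC; positivity
  have hT0 : 0 ≤ T := by linarith
  set Ψ : (p : {p // p ∈ PX T}) → ZMod ((p : Nat.Primes) : ℕ) → Finset (ZMod ((p : Nat.Primes) : ℕ)) :=
    fun p x => Psi f ((p : Nat.Primes) : ℕ) x with hΨ
  set P : ((p : {p // p ∈ PX T}) → ZMod ((p : Nat.Primes) : ℕ)) → Prop := fun b =>
    τ ≤ |XX Ψ (K0T T z) M (s + 1) 1 b - M * mK Ψ (K0T T z) b| with hP
  have h1 : {a : (p : Nat.Primes) → ZMod (p : ℕ) | τ ≤ |cntS f a z s M - M * PP f a z|} =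
      {a : (p : Nat.Primes) → ZMod (p : ℕ) | P ((PX T).restrict a)} := by
    ext a
    obtain ⟨e1, e2⟩ := XX_eq f a hT0 hVT s M
    show τ ≤ |cntS f a z s M - M * PP f a z| ↔ τ ≤ |XX Ψ (K0T T z) M (s + 1) 1 ((PX T).restrict a) -
      M * mK Ψ (K0T T z) ((PX T).restrict a)|
    rw [hΨ, e1, e2]
  have h2 := law_cyl (PX T) P (inst := Classical.decPred _)
  rw [h1, h2]
  apply ENNReal.ofReal_le_ofReal
  have h3 := var_rec Ψ (g := g) (c := k + lcs f) (C2 := g * (g ^ 2 * k) + g * dlc f) (by positivity)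
    (by positivity) (by positivity) (K0T T z) (fun p _ x => by exact_mod_cast Psi_card f _ x)
    (fun p _ r => by
      rw [hΨ]
      have h4 := Psi_nu f ((p : Nat.Primes) : ℕ) r
      have h5 := nuR_all f k hd hl hk (p : Nat.Primes) r
      have h6 : ((univ : Finset (ZMod ((p : Nat.Primes) : ℕ))).filter fun x =>
        r ∈ Psi f ((p : Nat.Primes) : ℕ) x).card ≤ k + lcs f := by rw [h4]; exact h5
      exact_mod_cast h6)
    (fun p _ => Psi_sum f k hk hinj (p : Nat.Primes)) M (s + 1) 1 (fun p _ h => by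
      have := (p : Nat.Primes).2.one_lt
      have := Nat.le_of_dvd one_pos h
      omega)
  have h4 : ∏ p ∈ K0T T z, (1 + C / (((p : Nat.Primes) : ℕ) : ℝ)) ≤ Real.exp (C * Real.log T) := by
    calc ∏ p ∈ K0T T z, (1 + C / (((p : Nat.Primes) : ℕ) : ℝ)) ≤
          ∏ p ∈ K0T T z, Real.exp (C * (1 / (((p : Nat.Primes) : ℕ) : ℝ))) := by
          refine prod_le_prod (fun p _ => by positivity) fun p _ => ?_
          have := Real.add_one_le_exp (C * (1 / (((p : Nat.Primes) : ℕ) : ℝ)))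
          rw [mul_one_div] at this ⊢
          linarith
      _ = Real.exp (C * ∑ p ∈ K0T T z, 1 / (((p : Nat.Primes) : ℕ) : ℝ)) := by
          rw [← Real.exp_sum, mul_sum]
      _ ≤ Real.exp (C * Real.log T) := Real.exp_le_exp.mpr (mul_le_mul_of_nonneg_left (inv_sum_le hT _) hC0)
  have h5 := avg_ind_le (P := P) (c := τ ^ 2)
    (G := fun b => (XX Ψ (K0T T z) M (s + 1) 1 b - M * mK Ψ (K0T T z) b) ^ 2)
    (fun b => sq_nonneg _) (by positivity) (fun b hb => by
      have hb' : τ ≤ |XX Ψ (K0T T z) M (s + 1) 1 b - M * mK Ψ (K0T T z) b| := hb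
      rw [← sq_abs (XX Ψ (K0T T z) M (s + 1) 1 b - M * mK Ψ (K0T T z) b)]
      exact pow_le_pow_left₀ hτ.le hb' 2)
  refine le_trans (le_of_eq ?_) (h5.trans ?_)
  · congr 1
  · apply div_le_div_of_nonneg_right _ (by positivity)
    exact h3.trans (mul_le_mul_of_nonneg_right h4 (Nat.cast_nonneg _))

/-- dyadic chaining -/
theorem chaining (G : ℕ → ℝ) (j : ℕ) {σ : ℝ} (hσ : 0 ≤ σ)
    (h : ∀ l, l ≤ j → ∀ t, t < 2 ^ (j - l) → |G ((t + 1) * 2 ^ l) - G (t * 2 ^ l)| ≤ σ) (y : ℕ) (hy : y ≤ 2 ^ j) :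
    |G y - G 0| ≤ (j + 1) * σ := by
  have key : ∀ l, l ≤ j → ∀ t y', y' ≤ 2 ^ l → t * 2 ^ l + y' ≤ 2 ^ j →
      |G (t * 2 ^ l + y') - G (t * 2 ^ l)| ≤ (l + 1) * σ := by
    intro l
    induction l with
    | zero =>
      intro hl t y' h1 h2
      rw [pow_zero, mul_one] at *
      rcases Nat.le_one_iff_eq_zero_or_eq_one.mp h1 with h3 | h3
      · rw [h3, add_zero, sub_self, abs_zero]
        push_cast
        linarith
      · have h4 := h 0 (Nat.zero_le _) t (by rw [Nat.sub_zero]; omega)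
        rw [pow_zero, mul_one, mul_one] at h4
        rw [h3]
        push_cast
        linarith
    | succ l ih =>
      intro hl t y' h1 h2
      have e1 : t * 2 ^ (l + 1) = (2 * t) * 2 ^ l := by ring
      rw [e1] at h2 ⊢
      rcases le_or_gt y' (2 ^ l) with h3 | h3
      · have := ih (by omega) (2 * t) y' h3 h2
        push_cast
        nlinarith
      · obtain ⟨y2, hy2⟩ : ∃ y2, y' = 2 ^ l + y2 := ⟨y' - 2 ^ l, by omega⟩
        have h4 : y2 ≤ 2 ^ l := by rw [pow_succ] at h1; omega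
        have e2 : 2 * t * 2 ^ l + y' = (2 * t + 1) * 2 ^ l + y2 := by rw [hy2]; ring
        rw [e2] at h2 ⊢
        have h5 := ih (by omega) (2 * t + 1) y2 h4 h2
        have h6 : 2 * t < 2 ^ (j - l) := by
          have h7 : (2 * t + 1) * 2 ^ l ≤ 2 ^ (j - l) * 2 ^ l := by
            rw [← pow_add, Nat.sub_add_cancel (by omega)]
            omega
          have := Nat.le_of_mul_le_mul_right h7 (by positivity)
          omega
        have h7 := h l (by omega) (2 * t) h6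
        have h8 := abs_sub_le (G ((2 * t + 1) * 2 ^ l + y2)) (G ((2 * t + 1) * 2 ^ l)) (G (2 * t * 2 ^ l))
        push_cast
        linarith
  have := key j le_rfl 0 y hy (by rw [Nat.zero_mul, Nat.zero_add]; exact hy)
  rw [Nat.zero_mul, Nat.zero_add] at this
  exact this

end Pool.Agent.W2helper64.BQ
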