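import Pool.Agent.W2helper64.BQ.Var

set_option autoImplicit false
set_option linter.unusedSectionVars false

/-!
Preparations for the recursion with thresholds: monotone weights in residue classes, level sets, one prime
with several pieces.
-/

namespace Pool.Agent.W2helper64.BQ

open Finset Filter Topology Polynomial MeasureTheory Pool.Agent.W2helper64.RS Pool.Agent.W2helper64.RK
open Pool.Agent.W2helper64.BH

theorem sum_Ico_tele (h : ℕ → ℝ) (t M : ℕ) (htM : t ≤ M) : ∑ j ∈ Ico t M, (h j - h (j + 1)) = h t - h M := by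
  induction M, htM using Nat.le_induction with
  | base => simp
  | succ M hM ih =>
    rw [Finset.sum_Ico_succ_top hM, ih]
    ring

/-- a monotone weight is well distributed in the residue classes -/
theorem mono_class {p : ℕ} [NeZero p] (M : ℕ) (v : ℕ → ℝ) (h0 : ∀ t, 0 ≤ v t) (h1 : ∀ t, v t ≤ 1)
    (hv : ∀ t, v (t + 1) ≤ v t) :
    ∑ x : ZMod p, (∑ t ∈ (range M).filter (fun t : ℕ => ((t : ℕ) : ZMod p) = x), v t -
      (∑ t ∈ range M, v t) / p) ^ 2 ≤ M := by
  classical
  set v' : ℕ → ℝ := fun t => if t < M then v t else 0 with hv'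
  set c : ℕ → ℝ := fun j => v' j - v' (j + 1) with hc
  have hc0 : ∀ j ∈ range M, 0 ≤ c j := by
    intro j hj
    rw [mem_range] at hj
    simp only [hc, hv']
    rw [if_pos hj]
    split_ifs
    · linarith [hv j]
    · linarith [h0 j]
  have hvt : ∀ t, t < M → v t = ∑ j ∈ range M, if t ≤ j then c j else 0 := by
    intro t ht
    rw [← sum_filter]
    have e : (range M).filter (fun j => t ≤ j) = Ico t M := by
      ext j; rw [Finset.mem_filter, mem_range, mem_Ico]; omega
    rw [e]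
    simp only [hc]
    rw [sum_Ico_tele v' t M ht.le]
    simp [hv', ht]
  have hcs : ∑ j ∈ range M, c j ≤ 1 := by
    rcases Nat.eq_zero_or_pos M with h | h
    · rw [h, range_zero, sum_empty]; norm_num
    · have := hvt 0 h
      simp only [Nat.zero_le, if_true] at this
      rw [← this]
      exact h1 0
  have key : ∀ P : ℕ → Prop, [DecidablePred P] → ∑ t ∈ (range M).filter P, v t =
      ∑ j ∈ range M, c j * (((range (j + 1)).filter P).card : ℝ) := by
    intro P _
    have e1 : ∑ t ∈ (range M).filter P, v t = ∑ t ∈ (range M).filter P, ∑ j ∈ range M, if t ≤ j then c j else 0 :=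
      sum_congr rfl fun t ht => hvt t (mem_range.mp (Finset.mem_filter.mp ht).1)
    rw [e1, sum_comm]
    refine sum_congr rfl fun j hj => ?_
    rw [mem_range] at hj
    rw [← sum_filter, sum_const, nsmul_eq_mul, mul_comm]
    congr 3
    ext t
    simp only [Finset.mem_filter, mem_range]
    constructor
    · rintro ⟨⟨h2, h3⟩, h4⟩
      exact ⟨by omega, h3⟩
    · rintro ⟨h2, h3⟩
      exact ⟨⟨by omega, h3⟩, by omega⟩
  have hW : ∑ t ∈ range M, v t = ∑ j ∈ range M, c j * ((j : ℝ) + 1) := by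
    have h2 := key (fun _ => True)
    have e1 : (range M).filter (fun _ => True) = range M := filter_true_of_mem fun _ _ => trivial
    rw [e1] at h2
    rw [h2]
    refine sum_congr rfl fun j _ => ?_
    have e2 : (range (j + 1)).filter (fun _ => True) = range (j + 1) := filter_true_of_mem fun _ _ => trivial
    rw [e2, card_range]
    push_cast
    ring
  set d : ℕ → ZMod p → ℝ := fun j x => (mcl p (j + 1) x : ℝ) - ((j + 1 : ℕ) : ℝ) / p with hd
  have hx : ∀ x : ZMod p, ∑ t ∈ (range M).filter (fun t : ℕ => ((t : ℕ) : ZMod p) = x), v t -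
      (∑ t ∈ range M, v t) / p = ∑ j ∈ range M, c j * d j x := by
    intro x
    rw [key (fun t : ℕ => ((t : ℕ) : ZMod p) = x), hW, sum_div, ← sum_sub_distrib]
    refine sum_congr rfl fun j _ => ?_
    have h3 := class_count (p := p) (j + 1) x (fun _ => True)
    have e1 : ((range (j + 1)).filter fun t : ℕ => ((t : ℕ) : ZMod p) = x ∧ True) =
        (range (j + 1)).filter fun t : ℕ => ((t : ℕ) : ZMod p) = x := by
      ext t; simp
    have e2 : ((range (mcl p (j + 1) x)).filter fun _ => True) = range (mcl p (j + 1) x) :=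
      filter_true_of_mem fun _ _ => trivial
    rw [e1, e2, card_range] at h3
    rw [h3]
    simp only [hd]
    push_cast
    ring
  have hjen : ∀ x : ZMod p, (∑ j ∈ range M, c j * d j x) ^ 2 ≤ ∑ j ∈ range M, c j * d j x ^ 2 := by
    intro x
    have h2 := Finset.sum_sq_le_sum_mul_sum_of_sq_le_mul (range M) (r := fun j => c j * d j x)
      (f := c) (g := fun j => c j * d j x ^ 2) hc0 (fun j hj => mul_nonneg (hc0 j hj) (sq_nonneg _))
      (fun j _ => le_of_eq (by ring))
    refine h2.trans ?_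
    exact mul_le_of_le_one_left (sum_nonneg fun j hj => mul_nonneg (hc0 j hj) (sq_nonneg _)) hcs
  calc ∑ x : ZMod p, (∑ t ∈ (range M).filter (fun t : ℕ => ((t : ℕ) : ZMod p) = x), v t -
      (∑ t ∈ range M, v t) / p) ^ 2 = ∑ x : ZMod p, (∑ j ∈ range M, c j * d j x) ^ 2 :=
        sum_congr rfl fun x _ => by rw [hx x]
    _ ≤ ∑ x : ZMod p, ∑ j ∈ range M, c j * d j x ^ 2 := sum_le_sum fun x _ => hjen x
    _ = ∑ j ∈ range M, c j * ∑ x : ZMod p, d j x ^ 2 := by
        rw [sum_comm]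
        exact sum_congr rfl fun j _ => by rw [mul_sum]
    _ ≤ ∑ j ∈ range M, c j * (M : ℝ) := by
        refine sum_le_sum fun j hj => mul_le_mul_of_nonneg_left ?_ (hc0 j hj)
        refine (mcl_sum (p := p) (j + 1)).2.trans ?_
        exact_mod_cast (mem_range.mp hj : j < M)
    _ = (∑ j ∈ range M, c j) * M := by rw [sum_mul]
    _ ≤ M := mul_le_of_le_one_left (Nat.cast_nonneg _) hcs

/-- level sets of a function with convex level sets are intervals -/
theorem level_interval {ι : Type} [DecidableEq ι] (h : ℕ → ι)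
    (hconv : ∀ t1 t2 t3, t1 ≤ t2 → t2 ≤ t3 → h t1 = h t3 → h t2 = h t1) (M : ℕ) (A : ι) :
    ∃ u L : ℕ, u + L ≤ M ∧ ∀ t, (t < M ∧ h t = A) ↔ (u ≤ t ∧ t < u + L) := by
  classical
  set S := (range M).filter fun t => h t = A with hS
  rcases S.eq_empty_or_nonempty with h0 | h0
  · refine ⟨0, 0, by omega, fun t => ?_⟩
    constructor
    · rintro ⟨h1, h2⟩
      have : t ∈ S := by rw [hS, Finset.mem_filter, mem_range]; exact ⟨h1, h2⟩
      rw [h0] at this
      exact absurd this (notMem_empty _)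
    · rintro ⟨-, h2⟩
      omega
  · have hmin := S.min'_mem h0
    have hmax := S.max'_mem h0
    have hle : S.min' h0 ≤ S.max' h0 := S.min'_le _ hmax
    set u := S.min' h0 with hu
    set v := S.max' h0 with hv
    have hu' : u < M ∧ h u = A := by
      rw [hS, Finset.mem_filter, mem_range] at hmin
      exact hmin
    have hv' : v < M ∧ h v = A := by
      rw [hS, Finset.mem_filter, mem_range] at hmax
      exact hmax
    refine ⟨u, v - u + 1, by omega, fun t => ?_⟩
    constructor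
    · rintro ⟨h1, h2⟩
      have ht : t ∈ S := by rw [hS, Finset.mem_filter, mem_range]; exact ⟨h1, h2⟩
      have h3 := S.min'_le t ht
      have h4 := S.le_max' t ht
      rw [← hu] at h3
      rw [← hv] at h4
      omega
    · rintro ⟨h1, h2⟩
      refine ⟨by omega, ?_⟩
      rw [hconv u t v h1 (by omega) (hu'.2.trans hv'.2.symm)]
      exact hu'.2

/-- the constant for one prime -/
def A0 (l g c C2 : ℝ) : ℝ := l * (g + C2) + g + 2 * l * (c ^ 2 + c * g)

/-- one prime, several pieces -/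
theorem step2 {p : ℕ} [NeZero p] {ι : Type} [Fintype ι] (Ψ : ι → ZMod p → Finset (ZMod p)) (γ : ι → ℝ)
    {g c C2 : ℝ} (hg0 : 0 ≤ g) (hc0 : 0 ≤ c) (hC0 : 0 ≤ C2)
    (hγ : ∀ A, γ A ≤ g) (hg : ∀ A x, ((Ψ A x).card : ℝ) ≤ γ A)
    (hc : ∀ A r, (((univ : Finset (ZMod p)).filter fun x => r ∈ Ψ A x).card : ℝ) ≤ c)
    (hC : ∀ A, ∑ x, (γ A - (Ψ A x).card) ≤ C2) (N : ι → ZMod p → ℝ) (w e : ι → ℝ)
    (hS : ∀ A, ∑ x, N A x = w A + e A) :
    (∑ r : ZMod p, (∑ A, (∑ x ∈ (univ : Finset (ZMod p)).filter (fun x => r ∉ Ψ A x), N A x -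
      (1 - (((univ : Finset (ZMod p)).filter fun x => r ∈ Ψ A x).card : ℝ) / p) * w A)) ^ 2) / p ≤
      (1 + A0 (Fintype.card ι) g c C2 / p) * (∑ A, e A) ^ 2 + A0 (Fintype.card ι) g c C2 / p *
        ∑ A, (e A ^ 2 + ∑ x, (N A x - (∑ y, N A y) / p) ^ 2) := by
  classical
  have hp : 0 < p := Nat.pos_of_ne_zero (NeZero.ne p)
  have hp0 : (0 : ℝ) < p := by exact_mod_cast hp
  have hp1 : (1 : ℝ) ≤ p := by exact_mod_cast hp
  set l : ℝ := (Fintype.card ι : ℝ) with hl
  have hl0 : 0 ≤ l := Nat.cast_nonneg _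
  set E : ℝ := ∑ A, e A with hE
  set Δ : ι → ZMod p → ℝ := fun A x => N A x - (∑ y, N A y) / p with hΔ
  set D : ι → ℝ := fun A => ∑ x, Δ A x ^ 2 with hD
  have hD0 : ∀ A, 0 ≤ D A := fun A => sum_nonneg fun _ _ => sq_nonneg _
  have hΔ0 : ∀ A, ∑ x, Δ A x = 0 := by
    intro A
    simp only [hΔ]
    rw [sum_sub_distrib, sum_const, card_univ, ZMod.card, nsmul_eq_mul, mul_div_cancel₀ _ hp0.ne', sub_self]
  set ν : ι → ZMod p → ℝ := fun A r => (((univ : Finset (ZMod p)).filter fun x => r ∈ Ψ A x).card : ℝ) with hν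
  have hν0 : ∀ A r, 0 ≤ ν A r := fun A r => Nat.cast_nonneg _
  set Z : ι → ZMod p → ℝ := fun A r => -∑ x ∈ (univ : Finset (ZMod p)).filter (fun x => r ∈ Ψ A x), Δ A x with hZ
  have hid : ∀ A r, ∑ x ∈ (univ : Finset (ZMod p)).filter (fun x => r ∉ Ψ A x), N A x - (1 - ν A r / p) * w A =
      e A + (-(ν A r / p * e A) + Z A r) := by
    intro A r
    have h1 := sum_filter_add_sum_filter_not (univ : Finset (ZMod p)) (fun x => r ∈ Ψ A x) (N A)
    have h2 : ∑ x ∈ (univ : Finset (ZMod p)).filter (fun x => r ∈ Ψ A x), N A x =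
        -Z A r + ν A r * ((∑ y, N A y) / p) := by
      simp only [hZ, hΔ, hν]
      rw [neg_neg, sum_sub_distrib, sum_const, nsmul_eq_mul]
      ring
    have h3 : ∑ x ∈ (univ : Finset (ZMod p)).filter (fun x => r ∉ Ψ A x), N A x =
        (∑ y, N A y) - (-Z A r + ν A r * ((∑ y, N A y) / p)) := by
      rw [← h2]
      linarith
    rw [h3, hS A]
    ring
  set U : ZMod p → ℝ := fun r => ∑ A, (-(ν A r / p * e A) + Z A r) with hU
  have hsum : ∀ r, ∑ A, (∑ x ∈ (univ : Finset (ZMod p)).filter (fun x => r ∉ Ψ A x), N A x -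
      (1 - ν A r / p) * w A) = E + U r := by
    intro r
    rw [sum_congr rfl fun A _ => hid A r, sum_add_distrib]
  -- double counting
  have hdc : ∀ (A : ι) (φ : ZMod p → ℝ), ∑ r : ZMod p, ∑ x ∈ (univ : Finset (ZMod p)).filter (fun x => r ∈ Ψ A x), φ x =
      ∑ x, ((Ψ A x).card : ℝ) * φ x := by
    intro A φ
    have h1 : ∀ r : ZMod p, ∑ x ∈ (univ : Finset (ZMod p)).filter (fun x => r ∈ Ψ A x), φ x =
        ∑ x, if r ∈ Ψ A x then φ x else 0 := fun r => sum_filter _ _
    rw [sum_congr rfl fun r _ => h1 r, sum_comm]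
    refine sum_congr rfl fun x _ => ?_
    rw [← sum_filter, sum_const, nsmul_eq_mul]
    congr 3
    ext r; simp
  have hνs : ∀ A, ∑ r, ν A r ≤ g * p := by
    intro A
    have h1 : ∑ r, ν A r = ∑ x, ((Ψ A x).card : ℝ) := by
      have h2 := hdc A (fun _ => 1)
      simp only [sum_const, nsmul_eq_mul, mul_one] at h2
      exact h2
    rw [h1]
    refine (sum_le_sum fun x _ => (hg A x).trans (hγ A)).trans ?_
    rw [sum_const, card_univ, ZMod.card, nsmul_eq_mul, mul_comm]
  have hνs0 : ∀ A, 0 ≤ ∑ r, ν A r := fun A => sum_nonneg fun r _ => hν0 A r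
  have hlin : ∀ A, 2 * E * ∑ r, (-(ν A r / p * e A) + Z A r) ≤ (g + C2) * E ^ 2 + g * (e A ^ 2 + D A) := by
    intro A
    have h1 : ∑ r, (-(ν A r / p * e A) + Z A r) = -((∑ r, ν A r) / p * e A) + ∑ x, (γ A - (Ψ A x).card) * Δ A x := by
      rw [sum_add_distrib, sum_neg_distrib, ← sum_mul, ← sum_div]
      congr 1
      simp only [hZ]
      rw [sum_neg_distrib, hdc A (Δ A)]
      have h2 : ∑ x, (γ A - ((Ψ A x).card : ℝ)) * Δ A x = γ A * ∑ x, Δ A x - ∑ x, ((Ψ A x).card : ℝ) * Δ A x := by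
        rw [mul_sum, ← sum_sub_distrib]
        exact sum_congr rfl fun x _ => by ring
      rw [h2, hΔ0 A]
      ring
    rw [h1, mul_add]
    have h3 : 2 * E * -((∑ r, ν A r) / p * e A) ≤ g * (E ^ 2 + e A ^ 2) := by
      have t0 : 0 ≤ (∑ r, ν A r) / p := div_nonneg (hνs0 A) hp0.le
      have t1 : (∑ r, ν A r) / p ≤ g := by rw [div_le_iff₀ hp0]; exact hνs A
      set s := (∑ r, ν A r) / p
      have h4 : -(2 * E * e A) ≤ E ^ 2 + e A ^ 2 := by nlinarith [sq_nonneg (E + e A)]
      have h5 : 0 ≤ E ^ 2 + e A ^ 2 := by positivity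
      have h6 : s * (-(2 * E * e A)) ≤ s * (E ^ 2 + e A ^ 2) := mul_le_mul_of_nonneg_left h4 t0
      have h7 : s * (E ^ 2 + e A ^ 2) ≤ g * (E ^ 2 + e A ^ 2) := mul_le_mul_of_nonneg_right t1 h5
      linarith
    have h4 : 2 * E * ∑ x, (γ A - (Ψ A x).card) * Δ A x ≤ C2 * E ^ 2 + g * D A := by
      rw [mul_sum]
      have h5 : ∀ x ∈ (univ : Finset (ZMod p)), 2 * E * ((γ A - ((Ψ A x).card : ℝ)) * Δ A x) ≤
          (γ A - (Ψ A x).card) * E ^ 2 + g * Δ A x ^ 2 := by
        intro x _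
        have h6 : 0 ≤ γ A - ((Ψ A x).card : ℝ) := by linarith [hg A x]
        have h7 : 2 * E * Δ A x ≤ E ^ 2 + Δ A x ^ 2 := by nlinarith [sq_nonneg (E - Δ A x)]
        have h8 := mul_le_mul_of_nonneg_left h7 h6
        have h9 : (0 : ℝ) ≤ (Ψ A x).card := Nat.cast_nonneg _
        have h10 : (γ A - ((Ψ A x).card : ℝ)) * Δ A x ^ 2 ≤ g * Δ A x ^ 2 :=
          mul_le_mul_of_nonneg_right (by linarith [hγ A]) (sq_nonneg _)
        nlinarith
      refine (sum_le_sum h5).trans ?_
      rw [sum_add_distrib, ← sum_mul, ← mul_sum]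
      have := mul_le_mul_of_nonneg_right (hC A) (sq_nonneg E)
      linarith
    linarith
  have hquad : ∀ A, ∑ r, (-(ν A r / p * e A) + Z A r) ^ 2 ≤ 2 * (c ^ 2 + c * g) * (e A ^ 2 + D A) := by
    intro A
    have h1 : ∑ r, Z A r ^ 2 ≤ c * g * D A := by
      have h1 : ∀ r ∈ (univ : Finset (ZMod p)), Z A r ^ 2 ≤
          c * ∑ x ∈ (univ : Finset (ZMod p)).filter (fun x => r ∈ Ψ A x), Δ A x ^ 2 := by
        intro r _
        simp only [hZ]
        rw [neg_sq]
        refine sq_sum_le_card_mul_sum_sq.trans ?_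
        exact mul_le_mul_of_nonneg_right (hc A r) (sum_nonneg fun _ _ => sq_nonneg _)
      refine (sum_le_sum h1).trans ?_
      rw [← mul_sum, hdc A (fun x => Δ A x ^ 2), mul_assoc]
      apply mul_le_mul_of_nonneg_left _ hc0
      simp only [hD]
      rw [mul_sum]
      exact sum_le_sum fun x _ => mul_le_mul_of_nonneg_right ((hg A x).trans (hγ A)) (sq_nonneg _)
    have h2 : ∑ r, (ν A r / p * e A) ^ 2 ≤ c ^ 2 * e A ^ 2 := by
      have h3 : ∀ r ∈ (univ : Finset (ZMod p)), (ν A r / p * e A) ^ 2 ≤ c ^ 2 / p ^ 2 * e A ^ 2 := by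
        intro r _
        rw [mul_pow, div_pow]
        apply mul_le_mul_of_nonneg_right _ (sq_nonneg _)
        apply div_le_div_of_nonneg_right _ (by positivity)
        exact pow_le_pow_left₀ (hν0 A r) (hc A r) 2
      refine (sum_le_sum h3).trans ?_
      rw [sum_const, card_univ, ZMod.card, nsmul_eq_mul]
      have h4 : (p : ℝ) * (c ^ 2 / p ^ 2 * e A ^ 2) = c ^ 2 * e A ^ 2 / p := by field_simp
      rw [h4]
      exact div_le_self (by positivity) hp1
    have h3 : ∀ r ∈ (univ : Finset (ZMod p)), (-(ν A r / p * e A) + Z A r) ^ 2 ≤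
        2 * (ν A r / p * e A) ^ 2 + 2 * Z A r ^ 2 := by
      intro r _
      nlinarith [sq_nonneg (ν A r / p * e A + Z A r)]
    refine (sum_le_sum h3).trans ?_
    rw [sum_add_distrib, ← mul_sum, ← mul_sum]
    have h4 : 0 ≤ c * g * e A ^ 2 := by positivity
    have h5 : 0 ≤ c ^ 2 * D A := mul_nonneg (sq_nonneg _) (hD0 A)
    nlinarith
  set T : ℝ := ∑ A, (e A ^ 2 + D A) with hT
  have hT0 : 0 ≤ T := sum_nonneg fun A _ => by
    have := hD0 A
    positivity
  have hU1 : 2 * E * ∑ r, U r ≤ l * (g + C2) * E ^ 2 + g * T := by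
    have h1 : ∑ r, U r = ∑ A, ∑ r, (-(ν A r / p * e A) + Z A r) := by
      simp only [hU]
      rw [sum_comm]
    rw [h1, mul_sum]
    refine (sum_le_sum fun A _ => hlin A).trans ?_
    rw [sum_add_distrib, sum_const, card_univ, nsmul_eq_mul, ← mul_sum]
    apply le_of_eq
    rw [hT, hl]
    ring
  have hU2 : ∑ r, U r ^ 2 ≤ 2 * l * (c ^ 2 + c * g) * T := by
    have h1 : ∀ r ∈ (univ : Finset (ZMod p)), U r ^ 2 ≤ l * ∑ A, (-(ν A r / p * e A) + Z A r) ^ 2 := by
      intro r _
      simp only [hU]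
      refine sq_sum_le_card_mul_sum_sq.trans (le_of_eq ?_)
      rw [card_univ]
    refine (sum_le_sum h1).trans ?_
    rw [← mul_sum, sum_comm]
    have h2 : ∑ A, ∑ r, (-(ν A r / p * e A) + Z A r) ^ 2 ≤ 2 * (c ^ 2 + c * g) * T := by
      refine (sum_le_sum fun A _ => hquad A).trans ?_
      rw [← mul_sum]
    have h3 := mul_le_mul_of_nonneg_left h2 hl0
    linarith
  rw [sum_congr rfl fun r _ => by rw [hsum r]]
  have hexp : ∑ r : ZMod p, (E + U r) ^ 2 = p * E ^ 2 + 2 * E * ∑ r, U r + ∑ r, U r ^ 2 := by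
    have h1 : ∀ r ∈ (univ : Finset (ZMod p)), (E + U r) ^ 2 = E ^ 2 + 2 * E * U r + U r ^ 2 := fun r _ => by ring
    rw [sum_congr rfl h1, sum_add_distrib, sum_add_distrib, ← mul_sum, sum_const, card_univ, ZMod.card, nsmul_eq_mul]
  rw [hexp, div_le_iff₀ hp0]
  have e1 : ((1 + A0 l g c C2 / p) * E ^ 2 + A0 l g c C2 / p * T) * p = p * E ^ 2 + A0 l g c C2 * E ^ 2 +
      A0 l g c C2 * T := by
    field_simp
  have e2 : l * (g + C2) ≤ A0 l g c C2 := by
    unfold A0
    have : 0 ≤ 2 * l * (c ^ 2 + c * g) := by positivity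
    linarith
  have e3 : g + 2 * l * (c ^ 2 + c * g) ≤ A0 l g c C2 := by
    unfold A0
    have : 0 ≤ l * (g + C2) := by positivity
    linarith
  show _ ≤ ((1 + A0 l g c C2 / p) * E ^ 2 + A0 l g c C2 / p * T) * p
  rw [e1]
  have e4 := mul_le_mul_of_nonneg_right e2 (sq_nonneg E)
  have e5 := mul_le_mul_of_nonneg_right e3 hT0
  linarith

end Pool.Agent.W2helper64.BQ
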