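import Pool.Agent.W2helper64.BQ.Th0

set_option autoImplicit false
set_option linter.unusedSectionVars false

/-!
The second moment of the number of survivors, with thresholds, by recursion over the primes.
-/

namespace Pool.Agent.W2helper64.BQ

open Finset Filter Topology Polynomial MeasureTheory Pool.Agent.W2helper64.RS Pool.Agent.W2helper64.RK
open Pool.Agent.W2helper64.BH

/-- the sum over a progression -/
def SS (v : ℕ → ℝ) (M s Q : ℕ) : ℝ := ∑ t ∈ range M, v (s + Q * t)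

theorem class_sum {p : ℕ} [NeZero p] (M : ℕ) (x : ZMod p) (v : ℕ → ℝ) :
    ∑ t ∈ (range M).filter (fun t : ℕ => ((t : ℕ) : ZMod p) = x), v t =
      ∑ t ∈ range (mcl p M x), v (x.val + p * t) := by
  have hp : 0 < p := Nat.pos_of_ne_zero (NeZero.ne p)
  symm
  refine sum_bij (fun t _ => x.val + p * t) ?_ ?_ ?_ ?_
  · intro t ht
    rw [mem_range] at ht
    rw [Finset.mem_filter, mem_range]
    refine ⟨(lt_mcl hp (ZMod.val_lt x)).mp ht, ?_⟩
    push_cast
    rw [ZMod.natCast_val, ZMod.cast_id', id, ZMod.natCast_self, zero_mul, add_zero]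
  · intro t _ s _ h
    have h' : x.val + p * t = x.val + p * s := h
    exact Nat.eq_of_mul_eq_mul_left hp (by omega)
  · intro t ht
    rw [Finset.mem_filter, mem_range] at ht
    obtain ⟨h1, h2⟩ := ht
    have h4 : x.val = t % p := by
      rw [← h2, ZMod.val_natCast]
    have h5 := Nat.mod_add_div t p
    refine ⟨t / p, ?_, ?_⟩
    · rw [mem_range]
      refine (lt_mcl hp (ZMod.val_lt x)).mpr ?_
      rw [h4, h5]; exact h1
    · rw [h4, h5]
  · intro t _
    rfl

theorem SS_split {p : ℕ} [NeZero p] (v : ℕ → ℝ) (M s Q : ℕ) :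
    SS v M s Q = ∑ x : ZMod p, SS v (mcl p M x) (s + Q * x.val) (Q * p) := by
  unfold SS
  rw [← sum_fiberwise_of_maps_to (s := range M) (t := (univ : Finset (ZMod p)))
    (g := fun t : ℕ => ((t : ℕ) : ZMod p)) (fun _ _ => Finset.mem_univ _)]
  refine sum_congr rfl fun x _ => ?_
  rw [class_sum M x (fun t => v (s + Q * t))]
  refine sum_congr rfl fun t _ => ?_
  congr 1
  ring

theorem SS_piece {ι : Type} [Fintype ι] [DecidableEq ι] (h : ℕ → ι) {M : ℕ} {u L : ι → ℕ}
    (hiff : ∀ A t, (t < M ∧ h t = A) ↔ (u A ≤ t ∧ t < u A + L A)) (v : ℕ → ℝ) (s Q : ℕ) :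
    SS v M s Q = ∑ A, SS v (L A) (s + Q * u A) Q := by
  unfold SS
  rw [← sum_fiberwise_of_maps_to (s := range M) (t := (univ : Finset ι))
    (g := h) (fun _ _ => Finset.mem_univ _)]
  refine sum_congr rfl fun A _ => ?_
  symm
  refine sum_bij (fun t _ => u A + t) ?_ ?_ ?_ ?_
  · intro t ht
    rw [mem_range] at ht
    rw [Finset.mem_filter, mem_range]
    exact (hiff A (u A + t)).mpr ⟨by omega, by omega⟩
  · intro t _ r _ h'
    have h'' : u A + t = u A + r := h'
    omega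
  · intro t ht
    rw [Finset.mem_filter, mem_range] at ht
    have := (hiff A t).mp ht
    refine ⟨t - u A, ?_, by omega⟩
    rw [mem_range]
    omega
  · intro t _
    congr 1
    ring

section
variable {F : Finset Nat.Primes} {ι : Type} [Fintype ι] [DecidableEq ι] (κ : {p // p ∈ F} → ℕ → ι)
  (Φ : (p : {p // p ∈ F}) → ι → ZMod ((p : Nat.Primes) : ℕ) → Finset (ZMod ((p : Nat.Primes) : ℕ)))

open Classical in
/-- the indicator of survival -/
noncomputable def yy (K : Finset {p // p ∈ F}) (a : (p : {p // p ∈ F}) → ZMod ((p : Nat.Primes) : ℕ)) (n : ℕ) : ℝ :=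
  if ∀ p ∈ K, a p ∉ Φ p (κ p n) ((n : ℕ) : ZMod ((p : Nat.Primes) : ℕ)) then 1 else 0

/-- the number of classes -/
noncomputable def nn (p : {p // p ∈ F}) (A : ι) (r : ZMod ((p : Nat.Primes) : ℕ)) : ℝ :=
  (((univ : Finset (ZMod ((p : Nat.Primes) : ℕ))).filter fun x => r ∈ Φ p A x).card : ℝ)

/-- the weight -/
noncomputable def ww (K : Finset {p // p ∈ F}) (a : (p : {p // p ∈ F}) → ZMod ((p : Nat.Primes) : ℕ)) (n : ℕ) : ℝ :=
  ∏ p ∈ K, (1 - nn Φ p (κ p n) (a p) / (((p : Nat.Primes) : ℕ) : ℝ))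

theorem nn_bounds (p : {p // p ∈ F}) (A : ι) (r : ZMod ((p : Nat.Primes) : ℕ)) :
    0 ≤ 1 - nn Φ p A r / (((p : Nat.Primes) : ℕ) : ℝ) ∧ 1 - nn Φ p A r / (((p : Nat.Primes) : ℕ) : ℝ) ≤ 1 := by
  have hp0 : (0 : ℝ) < (((p : Nat.Primes) : ℕ) : ℝ) := by exact_mod_cast (p : Nat.Primes).2.pos
  have h1 : ((univ : Finset (ZMod ((p : Nat.Primes) : ℕ))).filter fun x => r ∈ Φ p A x).card ≤ ((p : Nat.Primes) : ℕ) := by
    refine (card_filter_le _ _).trans ?_
    rw [card_univ, ZMod.card]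
  have h2 : nn Φ p A r ≤ (((p : Nat.Primes) : ℕ) : ℝ) := by
    unfold nn
    exact_mod_cast h1
  have h0 : 0 ≤ nn Φ p A r := Nat.cast_nonneg _
  constructor
  · rw [sub_nonneg, div_le_one hp0]; exact h2
  · have : 0 ≤ nn Φ p A r / (((p : Nat.Primes) : ℕ) : ℝ) := by positivity
    linarith

theorem ww_bounds (K : Finset {p // p ∈ F}) (a : (p : {p // p ∈ F}) → ZMod ((p : Nat.Primes) : ℕ)) (n : ℕ) :
    0 ≤ ww κ Φ K a n ∧ ww κ Φ K a n ≤ 1 :=
  ⟨prod_nonneg fun p _ => (nn_bounds Φ p _ _).1,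
    prod_le_one (fun p _ => (nn_bounds Φ p _ _).1) fun p _ => (nn_bounds Φ p _ _).2⟩

theorem ww_anti (K : Finset {p // p ∈ F}) (a : (p : {p // p ∈ F}) → ZMod ((p : Nat.Primes) : ℕ))
    (hmono : ∀ p ∈ K, ∀ r n n', n ≤ n' → nn Φ p (κ p n) r ≤ nn Φ p (κ p n') r) (n n' : ℕ) (hn : n ≤ n') :
    ww κ Φ K a n' ≤ ww κ Φ K a n := by
  unfold ww
  refine prod_le_prod (fun p _ => (nn_bounds Φ p _ _).1) fun p hp => ?_
  have hp0 : (0 : ℝ) < (((p : Nat.Primes) : ℕ) : ℝ) := by exact_mod_cast (p : Nat.Primes).2.pos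
  have := div_le_div_of_nonneg_right (hmono p hp (a p) n n' hn) hp0.le
  linarith

theorem yy_update (K : Finset {p // p ∈ F}) (p : {p // p ∈ F}) (hp : p ∉ K)
    (a : (p : {p // p ∈ F}) → ZMod ((p : Nat.Primes) : ℕ)) (r : ZMod ((p : Nat.Primes) : ℕ)) :
    yy κ Φ K (Function.update a p r) = yy κ Φ K a := by
  funext n
  unfold yy
  have : (∀ q ∈ K, (Function.update a p r) q ∉ Φ q (κ q n) ((n : ℕ) : ZMod ((q : Nat.Primes) : ℕ))) ↔
      ∀ q ∈ K, a q ∉ Φ q (κ q n) ((n : ℕ) : ZMod ((q : Nat.Primes) : ℕ)) := by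
    refine forall₂_congr fun q hq => ?_
    have : q ≠ p := fun h => hp (h ▸ hq)
    rw [Function.update_of_ne this]
  simp only [this]

theorem ww_update (K : Finset {p // p ∈ F}) (p : {p // p ∈ F}) (hp : p ∉ K)
    (a : (p : {p // p ∈ F}) → ZMod ((p : Nat.Primes) : ℕ)) (r : ZMod ((p : Nat.Primes) : ℕ)) :
    ww κ Φ K (Function.update a p r) = ww κ Φ K a := by
  funext n
  unfold ww
  refine prod_congr rfl fun q hq => ?_
  have : q ≠ p := fun h => hp (h ▸ hq)
  rw [Function.update_of_ne this]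

theorem yy_insert (K : Finset {p // p ∈ F}) (p : {p // p ∈ F})
    (a : (p : {p // p ∈ F}) → ZMod ((p : Nat.Primes) : ℕ)) (n : ℕ) :
    yy κ Φ (insert p K) a n =
      if a p ∉ Φ p (κ p n) ((n : ℕ) : ZMod ((p : Nat.Primes) : ℕ)) then yy κ Φ K a n else 0 := by
  unfold yy
  simp only [forall_mem_insert]
  by_cases h1 : a p ∉ Φ p (κ p n) ((n : ℕ) : ZMod ((p : Nat.Primes) : ℕ))
  · simp [h1]
  · simp [h1]

theorem ww_insert (K : Finset {p // p ∈ F}) (p : {p // p ∈ F}) (hp : p ∉ K)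
    (a : (p : {p // p ∈ F}) → ZMod ((p : Nat.Primes) : ℕ)) (n : ℕ) :
    ww κ Φ (insert p K) a n = (1 - nn Φ p (κ p n) (a p) / (((p : Nat.Primes) : ℕ) : ℝ)) * ww κ Φ K a n := by
  unfold ww
  rw [prod_insert hp]

theorem var_rec2 {g c C2 : ℝ} (γ : ι → ℝ) (hg0 : 0 ≤ g) (hc0 : 0 ≤ c) (hC2 : 0 ≤ C2)
    (hγ : ∀ A, γ A ≤ g) (K : Finset {p // p ∈ F})
    (hg : ∀ p ∈ K, ∀ A x, ((Φ p A x).card : ℝ) ≤ γ A)
    (hc : ∀ p ∈ K, ∀ A r, nn Φ p A r ≤ c)
    (hC : ∀ p ∈ K, ∀ A, ∑ x, (γ A - (Φ p A x).card) ≤ C2)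
    (hconv : ∀ p ∈ K, ∀ n1 n2 n3, n1 ≤ n2 → n2 ≤ n3 → κ p n1 = κ p n3 → κ p n2 = κ p n1)
    (hmono : ∀ p ∈ K, ∀ r n n', n ≤ n' → nn Φ p (κ p n) r ≤ nn Φ p (κ p n') r)
    (M s Q : ℕ) (hQ : ∀ p ∈ K, ¬ ((p : Nat.Primes) : ℕ) ∣ Q) :
    avg (fun a => (SS (yy κ Φ K a) M s Q - SS (ww κ Φ K a) M s Q) ^ 2) ≤
      (∏ p ∈ K, (1 + 11 * A0 (Fintype.card ι) g c C2 / (((p : Nat.Primes) : ℕ) : ℝ))) * M := by
  classical
  induction K using Finset.induction_on generalizing M s Q with
  | empty =>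
    have h : (fun a : (p : {p // p ∈ F}) → ZMod ((p : Nat.Primes) : ℕ) =>
        (SS (yy κ Φ ∅ a) M s Q - SS (ww κ Φ ∅ a) M s Q) ^ 2) = fun _ => (0 : ℝ) := by
      funext a
      simp [SS, yy, ww]
    rw [h, avg_const, prod_empty, one_mul]
    exact Nat.cast_nonneg _
  | insert p K hpK ih =>
    set AA : ℝ := A0 (Fintype.card ι) g c C2 with hAA
    have hAA0 : 0 ≤ AA := by rw [hAA]; unfold A0; positivity
    have hp0 : (0 : ℝ) < (((p : Nat.Primes) : ℕ) : ℝ) := by exact_mod_cast (p : Nat.Primes).2.pos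
    have hp1 : (1 : ℝ) ≤ (((p : Nat.Primes) : ℕ) : ℝ) := by exact_mod_cast (p : Nat.Primes).2.one_lt.le
    have hppos : 0 < ((p : Nat.Primes) : ℕ) := (p : Nat.Primes).2.pos
    set B : ℝ := ∏ p ∈ K, (1 + 11 * AA / (((p : Nat.Primes) : ℕ) : ℝ)) with hB
    have hB1 : 1 ≤ B := by
      rw [hB]
      calc (1 : ℝ) = ∏ _q ∈ K, (1 : ℝ) := by rw [prod_const_one]
        _ ≤ _ := prod_le_prod (fun _ _ => zero_le_one) fun q _ => by
          have : 0 ≤ 11 * AA / (((q : Nat.Primes) : ℕ) : ℝ) := by positivity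
          linarith
    have ih' := ih (fun q hq => hg q (mem_insert_of_mem hq)) (fun q hq => hc q (mem_insert_of_mem hq))
      (fun q hq => hC q (mem_insert_of_mem hq)) (fun q hq => hconv q (mem_insert_of_mem hq))
      (fun q hq => hmono q (mem_insert_of_mem hq))
    have hpQ : ¬ ((p : Nat.Primes) : ℕ) ∣ Q := hQ p (mem_insert_self _ _)
    have hQ0 : ((Q : ℕ) : ZMod ((p : Nat.Primes) : ℕ)) ≠ 0 := unit_of_not_dvd hpQ
    -- the pieces
    have hpc := fun A => level_interval (fun t => κ p (s + Q * t)) (fun t1 t2 t3 h1 h2 h3 =>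
      hconv p (mem_insert_self _ _) _ _ _ (Nat.add_le_add_left (Nat.mul_le_mul_left Q h1) s)
        (Nat.add_le_add_left (Nat.mul_le_mul_left Q h2) s) h3) M A
    choose u L huL hiff using hpc
    set sA : ι → ℕ := fun A => s + Q * u A with hsA
    -- the affine bijections
    set Ψ' : ι → ZMod ((p : Nat.Primes) : ℕ) → Finset (ZMod ((p : Nat.Primes) : ℕ)) := fun A x =>
      Φ p A ((sA A : ZMod ((p : Nat.Primes) : ℕ)) + (Q : ZMod ((p : Nat.Primes) : ℕ)) * x) with hΨ'
    set aff : ι → ZMod ((p : Nat.Primes) : ℕ) ≃ ZMod ((p : Nat.Primes) : ℕ) := fun A =>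
      { toFun := fun x => (sA A : ZMod ((p : Nat.Primes) : ℕ)) + (Q : ZMod ((p : Nat.Primes) : ℕ)) * x
        invFun := fun y => (y - (sA A : ZMod ((p : Nat.Primes) : ℕ))) / (Q : ZMod ((p : Nat.Primes) : ℕ))
        left_inv := fun x => by field_simp; ring
        right_inv := fun y => by field_simp; ring } with haff
    have hν : ∀ A r, (((univ : Finset (ZMod ((p : Nat.Primes) : ℕ))).filter fun x => r ∈ Ψ' A x).card : ℝ) =
        nn Φ p A r := by
      intro A r
      unfold nn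
      congr 1
      refine card_bij (fun x _ => aff A x) ?_ ?_ ?_
      · intro x hx
        rw [Finset.mem_filter] at hx ⊢
        exact ⟨Finset.mem_univ _, hx.2⟩
      · intro x _ y _ h
        exact (aff A).injective h
      · intro y hy
        rw [Finset.mem_filter] at hy
        refine ⟨(aff A).symm y, ?_, (aff A).apply_symm_apply y⟩
        rw [Finset.mem_filter]
        refine ⟨Finset.mem_univ _, ?_⟩
        show r ∈ Φ p A (aff A ((aff A).symm y))
        rw [(aff A).apply_symm_apply]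
        exact hy.2
    have hC' : ∀ A, ∑ x, (γ A - ((Ψ' A x).card : ℝ)) ≤ C2 := by
      intro A
      refine le_trans (le_of_eq ?_) (hC p (mem_insert_self _ _) A)
      exact Equiv.sum_comp (aff A) (fun y => γ A - ((Φ p A y).card : ℝ))
    -- the counts in the classes
    set Nx : ι → ZMod ((p : Nat.Primes) : ℕ) → ((p : {p // p ∈ F}) → ZMod ((p : Nat.Primes) : ℕ)) → ℝ :=
      fun A x a => SS (yy κ Φ K a) (mcl ((p : Nat.Primes) : ℕ) (L A) x) (sA A + Q * x.val)
        (Q * ((p : Nat.Primes) : ℕ)) with hNx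
    set Wx : ι → ZMod ((p : Nat.Primes) : ℕ) → ((p : {p // p ∈ F}) → ZMod ((p : Nat.Primes) : ℕ)) → ℝ :=
      fun A x a => SS (ww κ Φ K a) (mcl ((p : Nat.Primes) : ℕ) (L A) x) (sA A + Q * x.val)
        (Q * ((p : Nat.Primes) : ℕ)) with hWx
    set wA : ι → ((p : {p // p ∈ F}) → ZMod ((p : Nat.Primes) : ℕ)) → ℝ := fun A a =>
      SS (ww κ Φ K a) (L A) (sA A) Q with hwA
    set eA : ι → ((p : {p // p ∈ F}) → ZMod ((p : Nat.Primes) : ℕ)) → ℝ := fun A a =>
      SS (yy κ Φ K a) (L A) (sA A) Q - SS (ww κ Φ K a) (L A) (sA A) Q with heA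
    set e : ((p : {p // p ∈ F}) → ZMod ((p : Nat.Primes) : ℕ)) → ℝ := fun a =>
      SS (yy κ Φ K a) M s Q - SS (ww κ Φ K a) M s Q with he
    have hNxu : ∀ A x a r, Nx A x (Function.update a p r) = Nx A x a := fun A x a r => by
      simp only [hNx, yy_update κ Φ K p hpK a r]
    have hwAu : ∀ A a r, wA A (Function.update a p r) = wA A a := fun A a r => by
      simp only [hwA, ww_update κ Φ K p hpK a r]
    have hSx : ∀ A a, ∑ x, Nx A x a = wA A a + eA A a := by
      intro A a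
      simp only [hNx, hwA, heA]
      rw [← SS_split]
      ring
    have hesum : ∀ a, ∑ A, eA A a = e a := by
      intro a
      simp only [heA, he]
      rw [sum_sub_distrib, SS_piece (fun t => κ p (s + Q * t)) hiff (yy κ Φ K a) s Q,
        SS_piece (fun t => κ p (s + Q * t)) hiff (ww κ Φ K a) s Q]
    -- the values of κ on the pieces
    have hκ : ∀ A t, t < L A → κ p (sA A + Q * t) = A := by
      intro A t ht
      have h1 := ((hiff A (u A + t)).mpr ⟨by omega, by omega⟩).2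
      simp only [hsA]
      have e1 : s + Q * u A + Q * t = s + Q * (u A + t) := by ring
      rw [e1]
      exact h1
    have hYins : ∀ a, SS (yy κ Φ (insert p K) a) M s Q =
        ∑ A, ∑ x ∈ (univ : Finset (ZMod ((p : Nat.Primes) : ℕ))).filter (fun x => a p ∉ Ψ' A x), Nx A x a := by
      intro a
      rw [SS_piece (fun t => κ p (s + Q * t)) hiff (yy κ Φ (insert p K) a) s Q]
      refine sum_congr rfl fun A _ => ?_
      rw [SS_split (p := ((p : Nat.Primes) : ℕ)), sum_filter]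
      refine sum_congr rfl fun x _ => ?_
      have hcast : ∀ t : ℕ, ((s + Q * u A + Q * x.val + Q * ((p : Nat.Primes) : ℕ) * t : ℕ) : ZMod ((p : Nat.Primes) : ℕ)) =
          (sA A : ZMod ((p : Nat.Primes) : ℕ)) + (Q : ZMod ((p : Nat.Primes) : ℕ)) * x := by
        intro t
        simp only [hsA]
        push_cast
        rw [ZMod.natCast_val, ZMod.cast_id', id, ZMod.natCast_self]
        ring
      have hval : ∀ t ∈ range (mcl ((p : Nat.Primes) : ℕ) (L A) x),
          yy κ Φ (insert p K) a (s + Q * u A + Q * x.val + Q * ((p : Nat.Primes) : ℕ) * t) =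
            if a p ∉ Ψ' A x then yy κ Φ K a (s + Q * u A + Q * x.val + Q * ((p : Nat.Primes) : ℕ) * t) else 0 := by
        intro t ht
        rw [mem_range] at ht
        have h1 := (lt_mcl hppos (ZMod.val_lt x)).mp ht
        have h2 := hκ A _ h1
        have e1 : sA A + Q * (x.val + ((p : Nat.Primes) : ℕ) * t) =
            s + Q * u A + Q * x.val + Q * ((p : Nat.Primes) : ℕ) * t := by
          simp only [hsA]
          ring
        rw [e1] at h2
        rw [yy_insert, h2, hcast t]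
      show SS (yy κ Φ (insert p K) a) (mcl ((p : Nat.Primes) : ℕ) (L A) x) (s + Q * u A + Q * x.val)
        (Q * ((p : Nat.Primes) : ℕ)) = _
      unfold SS
      rw [sum_congr rfl hval]
      by_cases h : a p ∈ Ψ' A x
      · simp only [h, not_true_eq_false, if_false, sum_const_zero]
      · simp only [h, not_false_eq_true, if_true]
        rfl
    have hWins : ∀ a, SS (ww κ Φ (insert p K) a) M s Q =
        ∑ A, (1 - (((univ : Finset (ZMod ((p : Nat.Primes) : ℕ))).filter fun x => a p ∈ Ψ' A x).card : ℝ) /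
          (((p : Nat.Primes) : ℕ) : ℝ)) * wA A a := by
      intro a
      rw [SS_piece (fun t => κ p (s + Q * t)) hiff (ww κ Φ (insert p K) a) s Q]
      refine sum_congr rfl fun A _ => ?_
      rw [hν]
      simp only [hwA]
      unfold SS
      rw [mul_sum]
      refine sum_congr rfl fun t ht => ?_
      rw [mem_range] at ht
      have h2 := hκ A t ht
      simp only [hsA] at h2 ⊢
      rw [ww_insert κ Φ K p hpK, h2]
    -- the average over the coordinate p
    have hmm : ∀ a, mm p (fun a => (SS (yy κ Φ (insert p K) a) M s Q - SS (ww κ Φ (insert p K) a) M s Q) ^ 2) a ≤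
        (1 + AA / (((p : Nat.Primes) : ℕ) : ℝ)) * e a ^ 2 + AA / (((p : Nat.Primes) : ℕ) : ℝ) *
            ∑ A, (eA A a ^ 2 + ∑ x, (Nx A x a - (∑ y, Nx A y a) / (((p : Nat.Primes) : ℕ) : ℝ)) ^ 2) := by
      intro a
      have h1 := step2 Ψ' γ hg0 hc0 hC2 hγ (fun A x => hg p (mem_insert_self _ _) A _)
        (fun A r => by rw [hν]; exact hc p (mem_insert_self _ _) A r) hC' (fun A x => Nx A x a)
        (fun A => wA A a) (fun A => eA A a) (fun A => hSx A a)
      rw [hesum a] at h1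
      refine le_trans (le_of_eq ?_) h1
      unfold mm
      rw [ZMod.card]
      congr 1
      refine sum_congr rfl fun r _ => ?_
      simp only
      rw [hYins, hWins, ← sum_sub_distrib]
      simp only [Function.update_self, hNxu, hwAu]
    rw [← avg_mm p]
    refine (avg_mono hmm).trans ?_
    -- the averages
    have havge : avg (fun a => e a ^ 2) ≤ B * M := ih' M s Q fun q hq => hQ q (mem_insert_of_mem hq)
    have havgA : ∀ A, avg (fun a => eA A a ^ 2) ≤ B * L A := fun A =>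
      ih' (L A) (sA A) Q fun q hq => hQ q (mem_insert_of_mem hq)
    have hcop : ∀ q ∈ K, ¬ ((q : Nat.Primes) : ℕ) ∣ Q * ((p : Nat.Primes) : ℕ) := by
      intro q hq hdvd
      rcases (q : Nat.Primes).2.dvd_mul.mp hdvd with h | h
      · exact hQ q (mem_insert_of_mem hq) h
      · have h1 := (Nat.prime_dvd_prime_iff_eq (q : Nat.Primes).2 (p : Nat.Primes).2).mp h
        have h2 : q = p := Subtype.ext (Subtype.ext h1)
        exact hpK (h2 ▸ hq)
    have havgx : ∀ A x, avg (fun a => (Nx A x a - Wx A x a) ^ 2) ≤ B * (mcl ((p : Nat.Primes) : ℕ) (L A) x : ℝ) :=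
      fun A x => ih' _ _ _ hcop
    set P : ℝ := (((p : Nat.Primes) : ℕ) : ℝ) with hP
    have hmc : ∀ A a, ∑ x, (Wx A x a - wA A a / P) ^ 2 ≤ L A := by
      intro A a
      have h1 := mono_class (p := ((p : Nat.Primes) : ℕ)) (L A) (fun t => ww κ Φ K a (sA A + Q * t))
        (fun t => (ww_bounds κ Φ K a _).1) (fun t => (ww_bounds κ Φ K a _).2)
        (fun t => ww_anti κ Φ K a (fun q hq => hmono q (mem_insert_of_mem hq)) _ _
          (Nat.add_le_add_left (Nat.mul_le_mul_left Q (Nat.le_succ t)) _))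
      refine le_trans (le_of_eq ?_) h1
      refine sum_congr rfl fun x _ => ?_
      rw [class_sum]
      congr 2
      simp only [hWx]
      unfold SS
      refine sum_congr rfl fun t _ => ?_
      congr 1
      ring
    have hΔ : ∀ A a, ∑ x, (Nx A x a - (∑ y, Nx A y a) / P) ^ 2 ≤
        3 * (∑ x, (Nx A x a - Wx A x a) ^ 2 + eA A a ^ 2 + L A) := by
      intro A a
      have h2 : ∀ u v w : ℝ, (u + v + w) ^ 2 ≤ 3 * (u ^ 2 + v ^ 2 + w ^ 2) := by
        intro u v w
        nlinarith [sq_nonneg (u - v), sq_nonneg (v - w), sq_nonneg (u - w)]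
      have h3 : ∀ x ∈ (univ : Finset (ZMod ((p : Nat.Primes) : ℕ))),
          (Nx A x a - (∑ y, Nx A y a) / P) ^ 2 ≤
            3 * ((Nx A x a - Wx A x a) ^ 2 + 1 / P ^ 2 * eA A a ^ 2 + (Wx A x a - wA A a / P) ^ 2) := by
        intro x _
        rw [hSx A a]
        have h1 : Nx A x a - (wA A a + eA A a) / P =
            (Nx A x a - Wx A x a) + (-(eA A a / P)) + (Wx A x a - wA A a / P) := by ring
        rw [h1]
        refine (h2 _ _ _).trans (le_of_eq ?_)
        have h4 : (-(eA A a / P)) ^ 2 = 1 / P ^ 2 * eA A a ^ 2 := by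
          rw [neg_sq, div_pow]; ring
        rw [h4]
      refine (sum_le_sum h3).trans ?_
      rw [← mul_sum]
      apply mul_le_mul_of_nonneg_left _ (by norm_num)
      rw [sum_add_distrib, sum_add_distrib, sum_const, card_univ, ZMod.card, nsmul_eq_mul]
      have h5 : P * (1 / P ^ 2 * eA A a ^ 2) = eA A a ^ 2 / P := by field_simp
      rw [h5]
      have h6 : eA A a ^ 2 / P ≤ eA A a ^ 2 := div_le_self (sq_nonneg _) hp1
      have h7 := hmc A a
      linarith
    have hLsum : ∑ A, (L A : ℝ) = M := by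
      have h1 := SS_piece (fun t => κ p (s + Q * t)) hiff (fun _ => (1 : ℝ)) s Q
      unfold SS at h1
      simp only [sum_const, card_range, nsmul_eq_mul, mul_one] at h1
      exact h1.symm
    have hbound : ∀ a, (1 + AA / P) * e a ^ 2 + AA / P *
            ∑ A, (eA A a ^ 2 + ∑ x, (Nx A x a - (∑ y, Nx A y a) / P) ^ 2) ≤
        (1 + AA / P) * e a ^ 2 + AA / P * (4 * ∑ A, eA A a ^ 2 + 3 * ∑ A, ∑ x, (Nx A x a - Wx A x a) ^ 2 + 3 * M) := by
      intro a
      have h1 : ∑ A, (eA A a ^ 2 + ∑ x, (Nx A x a - (∑ y, Nx A y a) / P) ^ 2) ≤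
          4 * ∑ A, eA A a ^ 2 + 3 * ∑ A, ∑ x, (Nx A x a - Wx A x a) ^ 2 + 3 * M := by
        calc ∑ A, (eA A a ^ 2 + ∑ x, (Nx A x a - (∑ y, Nx A y a) / P) ^ 2) ≤
            ∑ A, (eA A a ^ 2 + 3 * (∑ x, (Nx A x a - Wx A x a) ^ 2 + eA A a ^ 2 + L A)) :=
              sum_le_sum fun A _ => by
                have := hΔ A a
                linarith
          _ = 4 * ∑ A, eA A a ^ 2 + 3 * ∑ A, ∑ x, (Nx A x a - Wx A x a) ^ 2 + 3 * M := by
              rw [← hLsum]
              simp only [mul_add, sum_add_distrib, ← mul_sum]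
              ring
      have h2 := mul_le_mul_of_nonneg_left h1 (by positivity : 0 ≤ AA / P)
      linarith
    refine (avg_mono hbound).trans ?_
    have hlin : avg (fun a => (1 + AA / P) * e a ^ 2 +
        AA / P * (4 * ∑ A, eA A a ^ 2 + 3 * ∑ A, ∑ x, (Nx A x a - Wx A x a) ^ 2 + 3 * M)) =
        (1 + AA / P) * avg (fun a => e a ^ 2) +
          AA / P * (4 * ∑ A, avg (fun a => eA A a ^ 2) +
            3 * ∑ A, ∑ x, avg (fun a => (Nx A x a - Wx A x a) ^ 2) + 3 * M) := by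
      have hcp := (card_pos' (α := fun p : {p // p ∈ F} => ZMod ((p : Nat.Primes) : ℕ))).ne'
      unfold avg
      have e1 : ∀ A, ∑ x, (∑ a, (Nx A x a - Wx A x a) ^ 2) /
          (Fintype.card ((p : {p // p ∈ F}) → ZMod ((p : Nat.Primes) : ℕ)) : ℝ) =
          (∑ a, ∑ x, (Nx A x a - Wx A x a) ^ 2) /
          (Fintype.card ((p : {p // p ∈ F}) → ZMod ((p : Nat.Primes) : ℕ)) : ℝ) := by
        intro A
        rw [← sum_div, sum_comm]
      rw [sum_congr rfl fun A _ => e1 A, ← sum_div, ← sum_div, sum_comm (γ := ι),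
        sum_comm (f := fun A a => ∑ x, (Nx A x a - Wx A x a) ^ 2)]
      simp only [sum_add_distrib, ← mul_sum, sum_const, card_univ, nsmul_eq_mul]
      field_simp
    rw [hlin]
    have hM0 : (0 : ℝ) ≤ M := Nat.cast_nonneg _
    have hBM : (M : ℝ) ≤ B * M := le_mul_of_one_le_left hM0 hB1
    have s1 : ∑ A, avg (fun a => eA A a ^ 2) ≤ B * M := by
      refine (sum_le_sum fun A _ => havgA A).trans ?_
      rw [← mul_sum, hLsum]
    have s2 : ∑ A, ∑ x, avg (fun a => (Nx A x a - Wx A x a) ^ 2) ≤ B * M := by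
      have h1 : ∀ A ∈ (univ : Finset ι), ∑ x, avg (fun a => (Nx A x a - Wx A x a) ^ 2) ≤ B * L A := by
        intro A _
        refine (sum_le_sum fun x _ => havgx A x).trans ?_
        rw [← mul_sum, (mcl_sum (p := ((p : Nat.Primes) : ℕ)) (L A)).1]
      refine (sum_le_sum h1).trans ?_
      rw [← mul_sum, hLsum]
    have f1 : (1 + AA / P) * avg (fun a => e a ^ 2) ≤ (1 + AA / P) * (B * M) :=
      mul_le_mul_of_nonneg_left havge (by positivity)
    have f2 : AA / P * (4 * ∑ A, avg (fun a => eA A a ^ 2) +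
            3 * ∑ A, ∑ x, avg (fun a => (Nx A x a - Wx A x a) ^ 2) + 3 * M) ≤ AA / P * (10 * (B * M)) := by
      apply mul_le_mul_of_nonneg_left _ (by positivity)
      linarith
    rw [prod_insert hpK, ← hB]
    have f4 : (1 + 11 * AA / P) * B * M = (1 + AA / P) * (B * M) + AA / P * (10 * (B * M)) := by ring
    rw [f4]
    linarith

end

end Pool.Agent.W2helper64.BQ
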