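import Pool.Agent.W2helper64.BQ.Th1
import Pool.Agent.W2helper64.BQ.Fin

set_option autoImplicit false
set_option linter.unusedSectionVars false

/-!
All primes at once: the number of survivors in a block against the sum of the weights.
-/

namespace Pool.Agent.W2helper64.BQ

open Finset Filter Topology Polynomial MeasureTheory Pool.Agent.W2helper64.RS Pool.Agent.W2helper64.RK
open Pool.Agent.W2helper64.BH
open Pool.Agent.H373R2.T7 (pz nuB PerB sys_count nuB_le mem_pz)

/-- the relevant indices, extended monotonically -/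
noncomputable def kap {g : ℕ} (f : Fin g → ℤ[X]) (m p n : ℕ) : Finset (Fin g) := rel f p (max n m)

/-- the classes of the values with indices in `A` -/
noncomputable def PhA {g : ℕ} (f : Fin g → ℤ[X]) (p : ℕ) (A : Finset (Fin g)) (x : ZMod p) : Finset (ZMod p) :=
  A.image fun i => val f p i x

/-- the number of classes hitting `r` -/
noncomputable def nuS {g : ℕ} (f : Fin g → ℤ[X]) (A : Finset (Fin g)) (p : Nat.Primes) (r : ZMod (p : ℕ)) : ℝ :=
  (((univ : Finset (ZMod (p : ℕ))).filter fun x => r ∈ PhA f (p : ℕ) A x).card : ℝ)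

theorem PhA_rel {g : ℕ} (f : Fin g → ℤ[X]) (p : Nat.Primes) (n : ℕ) :
    PhA f (p : ℕ) (rel f (p : ℕ) n) ((n : ℕ) : ZMod (p : ℕ)) = Ph f p n := by
  ext r
  unfold PhA Ph
  simp only [mem_image, val_nat]

theorem PhA_card {g : ℕ} (f : Fin g → ℤ[X]) (p : ℕ) (A : Finset (Fin g)) (x : ZMod p) :
    (PhA f p A x).card ≤ A.card := card_image_le

theorem PhA_defect {g : ℕ} (f : Fin g → ℤ[X]) (p : ℕ) (A : Finset (Fin g)) (x : ZMod p) :
    (A.card : ℝ) - (PhA f p A x).card ≤ g - (Psi f p x).card := by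
  classical
  have h1 : Psi f p x ⊆ PhA f p A x ∪ (univ \ A).image fun i => val f p i x := by
    intro r hr
    unfold Psi at hr
    rw [mem_image] at hr
    obtain ⟨i, -, hi⟩ := hr
    unfold PhA
    rw [mem_union, mem_image, mem_image]
    by_cases h : i ∈ A
    · exact Or.inl ⟨i, h, hi⟩
    · exact Or.inr ⟨i, Finset.mem_sdiff.mpr ⟨Finset.mem_univ _, h⟩, hi⟩
  have h2 : (Psi f p x).card ≤ (PhA f p A x).card + (univ \ A).card :=
    (card_le_card h1).trans ((card_union_le _ _).trans (Nat.add_le_add_left card_image_le _))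
  have h3 : (univ \ A).card + A.card = g := by
    rw [card_sdiff_add_card_eq_card (subset_univ A), card_univ, Fintype.card_fin]
  have h4 : (((univ \ A).card : ℕ) : ℝ) + A.card = g := by exact_mod_cast h3
  have h5 : ((Psi f p x).card : ℝ) ≤ (PhA f p A x).card + (univ \ A).card := by exact_mod_cast h2
  linarith

theorem nuS_univ {g : ℕ} (f : Fin g → ℤ[X]) (p : Nat.Primes) (r : ZMod (p : ℕ)) :
    nuS f univ p r = nuR f (p : ℕ) r := by
  unfold nuS
  have h := Psi_nu f (p : ℕ) r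
  have h2 : ((univ : Finset (ZMod (p : ℕ))).filter fun x => r ∈ PhA f (p : ℕ) univ x).card =
      ((univ : Finset (ZMod (p : ℕ))).filter fun x => r ∈ Psi f (p : ℕ) x).card := rfl
  rw [h2, h]

theorem nuS_mono {g : ℕ} (f : Fin g → ℤ[X]) {A B : Finset (Fin g)} (h : A ⊆ B) (p : Nat.Primes)
    (r : ZMod (p : ℕ)) : nuS f A p r ≤ nuS f B p r := by
  unfold nuS
  have h1 : ((univ : Finset (ZMod (p : ℕ))).filter fun x => r ∈ PhA f (p : ℕ) A x).card ≤
      ((univ : Finset (ZMod (p : ℕ))).filter fun x => r ∈ PhA f (p : ℕ) B x).card := by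
    refine card_le_card fun x hx => ?_
    rw [Finset.mem_filter] at hx ⊢
    refine ⟨hx.1, ?_⟩
    unfold PhA at hx ⊢
    exact image_subset_image h hx.2
  exact_mod_cast h1

theorem rel_mono {g : ℕ} (f : Fin g → ℤ[X]) {m : ℕ} (hm : ∀ n, m ≤ n → ∀ i, lam f i n ≤ lam f i (n + 1))
    (p : ℕ) {n n' : ℕ} (h1 : m ≤ n) (h2 : n ≤ n') : rel f p n ⊆ rel f p n' := by
  have h3 : ∀ i, lam f i n ≤ lam f i n' := by
    intro i
    induction n', h2 using Nat.le_induction with
    | base => exact le_rfl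
    | succ n' h2 ih => exact ih.trans (hm n' (h1.trans h2) i)
  intro i hi
  unfold rel at hi ⊢
  rw [Finset.mem_filter] at hi ⊢
  exact ⟨hi.1, hi.2.trans (mul_le_mul_of_nonneg_left (h3 i) (V_nonneg _))⟩

theorem kap_mono {g : ℕ} (f : Fin g → ℤ[X]) {m : ℕ} (hm : ∀ n, m ≤ n → ∀ i, lam f i n ≤ lam f i (n + 1))
    (p : ℕ) {n n' : ℕ} (h : n ≤ n') : kap f m p n ⊆ kap f m p n' :=
  rel_mono f hm p (le_max_right _ _) (max_le_max_right m h)

/-- the number of survivors -/
noncomputable def yT {g : ℕ} (f : Fin g → ℤ[X]) (T : ℝ) (m : ℕ) (a : (p : Nat.Primes) → ZMod (p : ℕ)) : ℕ → ℝ :=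
  yy (F := PX T) (fun p n => kap f m ((p : Nat.Primes) : ℕ) n)
    (fun p A x => PhA f ((p : Nat.Primes) : ℕ) A x) univ ((PX T).restrict a)

/-- the weight -/
noncomputable def wT {g : ℕ} (f : Fin g → ℤ[X]) (T : ℝ) (m : ℕ) (a : (p : Nat.Primes) → ZMod (p : ℕ)) : ℕ → ℝ :=
  ww (F := PX T) (fun p n => kap f m ((p : Nat.Primes) : ℕ) n)
    (fun p A x => PhA f ((p : Nat.Primes) : ℕ) A x) univ ((PX T).restrict a)

/-- the error -/
noncomputable def eT {g : ℕ} (f : Fin g → ℤ[X]) (T : ℝ) (m s M : ℕ) (a : (p : Nat.Primes) → ZMod (p : ℕ)) : ℝ :=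
  SS (yT f T m a) M (s + 1) 1 - SS (wT f T m a) M (s + 1) 1

theorem SS_add (v : ℕ → ℝ) (u w s : ℕ) : SS v (u + w) s 1 = SS v u s 1 + SS v w (s + u) 1 := by
  unfold SS
  rw [sum_range_add]
  congr 1
  refine sum_congr rfl fun t _ => ?_
  congr 1
  ring

theorem eT_add {g : ℕ} (f : Fin g → ℤ[X]) (T : ℝ) (m s u v : ℕ) (a : (p : Nat.Primes) → ZMod (p : ℕ)) :
    eT f T m s (u + v) a = eT f T m s u a + eT f T m (s + u) v a := by
  unfold eT
  rw [SS_add, SS_add]
  have : s + u + 1 = s + 1 + u := by ring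
  rw [this]
  ring

/-- the constant -/
noncomputable def CTh {g : ℕ} (f : Fin g → ℤ[X]) (k : ℕ) : ℝ :=
  11 * A0 (Fintype.card (Finset (Fin g))) g (k + lcs f) (g * (g ^ 2 * k) + g * dlc f)

theorem law_cheb3 {g : ℕ} (f : Fin g → ℤ[X]) (k : ℕ) (hd : ∀ i, 0 < (f i).natDegree)
    (hl : ∀ i, 0 < (f i).leadingCoeff) (hk : ∑ i, (f i).natDegree ≤ k) (hinj : Function.Injective f)
    {T : ℝ} {m : ℕ} (hT : 1 ≤ T) (hm : ∀ n, m ≤ n → ∀ i, lam f i n ≤ lam f i (n + 1)) (s M : ℕ)
    {τ : ℝ} (hτ : 0 < τ) :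
    law {a | τ ≤ |eT f T m s M a|} ≤ ENNReal.ofReal (Real.exp (CTh f k * Real.log T) * M / τ ^ 2) := by
  classical
  set C := CTh f k with hC
  have hC0 : 0 ≤ C := by rw [hC]; unfold CTh A0; positivity
  set κ : {p // p ∈ PX T} → ℕ → Finset (Fin g) := fun p n => kap f m ((p : Nat.Primes) : ℕ) n with hκ
  set Φ : (p : {p // p ∈ PX T}) → Finset (Fin g) → ZMod ((p : Nat.Primes) : ℕ) → Finset (ZMod ((p : Nat.Primes) : ℕ)) :=
    fun p A x => PhA f ((p : Nat.Primes) : ℕ) A x with hΦ
  set P : ((p : {p // p ∈ PX T}) → ZMod ((p : Nat.Primes) : ℕ)) → Prop := fun b =>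
    τ ≤ |SS (yy κ Φ univ b) M (s + 1) 1 - SS (ww κ Φ univ b) M (s + 1) 1| with hP
  have h1 : {a : (p : Nat.Primes) → ZMod (p : ℕ) | τ ≤ |eT f T m s M a|} =
      {a : (p : Nat.Primes) → ZMod (p : ℕ) | P ((PX T).restrict a)} := rfl
  have h2 := law_cyl (PX T) P (inst := Classical.decPred _)
  rw [h1, h2]
  apply ENNReal.ofReal_le_ofReal
  have hnn : ∀ p A r, nn Φ p A r = nuS f A (p : Nat.Primes) r := fun p A r => rfl
  have hmonoκ : ∀ p n n', n ≤ n' → κ p n ⊆ κ p n' := fun p n n' h => kap_mono f hm _ h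
  have h3 := var_rec2 κ Φ (g := g) (c := k + lcs f) (C2 := g * (g ^ 2 * k) + g * dlc f)
    (fun A => (A.card : ℝ)) (by positivity) (by positivity) (by positivity)
    (fun A => by
      have := card_le_univ A
      rw [Fintype.card_fin] at this
      exact_mod_cast this)
    univ (fun p _ A x => by exact_mod_cast PhA_card f _ A x)
    (fun p _ A r => by
      rw [hnn]
      refine (nuS_mono f (subset_univ A) _ r).trans ?_
      rw [nuS_univ]
      exact_mod_cast nuR_all f k hd hl hk (p : Nat.Primes) r)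
    (fun p _ A => (sum_le_sum fun x _ => PhA_defect f _ A x).trans (Psi_sum f k hk hinj (p : Nat.Primes)))
    (fun p _ n1 n2 n3 h12 h23 h => by
      apply Finset.Subset.antisymm
      · have := hmonoκ p n2 n3 h23
        rw [← h] at this
        exact this
      · exact hmonoκ p n1 n2 h12)
    (fun p _ r n n' h => by
      rw [hnn, hnn]
      exact nuS_mono f (hmonoκ p n n' h) _ r)
    M (s + 1) 1 (fun p _ h => by
      have := (p : Nat.Primes).2.one_lt
      have := Nat.le_of_dvd one_pos h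
      omega)
  have h4 : ∏ p ∈ (univ : Finset {p // p ∈ PX T}), (1 + C / (((p : Nat.Primes) : ℕ) : ℝ)) ≤
      Real.exp (C * Real.log T) := by
    calc ∏ p ∈ (univ : Finset {p // p ∈ PX T}), (1 + C / (((p : Nat.Primes) : ℕ) : ℝ)) ≤
          ∏ p ∈ (univ : Finset {p // p ∈ PX T}), Real.exp (C * (1 / (((p : Nat.Primes) : ℕ) : ℝ))) := by
          refine prod_le_prod (fun p _ => by positivity) fun p _ => ?_
          have := Real.add_one_le_exp (C * (1 / (((p : Nat.Primes) : ℕ) : ℝ)))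
          rw [mul_one_div] at this ⊢
          linarith
      _ = Real.exp (C * ∑ p ∈ (univ : Finset {p // p ∈ PX T}), 1 / (((p : Nat.Primes) : ℕ) : ℝ)) := by
          rw [← Real.exp_sum, mul_sum]
      _ ≤ Real.exp (C * Real.log T) := Real.exp_le_exp.mpr (mul_le_mul_of_nonneg_left (inv_sum_le hT _) hC0)
  have h5 := avg_ind_le (P := P) (c := τ ^ 2)
    (G := fun b => (SS (yy κ Φ univ b) M (s + 1) 1 - SS (ww κ Φ univ b) M (s + 1) 1) ^ 2)
    (fun b => sq_nonneg _) (by positivity) (fun b hb => by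
      have hb' : τ ≤ |SS (yy κ Φ univ b) M (s + 1) 1 - SS (ww κ Φ univ b) M (s + 1) 1| := hb
      rw [← sq_abs (SS (yy κ Φ univ b) M (s + 1) 1 - SS (ww κ Φ univ b) M (s + 1) 1)]
      exact pow_le_pow_left₀ hτ.le hb' 2)
  refine le_trans (le_of_eq ?_) (h5.trans ?_)
  · congr 1
  · apply div_le_div_of_nonneg_right _ (by positivity)
    exact h3.trans (mul_le_mul_of_nonneg_right h4 (Nat.cast_nonneg _))

/-- all blocks, almost surely -/
theorem ae_ph3 {g : ℕ} (f : Fin g → ℤ[X]) (k : ℕ) (hd : ∀ i, 0 < (f i).natDegree)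
    (hl : ∀ i, 0 < (f i).leadingCoeff) (hk : ∑ i, (f i).natDegree ≤ k) (hinj : Function.Injective f)
    (hz : ∀ᶠ j : ℕ in atTop, 1 ≤ TJ k j ∧ ∀ n, 2 ^ j ≤ n → ∀ i, lam f i n ≤ lam f i (n + 1)) {ε : ℝ} (hε : 0 < ε) :
    ∀ᵐ a ∂law, ∀ᶠ j : ℕ in atTop, ∀ y : ℕ, y ≤ 2 ^ j →
      |eT f (TJ k j) (2 ^ j) (2 ^ j) y a| ≤ ((2 : ℝ) ^ j) ^ (1 / 2 + ε) := by
  set C : ℝ := CTh f k with hC
  have hC0 : 0 ≤ C := by rw [hC]; unfold CTh A0; positivity
  have hl2 : 0 < Real.log 2 := Real.log_pos (by norm_num)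
  set τ : ℕ → ℝ := fun j => ((2 : ℝ) ^ j) ^ (1 / 2 + ε) / (j + 1) with hτ
  have hτ0 : ∀ j, 0 < τ j := fun j => by simp only [hτ]; positivity
  have hb := bc (fun j : ℕ => ⋃ l ∈ range (j + 1), ⋃ t ∈ range (2 ^ (j - l)),
    {a | τ j ≤ |eT f (TJ k j) (2 ^ j) (2 ^ j + t * 2 ^ l) (2 ^ l) a|}) 1 (by norm_num) (by
      set b : ℝ := 2 * ε * Real.log 2 with hb
      have hb0 : 0 < b := by positivity
      filter_upwards [hz, ev_log_lin C (show 0 < b / 4 by positivity), ev_const_lin (C * Real.log (k + 1))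
        (show 0 < b / 4 by positivity), ev_log_lin 5 (show 0 < b / 2 by positivity), eventually_ge_atTop 1]
        with j hj h1 h2 h3 hj1
      have hj0 : (1 : ℝ) ≤ j := by exact_mod_cast hj1
      set W : ℝ := Real.exp (C * Real.log (TJ k j)) with hW
      have hW0 : 0 < W := Real.exp_pos _
      calc law (⋃ l ∈ range (j + 1), ⋃ t ∈ range (2 ^ (j - l)),
            {a | τ j ≤ |eT f (TJ k j) (2 ^ j) (2 ^ j + t * 2 ^ l) (2 ^ l) a|})
          ≤ ∑ l ∈ range (j + 1), ∑ t ∈ range (2 ^ (j - l)), law {a | τ j ≤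
            |eT f (TJ k j) (2 ^ j) (2 ^ j + t * 2 ^ l) (2 ^ l) a|} :=
            (measure_biUnion_finset_le _ _).trans (Finset.sum_le_sum fun l _ => measure_biUnion_finset_le _ _)
        _ ≤ ∑ l ∈ range (j + 1), ∑ _t ∈ range (2 ^ (j - l)), ENNReal.ofReal (W * ((2 ^ l : ℕ) : ℝ) / τ j ^ 2) :=
            Finset.sum_le_sum fun l _ => Finset.sum_le_sum fun t _ =>
              law_cheb3 f k hd hl hk hinj hj.1 hj.2 _ _ (hτ0 j)
        _ = ∑ l ∈ range (j + 1), ENNReal.ofReal (W * 2 ^ j / τ j ^ 2) := by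
            refine Finset.sum_congr rfl fun l hl => ?_
            rw [Finset.mem_range] at hl
            rw [sum_const, card_range, nsmul_eq_mul, ← ENNReal.ofReal_natCast, ← ENNReal.ofReal_mul (by positivity)]
            congr 1
            have e1 : (2 : ℝ) ^ j = 2 ^ (j - l) * 2 ^ l := by rw [← pow_add, Nat.sub_add_cancel (by omega)]
            push_cast
            rw [e1]
            ring
        _ = ENNReal.ofReal ((j + 1 : ℕ) * (W * 2 ^ j / τ j ^ 2)) := by
            rw [sum_const, card_range, nsmul_eq_mul, ENNReal.ofReal_mul (by positivity), ENNReal.ofReal_natCast]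
        _ ≤ _ := by
            apply ENNReal.ofReal_le_ofReal
            have e2 : τ j ^ 2 = ((2 : ℝ) ^ j) * Real.exp (b * j) / (j + 1) ^ 2 := by
              simp only [hτ]
              rw [div_pow]
              congr 1
              rw [pow_rpow_exp, two_pow_exp, ← Real.exp_nat_mul, ← Real.exp_add]
              congr 1
              rw [hb]
              push_cast
              ring
            have e3 : ((j + 1 : ℕ) : ℝ) * (W * 2 ^ j / τ j ^ 2) = ((j : ℝ) + 1) ^ 3 * W / Real.exp (b * j) := by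
              rw [e2]
              push_cast
              field_simp
            rw [e3, one_mul, div_le_div_iff₀ (Real.exp_pos _) (by positivity), one_mul]
            have e4 : W ≤ Real.exp (b / 2 * j) := by
              rw [hW]
              apply Real.exp_le_exp.mpr
              have := mul_le_mul_of_nonneg_left (log_TJ k j hj.1) hC0
              rw [mul_add] at this
              linarith
            have e5 : ((j : ℝ) + 1) ^ 5 ≤ Real.exp (b / 2 * j) := by
              calc ((j : ℝ) + 1) ^ 5 = Real.exp (5 * Real.log ((j : ℝ) + 1)) := by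
                    rw [← Real.exp_log (by positivity : (0 : ℝ) < (j : ℝ) + 1), Real.log_exp, ← Real.exp_nat_mul]
                    norm_num
                _ ≤ Real.exp (b / 2 * j) := Real.exp_le_exp.mpr h3
            calc ((j : ℝ) + 1) ^ 3 * W * j ^ 2 ≤ ((j : ℝ) + 1) ^ 3 * W * (j + 1) ^ 2 := by
                  apply mul_le_mul_of_nonneg_left _ (by positivity)
                  exact pow_le_pow_left₀ (by linarith) (by linarith) 2
              _ = ((j : ℝ) + 1) ^ 5 * W := by ring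
              _ ≤ Real.exp (b / 2 * j) * Real.exp (b / 2 * j) := mul_le_mul e5 e4 hW0.le (Real.exp_pos _).le
              _ = Real.exp (b * j) := by rw [← Real.exp_add]; congr 1; ring)
  filter_upwards [hb] with a ha
  filter_upwards [ha] with j hj y hy
  simp only [Set.mem_iUnion, exists_prop, not_exists, not_and, Finset.mem_range] at hj
  set G : ℕ → ℝ := fun y => eT f (TJ k j) (2 ^ j) (2 ^ j) y a with hG
  have h := chaining G j (hτ0 j).le (fun l hl t ht => by
    have h1 := hj l (by omega) t ht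
    have h2 : ¬ (τ j ≤ |eT f (TJ k j) (2 ^ j) (2 ^ j + t * 2 ^ l) (2 ^ l) a|) := h1
    have h3 : G ((t + 1) * 2 ^ l) - G (t * 2 ^ l) = eT f (TJ k j) (2 ^ j) (2 ^ j + t * 2 ^ l) (2 ^ l) a := by
      simp only [hG]
      have e1 : (t + 1) * 2 ^ l = t * 2 ^ l + 2 ^ l := by ring
      rw [e1, eT_add]
      ring
    rw [h3]
    exact (not_le.mp h2).le) y hy
  have hG0 : G 0 = 0 := by
    simp only [hG]
    unfold eT SS
    simp
  rw [hG0, sub_zero] at h
  refine h.trans (le_of_eq ?_)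
  simp only [hτ]
  have : ((j : ℝ) + 1) ≠ 0 := by positivity
  field_simp

/-- the number of survivors is the count -/
theorem SS_yT {g : ℕ} {f : Fin g → ℤ[X]} {T : ℝ} {z m M : ℕ} (G : Blk f T z m M)
    (a : (p : Nat.Primes) → ZMod (p : ℕ)) {y : ℕ} (hy : y ≤ M) (hmy : m ≤ y) :
    SS (yT f T m a) (y - m) (m + 1) 1 = ((@Finset.filter ℕ (AllR f a) (Classical.decPred _) (Ioc m y)).card : ℝ) := by
  classical
  unfold SS
  have h1 : ∀ n, m < n → n ≤ y → yT f T m a n = if AllR f a n then 1 else 0 := by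
    intro n h1 h2
    have h3 := R_iffT G a h1.le (h2.trans hy)
    have h4 : ∀ p : {p // p ∈ PX T}, PhA f ((p : Nat.Primes) : ℕ) (kap f m ((p : Nat.Primes) : ℕ) n)
        ((n : ℕ) : ZMod ((p : Nat.Primes) : ℕ)) = Ph f (p : Nat.Primes) n := by
      intro p
      unfold kap
      rw [max_eq_left h1.le]
      exact PhA_rel f (p : Nat.Primes) n
    unfold yT yy
    by_cases h : AllR f a n
    · rw [if_pos h, if_pos]
      intro p _
      have h5 := (h3.mp h) p
      rw [← h4 p] at h5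
      exact h5
    · rw [if_neg h, if_neg]
      intro hcon
      apply h
      apply h3.mpr
      intro p
      rw [← h4 p]
      exact hcon p (Finset.mem_univ _)
  rw [← sum_boole]
  symm
  refine sum_bij' (fun n _ => n - (m + 1)) (fun t _ => m + 1 + 1 * t) ?_ ?_ ?_ ?_ ?_
  · intro n hn
    rw [mem_Ioc] at hn
    rw [mem_range]
    omega
  · intro t ht
    rw [mem_range] at ht
    rw [mem_Ioc]
    omega
  · intro n hn
    rw [mem_Ioc] at hn
    show m + 1 + 1 * (n - (m + 1)) = n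
    omega
  · intro t ht
    show m + 1 + 1 * t - (m + 1) = t
    omega
  · intro n hn
    rw [mem_Ioc] at hn
    have e : m + 1 + 1 * (n - (m + 1)) = n := by omega
    rw [e, h1 n hn.1 hn.2]

end Pool.Agent.W2helper64.BQ
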