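import Pool.Agent.W2helper64.BQ.Th2

set_option autoImplicit false
set_option linter.unusedSectionVars false

/-!
Collisions and the tails of the series of single polynomials.
-/

namespace Pool.Agent.W2helper64.BQ

open Finset Filter Topology Polynomial MeasureTheory Pool.Agent.W2helper64.RS Pool.Agent.W2helper64.RK
open Pool.Agent.W2helper64.BH
open Pool.Agent.H373R2.T7 (pz nuB PerB sys_count nuB_le mem_pz)

/-- the relevant primes are the primes up to a threshold -/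
theorem PX_seg {t : ℝ} (ht : 0 ≤ t) : ∃ y : ℕ, (∀ p : Nat.Primes, p ∈ PX t ↔ (p : ℕ) ≤ y) ∧
    ∀ z : ℕ, 1 ≤ V z * t → z ≤ y := by
  classical
  obtain ⟨q0, hq0⟩ : ∃ q : Nat.Primes, q ∉ PX t := by
    obtain ⟨q, hq⟩ := Infinite.exists_notMem_finset (PX t)
    exact ⟨q, hq⟩
  have hex : ∃ m : ℕ, ∃ q : Nat.Primes, (q : ℕ) = m ∧ q ∉ PX t := ⟨_, q0, rfl, hq0⟩
  obtain ⟨q, hqm, hqn⟩ := Nat.find_spec hex
  have hmin : ∀ p : Nat.Primes, (p : ℕ) < (q : ℕ) → p ∈ PX t := by
    intro p hp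
    by_contra hcon
    have := Nat.find_min' hex ⟨p, rfl, hcon⟩
    omega
  have hseg : ∀ p : Nat.Primes, p ∈ PX t ↔ (p : ℕ) < q := by
    intro p
    constructor
    · intro hp
      by_contra hcon
      apply hqn
      rw [mem_PX] at hp ⊢
      refine hp.trans (mul_le_mul_of_nonneg_right (V_anti (not_lt.mp hcon)) ht)
    · exact hmin p
  have hq1 : 1 ≤ (q : ℕ) := q.2.one_lt.le
  refine ⟨(q : ℕ) - 1, fun p => ?_, fun z hz => ?_⟩
  · rw [hseg]; omega
  · by_contra hcon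
    apply hqn
    rw [mem_PX]
    exact hz.trans (mul_le_mul_of_nonneg_right (V_anti (by omega)) ht)

/-- double counting -/
theorem sum_nuS {g : ℕ} (f : Fin g → ℤ[X]) (A : Finset (Fin g)) (p : Nat.Primes) :
    ∑ r, nuS f A p r = ∑ x : ZMod (p : ℕ), ((PhA f (p : ℕ) A x).card : ℝ) := by
  classical
  unfold nuS
  have h1 : ∀ r : ZMod (p : ℕ), (((univ : Finset (ZMod (p : ℕ))).filter fun x => r ∈ PhA f (p : ℕ) A x).card : ℝ) =
      ∑ x, if r ∈ PhA f (p : ℕ) A x then (1 : ℝ) else 0 := fun r => by rw [sum_boole]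
  rw [sum_congr rfl fun r _ => h1 r, sum_comm]
  refine sum_congr rfl fun x _ => ?_
  rw [sum_boole]
  congr 2
  ext r; simp

theorem sum_nuS_single {g : ℕ} (f : Fin g → ℤ[X]) (i : Fin g) (p : Nat.Primes) :
    ∑ r, nuS f {i} p r = (p : ℕ) := by
  rw [sum_nuS]
  have h1 : ∀ x : ZMod (p : ℕ), ((PhA f (p : ℕ) {i} x).card : ℝ) = 1 := by
    intro x
    unfold PhA
    rw [image_singleton, card_singleton, Nat.cast_one]
  rw [sum_congr rfl fun x _ => h1 x, sum_const, card_univ, ZMod.card, nsmul_eq_mul, mul_one]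

/-- the collisions -/
noncomputable def coll {g : ℕ} (f : Fin g → ℤ[X]) (A : Finset (Fin g)) (p : Nat.Primes) (r : ZMod (p : ℕ)) : ℝ :=
  ∑ i ∈ A, nuS f {i} p r - nuS f A p r

theorem nuS_sum {g : ℕ} (f : Fin g → ℤ[X]) (A : Finset (Fin g)) (p : Nat.Primes) (r : ZMod (p : ℕ)) :
    nuS f A p r = ∑ x : ZMod (p : ℕ), if ∃ i ∈ A, val f (p : ℕ) i x = r then (1 : ℝ) else 0 := by
  classical
  unfold nuS
  rw [← sum_boole]
  refine sum_congr rfl fun x _ => ?_
  have : (r ∈ PhA f (p : ℕ) A x) ↔ ∃ i ∈ A, val f (p : ℕ) i x = r := by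
    unfold PhA
    rw [mem_image]
  simp only [this]

theorem coll_eq {g : ℕ} (f : Fin g → ℤ[X]) (A : Finset (Fin g)) (p : Nat.Primes) (r : ZMod (p : ℕ)) :
    coll f A p r = ∑ x : ZMod (p : ℕ), (∑ i ∈ A, (if val f (p : ℕ) i x = r then (1 : ℝ) else 0) -
      if ∃ i ∈ A, val f (p : ℕ) i x = r then (1 : ℝ) else 0) := by
  classical
  unfold coll
  rw [sum_sub_distrib, nuS_sum, sum_comm]
  congr 1
  refine sum_congr rfl fun i _ => ?_
  rw [nuS_sum]
  refine sum_congr rfl fun x _ => ?_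
  simp

theorem coll_mono {g : ℕ} (f : Fin g → ℤ[X]) {A B : Finset (Fin g)} (hAB : A ⊆ B) (p : Nat.Primes)
    (r : ZMod (p : ℕ)) : coll f A p r ≤ coll f B p r := by
  classical
  rw [coll_eq, coll_eq]
  refine sum_le_sum fun x _ => ?_
  have h1 : ∑ i ∈ B, (if val f (p : ℕ) i x = r then (1 : ℝ) else 0) =
      ∑ i ∈ A, (if val f (p : ℕ) i x = r then (1 : ℝ) else 0) +
        ∑ i ∈ B \ A, (if val f (p : ℕ) i x = r then (1 : ℝ) else 0) := by
    rw [← sum_sdiff hAB]
    ring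
  rw [h1]
  have h0 : 0 ≤ ∑ i ∈ B \ A, (if val f (p : ℕ) i x = r then (1 : ℝ) else 0) := by
    refine sum_nonneg fun i _ => ?_
    split_ifs <;> norm_num
  by_cases hA : ∃ i ∈ A, val f (p : ℕ) i x = r
  · have hB : ∃ i ∈ B, val f (p : ℕ) i x = r := by
      obtain ⟨i, hi, h⟩ := hA
      exact ⟨i, hAB hi, h⟩
    rw [if_pos hA, if_pos hB]
    linarith
  · rw [if_neg hA]
    by_cases hB : ∃ i ∈ B, val f (p : ℕ) i x = r
    · rw [if_pos hB]
      obtain ⟨i, hi, h⟩ := hB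
      have hiA : i ∉ A := fun h' => hA ⟨i, h', h⟩
      have h2 : (1 : ℝ) ≤ ∑ i ∈ B \ A, (if val f (p : ℕ) i x = r then (1 : ℝ) else 0) := by
        have h3 := single_le_sum (f := fun i => if val f (p : ℕ) i x = r then (1 : ℝ) else 0)
          (s := B \ A) (fun i _ => by split_ifs <;> norm_num) (Finset.mem_sdiff.mpr ⟨hi, hiA⟩)
        simp only [h, if_true] at h3
        exact h3
      linarith
    · rw [if_neg hB]
      linarith

theorem coll_nonneg {g : ℕ} (f : Fin g → ℤ[X]) (A : Finset (Fin g)) (p : Nat.Primes) (r : ZMod (p : ℕ)) :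
    0 ≤ coll f A p r := by
  have h1 := coll_mono f (empty_subset A) p r
  refine le_trans (le_of_eq ?_) h1
  rw [coll_eq]
  simp

theorem sum_coll {g : ℕ} (f : Fin g → ℤ[X]) (k : ℕ) (hk : ∑ i, (f i).natDegree ≤ k) (hinj : Function.Injective f)
    (p : Nat.Primes) : ∑ r, coll f univ p r ≤ g * (g ^ 2 * k) + g * dlc f := by
  unfold coll
  rw [sum_sub_distrib, sum_comm, sum_congr rfl fun i _ => sum_nuS_single f i p, sum_nuS, sum_const, card_univ,
    Fintype.card_fin, nsmul_eq_mul]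
  refine le_trans (le_of_eq ?_) (Psi_sum f k hk hinj p)
  rw [sum_sub_distrib, sum_const, card_univ, ZMod.card, nsmul_eq_mul, mul_comm]
  rfl

/-- the average of a function of one coordinate -/
theorem avg_coord {F : Finset Nat.Primes} (p : {p // p ∈ F}) (h : ZMod ((p : Nat.Primes) : ℕ) → ℝ) :
    avg (fun b : (p : {p // p ∈ F}) → ZMod ((p : Nat.Primes) : ℕ) => h (b p)) =
      (∑ r, h r) / (((p : Nat.Primes) : ℕ) : ℝ) := by
  classical
  rw [← avg_mm p]
  have h1 : mm p (fun b : (p : {p // p ∈ F}) → ZMod ((p : Nat.Primes) : ℕ) => h (b p)) =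
      fun _ => (∑ r, h r) / (((p : Nat.Primes) : ℕ) : ℝ) := by
    funext b
    unfold mm
    rw [ZMod.card]
    congr 1
    refine sum_congr rfl fun r _ => ?_
    simp only [Function.update_self]
  rw [h1, avg_const]

theorem avg_sum' {F : Finset Nat.Primes} (G : {p // p ∈ F} → ((p : {p // p ∈ F}) → ZMod ((p : Nat.Primes) : ℕ)) → ℝ) :
    avg (fun b => ∑ p, G p b) = ∑ p, avg (G p) := by
  classical
  unfold avg
  rw [sum_comm, sum_div]

/-- the law of the collisions -/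
theorem law_coll {g : ℕ} (f : Fin g → ℤ[X]) (k : ℕ) (hk : ∑ i, (f i).natDegree ≤ k) (hinj : Function.Injective f)
    {z Z : ℕ} (hz : 1 ≤ z) {τ : ℝ} (hτ : 0 < τ) :
    law {a | τ ≤ ∑ p ∈ Pr z Z, coll f univ p (a p) / (p : ℕ)} ≤
      ENNReal.ofReal ((g * (g ^ 2 * k) + g * dlc f) * (2 / z) / τ) := by
  classical
  set F := Pr z Z with hF
  set P : ((p : {p // p ∈ F}) → ZMod ((p : Nat.Primes) : ℕ)) → Prop := fun b =>
    τ ≤ ∑ p : {p // p ∈ F}, coll f univ (p : Nat.Primes) (b p) / (((p : Nat.Primes) : ℕ) : ℝ) with hP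
  have h1 : {a : (p : Nat.Primes) → ZMod (p : ℕ) | τ ≤ ∑ p ∈ F, coll f univ p (a p) / (p : ℕ)} =
      {a : (p : Nat.Primes) → ZMod (p : ℕ) | P (F.restrict a)} := by
    ext a
    show τ ≤ _ ↔ τ ≤ _
    have h2 := Finset.sum_coe_sort F (fun p : Nat.Primes => coll f univ p (a p) / ((p : ℕ) : ℝ))
    rw [← h2]
    exact Iff.rfl
  have h2 := law_cyl F P (inst := Classical.decPred _)
  rw [h1, h2]
  apply ENNReal.ofReal_le_ofReal
  have h5 := avg_ind_le (P := P) (c := τ)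
    (G := fun b => ∑ p : {p // p ∈ F}, coll f univ (p : Nat.Primes) (b p) / (((p : Nat.Primes) : ℕ) : ℝ))
    (fun b => sum_nonneg fun p _ => div_nonneg (coll_nonneg f _ _ _) (Nat.cast_nonneg _)) hτ (fun b hb => hb)
  refine le_trans (le_of_eq ?_) (h5.trans ?_)
  · congr 1
  · apply div_le_div_of_nonneg_right _ hτ.le
    rw [avg_sum']
    have h3 : ∀ p ∈ (univ : Finset {p // p ∈ F}),
        avg (fun b : (p : {p // p ∈ F}) → ZMod ((p : Nat.Primes) : ℕ) =>
          coll f univ (p : Nat.Primes) (b p) / (((p : Nat.Primes) : ℕ) : ℝ)) ≤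
        (g * (g ^ 2 * k) + g * dlc f) * (1 / (((p : Nat.Primes) : ℕ) : ℝ) ^ 2) := by
      intro p _
      have hp0 : (0 : ℝ) < (((p : Nat.Primes) : ℕ) : ℝ) := by exact_mod_cast (p : Nat.Primes).2.pos
      rw [avg_coord p (fun r => coll f univ (p : Nat.Primes) r / (((p : Nat.Primes) : ℕ) : ℝ)), ← sum_div, div_div,
        mul_one_div, ← pow_two]
      exact div_le_div_of_nonneg_right (sum_coll f k hk hinj _) (by positivity)
    refine (sum_le_sum h3).trans ?_
    rw [← mul_sum]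
    apply mul_le_mul_of_nonneg_left _ (by positivity)
    exact sq_sum_le hz univ fun p _ => (mem_Pr.mp p.2).1

/-- the collisions, almost surely -/
theorem ae_coll {g : ℕ} (f : Fin g → ℤ[X]) (k : ℕ) (hk : ∑ i, (f i).natDegree ≤ k) (hinj : Function.Injective f)
    (Z : ℕ → ℕ) {ε : ℝ} (hε : 0 < ε) :
    ∀ᵐ a ∂law, ∀ᶠ j : ℕ in atTop, ∑ p ∈ Pr (zJ (1 / 2) j) (Z j), coll f univ p (a p) / (p : ℕ) ≤
      ((2 : ℝ) ^ j) ^ (-(1 / 2) + ε) := by
  set C2 : ℝ := g * (g ^ 2 * k) + g * dlc f with hC2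
  have hC20 : 0 ≤ C2 := by positivity
  have hl2 : 0 < Real.log 2 := Real.log_pos (by norm_num)
  have hb := bc (fun j : ℕ => {a | ((2 : ℝ) ^ j) ^ (-(1 / 2) + ε) ≤
    ∑ p ∈ Pr (zJ (1 / 2) j) (Z j), coll f univ p (a p) / (p : ℕ)}) (4 * C2) (by positivity) (by
      filter_upwards [ev_log_lin 2 (show 0 < ε * Real.log 2 by positivity), eventually_ge_atTop 1,
        ev_const_lin 2 (show 0 < (1 / 2 : ℝ) * Real.log 2 by positivity)] with j h1 hj1 h3
      have hj0 : (1 : ℝ) ≤ j := by exact_mod_cast hj1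
      set N : ℝ := (2 : ℝ) ^ j with hN
      have hN0 : 0 < N := by positivity
      have hNθ : 1 ≤ N ^ (1 / 2 : ℝ) := by
        rw [hN, pow_rpow_exp]
        apply Real.one_le_exp
        positivity
      obtain ⟨hz1, hz2, hz3⟩ := zJ_facts (by norm_num : (0 : ℝ) < 1 / 2) j hNθ
      rw [← hN] at hz2 hz3
      have hz0 : (0 : ℝ) < zJ (1 / 2) j := by exact_mod_cast hz1
      refine (law_coll f k hk hinj hz1 (τ := N ^ (-(1 / 2) + ε)) (by positivity)).trans ?_
      apply ENNReal.ofReal_le_ofReal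
      rw [← hC2]
      have e1 : (2 : ℝ) / zJ (1 / 2) j ≤ 4 / N ^ (1 / 2 : ℝ) := by
        rw [div_le_div_iff₀ hz0 (by positivity)]
        linarith
      have e2 : N ^ (1 / 2 : ℝ) * N ^ (-(1 / 2) + ε) = N ^ ε := by
        rw [← Real.rpow_add hN0]
        congr 1
        ring
      have e3 : (j : ℝ) ^ 2 ≤ N ^ ε := by
        rw [hN, pow_rpow_exp]
        calc (j : ℝ) ^ 2 ≤ ((j : ℝ) + 1) ^ 2 := pow_le_pow_left₀ (by linarith) (by linarith) 2
          _ = Real.exp (2 * Real.log ((j : ℝ) + 1)) := by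
              rw [← Real.exp_log (by positivity : (0 : ℝ) < (j : ℝ) + 1), Real.log_exp, ← Real.exp_nat_mul]
              norm_num
          _ ≤ _ := by
              apply Real.exp_le_exp.mpr
              linarith
      calc C2 * (2 / zJ (1 / 2) j) / N ^ (-(1 / 2) + ε) ≤ C2 * (4 / N ^ (1 / 2 : ℝ)) / N ^ (-(1 / 2) + ε) := by
            apply div_le_div_of_nonneg_right _ (by positivity)
            exact mul_le_mul_of_nonneg_left e1 hC20
        _ = 4 * C2 / N ^ ε := by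
            rw [← e2]
            field_simp
        _ ≤ 4 * C2 * (1 / (j : ℝ) ^ 2) := by
            rw [mul_one_div]
            exact div_le_div_of_nonneg_left (by positivity) (by positivity) e3)
  filter_upwards [hb] with a ha
  filter_upwards [ha] with j hj
  have h2 : ¬ (((2 : ℝ) ^ j) ^ (-(1 / 2) + ε) ≤
    ∑ p ∈ Pr (zJ (1 / 2) j) (Z j), coll f univ p (a p) / (p : ℕ)) := hj
  exact (not_le.mp h2).le

/-- the variables of a single polynomial -/
theorem nuR_single {g : ℕ} (f : Fin g → ℤ[X]) (i : Fin g) (p : Nat.Primes) (r : ZMod (p : ℕ)) :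
    (nuR (fun _ : Fin 1 => f i) (p : ℕ) r : ℝ) = nuS f {i} p r := by
  rw [← nuS_univ]
  unfold nuS
  congr 2

/-- the tails of the series of a single polynomial, almost surely -/
theorem ae_tail {g : ℕ} (f : Fin g → ℤ[X]) (hd : ∀ i, 0 < (f i).natDegree)
    (hl : ∀ i, 0 < (f i).leadingCoeff) (i : Fin g) {η : ℝ} (hη1 : 1 / 4 ≤ η) (hη2 : η < 1 / 2) :
    ∀ᵐ a ∂law, ∃ y1 : ℕ, ∀ y, y1 ≤ y → ∀ z, y ≤ z →
      |∑ p ∈ Pr y z, (nuS f {i} p (a p) - 1) / (p : ℕ)| ≤ 2 * (y : ℝ) ^ (-η) := by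
  set f' : Fin 1 → ℤ[X] := fun _ => f i with hf'
  set k : ℕ := (f i).natDegree with hk
  have hk1 : (1 : ℝ) ≤ k := by exact_mod_cast hd i
  have hks : ∑ j : Fin 1, (f' j).natDegree ≤ k := by simp [hf', hk]
  filter_upwards [ae_seriesE (Yf f' k) hk1 (Yf_sum f' k) (Yf_bound f' k (fun _ => hd i) (fun _ => hl i) hks) hη2] with a ha
  obtain ⟨y0, hy0⟩ := eventually_atTop.mp ha
  set s : ℕ → ℝ := fun z => ∑ p ∈ Pr 0 z, Yf f' k p (a p) with hs
  have hs_sub : ∀ y z, y ≤ z → s z - s y = ∑ p ∈ Pr y z, Yf f' k p (a p) := by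
    intro y z hyz
    simp only [hs]
    rw [Pr_union (Nat.zero_le y) hyz, sum_union Pr_disj]
    ring
  refine ⟨max (max y0 16) (BB f' k), fun y hy z hz => ?_⟩
  have hya : y0 ≤ y := ((le_max_left _ _).trans (le_max_left _ _)).trans hy
  have hyb : 16 ≤ y := ((le_max_right _ _).trans (le_max_left _ _)).trans hy
  have hyc : BB f' k ≤ y := (le_max_right _ _).trans hy
  have h1 := chain4E hη1 s y0 (fun y hy z hz hz2 => by
    rw [hs_sub y z hz]
    exact hy0 y hy z hz hz2) y hya hyb z hz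
  rw [hs_sub y z hz] at h1
  refine le_trans (le_of_eq ?_) h1
  congr 1
  refine sum_congr rfl fun p hp => ?_
  have hpy := (mem_Pr.mp hp).1
  unfold Yf
  rw [if_pos (by omega), nuR_single]
  have h2 : ∑ s : ZMod (p : ℕ), (nuR f' (p : ℕ) s : ℝ) = (p : ℕ) := by
    rw [sum_congr rfl fun s _ => nuR_single f i p s]
    exact sum_nuS_single f i p
  have hp0 : ((p : ℕ) : ℝ) ≠ 0 := by exact_mod_cast p.2.ne_zero
  rw [h2, div_self hp0]

/-- linear polynomials have no fluctuation -/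
theorem nuS_linear {g : ℕ} (f : Fin g → ℤ[X]) (hl : ∀ i, 0 < (f i).leadingCoeff) (i : Fin g)
    (h1 : (f i).natDegree = 1) (p : Nat.Primes) (hp : lcs f < (p : ℕ)) (r : ZMod (p : ℕ)) :
    nuS f {i} p r = 1 := by
  set f' : Fin 1 → ℤ[X] := fun _ => f i with hf'
  have hle : ∀ s, nuS f {i} p s ≤ 1 := by
    intro s
    rw [← nuR_single]
    have hlc : lcs f' < (p : ℕ) := by
      have e1 : lcs f' = (f i).leadingCoeff.natAbs := by unfold lcs; simp [hf']
      have e2 : (f i).leadingCoeff.natAbs ≤ lcs f :=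
        single_le_sum (f := fun i => (f i).leadingCoeff.natAbs) (fun _ _ => Nat.zero_le _) (Finset.mem_univ i)
      omega
    have := nuR_le f' 1 (fun _ => by simp [hf', h1]) (fun _ => hl i) (by simp [hf', h1]) p hlc s
    exact_mod_cast this
  have hsum : ∑ s, (1 - nuS f {i} p s) = 0 := by
    rw [sum_sub_distrib, sum_nuS_single, sum_const, card_univ, ZMod.card, nsmul_eq_mul, mul_one, sub_self]
  have h2 := (sum_eq_zero_iff_of_nonneg (fun s _ => by linarith [hle s])).mp hsum r (Finset.mem_univ r)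
  linarith

end Pool.Agent.W2helper64.BQ
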