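import Pool.Agent.W2helper64.BQ.Th3

set_option autoImplicit false
set_option linter.unusedSectionVars false

/-!
The weights against the singular series.
-/

namespace Pool.Agent.W2helper64.BQ

open Finset Filter Topology Polynomial MeasureTheory Pool.Agent.W2helper64.RS Pool.Agent.W2helper64.RK
open Pool.Agent.W2helper64.BH
open Pool.Agent.H373R2.T7 (pz nuB PerB sys_count nuB_le mem_pz)

theorem nuS_nonneg {g : ℕ} (f : Fin g → ℤ[X]) (A : Finset (Fin g)) (p : Nat.Primes) (r : ZMod (p : ℕ)) :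
    0 ≤ nuS f A p r := Nat.cast_nonneg _

theorem nuS_le {g : ℕ} (f : Fin g → ℤ[X]) (k : ℕ) (hd : ∀ i, 0 < (f i).natDegree)
    (hl : ∀ i, 0 < (f i).leadingCoeff) (hk : ∑ i, (f i).natDegree ≤ k) (A : Finset (Fin g)) (p : Nat.Primes)
    (hp : lcs f < (p : ℕ)) (r : ZMod (p : ℕ)) : nuS f A p r ≤ k := by
  refine (nuS_mono f (subset_univ A) p r).trans ?_
  rw [nuS_univ]
  exact_mod_cast nuR_le f k hd hl hk p hp r

/-- one factor -/
theorem rho_bound {g : ℕ} (f : Fin g → ℤ[X]) (k : ℕ) (hd : ∀ i, 0 < (f i).natDegree)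
    (hl : ∀ i, 0 < (f i).leadingCoeff) (hk : ∑ i, (f i).natDegree ≤ k) (A : Finset (Fin g)) (p : Nat.Primes)
    (hp : lcs f < (p : ℕ)) (hp2 : 2 * k + 2 ≤ (p : ℕ)) (r : ZMod (p : ℕ)) :
    |(Real.log (1 - nuS f A p r / (p : ℕ)) - Real.log (1 - nuS f univ p r / (p : ℕ)) +
      ((g : ℝ) - A.card) * Real.log (1 - 1 / ((p : ℕ) : ℝ))) - ∑ i ∈ univ \ A, (nuS f {i} p r - 1) / (p : ℕ)| ≤
      coll f univ p r / (p : ℕ) + (4 * (k : ℝ) ^ 2 + 2 * g) * (1 / ((p : ℕ) : ℝ) ^ 2) := by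
  have hpk : 2 * (k : ℝ) + 2 ≤ ((p : ℕ) : ℝ) := by exact_mod_cast hp2
  have hk0 : (0 : ℝ) ≤ k := Nat.cast_nonneg _
  have hg0 : (0 : ℝ) ≤ g := Nat.cast_nonneg _
  set q : ℝ := ((p : ℕ) : ℝ) with hq
  have hq0 : 0 < q := by linarith
  set α := nuS f A p r with hα
  set β := nuS f univ p r with hβ
  have a0 : 0 ≤ α := nuS_nonneg f A p r
  have b0 : 0 ≤ β := nuS_nonneg f univ p r
  have a1 : α ≤ k := nuS_le f k hd hl hk A p hp r
  have b1 : β ≤ k := nuS_le f k hd hl hk univ p hp r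
  have e1 : α / q ≤ 1 / 2 := by rw [div_le_div_iff₀ hq0 (by norm_num)]; linarith
  have e2 : β / q ≤ 1 / 2 := by rw [div_le_div_iff₀ hq0 (by norm_num)]; linarith
  have e3 : 1 / q ≤ 1 / 2 := by rw [div_le_div_iff₀ hq0 (by norm_num)]; linarith
  have l1 := log_one (by positivity : 0 ≤ α / q) e1
  have l2 := log_one (by positivity : 0 ≤ β / q) e2
  have l3 := log_one (by positivity : 0 ≤ 1 / q) e3
  set c : ℝ := (g : ℝ) - A.card with hc
  have hAg : (A.card : ℝ) ≤ g := by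
    have := card_le_univ A
    rw [Fintype.card_fin] at this
    exact_mod_cast this
  have hc0 : 0 ≤ c := by rw [hc]; linarith
  have hcg : c ≤ g := by
    rw [hc]
    have : (0 : ℝ) ≤ A.card := Nat.cast_nonneg _
    linarith
  have hsd : (((univ \ A : Finset (Fin g)).card : ℕ) : ℝ) = c := by
    have h3 : (univ \ A : Finset (Fin g)).card + A.card = g := by
      rw [card_sdiff_add_card_eq_card (subset_univ A), card_univ, Fintype.card_fin]
    have h4 : (((univ \ A : Finset (Fin g)).card : ℕ) : ℝ) + A.card = g := by exact_mod_cast h3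
    rw [hc]
    linarith
  have hsum : ∑ i ∈ univ \ A, (nuS f {i} p r - 1) / q =
      ((β - α) + (coll f univ p r - coll f A p r) - c) / q := by
    rw [← sum_div, sum_sub_distrib, sum_const, nsmul_eq_mul, mul_one, hsd]
    congr 1
    have h5 : ∑ i ∈ univ \ A, nuS f {i} p r = ∑ i, nuS f {i} p r - ∑ i ∈ A, nuS f {i} p r := by
      rw [← sum_sdiff (subset_univ A)]
      ring
    rw [h5]
    unfold coll
    ring
  have hcm := coll_mono f (subset_univ A) p r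
  have hcn := coll_nonneg f A p r
  have hid : (Real.log (1 - α / q) - Real.log (1 - β / q) + c * Real.log (1 - 1 / q)) -
      ∑ i ∈ univ \ A, (nuS f {i} p r - 1) / q =
      -((coll f univ p r - coll f A p r) / q) + (α / q + Real.log (1 - α / q)) - (β / q + Real.log (1 - β / q)) +
        c * (1 / q + Real.log (1 - 1 / q)) := by
    rw [hsum]
    field_simp
    ring
  rw [hid]
  have t1 : |-((coll f univ p r - coll f A p r) / q)| ≤ coll f univ p r / q := by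
    rw [abs_neg, abs_of_nonneg (div_nonneg (by linarith) hq0.le)]
    exact div_le_div_of_nonneg_right (by linarith) hq0.le
  have t2 : |α / q + Real.log (1 - α / q)| ≤ 2 * (k : ℝ) ^ 2 * (1 / q ^ 2) := by
    refine l1.trans ?_
    rw [div_pow, mul_one_div, ← mul_div_assoc]
    apply div_le_div_of_nonneg_right _ (by positivity)
    exact mul_le_mul_of_nonneg_left (pow_le_pow_left₀ a0 a1 2) (by norm_num)
  have t3 : |β / q + Real.log (1 - β / q)| ≤ 2 * (k : ℝ) ^ 2 * (1 / q ^ 2) := by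
    refine l2.trans ?_
    rw [div_pow, mul_one_div, ← mul_div_assoc]
    apply div_le_div_of_nonneg_right _ (by positivity)
    exact mul_le_mul_of_nonneg_left (pow_le_pow_left₀ b0 b1 2) (by norm_num)
  have t4 : |c * (1 / q + Real.log (1 - 1 / q))| ≤ 2 * g * (1 / q ^ 2) := by
    rw [abs_mul, abs_of_nonneg hc0]
    calc c * |1 / q + Real.log (1 - 1 / q)| ≤ g * (2 * (1 / q) ^ 2) :=
          mul_le_mul hcg l3 (abs_nonneg _) hg0
      _ = 2 * g * (1 / q ^ 2) := by rw [div_pow]; ring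
  have u1 := abs_add_le (-((coll f univ p r - coll f A p r) / q) + (α / q + Real.log (1 - α / q)) -
    (β / q + Real.log (1 - β / q))) (c * (1 / q + Real.log (1 - 1 / q)))
  have u2 := abs_sub (-((coll f univ p r - coll f A p r) / q) + (α / q + Real.log (1 - α / q)))
    (β / q + Real.log (1 - β / q))
  have u3 := abs_add_le (-((coll f univ p r - coll f A p r) / q)) (α / q + Real.log (1 - α / q))
  have hfin : (4 * (k : ℝ) ^ 2 + 2 * g) * (1 / q ^ 2) = 2 * (k : ℝ) ^ 2 * (1 / q ^ 2) +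
      2 * (k : ℝ) ^ 2 * (1 / q ^ 2) + 2 * g * (1 / q ^ 2) := by ring
  rw [hfin]
  linarith

theorem wT_prod {g : ℕ} {f : Fin g → ℤ[X]} {T : ℝ} {z m M : ℕ} (G : Blk f T z m M)
    (a : (p : Nat.Primes) → ZMod (p : ℕ)) {n : ℕ} (hn1 : m ≤ n) (hn2 : n ≤ M) (Z : ℕ)
    (hZ : ∀ p : Nat.Primes, p ∈ PX T → (p : ℕ) ≤ Z) :
    wT f T m a n = ∏ p ∈ Pr 0 Z, (1 - nuS f (rel f (p : ℕ) n) p (a p) / (p : ℕ)) := by
  classical
  have h1 : wT f T m a n = ∏ p ∈ PX T, (1 - nuS f (rel f (p : ℕ) n) p (a p) / (p : ℕ)) := by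
    rw [← Finset.prod_coe_sort (PX T) (fun p : Nat.Primes => (1 - nuS f (rel f (p : ℕ) n) p (a p) / (p : ℕ)))]
    unfold wT ww
    refine prod_congr rfl fun p _ => ?_
    have : kap f m ((p : Nat.Primes) : ℕ) n = rel f ((p : Nat.Primes) : ℕ) n := by
      unfold kap
      rw [max_eq_left hn1]
    show 1 - nuS f (kap f m ((p : Nat.Primes) : ℕ) n) (p : Nat.Primes) (a (p : Nat.Primes)) /
      (((p : Nat.Primes) : ℕ) : ℝ) = _
    rw [this]
  rw [h1]
  apply prod_subset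
  · intro p hp
    rw [mem_Pr]
    exact ⟨p.2.pos, hZ p hp⟩
  · intro p _ hp
    have h2 : rel f (p : ℕ) n = ∅ := by
      apply eq_empty_of_forall_notMem
      intro i hi
      apply hp
      unfold rel at hi
      have hi2 := (Finset.mem_filter.mp hi).2
      obtain ⟨-, h3, -, -⟩ := G.sys n hn1 hn2
      rw [mem_PX]
      exact hi2.trans (mul_le_mul_of_nonneg_left (h3 i).2.1 (V_nonneg _))
    rw [h2]
    have h3 : nuS f ∅ p (a p) = 0 := by
      unfold nuS PhA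
      simp
    rw [h3]
    simp

theorem VV_prod {g : ℕ} (f : Fin g → ℤ[X]) (n : ℕ) (Z : ℕ)
    (hZ : ∀ i, ∀ p : Nat.Primes, p ∈ PX (lam f i n) → (p : ℕ) ≤ Z) :
    ∏ i, VV (lam f i n) = ∏ p ∈ Pr 0 Z, (1 - 1 / ((p : ℕ) : ℝ)) ^ (rel f (p : ℕ) n).card := by
  classical
  have h1 : ∀ i, VV (lam f i n) = ∏ p ∈ Pr 0 Z, if 1 ≤ V (p : ℕ) * lam f i n then (1 - 1 / ((p : ℕ) : ℝ)) else 1 := by
    intro i
    unfold VV
    rw [← prod_filter]
    refine prod_congr ?_ fun _ _ => rfl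
    ext p
    rw [Finset.mem_filter, mem_Pr]
    constructor
    · intro hp
      exact ⟨⟨p.2.pos, hZ i p hp⟩, mem_PX.mp hp⟩
    · exact fun hp => mem_PX.mpr hp.2
  rw [prod_congr rfl fun i _ => h1 i, Finset.prod_comm]
  refine prod_congr rfl fun p _ => ?_
  rw [← prod_filter, prod_const]
  congr 1

theorem wT_close {g : ℕ} (f : Fin g → ℤ[X]) (k : ℕ) (hd : ∀ i, 0 < (f i).natDegree)
    (hl : ∀ i, 0 < (f i).leadingCoeff) (hk : ∑ i, (f i).natDegree ≤ k)
    {T : ℝ} {z m M : ℕ} (G : Blk f T z m M)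
    (a : (p : Nat.Primes) → ZMod (p : ℕ)) {n : ℕ} (hn1 : m ≤ n) (hn2 : n ≤ M) (Z : ℕ)
    (hZ : ∀ p : Nat.Primes, p ∈ PX T → (p : ℕ) ≤ Z) (hzB : lcs f + 2 * k + 2 ≤ z)
    (hpos : ∀ p : Nat.Primes, nuB (Hit f a) (p : ℕ) < (p : ℕ)) {δ1 δ2 : ℝ}
    (h1 : ∀ i y, (∀ z' : ℕ, 1 ≤ V z' * lam f i n → z' ≤ y) →
      |∑ p ∈ Pr y Z, (nuS f {i} p (a p) - 1) / (p : ℕ)| ≤ δ1)
    (h2 : ∑ p ∈ Pr z Z, coll f univ p (a p) / (p : ℕ) ≤ δ2)
    (hδ : g * δ1 + δ2 + (4 * (k : ℝ) ^ 2 + 2 * g) * (2 / z) ≤ 1) :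
    |wT f T m a n - PP f a Z / V Z ^ g * ∏ i, VV (lam f i n)| ≤
      2 * (g * δ1 + δ2 + (4 * (k : ℝ) ^ 2 + 2 * g) * (2 / z)) := by
  classical
  obtain ⟨-, s2, -, -⟩ := G.sys n hn1 hn2
  set Δ : ℝ := g * δ1 + δ2 + (4 * (k : ℝ) ^ 2 + 2 * g) * (2 / z) with hΔ
  have hsub : ∀ i, ∀ p : Nat.Primes, p ∈ PX (lam f i n) → p ∈ PX T := by
    intro i p hp
    rw [mem_PX] at hp ⊢
    exact hp.trans (mul_le_mul_of_nonneg_left (s2 i).2.1 (V_nonneg _))
  have hrel : ∀ (p : Nat.Primes) (i : Fin g), i ∈ rel f (p : ℕ) n ↔ p ∈ PX (lam f i n) := by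
    intro p i
    unfold rel
    rw [Finset.mem_filter, mem_PX]
    exact ⟨fun h => h.2, fun h => ⟨Finset.mem_univ _, h⟩⟩
  have hreluniv : ∀ p : Nat.Primes, (p : ℕ) ≤ z → rel f (p : ℕ) n = univ := by
    intro p hp
    apply eq_univ_of_forall
    intro i
    rw [hrel, mem_PX]
    exact (s2 i).2.2.trans (mul_le_mul_of_nonneg_right (V_anti hp) (by linarith [(s2 i).1]))
  have hνB : ∀ p : Nat.Primes, nuS f univ p (a p) = nuB (Hit f a) (p : ℕ) := by
    intro p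
    rw [nuS_univ, nuB_eq]
  -- the exponents
  set X : Nat.Primes → ℝ := fun p => Real.log (1 - nuS f (rel f (p : ℕ) n) p (a p) / (p : ℕ)) -
    Real.log (1 - nuS f univ p (a p) / (p : ℕ)) +
      ((g : ℝ) - (rel f (p : ℕ) n).card) * Real.log (1 - 1 / ((p : ℕ) : ℝ)) with hX
  set ρ : Nat.Primes → ℝ := fun p => if (p : ℕ) ≤ z then 0 else X p with hρ
  have hfac : ∀ p ∈ Pr 0 Z, (1 - nuS f (rel f (p : ℕ) n) p (a p) / (p : ℕ)) =
      FF f a (p : ℕ) * (1 - 1 / ((p : ℕ) : ℝ)) ^ (rel f (p : ℕ) n).card * Real.exp (ρ p) := by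
    intro p _
    have hp0 : (0 : ℝ) < ((p : ℕ) : ℝ) := by exact_mod_cast p.2.pos
    have hp2 : (2 : ℝ) ≤ ((p : ℕ) : ℝ) := by exact_mod_cast p.2.two_le
    have hq0 : 0 < 1 - 1 / ((p : ℕ) : ℝ) := by
      rw [sub_pos, div_lt_one hp0]; linarith
    unfold FF
    rw [← hνB p]
    by_cases hpz : (p : ℕ) ≤ z
    · simp only [hρ, if_pos hpz, Real.exp_zero, mul_one]
      rw [hreluniv p hpz, card_univ, Fintype.card_fin, div_mul_cancel₀ _ (pow_ne_zero _ hq0.ne')]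
    · simp only [hρ, if_neg hpz, hX]
      have hν1 : nuS f univ p (a p) < (p : ℕ) := by
        rw [hνB p]
        exact_mod_cast hpos p
      have hD1 : 0 < 1 - nuS f univ p (a p) / (p : ℕ) := by
        rw [sub_pos, div_lt_one hp0]; exact hν1
      have hD2 : 0 < 1 - nuS f (rel f (p : ℕ) n) p (a p) / (p : ℕ) := by
        rw [sub_pos, div_lt_one hp0]
        exact (nuS_mono f (subset_univ _) p (a p)).trans_lt hν1
      have hcg : (rel f (p : ℕ) n).card ≤ g := rel_card_le f _ n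
      have hcast : (g : ℝ) - (rel f (p : ℕ) n).card = ((g - (rel f (p : ℕ) n).card : ℕ) : ℝ) := by
        rw [Nat.cast_sub hcg]
      rw [hcast, Real.exp_add, Real.exp_sub, Real.exp_log hD1, Real.exp_log hD2, Real.exp_nat_mul,
        Real.exp_log hq0]
      have hpow : (1 - 1 / ((p : ℕ) : ℝ)) ^ g = (1 - 1 / ((p : ℕ) : ℝ)) ^ (rel f (p : ℕ) n).card *
          (1 - 1 / ((p : ℕ) : ℝ)) ^ (g - (rel f (p : ℕ) n).card) := by
        rw [← pow_add, Nat.add_sub_cancel' hcg]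
      rw [hpow]
      have n1 := hD1.ne'
      have n2 := (pow_pos hq0 (rel f (p : ℕ) n).card).ne'
      have n3 := (pow_pos hq0 (g - (rel f (p : ℕ) n).card)).ne'
      have key : ∀ D D1 P1 P2 : ℝ, D1 ≠ 0 → P1 ≠ 0 → P2 ≠ 0 → D = D1 / (P1 * P2) * P1 * (D / D1 * P2) := by
        intro D D1 P1 P2 h3 h4 h5
        field_simp
      exact key _ _ _ _ n1 n2 n3
  have hw : wT f T m a n = (PP f a Z / V Z ^ g * ∏ i, VV (lam f i n)) * Real.exp (∑ p ∈ Pr 0 Z, ρ p) := by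
    rw [wT_prod G a hn1 hn2 Z hZ, prod_congr rfl hfac, prod_mul_distrib, prod_mul_distrib, ← PP_div,
      ← VV_prod f n Z (fun i p hp => hZ p (hsub i p hp)), ← Real.exp_sum]
  -- the sum of the exponents
  have hz1 := G.z1
  have hs : |∑ p ∈ Pr 0 Z, ρ p| ≤ Δ := by
    have e1 : ∑ p ∈ Pr 0 Z, ρ p = ∑ p ∈ Pr z Z, X p := by
      have e2 : Pr z Z = (Pr 0 Z).filter fun p : Nat.Primes => ¬ (p : ℕ) ≤ z := by
        ext p
        rw [Finset.mem_filter, mem_Pr, mem_Pr]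
        have := p.2.pos
        constructor
        · rintro ⟨h3, h4⟩
          exact ⟨⟨this, h4⟩, by omega⟩
        · rintro ⟨⟨-, h4⟩, h3⟩
          exact ⟨by omega, h4⟩
      rw [e2, sum_filter]
      refine sum_congr rfl fun p _ => ?_
      simp only [hρ]
      split_ifs <;> rfl
    rw [e1]
    have e2 : ∀ p ∈ Pr z Z, |X p - ∑ i ∈ univ \ rel f (p : ℕ) n, (nuS f {i} p (a p) - 1) / (p : ℕ)| ≤
        coll f univ p (a p) / (p : ℕ) + (4 * (k : ℝ) ^ 2 + 2 * g) * (1 / ((p : ℕ) : ℝ) ^ 2) := by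
      intro p hp
      have hpz := (mem_Pr.mp hp).1
      exact rho_bound f k hd hl hk (rel f (p : ℕ) n) p (by omega) (by omega) (a p)
    have e3 : ∑ p ∈ Pr z Z, ∑ i ∈ univ \ rel f (p : ℕ) n, (nuS f {i} p (a p) - 1) / (p : ℕ) =
        ∑ i, ∑ p ∈ (Pr z Z).filter (fun p : Nat.Primes => i ∉ rel f (p : ℕ) n), (nuS f {i} p (a p) - 1) / (p : ℕ) := by
      have e4 : ∀ p ∈ Pr z Z, ∑ i ∈ univ \ rel f (p : ℕ) n, (nuS f {i} p (a p) - 1) / (p : ℕ) =
          ∑ i, if i ∉ rel f (p : ℕ) n then (nuS f {i} p (a p) - 1) / (p : ℕ) else 0 := by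
        intro p _
        rw [← sum_filter]
        refine sum_congr ?_ fun _ _ => rfl
        ext i
        simp
      rw [sum_congr rfl e4, sum_comm]
      refine sum_congr rfl fun i _ => ?_
      rw [sum_filter]
    have e4 : ∀ i ∈ (univ : Finset (Fin g)),
        |∑ p ∈ (Pr z Z).filter (fun p : Nat.Primes => i ∉ rel f (p : ℕ) n), (nuS f {i} p (a p) - 1) / (p : ℕ)| ≤ δ1 := by
      intro i _
      obtain ⟨y, hy1, hy2⟩ := PX_seg (t := lam f i n) (by linarith [(s2 i).1])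
      have e5 : (Pr z Z).filter (fun p : Nat.Primes => i ∉ rel f (p : ℕ) n) = Pr y Z := by
        ext p
        rw [Finset.mem_filter, mem_Pr, mem_Pr, hrel, hy1]
        have hzy := hy2 z (s2 i).2.2
        constructor
        · rintro ⟨⟨h3, h4⟩, h5⟩
          exact ⟨by omega, h4⟩
        · rintro ⟨h3, h4⟩
          exact ⟨⟨by omega, h4⟩, by omega⟩
      rw [e5]
      exact h1 i y hy2
    have e5 : |∑ p ∈ Pr z Z, ∑ i ∈ univ \ rel f (p : ℕ) n, (nuS f {i} p (a p) - 1) / (p : ℕ)| ≤ g * δ1 := by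
      rw [e3]
      refine (abs_sum_le_sum_abs _ _).trans ((sum_le_sum e4).trans ?_)
      rw [sum_const, card_univ, Fintype.card_fin, nsmul_eq_mul]
    have e6 : |∑ p ∈ Pr z Z, X p - ∑ p ∈ Pr z Z, ∑ i ∈ univ \ rel f (p : ℕ) n,
        (nuS f {i} p (a p) - 1) / (p : ℕ)| ≤ δ2 + (4 * (k : ℝ) ^ 2 + 2 * g) * (2 / z) := by
      rw [← sum_sub_distrib]
      refine (abs_sum_le_sum_abs _ _).trans ((sum_le_sum e2).trans ?_)
      rw [sum_add_distrib, ← mul_sum]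
      exact add_le_add h2 (mul_le_mul_of_nonneg_left (sq_Pr hz1) (by positivity))
    have e7 := abs_add_le (∑ p ∈ Pr z Z, X p - ∑ p ∈ Pr z Z, ∑ i ∈ univ \ rel f (p : ℕ) n,
        (nuS f {i} p (a p) - 1) / (p : ℕ)) (∑ p ∈ Pr z Z, ∑ i ∈ univ \ rel f (p : ℕ) n,
        (nuS f {i} p (a p) - 1) / (p : ℕ))
    rw [sub_add_cancel] at e7
    rw [hΔ]
    linarith
  set σ : ℝ := ∑ p ∈ Pr 0 Z, ρ p with hσ
  set B : ℝ := PP f a Z / V Z ^ g * ∏ i, VV (lam f i n) with hB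
  have hB2 : B = wT f T m a n * Real.exp (-σ) := by
    rw [hw, mul_assoc, ← Real.exp_add]
    simp
  have hw01 := ww_bounds (F := PX T) (fun p n => kap f m ((p : Nat.Primes) : ℕ) n)
    (fun p A x => PhA f ((p : Nat.Primes) : ℕ) A x) univ ((PX T).restrict a) n
  have hw0 : 0 ≤ wT f T m a n := hw01.1
  have hw1 : wT f T m a n ≤ 1 := hw01.2
  have hexp := Real.abs_exp_sub_one_le (x := -σ) (by rw [abs_neg]; linarith)
  rw [abs_neg] at hexp
  rw [hB2]
  have e1 : wT f T m a n - wT f T m a n * Real.exp (-σ) = -(wT f T m a n * (Real.exp (-σ) - 1)) := by ring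
  rw [e1, abs_neg, abs_mul, abs_of_nonneg hw0]
  calc wT f T m a n * |Real.exp (-σ) - 1| ≤ 1 * (2 * |σ|) := mul_le_mul hw1 hexp (abs_nonneg _) zero_le_one
    _ ≤ 2 * Δ := by linarith

end Pool.Agent.W2helper64.BQ
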