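import Pool.Agent.W2helper64.BQ.Var0

set_option autoImplicit false
set_option linter.unusedSectionVars false

/-!
The second moment of the number of survivors, by recursion over the primes.
-/

namespace Pool.Agent.W2helper64.BQ

open Finset Filter Topology Polynomial MeasureTheory Pool.Agent.W2helper64.RS Pool.Agent.W2helper64.RK
open Pool.Agent.W2helper64.BH

/-- one prime -/
theorem step1 {p : ℕ} [NeZero p] (Ψ : ZMod p → Finset (ZMod p)) {g c C2 : ℝ} (hg0 : 0 ≤ g) (hc0 : 0 ≤ c)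
    (hg : ∀ x, ((Ψ x).card : ℝ) ≤ g)
    (hc : ∀ r, (((univ : Finset (ZMod p)).filter fun x => r ∈ Ψ x).card : ℝ) ≤ c)
    (hC : ∑ x, (g - (Ψ x).card) ≤ C2) (N : ZMod p → ℝ) (w e : ℝ) (hS : ∑ x, N x = w + e) :
    (∑ r : ZMod p, (∑ x ∈ (univ : Finset (ZMod p)).filter (fun x => r ∉ Ψ x), N x -
      (1 - (((univ : Finset (ZMod p)).filter fun x => r ∈ Ψ x).card : ℝ) / p) * w) ^ 2) / p ≤
      (1 + (c + C2) / p) * e ^ 2 + (g + (1 + c) * (c * g)) / p * ∑ x, (N x - (∑ y, N y) / p) ^ 2 := by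
  classical
  have hp : 0 < p := Nat.pos_of_ne_zero (NeZero.ne p)
  have hp0 : (0 : ℝ) < p := by exact_mod_cast hp
  have hp1 : (1 : ℝ) ≤ p := by exact_mod_cast hp
  set S : ℝ := ∑ x, N x with hSd
  set Δ : ZMod p → ℝ := fun x => N x - S / p with hΔ
  set D : ℝ := ∑ x, Δ x ^ 2 with hD
  have hD0 : 0 ≤ D := sum_nonneg fun _ _ => sq_nonneg _
  have hΔ0 : ∑ x, Δ x = 0 := by
    simp only [hΔ]
    rw [sum_sub_distrib, sum_const, card_univ, ZMod.card, nsmul_eq_mul, mul_div_cancel₀ _ hp0.ne', ← hSd, sub_self]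
  set ν : ZMod p → ℝ := fun r => (((univ : Finset (ZMod p)).filter fun x => r ∈ Ψ x).card : ℝ) with hν
  have hν0 : ∀ r, 0 ≤ ν r := fun r => Nat.cast_nonneg _
  have hνp : ∀ r, ν r ≤ p := by
    intro r
    have : ((univ : Finset (ZMod p)).filter fun x => r ∈ Ψ x).card ≤ p := by
      refine (card_filter_le _ _).trans ?_
      rw [card_univ, ZMod.card]
    show (((univ : Finset (ZMod p)).filter fun x => r ∈ Ψ x).card : ℝ) ≤ p
    exact_mod_cast this
  set Z : ZMod p → ℝ := fun r => -∑ x ∈ (univ : Finset (ZMod p)).filter (fun x => r ∈ Ψ x), Δ x with hZ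
  have hid : ∀ r, ∑ x ∈ (univ : Finset (ZMod p)).filter (fun x => r ∉ Ψ x), N x - (1 - ν r / p) * w =
      (1 - ν r / p) * e + Z r := by
    intro r
    have h1 := sum_filter_add_sum_filter_not (univ : Finset (ZMod p)) (fun x => r ∈ Ψ x) N
    have h2 : ∑ x ∈ (univ : Finset (ZMod p)).filter (fun x => r ∈ Ψ x), N x = -Z r + ν r * (S / p) := by
      simp only [hZ, hΔ, hν]
      rw [neg_neg, sum_sub_distrib, sum_const, nsmul_eq_mul]
      ring
    have h3 : ∑ x ∈ (univ : Finset (ZMod p)).filter (fun x => r ∉ Ψ x), N x = S - (-Z r + ν r * (S / p)) := by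
      rw [← h2]
      linarith
    rw [h3, hS]
    ring
  have hpt : ∀ r, ((1 - ν r / p) * e + Z r) ^ 2 ≤ e ^ 2 + 2 * e * Z r + c / p * (e ^ 2 + Z r ^ 2) + Z r ^ 2 := by
    intro r
    have h1 : 0 ≤ ν r / p := div_nonneg (hν0 r) hp0.le
    have h2 : ν r / p ≤ 1 := by rw [div_le_one hp0]; exact hνp r
    have h3 : ν r / p ≤ c / p := div_le_div_of_nonneg_right (hc r) hp0.le
    set θ := ν r / p
    have h4 : ((1 - θ) * e + Z r) ^ 2 = (1 - θ) ^ 2 * e ^ 2 + 2 * e * Z r - θ * (2 * e * Z r) + Z r ^ 2 := by ring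
    have h5 : (1 - θ) ^ 2 * e ^ 2 ≤ e ^ 2 := by
      have : (1 - θ) ^ 2 ≤ 1 := by nlinarith
      nlinarith [sq_nonneg e]
    have h6 : -(2 * e * Z r) ≤ e ^ 2 + Z r ^ 2 := by nlinarith [sq_nonneg (e + Z r)]
    have h7 : θ * (-(2 * e * Z r)) ≤ θ * (e ^ 2 + Z r ^ 2) := mul_le_mul_of_nonneg_left h6 h1
    have h8 : θ * (e ^ 2 + Z r ^ 2) ≤ c / p * (e ^ 2 + Z r ^ 2) := mul_le_mul_of_nonneg_right h3 (by positivity)
    rw [h4]
    nlinarith
  -- double counting
  have hdc : ∀ φ : ZMod p → ℝ, ∑ r : ZMod p, ∑ x ∈ (univ : Finset (ZMod p)).filter (fun x => r ∈ Ψ x), φ x =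
      ∑ x, ((Ψ x).card : ℝ) * φ x := by
    intro φ
    have h1 : ∀ r : ZMod p, ∑ x ∈ (univ : Finset (ZMod p)).filter (fun x => r ∈ Ψ x), φ x =
        ∑ x, if r ∈ Ψ x then φ x else 0 := fun r => sum_filter _ _
    rw [sum_congr rfl fun r _ => h1 r, sum_comm]
    refine sum_congr rfl fun x _ => ?_
    rw [← sum_filter, sum_const, nsmul_eq_mul]
    congr 3
    ext r; simp
  have hZ1 : 2 * e * ∑ r, Z r ≤ C2 * e ^ 2 + g * D := by
    have h1 : ∑ r, Z r = ∑ x, (g - (Ψ x).card) * Δ x := by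
      simp only [hZ]
      rw [sum_neg_distrib, hdc Δ]
      have h2 : ∑ x, (g - ((Ψ x).card : ℝ)) * Δ x = g * ∑ x, Δ x - ∑ x, ((Ψ x).card : ℝ) * Δ x := by
        rw [mul_sum, ← sum_sub_distrib]
        exact sum_congr rfl fun x _ => by ring
      rw [h2, hΔ0]
      ring
    rw [h1, mul_sum]
    have h3 : ∀ x ∈ (univ : Finset (ZMod p)), 2 * e * ((g - ((Ψ x).card : ℝ)) * Δ x) ≤
        (g - (Ψ x).card) * e ^ 2 + g * Δ x ^ 2 := by
      intro x _
      have h4 : 0 ≤ g - ((Ψ x).card : ℝ) := by linarith [hg x]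
      have h5 : 2 * e * Δ x ≤ e ^ 2 + Δ x ^ 2 := by nlinarith [sq_nonneg (e - Δ x)]
      have h6 := mul_le_mul_of_nonneg_left h5 h4
      have h7 : (0 : ℝ) ≤ (Ψ x).card := Nat.cast_nonneg _
      have h8 : 0 ≤ ((Ψ x).card : ℝ) * Δ x ^ 2 := mul_nonneg h7 (sq_nonneg _)
      nlinarith
    refine (sum_le_sum h3).trans ?_
    rw [sum_add_distrib, ← sum_mul, ← mul_sum]
    have := mul_le_mul_of_nonneg_right hC (sq_nonneg e)
    linarith
  have hZ2 : ∑ r, Z r ^ 2 ≤ c * g * D := by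
    have h1 : ∀ r ∈ (univ : Finset (ZMod p)), Z r ^ 2 ≤
        c * ∑ x ∈ (univ : Finset (ZMod p)).filter (fun x => r ∈ Ψ x), Δ x ^ 2 := by
      intro r _
      simp only [hZ]
      rw [neg_sq]
      refine sq_sum_le_card_mul_sum_sq.trans ?_
      exact mul_le_mul_of_nonneg_right (hc r) (sum_nonneg fun _ _ => sq_nonneg _)
    refine (sum_le_sum h1).trans ?_
    rw [← mul_sum, hdc (fun x => Δ x ^ 2), mul_assoc]
    apply mul_le_mul_of_nonneg_left _ hc0
    rw [hD, mul_sum]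
    exact sum_le_sum fun x _ => mul_le_mul_of_nonneg_right (hg x) (sq_nonneg _)
  have hmain : ∑ r : ZMod p, (∑ x ∈ (univ : Finset (ZMod p)).filter (fun x => r ∉ Ψ x), N x -
      (1 - ν r / p) * w) ^ 2 ≤
      p * e ^ 2 + (C2 * e ^ 2 + g * D) + c / p * (p * e ^ 2 + c * g * D) + c * g * D := by
    rw [sum_congr rfl fun r _ => by rw [hid r]]
    refine (sum_le_sum fun r _ => hpt r).trans ?_
    rw [sum_add_distrib, sum_add_distrib, sum_add_distrib, ← mul_sum, ← mul_sum, sum_add_distrib, sum_const,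
      card_univ, ZMod.card, nsmul_eq_mul]
    have h1 : c / p * (p * e ^ 2 + ∑ r, Z r ^ 2) ≤ c / p * (p * e ^ 2 + c * g * D) := by
      apply mul_le_mul_of_nonneg_left _ (by positivity)
      linarith
    linarith
  rw [div_le_iff₀ hp0]
  refine hmain.trans ?_
  have e1 : ((1 + (c + C2) / p) * e ^ 2 + (g + (1 + c) * (c * g)) / p * D) * p =
      p * e ^ 2 + (c + C2) * e ^ 2 + (g + (1 + c) * (c * g)) * D := by
    field_simp
  have e2 : c / p * (p * e ^ 2 + c * g * D) = c * e ^ 2 + c * (c * g * D) / p := by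
    field_simp
  have e3 : c * (c * g * D) / p ≤ c * (c * g * D) := div_le_self (by positivity) hp1
  show _ ≤ ((1 + (c + C2) / p) * e ^ 2 + (g + (1 + c) * (c * g)) / p * D) * p
  rw [e1, e2]
  nlinarith

section
variable {F : Finset Nat.Primes} (Ψ : (p : {p // p ∈ F}) → ZMod ((p : Nat.Primes) : ℕ) →
  Finset (ZMod ((p : Nat.Primes) : ℕ)))

/-- the number of survivors in a progression -/
noncomputable def XX (K : Finset {p // p ∈ F}) (M s Q : ℕ)
    (a : (p : {p // p ∈ F}) → ZMod ((p : Nat.Primes) : ℕ)) : ℝ :=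
  (((range M).filter fun t : ℕ => ∀ p ∈ K, a p ∉ Ψ p ((s + Q * t : ℕ) : ZMod ((p : Nat.Primes) : ℕ))).card : ℝ)

/-- the density -/
noncomputable def mK (K : Finset {p // p ∈ F}) (a : (p : {p // p ∈ F}) → ZMod ((p : Nat.Primes) : ℕ)) : ℝ :=
  ∏ p ∈ K, (1 - (((univ : Finset (ZMod ((p : Nat.Primes) : ℕ))).filter fun x => a p ∈ Ψ p x).card : ℝ) /
    (((p : Nat.Primes) : ℕ) : ℝ))

theorem mK_bounds (K : Finset {p // p ∈ F}) (a : (p : {p // p ∈ F}) → ZMod ((p : Nat.Primes) : ℕ)) :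
    0 ≤ mK Ψ K a ∧ mK Ψ K a ≤ 1 := by
  have h : ∀ p ∈ K, 0 ≤ 1 - (((univ : Finset (ZMod ((p : Nat.Primes) : ℕ))).filter fun x => a p ∈ Ψ p x).card : ℝ) /
    (((p : Nat.Primes) : ℕ) : ℝ) ∧ 1 - (((univ : Finset (ZMod ((p : Nat.Primes) : ℕ))).filter fun x => a p ∈ Ψ p x).card : ℝ) /
    (((p : Nat.Primes) : ℕ) : ℝ) ≤ 1 := by
    intro p _
    have hp0 : (0 : ℝ) < (((p : Nat.Primes) : ℕ) : ℝ) := by exact_mod_cast (p : Nat.Primes).2.pos
    have h1 : ((univ : Finset (ZMod ((p : Nat.Primes) : ℕ))).filter fun x => a p ∈ Ψ p x).card ≤ ((p : Nat.Primes) : ℕ) := by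
      refine (card_filter_le _ _).trans ?_
      rw [card_univ, ZMod.card]
    have h2 : (((univ : Finset (ZMod ((p : Nat.Primes) : ℕ))).filter fun x => a p ∈ Ψ p x).card : ℝ) ≤
      (((p : Nat.Primes) : ℕ) : ℝ) := by exact_mod_cast h1
    constructor
    · rw [sub_nonneg, div_le_one hp0]; exact h2
    · have : 0 ≤ (((univ : Finset (ZMod ((p : Nat.Primes) : ℕ))).filter fun x => a p ∈ Ψ p x).card : ℝ) /
        (((p : Nat.Primes) : ℕ) : ℝ) := by positivity
      linarith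
  exact ⟨prod_nonneg fun p hp => (h p hp).1, prod_le_one (fun p hp => (h p hp).1) fun p hp => (h p hp).2⟩

theorem XX_update (K : Finset {p // p ∈ F}) (M s Q : ℕ) (p : {p // p ∈ F}) (hp : p ∉ K)
    (a : (p : {p // p ∈ F}) → ZMod ((p : Nat.Primes) : ℕ)) (r : ZMod ((p : Nat.Primes) : ℕ)) :
    XX Ψ K M s Q (Function.update a p r) = XX Ψ K M s Q a := by
  unfold XX
  congr 2
  refine filter_congr fun t _ => ?_
  refine forall₂_congr fun q hq => ?_
  have : q ≠ p := fun h => hp (h ▸ hq)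
  rw [Function.update_of_ne this]

theorem mK_update (K : Finset {p // p ∈ F}) (p : {p // p ∈ F}) (hp : p ∉ K)
    (a : (p : {p // p ∈ F}) → ZMod ((p : Nat.Primes) : ℕ)) (r : ZMod ((p : Nat.Primes) : ℕ)) :
    mK Ψ K (Function.update a p r) = mK Ψ K a := by
  unfold mK
  refine prod_congr rfl fun q hq => ?_
  have : q ≠ p := fun h => hp (h ▸ hq)
  rw [Function.update_of_ne this]

/-- splitting into classes modulo `p` -/
theorem XX_split (K : Finset {p // p ∈ F}) (M s Q : ℕ) (p : {p // p ∈ F})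
    (a : (p : {p // p ∈ F}) → ZMod ((p : Nat.Primes) : ℕ)) :
    XX Ψ K M s Q a = ∑ x : ZMod ((p : Nat.Primes) : ℕ),
      XX Ψ K (mcl ((p : Nat.Primes) : ℕ) M x) (s + Q * x.val) (Q * ((p : Nat.Primes) : ℕ)) a := by
  classical
  unfold XX
  rw [card_eq_sum_card_fiberwise (f := fun t : ℕ => ((t : ℕ) : ZMod ((p : Nat.Primes) : ℕ)))
    (t := (univ : Finset (ZMod ((p : Nat.Primes) : ℕ)))) (fun _ _ => Finset.mem_coe.mpr (Finset.mem_univ _))]
  push_cast
  refine sum_congr rfl fun x _ => ?_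
  have h := class_count (p := ((p : Nat.Primes) : ℕ)) M x
    (fun t : ℕ => ∀ q ∈ K, a q ∉ Ψ q ((s + Q * t : ℕ) : ZMod ((q : Nat.Primes) : ℕ)))
  have h1 : (((range M).filter fun t : ℕ => ∀ q ∈ K, a q ∉ Ψ q ((s + Q * t : ℕ) : ZMod ((q : Nat.Primes) : ℕ))).filter
      fun t : ℕ => ((t : ℕ) : ZMod ((p : Nat.Primes) : ℕ)) = x) =
      (range M).filter fun t : ℕ => ((t : ℕ) : ZMod ((p : Nat.Primes) : ℕ)) = x ∧
        ∀ q ∈ K, a q ∉ Ψ q ((s + Q * t : ℕ) : ZMod ((q : Nat.Primes) : ℕ)) := by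
    ext t
    simp only [Finset.mem_filter]
    tauto
  push_cast at h h1 ⊢
  rw [h1, h]
  congr 2
  refine filter_congr fun t _ => ?_
  refine forall₂_congr fun q _ => ?_
  have : ((s : ZMod ((q : Nat.Primes) : ℕ)) + Q * ((x.val : ZMod ((q : Nat.Primes) : ℕ)) +
      ((p : Nat.Primes) : ℕ) * (t : ZMod ((q : Nat.Primes) : ℕ)))) =
      (s + Q * (x.val : ZMod ((q : Nat.Primes) : ℕ)) + Q * ((p : Nat.Primes) : ℕ) * (t : ZMod ((q : Nat.Primes) : ℕ))) := by
    ring
  rw [this]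

/-- the constant of the recursion -/
def CC (g c C2 : ℝ) : ℝ := c + C2 + 9 * (g + (1 + c) * (c * g))

theorem var_rec {g c C2 : ℝ} (hg0 : 0 ≤ g) (hc0 : 0 ≤ c) (hC2 : 0 ≤ C2) (K : Finset {p // p ∈ F})
    (hg : ∀ p ∈ K, ∀ x, ((Ψ p x).card : ℝ) ≤ g)
    (hc : ∀ p ∈ K, ∀ r, (((univ : Finset (ZMod ((p : Nat.Primes) : ℕ))).filter fun x => r ∈ Ψ p x).card : ℝ) ≤ c)
    (hC : ∀ p ∈ K, ∑ x, (g - (Ψ p x).card) ≤ C2) (M s Q : ℕ) (hQ : ∀ p ∈ K, ¬ ((p : Nat.Primes) : ℕ) ∣ Q) :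
    avg (fun a => (XX Ψ K M s Q a - M * mK Ψ K a) ^ 2) ≤
      (∏ p ∈ K, (1 + CC g c C2 / (((p : Nat.Primes) : ℕ) : ℝ))) * M := by
  classical
  induction K using Finset.induction_on generalizing M s Q with
  | empty =>
    have h : (fun a : (p : {p // p ∈ F}) → ZMod ((p : Nat.Primes) : ℕ) =>
        (XX Ψ ∅ M s Q a - M * mK Ψ ∅ a) ^ 2) = fun _ => (0 : ℝ) := by
      funext a
      simp [XX, mK]
    rw [h, avg_const, prod_empty, one_mul]
    exact Nat.cast_nonneg _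
  | insert p K hpK ih =>
    have hCC0 : 0 ≤ CC g c C2 := by unfold CC; positivity
    have hp0 : (0 : ℝ) < (((p : Nat.Primes) : ℕ) : ℝ) := by exact_mod_cast (p : Nat.Primes).2.pos
    have hp1 : (1 : ℝ) ≤ (((p : Nat.Primes) : ℕ) : ℝ) := by exact_mod_cast (p : Nat.Primes).2.one_lt.le
    set B : ℝ := ∏ p ∈ K, (1 + CC g c C2 / (((p : Nat.Primes) : ℕ) : ℝ)) with hB
    have hB1 : 1 ≤ B := by
      rw [hB]
      calc (1 : ℝ) = ∏ _q ∈ K, (1 : ℝ) := by rw [prod_const_one]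
        _ ≤ _ := prod_le_prod (fun _ _ => zero_le_one) fun q _ => by
          have : 0 ≤ CC g c C2 / (((q : Nat.Primes) : ℕ) : ℝ) := by positivity
          linarith
    have ih' := ih (fun q hq => hg q (mem_insert_of_mem hq)) (fun q hq => hc q (mem_insert_of_mem hq))
      (fun q hq => hC q (mem_insert_of_mem hq))
    have hpQ : ¬ ((p : Nat.Primes) : ℕ) ∣ Q := hQ p (mem_insert_self _ _)
    have hQ0 : ((Q : ℕ) : ZMod ((p : Nat.Primes) : ℕ)) ≠ 0 := unit_of_not_dvd hpQ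
    -- the affine bijection
    set Ψ' : ZMod ((p : Nat.Primes) : ℕ) → Finset (ZMod ((p : Nat.Primes) : ℕ)) := fun x =>
      Ψ p ((s : ZMod ((p : Nat.Primes) : ℕ)) + (Q : ZMod ((p : Nat.Primes) : ℕ)) * x) with hΨ'
    set aff : ZMod ((p : Nat.Primes) : ℕ) ≃ ZMod ((p : Nat.Primes) : ℕ) :=
      { toFun := fun x => (s : ZMod ((p : Nat.Primes) : ℕ)) + (Q : ZMod ((p : Nat.Primes) : ℕ)) * x
        invFun := fun y => (y - (s : ZMod ((p : Nat.Primes) : ℕ))) / (Q : ZMod ((p : Nat.Primes) : ℕ))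
        left_inv := fun x => by field_simp; ring
        right_inv := fun y => by field_simp; ring } with haff
    have hν : ∀ r, ((univ : Finset (ZMod ((p : Nat.Primes) : ℕ))).filter fun x => r ∈ Ψ' x).card =
        ((univ : Finset (ZMod ((p : Nat.Primes) : ℕ))).filter fun x => r ∈ Ψ p x).card := by
      intro r
      refine card_bij (fun x _ => aff x) ?_ ?_ ?_
      · intro x hx
        rw [Finset.mem_filter] at hx ⊢
        exact ⟨Finset.mem_univ _, hx.2⟩
      · intro x _ y _ h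
        exact aff.injective h
      · intro y hy
        rw [Finset.mem_filter] at hy
        refine ⟨aff.symm y, ?_, aff.apply_symm_apply y⟩
        rw [Finset.mem_filter]
        refine ⟨Finset.mem_univ _, ?_⟩
        show r ∈ Ψ p (aff (aff.symm y))
        rw [aff.apply_symm_apply]
        exact hy.2
    have hC' : ∑ x, (g - ((Ψ' x).card : ℝ)) ≤ C2 := by
      refine le_trans (le_of_eq ?_) (hC p (mem_insert_self _ _))
      exact Equiv.sum_comp aff (fun y => g - ((Ψ p y).card : ℝ))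
    -- the counts in the classes
    set Nx : ZMod ((p : Nat.Primes) : ℕ) → ((p : {p // p ∈ F}) → ZMod ((p : Nat.Primes) : ℕ)) → ℝ := fun x a =>
      XX Ψ K (mcl ((p : Nat.Primes) : ℕ) M x) (s + Q * x.val) (Q * ((p : Nat.Primes) : ℕ)) a with hNx
    have hNxu : ∀ x a r, Nx x (Function.update a p r) = Nx x a := fun x a r => XX_update Ψ K _ _ _ p hpK a r
    set e : ((p : {p // p ∈ F}) → ZMod ((p : Nat.Primes) : ℕ)) → ℝ := fun a =>
      XX Ψ K M s Q a - M * mK Ψ K a with he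
    have hSx : ∀ a, ∑ x, Nx x a = M * mK Ψ K a + e a := by
      intro a
      have := XX_split Ψ K M s Q p a
      simp only [he]
      rw [this]
      simp only [hNx]
      ring
    have hXins : ∀ a, XX Ψ (insert p K) M s Q a =
        ∑ x ∈ (univ : Finset (ZMod ((p : Nat.Primes) : ℕ))).filter (fun x => a p ∉ Ψ' x), Nx x a := by
      intro a
      rw [XX_split Ψ (insert p K) M s Q p a, sum_filter]
      refine sum_congr rfl fun x _ => ?_
      have hcast : ∀ t : ℕ, ((s + Q * x.val + Q * ((p : Nat.Primes) : ℕ) * t : ℕ) : ZMod ((p : Nat.Primes) : ℕ)) =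
          (s : ZMod ((p : Nat.Primes) : ℕ)) + (Q : ZMod ((p : Nat.Primes) : ℕ)) * x := by
        intro t
        push_cast
        rw [ZMod.natCast_val, ZMod.cast_id', id, ZMod.natCast_self]
        ring
      by_cases h : a p ∈ Ψ' x
      · rw [if_neg (not_not.mpr h)]
        unfold XX
        rw [Nat.cast_eq_zero, card_eq_zero]
        apply eq_empty_of_forall_notMem
        intro t ht
        rw [Finset.mem_filter] at ht
        have h1 := ht.2 p (mem_insert_self _ _)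
        rw [hcast t] at h1
        exact h1 h
      · rw [if_pos h]
        show XX Ψ (insert p K) (mcl ((p : Nat.Primes) : ℕ) M x) (s + Q * x.val) (Q * ((p : Nat.Primes) : ℕ)) a =
          XX Ψ K (mcl ((p : Nat.Primes) : ℕ) M x) (s + Q * x.val) (Q * ((p : Nat.Primes) : ℕ)) a
        unfold XX
        congr 2
        refine filter_congr fun t _ => ?_
        rw [forall_mem_insert, hcast t]
        constructor
        · exact fun h1 => h1.2
        · exact fun h1 => ⟨h, h1⟩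
    have hmins : ∀ a, mK Ψ (insert p K) a =
        (1 - (((univ : Finset (ZMod ((p : Nat.Primes) : ℕ))).filter fun x => a p ∈ Ψ' x).card : ℝ) /
          (((p : Nat.Primes) : ℕ) : ℝ)) * mK Ψ K a := by
      intro a
      unfold mK
      rw [prod_insert hpK, hν]
    -- the average over the coordinate p
    have hmm : ∀ a, mm p (fun a => (XX Ψ (insert p K) M s Q a - M * mK Ψ (insert p K) a) ^ 2) a ≤
        (1 + (c + C2) / (((p : Nat.Primes) : ℕ) : ℝ)) * e a ^ 2 +
          (g + (1 + c) * (c * g)) / (((p : Nat.Primes) : ℕ) : ℝ) *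
            ∑ x, (Nx x a - (∑ y, Nx y a) / (((p : Nat.Primes) : ℕ) : ℝ)) ^ 2 := by
      intro a
      have h1 := step1 Ψ' hg0 hc0 (fun x => hg p (mem_insert_self _ _) _)
        (fun r => by rw [hν]; exact hc p (mem_insert_self _ _) r) hC' (fun x => Nx x a) (M * mK Ψ K a) (e a) (hSx a)
      refine le_trans (le_of_eq ?_) h1
      unfold mm
      rw [ZMod.card]
      congr 1
      refine sum_congr rfl fun r _ => ?_
      simp only
      rw [hXins, hmins, mK_update Ψ K p hpK a r]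
      simp only [Function.update_self, hNxu]
      congr 1
      ring
    rw [← avg_mm p]
    refine (avg_mono hmm).trans ?_
    -- the averages
    have havge : avg (fun a => e a ^ 2) ≤ B * M := ih' M s Q fun q hq => hQ q (mem_insert_of_mem hq)
    have hcop : ∀ q ∈ K, ¬ ((q : Nat.Primes) : ℕ) ∣ Q * ((p : Nat.Primes) : ℕ) := by
      intro q hq hdvd
      rcases (q : Nat.Primes).2.dvd_mul.mp hdvd with h | h
      · exact hQ q (mem_insert_of_mem hq) h
      · have h1 := (Nat.prime_dvd_prime_iff_eq (q : Nat.Primes).2 (p : Nat.Primes).2).mp h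
        have h2 : q = p := Subtype.ext (Subtype.ext h1)
        exact hpK (h2 ▸ hq)
    set mx : ZMod ((p : Nat.Primes) : ℕ) → ℝ := fun x => (mcl ((p : Nat.Primes) : ℕ) M x : ℝ) with hmx
    obtain ⟨hms1, hms2⟩ := mcl_sum (p := ((p : Nat.Primes) : ℕ)) M
    have havgx : ∀ x, avg (fun a => (Nx x a - mx x * mK Ψ K a) ^ 2) ≤ B * mx x := fun x => ih' _ _ _ hcop
    have hΔ : ∀ x a, (Nx x a - (∑ y, Nx y a) / (((p : Nat.Primes) : ℕ) : ℝ)) ^ 2 ≤
        3 * ((Nx x a - mx x * mK Ψ K a) ^ 2 + 1 / (((p : Nat.Primes) : ℕ) : ℝ) ^ 2 * e a ^ 2 +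
          (mx x - M / (((p : Nat.Primes) : ℕ) : ℝ)) ^ 2) := by
      intro x a
      obtain ⟨m0, m1⟩ := mK_bounds Ψ K a
      rw [hSx a]
      have h1 : Nx x a - (M * mK Ψ K a + e a) / (((p : Nat.Primes) : ℕ) : ℝ) =
          (Nx x a - mx x * mK Ψ K a) + (-(e a / (((p : Nat.Primes) : ℕ) : ℝ))) +
            (mx x - M / (((p : Nat.Primes) : ℕ) : ℝ)) * mK Ψ K a := by ring
      rw [h1]
      have h2 : ∀ u v w : ℝ, (u + v + w) ^ 2 ≤ 3 * (u ^ 2 + v ^ 2 + w ^ 2) := by
        intro u v w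
        nlinarith [sq_nonneg (u - v), sq_nonneg (v - w), sq_nonneg (u - w)]
      refine (h2 _ _ _).trans ?_
      apply mul_le_mul_of_nonneg_left _ (by norm_num)
      have h3 : (-(e a / (((p : Nat.Primes) : ℕ) : ℝ))) ^ 2 = 1 / (((p : Nat.Primes) : ℕ) : ℝ) ^ 2 * e a ^ 2 := by
        rw [neg_sq, div_pow]; ring
      have h4 : ((mx x - M / (((p : Nat.Primes) : ℕ) : ℝ)) * mK Ψ K a) ^ 2 ≤
          (mx x - M / (((p : Nat.Primes) : ℕ) : ℝ)) ^ 2 := by
        rw [mul_pow]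
        have : mK Ψ K a ^ 2 ≤ 1 := by nlinarith
        nlinarith [sq_nonneg (mx x - M / (((p : Nat.Primes) : ℕ) : ℝ))]
      rw [h3]
      linarith
    -- bookkeeping of averages
    set G0 : ℝ := g + (1 + c) * (c * g) with hG0
    have hG00 : 0 ≤ G0 := by positivity
    set P : ℝ := (((p : Nat.Primes) : ℕ) : ℝ) with hP
    have hbound : ∀ a, (1 + (c + C2) / P) * e a ^ 2 + G0 / P * ∑ x, (Nx x a - (∑ y, Nx y a) / P) ^ 2 ≤
        (1 + (c + C2) / P + G0 / P * (3 / P)) * e a ^ 2 + G0 / P * 3 * ∑ x, (Nx x a - mx x * mK Ψ K a) ^ 2 +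
          G0 / P * 3 * M := by
      intro a
      have h1 : ∑ x, (Nx x a - (∑ y, Nx y a) / P) ^ 2 ≤
          3 * (∑ x, (Nx x a - mx x * mK Ψ K a) ^ 2 + 1 / P * e a ^ 2 + M) := by
        refine (sum_le_sum fun x _ => hΔ x a).trans ?_
        rw [← mul_sum]
        apply mul_le_mul_of_nonneg_left _ (by norm_num)
        rw [sum_add_distrib, sum_add_distrib, sum_const, card_univ, ZMod.card, nsmul_eq_mul]
        have h5 : P * (1 / P ^ 2 * e a ^ 2) = 1 / P * e a ^ 2 := by field_simp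
        rw [h5]
        linarith
      have h2 := mul_le_mul_of_nonneg_left h1 (by positivity : 0 ≤ G0 / P)
      have h3 : G0 / P * (3 * (∑ x, (Nx x a - mx x * mK Ψ K a) ^ 2 + 1 / P * e a ^ 2 + M)) =
          G0 / P * (3 / P) * e a ^ 2 + G0 / P * 3 * ∑ x, (Nx x a - mx x * mK Ψ K a) ^ 2 + G0 / P * 3 * M := by
        ring
      rw [h3] at h2
      linarith
    refine (avg_mono hbound).trans ?_
    have hlin : avg (fun a => (1 + (c + C2) / P + G0 / P * (3 / P)) * e a ^ 2 +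
        G0 / P * 3 * ∑ x, (Nx x a - mx x * mK Ψ K a) ^ 2 + G0 / P * 3 * M) =
        (1 + (c + C2) / P + G0 / P * (3 / P)) * avg (fun a => e a ^ 2) +
          G0 / P * 3 * ∑ x, avg (fun a => (Nx x a - mx x * mK Ψ K a) ^ 2) + G0 / P * 3 * M := by
      unfold avg
      rw [sum_add_distrib, sum_add_distrib, ← mul_sum, ← mul_sum, sum_const, card_univ, nsmul_eq_mul,
        sum_comm, ← sum_div]
      have := (card_pos' (α := fun p : {p // p ∈ F} => ZMod ((p : Nat.Primes) : ℕ))).ne'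
      field_simp
    rw [hlin]
    have hsumx : ∑ x, avg (fun a => (Nx x a - mx x * mK Ψ K a) ^ 2) ≤ B * M := by
      refine (sum_le_sum fun x _ => havgx x).trans ?_
      rw [← mul_sum]
      exact mul_le_mul_of_nonneg_left hms1.le (by linarith)
    have hM0 : (0 : ℝ) ≤ M := Nat.cast_nonneg _
    have hBM : (M : ℝ) ≤ B * M := le_mul_of_one_le_left hM0 hB1
    have f1 : (1 + (c + C2) / P + G0 / P * (3 / P)) * avg (fun a => e a ^ 2) ≤
        (1 + (c + C2) / P + G0 / P * 3) * (B * M) := by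
      apply mul_le_mul _ havge (avg_nonneg fun a => sq_nonneg _) (by positivity)
      have : G0 / P * (3 / P) ≤ G0 / P * 3 :=
        mul_le_mul_of_nonneg_left (div_le_self (by norm_num) hp1) (by positivity)
      linarith
    have f2 : G0 / P * 3 * ∑ x, avg (fun a => (Nx x a - mx x * mK Ψ K a) ^ 2) ≤ G0 / P * 3 * (B * M) :=
      mul_le_mul_of_nonneg_left hsumx (by positivity)
    have f3 : G0 / P * 3 * M ≤ G0 / P * 3 * (B * M) := mul_le_mul_of_nonneg_left hBM (by positivity)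
    rw [prod_insert hpK, ← hB]
    have f4 : (1 + CC g c C2 / P) * B * M = (1 + (c + C2) / P + G0 / P * 3) * (B * M) + G0 / P * 3 * (B * M) +
        G0 / P * 3 * (B * M) := by
      unfold CC
      rw [← hG0]
      ring
    rw [f4]
    linarith

end

end Pool.Agent.W2helper64.BQ
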