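import Pool.Agent.W2helper64.BH.Final

set_option autoImplicit false
set_option linter.unusedSectionVars false

/-!
Counting in residue classes of an arithmetic progression.
-/

namespace Pool.Agent.W2helper64.BQ

open Finset Filter Topology Polynomial MeasureTheory Pool.Agent.W2helper64.RS Pool.Agent.W2helper64.RK
open Pool.Agent.W2helper64.BH

/-- the number of `t < M` with `t = x` in `ZMod p` -/
def mcl (p M : ℕ) (x : ZMod p) : ℕ := M / p + if x.val < M % p then 1 else 0

theorem lt_mcl {p M τ t : ℕ} (hp : 0 < p) (hτ : τ < p) :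
    t < M / p + (if τ < M % p then 1 else 0) ↔ τ + p * t < M := by
  have hM := Nat.div_add_mod M p
  have hr := Nat.mod_lt M hp
  set q := M / p
  set r := M % p
  rw [← hM]
  constructor
  · intro h
    split_ifs at h with h1
    · rcases Nat.lt_succ_iff_lt_or_eq.mp h with h2 | h2
      · have : p * (t + 1) ≤ p * q := Nat.mul_le_mul_left p h2
        rw [Nat.mul_add, Nat.mul_one] at this
        omega
      · rw [h2]; omega
    · have : p * (t + 1) ≤ p * q := Nat.mul_le_mul_left p h
      rw [Nat.mul_add, Nat.mul_one] at this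
      omega
  · intro h
    by_contra hcon
    rw [not_lt] at hcon
    split_ifs at hcon with h1
    · have : p * (q + 1) ≤ p * t := Nat.mul_le_mul_left p hcon
      rw [Nat.mul_add, Nat.mul_one] at this
      omega
    · rw [Nat.add_zero] at hcon
      have : p * q ≤ p * t := Nat.mul_le_mul_left p hcon
      omega

theorem class_count {p : ℕ} [NeZero p] (M : ℕ) (x : ZMod p) (P : ℕ → Prop) [DecidablePred P] :
    ((range M).filter fun t => ((t : ℕ) : ZMod p) = x ∧ P t).card =
      ((range (mcl p M x)).filter fun t => P (x.val + p * t)).card := by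
  have hp : 0 < p := Nat.pos_of_ne_zero (NeZero.ne p)
  symm
  refine card_bij (fun t _ => x.val + p * t) ?_ ?_ ?_
  · intro t ht
    rw [Finset.mem_filter, mem_range] at ht ⊢
    refine ⟨(lt_mcl hp (ZMod.val_lt x)).mp ht.1, ?_, ht.2⟩
    push_cast
    rw [ZMod.natCast_val, ZMod.cast_id', id, ZMod.natCast_self, zero_mul, add_zero]
  · intro t _ s _ h
    have h' : x.val + p * t = x.val + p * s := h
    exact Nat.eq_of_mul_eq_mul_left hp (by omega)
  · intro t ht
    rw [Finset.mem_filter, mem_range] at ht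
    obtain ⟨h1, h2, h3⟩ := ht
    have h4 : x.val = t % p := by
      rw [← h2, ZMod.val_natCast]
    have h5 := Nat.mod_add_div t p
    refine ⟨t / p, ?_, ?_⟩
    · rw [Finset.mem_filter, mem_range]
      refine ⟨(lt_mcl hp (ZMod.val_lt x)).mpr ?_, ?_⟩
      · rw [h4, h5]; exact h1
      · rw [h4, h5]; exact h3
    · rw [h4, h5]

theorem sum_val {p : ℕ} [NeZero p] (h : ℕ → ℝ) : ∑ x : ZMod p, h x.val = ∑ τ ∈ range p, h τ := by
  refine sum_bij' (fun x _ => x.val) (fun τ _ => ((τ : ℕ) : ZMod p)) ?_ ?_ ?_ ?_ ?_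
  · intro x _
    exact mem_range.mpr (ZMod.val_lt x)
  · intro τ _
    exact Finset.mem_univ _
  · intro x _
    rw [ZMod.natCast_val, ZMod.cast_id', id]
  · intro τ hτ
    rw [mem_range] at hτ
    rw [ZMod.val_natCast, Nat.mod_eq_of_lt hτ]
  · intro x _
    rfl

theorem mcl_sum {p : ℕ} [NeZero p] (M : ℕ) : ∑ x : ZMod p, (mcl p M x : ℝ) = M ∧
    ∑ x : ZMod p, ((mcl p M x : ℝ) - M / p) ^ 2 ≤ M := by
  have hp : 0 < p := Nat.pos_of_ne_zero (NeZero.ne p)
  have hp0 : (0 : ℝ) < p := by exact_mod_cast hp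
  have hM := Nat.div_add_mod M p
  have hr := Nat.mod_lt M hp
  set q := M / p with hq
  set r := M % p with hrd
  have hMr : (M : ℝ) = p * q + r := by exact_mod_cast hM.symm
  have hrp : (r : ℝ) < p := by exact_mod_cast hr
  have hr0 : (0 : ℝ) ≤ r := Nat.cast_nonneg _
  have hq0 : (0 : ℝ) ≤ q := Nat.cast_nonneg _
  have hs : ∀ c1 c2 : ℝ, ∑ τ ∈ range p, (if τ < r then c1 else c2) = r * c1 + (p - r) * c2 := by
    intro c1 c2
    rw [sum_ite, sum_const, sum_const, nsmul_eq_mul, nsmul_eq_mul]
    have e1 : (range p).filter (fun τ => τ < r) = range r := by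
      ext τ; rw [Finset.mem_filter, mem_range, mem_range]; omega
    have e2 : ((range p).filter (fun τ => ¬ τ < r)).card = p - r := by
      have := card_filter_add_card_filter_not (s := range p) (fun τ => τ < r)
      rw [e1, card_range, card_range] at this
      omega
    rw [e1, e2, card_range, Nat.cast_sub hr.le]
  constructor
  · have h1 : ∀ x : ZMod p, (mcl p M x : ℝ) = (fun τ : ℕ => if τ < r then ((q : ℝ) + 1) else q) x.val := by
      intro x
      unfold mcl
      rw [← hq, ← hrd]
      push_cast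
      split_ifs <;> ring
    have h2 := sum_val (p := p) (fun τ : ℕ => if τ < r then ((q : ℝ) + 1) else q)
    rw [sum_congr rfl fun x _ => h1 x, h2, hs, hMr]
    ring
  · have h1 : ∀ x : ZMod p, ((mcl p M x : ℝ) - M / p) ^ 2 =
        (fun τ : ℕ => if τ < r then ((1 : ℝ) - r / p) ^ 2 else (r / p) ^ 2) x.val := by
      intro x
      have h2 : (M : ℝ) / p = q + r / p := by rw [hMr]; field_simp
      unfold mcl
      rw [← hq, ← hrd, h2]
      push_cast
      split_ifs <;> ring
    have h2 := sum_val (p := p) (fun τ : ℕ => if τ < r then ((1 : ℝ) - r / p) ^ 2 else (r / p) ^ 2)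
    rw [sum_congr rfl fun x _ => h1 x, h2, hs]
    have h3 : (r : ℝ) * (1 - r / p) ^ 2 + (p - r) * (r / p) ^ 2 = r - r * (r / p) := by
      field_simp
      ring
    rw [h3, hMr]
    have : 0 ≤ (r : ℝ) * (r / p) := by positivity
    have : 0 ≤ (p : ℝ) * q := by positivity
    linarith

end Pool.Agent.W2helper64.BQ
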